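import Mathlib.Analysis.SpecialFunctions.Complex.CircleAddChar
import Mathlib.RingTheory.MvPolynomial.Symmetric.NewtonIdentities
import Pool.Agent.MP_a43263_nt.VE.Fin
import Pool.Agent.MP_a43263_nt.VW.Red
import Pool.Agent.MP_a43263_nt.VD.All
import Pool.Agent.MP_a43263_nt.VH.All

-- ======== part 0: formerly Pool.Agent.MP_a43263_nt.W1.SpecA
section MrgPart0

/-! THEOREM W, analytic part: definitions and statements. Note: `/team-store/W1_BLUEPRINT.md`. -/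

set_option autoImplicit false

noncomputable section

namespace Pool.Agent.MP_a43263_nt.W1

open Polynomial Finset Filter

/-- the polynomial with the coefficients `c` -/
def fm {R : Type} [CommRing R] {n : ℕ} (c : Fin n → R) : R[X] := ∑ i, C (c i) * X ^ i.1

abbrev Vec (g : ℕ) : Type := Fin (2 * g + 3) → ℤ

/-- the value at an integer -/
def val {g : ℕ} (c : Vec g) (x : ℤ) : ℤ := (fm c).eval x

/-- the centre of the box, up to sign -/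
def ce (k i : ℕ) : ℤ := (if Even i then 7 else 0) * (k : ℤ)

/-- the box -/
def bx (g k : ℕ) : Finset (Vec g) :=
  Fintype.piFinset fun i => Icc (-ce k i.1 - k) (-ce k i.1 + k)

/-- the boundary term -/
def bd (g k R : ℕ) : ℝ := 4 * (2 * g + 3) * R * (2 * k + 1) ^ (2 * g + 2)

open Classical in
/-- indicator -/
def ind (P : Prop) : ℝ := if P then 1 else 0

/-- good primes: one root and an irreducible factor of degree `2 g + 1` -/
def Gd (g p : ℕ) (f : ℤ[X]) : Prop := ∃ (a : ZMod p) (h : (ZMod p)[X]),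
  f.map (Int.castRingHom (ZMod p)) = (X - C a) * h ∧ Irreducible h ∧ h.natDegree = 2 * g + 1

/-- irreducible of full degree -/
def Ir {m p : ℕ} (s : ZMod p) (z : Fin m → ZMod p) : Prop :=
  Irreducible (C s + X * fm z) ∧ (C s + X * fm z).natDegree = m

/-- the density of the good type -/
def kap (g p : ℕ) : ℝ := ({z : Fin (2 * g + 1) → ZMod p | Ir 1 z}.ncard : ℝ) / (p : ℝ) ^ (2 * g + 1)

def phi (g p : ℕ) (c : Vec g) : ℝ := ind (Gd g p (fm c))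

/-- the primes in `(a, b]` -/
def pr (a b : ℕ) : Finset ℕ := (Ioc a b).filter Nat.Prime

def quad (t : ℕ) : Finset (Finset ℕ) := powersetCard 4 (pr (t ^ 8) (2 * t ^ 8))

/-- the weight on products of five primes -/
def lam (t : ℕ) (u : ℤ) : ℝ := ∑ s ∈ quad t, ∑ r ∈ pr (2 * t ^ 8) (t ^ 10),
  if (((∏ x ∈ s, x) * r : ℕ) : ℤ) = u then Real.log r else 0

def sig (t : ℕ) : ℝ := ∑ s ∈ quad t, 1 / ∏ x ∈ s, (x : ℝ)

def ph (q : ℕ) : ℝ := (q : ℝ) / q.totient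

/-- the number of points -/
def nl (t : ℕ) : ℕ := ⌊Real.log t ^ 6⌋₊

/-- the points -/
def pt (M a j : ℕ) : ℤ := a + (M : ℤ) ^ 3 * j

/-- the cofactor -/
def uu {g : ℕ} (d : ℕ) (c : Vec g) (x : ℤ) : ℤ := -(val c x / d)

def la {g : ℕ} (t d : ℕ) (c : Vec g) (x : ℤ) : ℝ := lam t (uu d c x)

/-- the prime factors of the cofactor -/
def pf {g : ℕ} (d : ℕ) (c : Vec g) (x : ℤ) : Finset ℕ := (uu d c x).natAbs.primeFactors

/-- an admissible class -/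
structure Dat (g M d a : ℕ) (P : Vec g → Prop) : Prop where
  pos : 0 < M
  dvd : d ∣ M
  inv : ∀ c e : Vec g, (∀ i, (M : ℤ) ^ 3 ∣ e i) → (P (c + e) ↔ P c)
  adm : ∀ c, P c → (d : ℤ) ∣ val c a ∧ IsCoprime (val c a / d) (M : ℤ)

/-- the scales -/
def Rel (t k : ℕ) : Prop := t ^ 41 ≤ k ∧ k ≤ 2 ^ 41 * t ^ 41

def cnt (g k : ℕ) (P : Vec g → Prop) : ℝ := ∑ c ∈ bx g k, ind (P c)

def XX {g : ℕ} (t M d a : ℕ) (c : Vec g) : ℝ := ∑ j ∈ range (nl t), la t d c (pt M a j)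

def ZZ {g : ℕ} (t M d a : ℕ) (c : Vec g) : ℝ := ∑ j ∈ range (nl t), la t d c (pt M a j) *
  (∏ r ∈ pf d c (pt M a j), phi g r c - ∏ r ∈ pf d c (pt M a j), kap g r)

/-- the expected value of `XX` -/
def mu (t M : ℕ) : ℝ := nl t * (sig t * ph M)

/-- a good point -/
def Gp (g M d : ℕ) (f : ℤ[X]) (x : ℤ) : Prop := ∃ u : ℕ, 1 < u ∧ Squarefree u ∧
  f.eval x = -((d : ℤ) * u) ∧ ∀ r : ℕ, r.Prime → r ∣ u → ¬r ∣ M ∧ Gd g r f

/-- the shifts that keep the values at `x` and `x'` -/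
def sh (g : ℕ) (x x' : ℤ) (y : Fin (2 * g + 1) → ℤ) : Vec g :=
  fun i => ((X - C x) * (X - C x') * (fm y).comp (X - C x')).coeff i.1

/-- functions of the class modulo `N` and of the values at `x` and `x'` -/
def Inv {g : ℕ} {α : Type} (N : ℕ) (x x' : ℤ) (F : Vec g → α) : Prop :=
  ∀ c e : Vec g, (∀ i, (N : ℤ) ∣ e i) → val e x = 0 → val e x' = 0 → F (c + e) = F c

/-- a prime that divides exactly one of the two values -/
def One {g : ℕ} (r₀ W N : ℕ) (x x' : ℤ) (c : Vec g) (r : ℕ) : Prop :=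
  r.Prime ∧ r₀ ≤ r ∧ r ≤ W ∧ ¬r ∣ N ∧ ((r : ℤ) ∣ val c x ↔ ¬(r : ℤ) ∣ val c x')

/-- the size of the shifts -/
def Sz (g N R W : ℕ) (x x' : ℤ) : Prop :=
  3 * N * (2 * g + 1) * (W : ℤ) ^ 4 * ((1 + |x|) * (1 + |x'|)) ^ (2 * g + 1) ≤ R

/-- the sum over the cubes of dimension three -/
def U3 {V : Type} [AddCommGroup V] [Fintype V] (ψ : V → ℝ) : ℝ :=
  ∑ x, ∑ a, ∑ b, ∑ c, ψ x * ψ (x + a) * ψ (x + b) * ψ (x + a + b) *
    (ψ (x + c) * ψ (x + a + c) * ψ (x + b + c) * ψ (x + a + b + c))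

/-- bounded, of mean zero, invariant under the torus -/
structure Tor {m r : ℕ} [NeZero r] (ψ : (Fin m → ZMod r) → ℝ) : Prop where
  bdd : ∀ z, |ψ z| ≤ 1
  zero : ∑ z, ψ z = 0
  inv : ∀ (a : (ZMod r)ˣ) (z : Fin m → ZMod r), ψ (fun i => (a : ZMod r) ^ (i.1 + 1) * z i) = ψ z

/-- vectors of residues -/
def cube (m r : ℕ) : Finset (Fin m → ℕ) := Fintype.piFinset fun _ => range r

/-! ### statements -/

/-- Siegel-Walfisz (proved as `R2.sw`) -/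
def SWStmt : Prop := ∀ A B : ℕ, ∀ᶠ x : ℝ in atTop, ∀ (y : ℝ) (q a : ℕ), 0 ≤ y → y ≤ x → 1 ≤ q →
  (q : ℝ) ≤ Real.log x ^ B → a.Coprime q →
  |∑ p ∈ (pr 0 ⌊y⌋₊).filter (fun p => p ≡ a [MOD q]), Real.log p - y / q.totient| ≤
    x / Real.log x ^ A

/-- the shift lemma -/
def SHStmt : Prop := ∀ (g k R : ℕ) (J : Type) (T : Vec g → Finset J) (h : Vec g → J → Vec g)
  (F : Vec g → ℝ) (B : ℝ), (∀ c, (T c).Nonempty) →
  (∀ c, ∀ ω ∈ T c, (∀ i, |h c ω i| ≤ R) ∧ T (c + h c ω) = T c ∧ h (c + h c ω) = h c) →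
  (∀ c, |F c| ≤ B) →
  |∑ c ∈ bx g k, (∑ ω ∈ T c, F (c + h c ω)) / (T c).card - ∑ c ∈ bx g k, F c| ≤ B * bd g k R

/-- the box: size, values, admissible classes -/
def GEOStmt : Prop := (∀ g k : ℕ, (bx g k).card = (2 * k + 1) ^ (2 * g + 3)) ∧
  (∀ (g : ℕ) (c e : Vec g) (x : ℤ), val (c + e) x = val c x + val e x) ∧
  (∀ (g : ℕ) (c : Vec g) (x : ℤ), val c x = ∑ i, c i * x ^ i.1) ∧
  (∀ (g k : ℕ) (c : Vec g) (x : ℤ), c ∈ bx g k → 0 ≤ x →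
    5 * (k : ℤ) ≤ -val c x ∧ -val c x ≤ 8 * k * (2 * g + 3) * (1 + x) ^ (2 * g + 2)) ∧
  ∀ (g M d a : ℕ) (P : Vec g → Prop), Dat g M d a P → ∀ (c : Vec g) (j : ℕ), P c →
    0 < d ∧ val c (pt M a j) = -((d : ℤ) * uu d c (pt M a j)) ∧
      IsCoprime (uu d c (pt M a j)) (M : ℤ)

def LAMStmt : Prop := ∀ (t : ℕ) (u : ℤ), 2 ≤ t → 0 ≤ lam t u ∧ lam t u ≤ 10 * Real.log t ∧
  (lam t u ≠ 0 → 1 < u ∧ Squarefree u.natAbs ∧ u.natAbs.primeFactors.card = 5 ∧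
    ∀ r ∈ u.natAbs.primeFactors, t ^ 8 < r ∧ r ≤ t ^ 10)

def SIGStmt : Prop := ∃ c : ℝ, 0 < c ∧ ∀ᶠ t : ℕ in atTop,
  c / Real.log t ^ 4 ≤ sig t ∧ sig t ≤ 1

/-- the weight along progressions -/
def APLStmt : Prop := ∀ A B E : ℕ, ∀ᶠ t : ℕ in atTop, ∀ (u : ℤ) (q R : ℕ), 1 ≤ q →
  (q : ℝ) ≤ Real.log t ^ B → IsCoprime u (q : ℤ) → 64 * (t : ℤ) ^ 40 ≤ u →
  (u : ℝ) + R * q ≤ (t : ℝ) ^ 41 * Real.log t ^ E →
  |∑ i ∈ range R, lam t (u + i * q) - R * (sig t * ph q)| ≤ (t : ℝ) ^ 41 / Real.log t ^ A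

def PHIStmt : Prop := (∀ q : ℕ, 0 < q → 1 ≤ ph q ∧ ph q ≤ q) ∧
  (∀ q q' : ℕ, 0 < q → 0 < q' → q.primeFactors = q'.primeFactors → ph q = ph q') ∧
  ∀ z M L : ℕ, 1 ≤ z → 0 < M → (∀ p : ℕ, p.Prime → p ≤ z → p ∣ M) →
    ∑ j ∈ range L, ∑ j' ∈ (range L).erase j, ph (M * ((j : ℤ) - j').natAbs) ≤
      (L : ℝ) ^ 2 * (ph M * (1 + 2 / z))

/-- the first moment -/
def M1Stmt : Prop := ∀ (g M d a : ℕ) (P : Vec g → Prop), Dat g M d a P → ∀ A : ℕ,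
  ∀ᶠ t : ℕ in atTop, ∀ k : ℕ, Rel t k → ∀ j ∈ range (nl t),
    |∑ c ∈ bx g k, ind (P c) * la t d c (pt M a j) - sig t * ph M * cnt g k P| ≤
      (k : ℝ) ^ (2 * g + 3) / Real.log t ^ A

/-- the second moment -/
def M2Stmt : Prop := ∀ (g M d a : ℕ) (P : Vec g → Prop), Dat g M d a P → ∀ A : ℕ,
  ∀ᶠ t : ℕ in atTop, ∀ k : ℕ, Rel t k → ∀ j ∈ range (nl t), ∀ j' ∈ range (nl t), j ≠ j' →
    ∑ c ∈ bx g k, ind (P c) * (la t d c (pt M a j) * la t d c (pt M a j')) ≤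
      sig t * ph (M * ((j : ℤ) - j').natAbs) * ∑ c ∈ bx g k, ind (P c) * la t d c (pt M a j') +
        (k : ℝ) ^ (2 * g + 3) / Real.log t ^ A

/-- common prime factors are rare -/
def COPStmt : Prop := ∀ g : ℕ, ∃ K : ℝ, ∀ (k Y W : ℕ) (x x' : ℤ), 1 ≤ Y → W ≤ k → x ≠ x' →
  |x - x'| ≤ Y →
  cnt g k (fun c => ∃ r : ℕ, r.Prime ∧ Y < r ∧ r ≤ W ∧ (r : ℤ) ∣ val c x ∧ (r : ℤ) ∣ val c x') ≤
    K * (k : ℝ) ^ (2 * g + 3) / Y

/-- the number of values with five prime factors -/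
def VAR1Stmt : Prop := ∀ (g M d a z : ℕ) (P : Vec g → Prop), Dat g M d a P → 1 ≤ z →
  (∀ p : ℕ, p.Prime → p ≤ z → p ∣ M) → ∀ ε : ℝ, 0 < ε → ∀ᶠ t : ℕ in atTop, ∀ k : ℕ, Rel t k →
    cnt g k (fun c => P c ∧ XX t M d a c ≤ mu t M / 2) ≤
      8 / z * cnt g k P + ε * (k : ℝ) ^ (2 * g + 3) ∧
    ∑ c ∈ bx g k, ind (P c) * XX t M d a c ^ 2 ≤ 4 * mu t M ^ 2 * (3 * k : ℝ) ^ (2 * g + 3) ∧
    10 * Real.log t * ∑ c ∈ bx g k, ind (P c) * XX t M d a c ≤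
      ε * mu t M ^ 2 * (k : ℝ) ^ (2 * g + 3)

/-- power sums and the product fix a tuple -/
def NEWStmt : Prop := ∀ (m r : ℕ) [Fact r.Prime], m < r → ∀ b : Fin (2 * m + 1) → (ZMod r)ˣ,
  {a : Fin (2 * m + 1) → (ZMod r)ˣ | ∀ i : Fin m,
    ∑ j, (a j : ZMod r) ^ (i.1 + 1) = ∑ j, (b j : ZMod r) ^ (i.1 + 1) ∧
    ∑ j, (a j : ZMod r)⁻¹ ^ (i.1 + 1) = ∑ j, (b j : ZMod r)⁻¹ ^ (i.1 + 1)}.ncard ≤
      r * (2 * m + 1) ^ (2 * m + 1)

/-- exponential sums with Laurent polynomials -/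
def LAURStmt : Prop := ∀ (m : ℕ) (δ : ℝ), 0 < δ → ∃ r₀ : ℕ, ∀ (r : ℕ) [Fact r.Prime], r₀ ≤ r →
  ∀ u v : Fin m → ZMod r, (u ≠ 0 ∨ v ≠ 0) →
    ‖∑ a : (ZMod r)ˣ, (ZMod.stdAddChar
      (∑ i, (u i * (a : ZMod r) ^ (i.1 + 1) + v i * (a : ZMod r)⁻¹ ^ (i.1 + 1))) : ℂ)‖ ≤
      δ * ((r : ℝ) - 1)

/-- the third uniformity norm of an invariant function -/
def MOYStmt : Prop := ∀ (m : ℕ) (δ : ℝ), 0 < δ → ∃ r₀ : ℕ, ∀ (r : ℕ) [Fact r.Prime], r₀ ≤ r →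
  ∀ ψ : (Fin m → ZMod r) → ℝ, Tor ψ → U3 ψ ≤ δ * (r : ℝ) ^ (4 * m)

/-- the box norm -/
def BOXStmt : Prop := ∀ (V : Type) [AddCommGroup V] [Fintype V] (ψ : V → ℝ) (A B D : V → V → ℝ)
  (z : V), (∀ x y, |A x y| ≤ 1) → (∀ x y, |B x y| ≤ 1) → (∀ x y, |D x y| ≤ 1) →
  (∑ b, ∑ h, ∑ k, ψ (z + b + h + k) * (A h k * B b k * D b h)) ^ 8 ≤
    (Fintype.card V : ℝ) ^ 20 * U3 ψ

/-- three complete shifts -/
def TRIStmt : Prop := ∀ (m : ℕ) (δ : ℝ), 0 < δ → ∃ r₀ : ℕ, ∀ (r : ℕ) [Fact r.Prime], r₀ ≤ r →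
  ∀ (ψ : (Fin m → ZMod r) → ℝ) (z : Fin m → ZMod r) (n₁ n₂ n₃ : ℤ)
    (A B D : (Fin m → ℕ) → (Fin m → ℕ) → ℝ), Tor ψ → ¬(r : ℤ) ∣ n₁ → ¬(r : ℤ) ∣ n₂ →
    ¬(r : ℤ) ∣ n₃ → (∀ x y, |A x y| ≤ 1) → (∀ x y, |B x y| ≤ 1) → (∀ x y, |D x y| ≤ 1) →
    |∑ b ∈ cube m r, ∑ h ∈ cube m r, ∑ k ∈ cube m r,
      ψ (z + fun i => ((n₁ * b i + n₂ * h i + n₃ * k i : ℤ) : ZMod r)) *
        (A h k * B b k * D b h)| ≤ δ * (r : ℝ) ^ (3 * m)

/-- the shifts -/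
def LOCStmt : Prop := ∀ (g : ℕ) (x x' : ℤ),
  (∀ y, val (sh g x x' y) x = 0 ∧ val (sh g x x' y) x' = 0) ∧
  (∀ y y', sh g x x' (y + y') = sh g x x' y + sh g x x' y') ∧
  (∀ (n : ℤ) y, sh g x x' (n • y) = n • sh g x x' y) ∧
  (∀ (W : ℤ) y, (∀ i, |y i| ≤ W) →
    ∀ i, |sh g x x' y i| ≤ (2 * g + 1) * W * ((1 + |x|) * (1 + |x'|)) ^ (2 * g + 1)) ∧
  (∀ (r : ℕ) (c e : Vec g), (∀ i, (r : ℤ) ∣ e i) → phi g r (c + e) = phi g r c) ∧
  ∀ (r : ℕ) (c : Vec g), 1 ≤ g → r.Prime → (r : ℤ) ∣ val c x → ¬(r : ℤ) ∣ val c x' →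
    ∃ (s : ZMod r) (z : Fin (2 * g + 1) → ZMod r), s ≠ 0 ∧ ∀ y : Fin (2 * g + 1) → ℤ,
      (Gd g r (fm (c + sh g x x' y)) ↔ Ir s (z + fun i => (y i : ZMod r)))

/-- the density of the good type -/
def KAPStmt : Prop := ∀ g : ℕ, 1 ≤ g → (∀ r : ℕ, r.Prime → 0 ≤ kap g r ∧ kap g r ≤ 1) ∧
  (∀ (r : ℕ) [Fact r.Prime] (s : ZMod r), s ≠ 0 →
    Tor fun z : Fin (2 * g + 1) → ZMod r => ind (Ir s z) - kap g r) ∧
  ∃ r₀ : ℕ, ∀ r : ℕ, r.Prime → r₀ ≤ r → 1 / (2 * (2 * g + 1)) ≤ kap g r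

/-- one prime -/
def DEC1Stmt : Prop := ∀ (g : ℕ) (δ : ℝ), 1 ≤ g → 0 < δ → ∃ r₀ : ℕ, ∀ (k N R W : ℕ) (x x' : ℤ)
  (w : Vec g → ℝ) (ρ : Vec g → ℕ) (T : Vec g → Finset ℕ) (B : ℝ), Inv N x x' w → Inv N x x' ρ →
  Inv N x x' T → (∀ c, 0 ≤ w c ∧ w c ≤ B) → Sz g N R W x x' →
  (∀ c, w c ≠ 0 → One r₀ W N x x' c (ρ c) ∧ ρ c ∉ T c ∧ (T c).card ≤ 9 ∧
    ∀ r ∈ T c, r.Prime ∧ r ≤ W) →
  |∑ c ∈ bx g k, w c * ((phi g (ρ c) c - kap g (ρ c)) * ∏ r ∈ T c, phi g r c)| ≤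
    δ * ∑ c ∈ bx g k, w c + B * bd g k R

/-- ten primes -/
def DECStmt : Prop := ∀ (g : ℕ) (δ : ℝ), 1 ≤ g → 0 < δ → ∃ r₀ : ℕ, ∀ (k N R W : ℕ) (x x' : ℤ)
  (w : Vec g → ℝ) (T : Vec g → Finset ℕ) (B : ℝ), Inv N x x' w → Inv N x x' T →
  (∀ c, 0 ≤ w c ∧ w c ≤ B) → Sz g N R W x x' →
  (∀ c, w c ≠ 0 → (T c).card ≤ 10 ∧ ∀ r ∈ T c, One r₀ W N x x' c r) →
  |∑ c ∈ bx g k, w c * (∏ r ∈ T c, phi g r c - ∏ r ∈ T c, kap g r)| ≤
    10 * (δ * ∑ c ∈ bx g k, w c + B * bd g k R)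

/-- two points -/
def PAIRStmt : Prop := ∀ (g M d a : ℕ) (P : Vec g → Prop), 1 ≤ g → Dat g M d a P → ∀ (δ : ℝ)
  (A : ℕ), 0 < δ → ∀ᶠ t : ℕ in atTop, ∀ k : ℕ, Rel t k → ∀ j ∈ range (nl t),
    ∀ j' ∈ range (nl t), j ≠ j' →
    ∑ c ∈ bx g k, ind (P c) * (la t d c (pt M a j) *
        (∏ r ∈ pf d c (pt M a j), phi g r c - ∏ r ∈ pf d c (pt M a j), kap g r) *
      (la t d c (pt M a j') *
        (∏ r ∈ pf d c (pt M a j'), phi g r c - ∏ r ∈ pf d c (pt M a j'), kap g r))) ≤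
      δ * ∑ c ∈ bx g k, ind (P c) * (la t d c (pt M a j) * la t d c (pt M a j')) +
        (k : ℝ) ^ (2 * g + 3) / Real.log t ^ A

/-- the types are independent -/
def VAR2Stmt : Prop := ∀ (g M d a : ℕ) (P : Vec g → Prop), 1 ≤ g → Dat g M d a P → ∀ ε η : ℝ,
  0 < ε → 0 < η → ∀ᶠ t : ℕ in atTop, ∀ k : ℕ, Rel t k →
    cnt g k (fun c => P c ∧ η * mu t M ≤ |ZZ t M d a c|) ≤ ε * (k : ℝ) ^ (2 * g + 3)

/-- good points in one class -/
def POINTStmt : Prop := ∀ (g M d a z : ℕ) (P : Vec g → Prop), 1 ≤ g → Dat g M d a P → 1 ≤ z →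
  (∀ p : ℕ, p.Prime → p ≤ z → p ∣ M) → ∀ ε : ℝ, 0 < ε → ∀ᶠ k : ℕ in atTop,
    cnt g k (fun c => P c ∧ ∀ x : ℤ, |(x : ℝ)| ≤ Real.log k ^ 7 → (M : ℤ) ^ 3 ∣ x - a →
      ¬Gp g M d (fm c) x) ≤ 8 / z * cnt g k P + ε * (k : ℝ) ^ (2 * g + 3)

/-- good points in some admissible class -/
def ALLStmt : Prop := ∀ (g M d z : ℕ), 1 ≤ g → 0 < M → d ∣ M → 2 ≤ z →
  (∀ p : ℕ, p.Prime → p ≤ z → p ∣ M) → ∀ ε : ℝ, 0 < ε → ∀ᶠ k : ℕ in atTop,
    cnt g k (fun c => (∃ a : ℤ, 8 ∣ a - 1 ∧ (d : ℤ) ∣ val c a ∧ IsCoprime (val c a / d) (M : ℤ)) ∧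
      ∀ x : ℤ, |(x : ℝ)| ≤ Real.log k ^ 7 → 8 ∣ x - 1 → ¬Gp g M d (fm c) x) ≤
      (8 * 3 ^ (2 * g + 3) / z + ε) * (k : ℝ) ^ (2 * g + 3)

theorem all_of (sw : SWStmt) (shf : SHStmt) (geo : GEOStmt) (lamp : LAMStmt)
    (sigl : SWStmt → SIGStmt) (apl : SWStmt → APLStmt) (phil : PHIStmt)
    (m1 : SHStmt → GEOStmt → LAMStmt → SIGStmt → APLStmt → PHIStmt → M1Stmt)
    (m2 : SHStmt → GEOStmt → LAMStmt → SIGStmt → APLStmt → PHIStmt → M2Stmt) (cop : COPStmt)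
    (var1 : GEOStmt → LAMStmt → SIGStmt → PHIStmt → M1Stmt → M2Stmt → VAR1Stmt) (new : NEWStmt)
    (laur : NEWStmt → LAURStmt) (moy : LAURStmt → MOYStmt) (box : BOXStmt)
    (tri : MOYStmt → BOXStmt → TRIStmt) (loc : LOCStmt) (kapl : KAPStmt)
    (dec1 : SHStmt → GEOStmt → TRIStmt → LOCStmt → KAPStmt → DEC1Stmt)
    (dec : KAPStmt → DEC1Stmt → DECStmt)
    (pair : GEOStmt → LAMStmt → COPStmt → KAPStmt → DECStmt → PAIRStmt)
    (var2 : LAMStmt → SIGStmt → PHIStmt → KAPStmt → VAR1Stmt → PAIRStmt → VAR2Stmt)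
    (point : GEOStmt → LAMStmt → SIGStmt → PHIStmt → KAPStmt → VAR1Stmt → VAR2Stmt → POINTStmt)
    (all : GEOStmt → POINTStmt → ALLStmt) : ALLStmt :=
  have s := sigl sw
  have a := apl sw
  have v := var1 geo lamp s phil (m1 shf geo lamp s a phil) (m2 shf geo lamp s a phil)
  all geo (point geo lamp s phil kapl v (var2 lamp s phil kapl v (pair geo lamp cop kapl
    (dec kapl (dec1 shf geo (tri (moy (laur new)) box) loc kapl)))))

end Pool.Agent.MP_a43263_nt.W1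

end
end MrgPart0

-- ======== part 1: formerly Pool.Agent.MP_a43263_nt.h72.Mor
section MrgPart1

/-! Mordell's bound for Laurent polynomial exponential sums over a finite field. -/

namespace Pool.Agent.MP_a43263_nt.h72

open Finset

variable {F : Type} [Field F]

/-- elementary symmetric functions of a tuple -/
def es {K : ℕ} (b : Fin K → F) (k : ℕ) : F := ∑ t ∈ powersetCard k univ, ∏ i ∈ t, b i

theorem newton {K : ℕ} (b : Fin K → F) (k : ℕ) : (k : F) * es b k = (-1) ^ (k + 1) *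
    ∑ a ∈ antidiagonal k with a.1 < k, (-1) ^ a.1 * es b a.1 * ∑ i, b i ^ a.2 := by
  have := congrArg (MvPolynomial.eval b) (MvPolynomial.mul_esymm_eq_sum (Fin K) F k)
  simpa [MvPolynomial.esymm, MvPolynomial.psum, es] using this

theorem es_eq {K m : ℕ} (hm : ∀ k, 1 ≤ k → k ≤ m → (k : F) ≠ 0) (b c : Fin K → F)
    (h : ∀ i : Fin m, ∑ j, b j ^ (i.1 + 1) = ∑ j, c j ^ (i.1 + 1)) :
    ∀ k, k ≤ m → es b k = es c k := by
  intro k
  induction k using Nat.strong_induction_on with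
  | _ k ih =>
    intro hk
    rcases Nat.eq_zero_or_pos k with rfl | k0
    · simp [es]
    refine mul_left_cancel₀ (hm k k0 hk) ?_
    rw [newton, newton]
    congr 1
    refine sum_congr rfl fun a ha => ?_
    obtain ⟨h1, h2⟩ := mem_filter.1 ha
    rw [HasAntidiagonal.mem_antidiagonal] at h1
    have h3 := h ⟨a.2 - 1, by omega⟩
    have h4 : a.2 - 1 + 1 = a.2 := by omega
    simp only [h4] at h3
    rw [ih a.1 h2 (by omega), h3]

theorem es_rev {K : ℕ} (b : Fin K → F) (hb : ∀ j, b j ≠ 0) {i : ℕ} (hi : i ≤ K) :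
    es b (K - i) = (∏ j, b j) * es (fun j => (b j)⁻¹) i := by
  unfold es
  rw [mul_sum]
  refine sum_nbij' (fun t => tᶜ) (fun t => tᶜ) (fun t ht => ?_) (fun t ht => ?_) (by simp) (by simp)
    fun t _ => ?_
  · simp only [mem_powersetCard_univ] at ht ⊢
    rw [card_compl, Fintype.card_fin, ht]; omega
  · simp only [mem_powersetCard_univ] at ht ⊢
    rw [card_compl, Fintype.card_fin, ht]
  · rw [← prod_mul_prod_compl t b, mul_assoc, ← prod_mul_distrib,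
      prod_congr rfl fun j _ => mul_inv_cancel₀ (hb j), prod_const_one, mul_one]

theorem mem_of_es {K : ℕ} (b c : Fin K → F) (h : ∀ k, k ≤ K → es b k = es c k) (j : Fin K) :
    ∃ i, b i = c j := by
  have key : ∀ d : Fin K → F, ∏ i, (Polynomial.X + Polynomial.C (d i)) =
      ∑ k ∈ range (K + 1), Polynomial.C (es d k) * Polynomial.X ^ (K - k) := fun d => by
    have := Multiset.prod_X_add_C_eq_sum_esymm (univ.val.map d)
    rw [Multiset.map_map, Multiset.card_map, card_val, card_univ, Fintype.card_fin] at this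
    simp only [Finset.esymm_map_val] at this
    exact this
  have e : ∏ i, (Polynomial.X + Polynomial.C (b i)) = ∏ i, (Polynomial.X + Polynomial.C (c i)) := by
    rw [key, key]
    exact sum_congr rfl fun k hk => by rw [h k (by have := mem_range.1 hk; omega)]
  have e2 := congrArg (Polynomial.eval (-c j)) e
  simp only [Polynomial.eval_prod, Polynomial.eval_add, Polynomial.eval_X, Polynomial.eval_C] at e2
  obtain ⟨i, -, hi⟩ := prod_eq_zero_iff.1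
    (e2.trans (prod_eq_zero (mem_univ j) (neg_add_cancel (c j))))
  exact ⟨i, by linear_combination hi⟩

/-- the power sum vector -/
def pv (m : ℕ) {K : ℕ} (a : Fin K → Fˣ) : (Fin m → F) × (Fin m → F) :=
  (fun i => ∑ j, (a j : F) ^ (i.1 + 1), fun i => ∑ j, ((a j : F)⁻¹) ^ (i.1 + 1))

variable [Fintype F] [DecidableEq F]

theorem fib {m : ℕ} (hm : ∀ k, 1 ≤ k → k ≤ m → (k : F) ≠ 0) (a : Fin (2 * m + 1) → Fˣ) :
    #{b : Fin (2 * m + 1) → Fˣ | pv m b = pv m a} ≤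
      (2 * m + 1) ^ (2 * m + 1) * Fintype.card Fˣ := by
  refine card_le_mul_card_image_of_maps_to (f := fun b => ∏ j, b j) (t := univ)
    (fun _ _ => mem_univ _) _ fun π _ => ?_
  rcases ({b ∈ ({b | pv m b = pv m a} : Finset (Fin (2 * m + 1) → Fˣ)) |
    ∏ j, b j = π} : Finset _).eq_empty_or_nonempty with h | ⟨b, hb⟩
  · rw [h]; simp
  have h1 : #(Fintype.piFinset fun _ : Fin (2 * m + 1) => image b univ) ≤
      (2 * m + 1) ^ (2 * m + 1) := by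
    rw [Fintype.card_piFinset, prod_const, card_univ, Fintype.card_fin]
    exact Nat.pow_le_pow_left (card_image_le.trans (by simp)) _
  refine le_trans (card_le_card fun c hc => ?_) h1
  simp only [mem_filter, mem_univ, true_and] at hb hc
  have e := hb.1.trans hc.1.symm
  have e1 := es_eq hm _ _ (congrFun (congrArg Prod.fst e))
  have e2 := es_eq hm _ _ (congrFun (congrArg Prod.snd e))
  have e3 : ∏ j, (b j : F) = ∏ j, (c j : F) := by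
    rw [← Units.coe_prod, ← Units.coe_prod, hb.2, hc.2]
  refine Fintype.mem_piFinset.2 fun j => ?_
  obtain ⟨i, hi⟩ := mem_of_es (fun j => (b j : F)) (fun j => (c j : F)) (fun k hk => by
    by_cases hkm : k ≤ m
    · exact e1 k hkm
    · obtain ⟨i, hi, rfl⟩ : ∃ i, i ≤ m ∧ k = 2 * m + 1 - i := ⟨2 * m + 1 - k, by omega, by omega⟩
      rw [es_rev _ (fun j => (b j).ne_zero) (by omega),
        es_rev _ (fun j => (c j).ne_zero) (by omega), e2 i hi, e3]) j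
  exact mem_image.2 ⟨i, mem_univ _, Units.ext hi⟩

variable {e : AddChar F ℂ}

theorem orth (he : e.IsPrimitive) {m : ℕ} (x : Fin m → F) :
    ∑ w : Fin m → F, e (w ⬝ᵥ x) = if x = 0 then (Fintype.card F : ℂ) ^ m else 0 := by
  have h1 : ∀ w : Fin m → F, e (w ⬝ᵥ x) = ∏ i, e (w i * x i) := fun w => by
    rw [dotProduct]
    induction (univ : Finset (Fin m)) using Finset.induction_on with
    | empty => simp
    | insert i s hi ih => rw [sum_insert hi, prod_insert hi, e.map_add_eq_mul, ih]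
  simp only [h1]
  rw [← Fintype.piFinset_univ, ← prod_univ_sum (fun _ => univ) fun i t => e (t * x i)]
  simp only [AddChar.sum_mulShift _ he]
  split_ifs with h
  · simp [h]
  · obtain ⟨i, hi⟩ := Function.ne_iff.1 h
    exact prod_eq_zero (mem_univ i) (by rw [if_neg (show ¬x i = 0 from hi), Nat.cast_zero])

/-- the exponential sum -/
noncomputable def ks (e : AddChar F ℂ) {m : ℕ} (u v : Fin m → F) : ℂ :=
  ∑ a : Fˣ, e (∑ i, u i * (a : F) ^ (i.1 + 1) + ∑ i, v i * ((a : F)⁻¹) ^ (i.1 + 1))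

theorem ks_pow {m : ℕ} (K : ℕ) (u v : Fin m → F) :
    ks e u v ^ K = ∑ a : Fin K → Fˣ, e (u ⬝ᵥ (pv m a).1 + v ⬝ᵥ (pv m a).2) := by
  rw [ks, ← Fin.prod_const, prod_univ_sum, Fintype.piFinset_univ]
  refine sum_congr rfl fun a _ => ?_
  have h1 : ∀ g : Fin K → F, ∏ j, e (g j) = e (∑ j, g j) := fun g => by
    induction (univ : Finset (Fin K)) using Finset.induction_on with
    | empty => simp
    | insert i s hi ih => rw [sum_insert hi, prod_insert hi, e.map_add_eq_mul, ih]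
  rw [h1, sum_add_distrib]
  simp only [pv, dotProduct, mul_sum]
  rw [sum_comm, sum_comm (s := (univ : Finset (Fin K)))]

theorem moment (he : e.IsPrimitive) {m : ℕ} (hm : ∀ k, 1 ≤ k → k ≤ m → (k : F) ≠ 0) :
    ∑ w : (Fin m → F) × (Fin m → F), ‖ks e w.1 w.2‖ ^ (4 * m + 2) ≤
      (Fintype.card F : ℝ) ^ (2 * m) * ((Fintype.card Fˣ : ℝ) ^ (2 * m + 1) *
        ((2 * m + 1) ^ (2 * m + 1) * Fintype.card Fˣ)) := by
  have h1 : ∀ w : (Fin m → F) × (Fin m → F), ((‖ks e w.1 w.2‖ ^ (4 * m + 2) : ℝ) : ℂ) =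
      ∑ a : Fin (2 * m + 1) → Fˣ, ∑ b : Fin (2 * m + 1) → Fˣ,
        e (w.1 ⬝ᵥ ((pv m b).1 - (pv m a).1)) * e (w.2 ⬝ᵥ ((pv m b).2 - (pv m a).2)) := fun w => by
    rw [show 4 * m + 2 = (2 * m + 1) * 2 by ring, pow_mul, ← norm_pow, Complex.ofReal_pow,
      ← Complex.conj_mul', ks_pow, map_sum, sum_mul_sum]
    refine sum_congr rfl fun a _ => sum_congr rfl fun b _ => ?_
    rw [← AddChar.map_neg_eq_conj, ← e.map_add_eq_mul, ← e.map_add_eq_mul, dotProduct_sub,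
      dotProduct_sub]
    congr 1
    ring
  have h2 : ((∑ w : (Fin m → F) × (Fin m → F), ‖ks e w.1 w.2‖ ^ (4 * m + 2) : ℝ) : ℂ) =
      ((Fintype.card F ^ (2 * m) * ∑ a : Fin (2 * m + 1) → Fˣ,
        #{b : Fin (2 * m + 1) → Fˣ | pv m b = pv m a} : ℕ) : ℂ) := by
    rw [Complex.ofReal_sum]
    simp only [h1]
    rw [sum_comm]
    push_cast
    rw [mul_sum]
    refine sum_congr rfl fun a _ => ?_
    rw [sum_comm, card_filter]
    push_cast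
    rw [mul_sum]
    refine sum_congr rfl fun b _ => ?_
    rw [Fintype.sum_prod_type]
    simp only [← mul_sum, ← sum_mul, orth he, sub_eq_zero, Prod.ext_iff]
    by_cases a1 : (pv m b).1 = (pv m a).1 <;> by_cases a2 : (pv m b).2 = (pv m a).2 <;>
      simp [a1, a2, two_mul, pow_add]
  have h3 : ∑ a : Fin (2 * m + 1) → Fˣ, #{b : Fin (2 * m + 1) → Fˣ | pv m b = pv m a} ≤
      Fintype.card Fˣ ^ (2 * m + 1) * ((2 * m + 1) ^ (2 * m + 1) * Fintype.card Fˣ) := by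
    refine (sum_le_sum fun a _ => fib hm a).trans ?_
    simp
  rw [← Complex.ofReal_natCast, Complex.ofReal_inj] at h2
  rw [h2]
  exact_mod_cast Nat.mul_le_mul_left _ h3

theorem mordell (he : e.IsPrimitive) {m : ℕ} (hm : ∀ k, 1 ≤ k → k ≤ m → (k : F) ≠ 0)
    (u v : Fin m → F) (h : u ≠ 0 ∨ v ≠ 0) :
    ‖ks e u v‖ ^ (4 * m + 2) ≤ m * (2 * m + 1) ^ (2 * m + 1) *
      ((Fintype.card F : ℝ) ^ (2 * m) * (Fintype.card Fˣ : ℝ) ^ (2 * m + 1)) := by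
  let s : Fˣ → (Fin m → F) × (Fin m → F) := fun l =>
    (fun i => u i * (l : F) ^ (i.1 + 1), fun i => v i * ((l : F)⁻¹) ^ (i.1 + 1))
  have h1 : ∀ l, ks e (s l).1 (s l).2 = ks e u v := fun l => by
    refine Fintype.sum_equiv (Equiv.mulLeft l) _ _ fun a => ?_
    simp only [s, Equiv.coe_mulLeft, Units.val_mul, mul_inv, mul_pow, mul_assoc]
  have h2 : Fintype.card Fˣ ≤ m * #(image s univ) := by
    refine card_le_mul_card_image univ m fun w hw => ?_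
    obtain ⟨l, -, rfl⟩ := mem_image.1 hw
    obtain ⟨i, hi⟩ : ∃ i : Fin m, ∀ k, s k = s l → k ^ (i.1 + 1) = l ^ (i.1 + 1) := by
      rcases h with h | h
      · obtain ⟨i, hi⟩ := Function.ne_iff.1 h
        refine ⟨i, fun k hk => Units.ext ?_⟩
        simpa using mul_left_cancel₀ hi (congrFun (congrArg Prod.fst hk) i)
      · obtain ⟨i, hi⟩ := Function.ne_iff.1 h
        refine ⟨i, fun k hk => Units.ext ?_⟩
        simpa using mul_left_cancel₀ hi (congrFun (congrArg Prod.snd hk) i)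
    calc _ ≤ #{k : Fˣ | k ^ (i.1 + 1) = l ^ (i.1 + 1)} :=
          card_le_card fun k hk => mem_filter.2 ⟨mem_univ _, hi k (mem_filter.1 hk).2⟩
      _ ≤ _ := card_nthRoots_subgroup_units (Units.coeHom F) Units.val_injective i.1.succ_pos _
      _ ≤ i.1 + 1 := Polynomial.card_nthRoots _ _
      _ ≤ m := i.2
  have h3 : (#(image s univ) : ℝ) * ‖ks e u v‖ ^ (4 * m + 2) ≤
      ∑ w : (Fin m → F) × (Fin m → F), ‖ks e w.1 w.2‖ ^ (4 * m + 2) := by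
    rw [← nsmul_eq_mul, ← sum_const]
    refine le_trans (le_of_eq (sum_congr rfl fun w hw => ?_))
      (sum_le_sum_of_subset_of_nonneg (subset_univ _) fun _ _ _ => by positivity)
    obtain ⟨l, -, rfl⟩ := mem_image.1 hw
    rw [h1]
  have h4 : (0 : ℝ) < Fintype.card Fˣ := by exact_mod_cast Fintype.card_pos
  have h5 : (Fintype.card Fˣ : ℝ) ≤ m * #(image s univ) := by exact_mod_cast h2
  refine le_of_mul_le_mul_left ?_ h4
  calc _ ≤ m * #(image s univ) * ‖ks e u v‖ ^ (4 * m + 2) := by gcongr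
    _ = m * (#(image s univ) * ‖ks e u v‖ ^ (4 * m + 2)) := mul_assoc _ _ _
    _ ≤ _ := mul_le_mul_of_nonneg_left (h3.trans (moment he hm)) (Nat.cast_nonneg m)
    _ = _ := by ring

end Pool.Agent.MP_a43263_nt.h72

end MrgPart1

-- ======== part 2: formerly Pool.Agent.MP_a43263_nt.h72.Box
section MrgPart2

/-! The box norm of a function that is invariant under a weighted torus action is small. -/

set_option linter.unusedSectionVars false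

namespace Pool.Agent.MP_a43263_nt.h72

open Finset

theorem cs {Y : Type} [Fintype Y] (A G : Y → ℝ) (hA : ∀ y, |A y| ≤ 1) :
    (∑ y, A y * G y) ^ 2 ≤ Fintype.card Y * ∑ y, G y ^ 2 := by
  refine (sum_mul_sq_le_sq_mul_sq _ _ _).trans (mul_le_mul_of_nonneg_right ?_
    (sum_nonneg fun _ _ => sq_nonneg _))
  refine (sum_le_sum fun y _ => (sq_le_one_iff_abs_le_one _).2 (hA y)).trans ?_
  simp

theorem abs_mul_le {a b : ℝ} (ha : |a| ≤ 1) (hb : |b| ≤ 1) : |a * b| ≤ 1 := by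
  rw [abs_mul]; exact mul_le_one₀ ha (abs_nonneg _) hb

theorem chain {a b c d N : ℝ} (h1 : a ^ 2 ≤ N * N * b) (h2 : b ^ 2 ≤ N * N * N * c)
    (h3 : c ^ 2 ≤ N * N * (N * N) * (N ^ 2 * d)) : a ^ 8 ≤ N ^ 20 * d :=
  calc _ = ((a ^ 2) ^ 2) ^ 2 := by ring
    _ ≤ ((N * N * b) ^ 2) ^ 2 := by gcongr
    _ = (N ^ 4 * b ^ 2) ^ 2 := by ring
    _ ≤ (N ^ 4 * (N * N * N * c)) ^ 2 := by gcongr
    _ = N ^ 14 * c ^ 2 := by ring
    _ ≤ N ^ 14 * (N * N * (N * N) * (N ^ 2 * d)) := by gcongr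
    _ = _ := by ring

/-- the cube correlation -/
def cub {V : Type} [AddCommGroup V] [Fintype V] (ψ : V → ℝ) (h k : V) : ℝ :=
  ∑ z, ψ z * ψ (z + h) * (ψ (z + k) * ψ (z + k + h))

theorem box {V : Type} [AddCommGroup V] [Fintype V] (ψ : V → ℝ) (A B D : V → V → ℝ)
    (hA : ∀ x y, |A x y| ≤ 1) (hB : ∀ x y, |B x y| ≤ 1) (hD : ∀ x y, |D x y| ≤ 1) :
    (∑ x, ∑ y, ∑ z, ψ (x + y + z) * A y z * B x z * D x y) ^ 8 ≤
      (Fintype.card V : ℝ) ^ 20 * ∑ h, ∑ k, cub ψ h k ^ 2 := by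
  have h1 := cs (fun p : V × V => A p.1 p.2)
    (fun p => ∑ x, ψ (x + p.1 + p.2) * B x p.2 * D x p.1) fun _ => hA _ _
  have h2 := cs (fun p : (V × V) × V => B p.1.1 p.2 * B p.1.2 p.2)
    (fun p => ∑ y, ψ (p.1.1 + y + p.2) * ψ (p.1.2 + y + p.2) * (D p.1.1 y * D p.1.2 y))
    fun _ => abs_mul_le (hB _ _) (hB _ _)
  have h3 := cs (fun p : (V × V) × V × V =>
      D p.1.1 p.2.1 * D p.1.2 p.2.1 * (D p.1.1 p.2.2 * D p.1.2 p.2.2))
    (fun p => ∑ z, ψ (p.1.1 + p.2.1 + z) * ψ (p.1.2 + p.2.1 + z) *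
      (ψ (p.1.1 + p.2.2 + z) * ψ (p.1.2 + p.2.2 + z)))
    fun _ => abs_mul_le (abs_mul_le (hD _ _) (hD _ _)) (abs_mul_le (hD _ _) (hD _ _))
  have e0 : ∑ x, ∑ y, ∑ z, ψ (x + y + z) * A y z * B x z * D x y =
      ∑ p : V × V, A p.1 p.2 * ∑ x, ψ (x + p.1 + p.2) * B x p.2 * D x p.1 := by
    simp only [mul_sum]
    rw [sum_comm (s := (univ : Finset (V × V)))]
    refine sum_congr rfl fun x _ => ?_
    rw [Fintype.sum_prod_type]
    exact sum_congr rfl fun y _ => sum_congr rfl fun z _ => by ring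
  have e1 : ∑ p : V × V, (∑ x, ψ (x + p.1 + p.2) * B x p.2 * D x p.1) ^ 2 =
      ∑ p : (V × V) × V, B p.1.1 p.2 * B p.1.2 p.2 *
        ∑ y, ψ (p.1.1 + y + p.2) * ψ (p.1.2 + y + p.2) * (D p.1.1 y * D p.1.2 y) := by
    simp only [sq, Fintype.sum_mul_sum]
    simp only [mul_sum, ← Fintype.sum_prod_type']
    refine Fintype.sum_equiv ⟨fun q => ((q.2, q.1.2), q.1.1), fun q => ((q.2, q.1.2), q.1.1),
      fun _ => rfl, fun _ => rfl⟩ _ _ fun q => ?_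
    simp only [Equiv.coe_fn_mk]
    ring
  have e2 : ∑ p : (V × V) × V,
      (∑ y, ψ (p.1.1 + y + p.2) * ψ (p.1.2 + y + p.2) * (D p.1.1 y * D p.1.2 y)) ^ 2 =
      ∑ p : (V × V) × V × V, D p.1.1 p.2.1 * D p.1.2 p.2.1 * (D p.1.1 p.2.2 * D p.1.2 p.2.2) *
        ∑ z, ψ (p.1.1 + p.2.1 + z) * ψ (p.1.2 + p.2.1 + z) *
          (ψ (p.1.1 + p.2.2 + z) * ψ (p.1.2 + p.2.2 + z)) := by
    simp only [sq, Fintype.sum_mul_sum]
    simp only [mul_sum, ← Fintype.sum_prod_type']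
    refine Fintype.sum_equiv ⟨fun q => ((q.1.1, q.2), q.1.2), fun q => ((q.1.1, q.2), q.1.2),
      fun _ => rfl, fun _ => rfl⟩ _ _ fun q => ?_
    simp only [Equiv.coe_fn_mk]
    ring
  have e3 : ∑ p : (V × V) × V × V, (∑ z, ψ (p.1.1 + p.2.1 + z) * ψ (p.1.2 + p.2.1 + z) *
      (ψ (p.1.1 + p.2.2 + z) * ψ (p.1.2 + p.2.2 + z))) ^ 2 =
      (Fintype.card V : ℝ) ^ 2 * ∑ h, ∑ k, cub ψ h k ^ 2 := by
    have a : ∀ x x' y y' : V, ∑ z, ψ (x + y + z) * ψ (x' + y + z) *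
        (ψ (x + y' + z) * ψ (x' + y' + z)) = cub ψ (x' - x) (y' - y) := fun x x' y y' =>
      Fintype.sum_equiv (Equiv.addLeft (x + y)) _ _ fun z => by
        simp only [Equiv.coe_addLeft]
        congr 3 <;> abel
    have b : ∀ g : V → ℝ, ∑ x, ∑ x', g (x' - x) = Fintype.card V * ∑ h, g h := fun g => by
      have c : ∀ x, ∑ x', g (x' - x) = ∑ h, g h := fun x => (Equiv.subRight x).sum_comp g
      simp [c]
    simp only [a, Fintype.sum_prod_type]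
    rw [b fun h => ∑ y, ∑ y', cub ψ h (y' - y) ^ 2]
    rw [sum_congr rfl fun h _ => b fun k => cub ψ h k ^ 2, ← mul_sum]
    ring
  rw [e3, ← e2] at h3
  rw [← e1] at h2
  rw [e0]
  simp only [Fintype.card_prod, Nat.cast_mul] at h1 h2 h3
  exact chain h1 h2 h3

variable {F : Type} [Field F] [Fintype F] [DecidableEq F] {e : AddChar F ℂ} {m : ℕ}

/-- the power spectrum -/
noncomputable def wt (e : AddChar F ℂ) (φ : (Fin m → F) → ℝ) (ξ : Fin m → F) : ℝ :=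
  ‖∑ z, (φ z : ℂ) * e (ξ ⬝ᵥ z)‖ ^ 2

theorem wt_nonneg (φ : (Fin m → F) → ℝ) (ξ : Fin m → F) : 0 ≤ wt e φ ξ := sq_nonneg _

theorem auto (he : e.IsPrimitive) (φ : (Fin m → F) → ℝ) (h : Fin m → F) :
    ∑ ξ, (wt e φ ξ : ℂ) * e (ξ ⬝ᵥ h) =
      (((Fintype.card F : ℝ) ^ m * ∑ z, φ z * φ (z + h) : ℝ) : ℂ) := by
  have h1 : ∀ ξ, (wt e φ ξ : ℂ) * e (ξ ⬝ᵥ h) =
      ∑ z, ∑ y, (φ z * φ y : ℂ) * e (ξ ⬝ᵥ (z + h - y)) := fun ξ => by
    rw [wt, Complex.ofReal_pow, ← Complex.mul_conj', map_sum, sum_mul_sum, sum_mul]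
    refine sum_congr rfl fun z _ => ?_
    rw [sum_mul]
    refine sum_congr rfl fun y _ => ?_
    rw [map_mul, Complex.conj_ofReal, ← AddChar.map_neg_eq_conj, dotProduct_sub, dotProduct_add,
      sub_eq_add_neg, e.map_add_eq_mul, e.map_add_eq_mul]
    ring
  simp only [h1]
  rw [sum_comm]
  push_cast
  rw [mul_sum]
  refine sum_congr rfl fun z _ => ?_
  rw [sum_comm]
  simp only [← mul_sum, orth he, sub_eq_zero, mul_ite, mul_zero, sum_ite_eq, mem_univ, if_true]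
  ring

theorem wt_sum (he : e.IsPrimitive) (φ : (Fin m → F) → ℝ) (hφ : ∀ z, |φ z| ≤ 1) :
    ∑ ξ, wt e φ ξ ≤ ((Fintype.card F : ℝ) ^ m) ^ 2 := by
  have h1 := auto he φ 0
  simp only [dotProduct_zero, AddChar.map_zero_eq_one, mul_one, add_zero] at h1
  rw [← Complex.ofReal_sum, Complex.ofReal_inj] at h1
  rw [h1, sq]
  refine mul_le_mul_of_nonneg_left ((sum_le_sum fun z _ =>
    (le_abs_self _).trans (abs_mul_le (hφ z) (hφ z))).trans ?_) (by positivity)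
  simp

theorem avg {A B : Type} [Fintype A] [Fintype B] (f : A → ℝ) (g : B → ℝ) (σ : Fˣ → A ≃ A)
    (hf : ∀ a x, f (σ a x) = f x) (b : A → B → F) {S : ℝ}
    (hS : (S : ℂ) = ∑ x, ∑ y, f x * (g y * e (b x y))) (k : A → B → ℝ)
    (hk : ∀ x y, ‖∑ a : Fˣ, e (b (σ a x) y)‖ ≤ Fintype.card Fˣ * k x y) :
    S ≤ ∑ x, ∑ y, |f x| * |g y| * k x y := by
  have h4 : (0 : ℝ) < Fintype.card Fˣ := by exact_mod_cast Fintype.card_pos
  have h1 : ((Fintype.card Fˣ * S : ℝ) : ℂ) =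
      ∑ x, ∑ y, (f x * g y : ℂ) * ∑ a : Fˣ, e (b (σ a x) y) := by
    have a1 : ∀ a : Fˣ, (S : ℂ) = ∑ x, ∑ y, (f x * g y : ℂ) * e (b (σ a x) y) := fun a => by
      rw [hS, ← (σ a).sum_comp]
      simp only [hf, mul_assoc]
    simp only [mul_sum]
    rw [sum_congr rfl fun x _ => sum_comm, sum_comm, ← sum_congr rfl fun a _ => a1 a]
    simp
  refine le_of_mul_le_mul_left (((le_abs_self _).trans_eq (Complex.norm_real _).symm).trans ?_) h4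
  rw [h1, mul_sum]
  refine (norm_sum_le _ _).trans (sum_le_sum fun x _ => ?_)
  rw [mul_sum]
  refine (norm_sum_le _ _).trans (sum_le_sum fun y _ => ?_)
  rw [norm_mul, norm_mul, Complex.norm_real, Complex.norm_real, mul_left_comm]
  exact mul_le_mul_of_nonneg_left (hk x y) (by positivity)

/-- the weighted torus action -/
def tor (a : Fˣ) : (Fin m → F) ≃ (Fin m → F) where
  toFun z i := (a : F) ^ (i.1 + 1) * z i
  invFun z i := ((a : F)⁻¹) ^ (i.1 + 1) * z i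
  left_inv z := funext fun i => by
    simp only [← mul_assoc, ← mul_pow, inv_mul_cancel₀ a.ne_zero, one_pow, one_mul]
  right_inv z := funext fun i => by
    simp only [← mul_assoc, ← mul_pow, mul_inv_cancel₀ a.ne_zero, one_pow, one_mul]

theorem tor_add (a : Fˣ) (x y : Fin m → F) : tor a (x + y) = tor a x + tor a y :=
  funext fun _ => mul_add _ _ _

theorem tor_dot (a : Fˣ) (x y : Fin m → F) : (tor a).symm x ⬝ᵥ tor a y = x ⬝ᵥ y :=
  sum_congr rfl fun i _ => by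
    show ((a : F)⁻¹) ^ (i.1 + 1) * x i * ((a : F) ^ (i.1 + 1) * y i) = x i * y i
    rw [mul_mul_mul_comm, ← mul_pow, inv_mul_cancel₀ a.ne_zero, one_pow, one_mul]

/-- vectors with a vanishing coordinate -/
def zi (h : Fin m → F) : ℝ := if ∃ i, h i = 0 then 1 else 0

/-- the zero vector -/
def oi (h : Fin m → F) : ℝ := if h = 0 then 1 else 0

theorem zi_nonneg (h : Fin m → F) : 0 ≤ zi h := by unfold zi; positivity

theorem oi_nonneg (h : Fin m → F) : 0 ≤ oi h := by unfold oi; positivity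

theorem zi_sum : ∑ h : Fin m → F, zi h ≤ (Fintype.card F : ℝ) ^ m * (m / Fintype.card F) := by
  have h4 : (0 : ℝ) < Fintype.card F := by exact_mod_cast Fintype.card_pos
  have h1 : ∀ h : Fin m → F, zi h ≤ ∑ i, if h i = 0 then 1 else 0 := fun h => by
    unfold zi
    split_ifs with c
    · obtain ⟨i, hi⟩ := c
      exact le_trans (by rw [if_pos hi]) (single_le_sum (f := fun i => if h i = 0 then (1 : ℝ) else 0)
        (fun _ _ => by positivity) (mem_univ i))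
    · exact sum_nonneg fun _ _ => by positivity
  refine (sum_le_sum fun h _ => h1 h).trans (le_of_eq ?_)
  rw [sum_comm]
  have h2 : ∀ i : Fin m, ∑ h : Fin m → F, (if h i = 0 then (1 : ℝ) else 0) =
      (Fintype.card F : ℝ) ^ m / Fintype.card F := fun i => by
    have := Fintype.card_filter_piFinset_const_eq_of_mem (univ : Finset F) i (mem_univ 0)
    rw [Fintype.piFinset_univ, card_univ, Fintype.card_fin] at this
    rw [sum_boole, this, eq_div_iff h4.ne', Nat.cast_pow, ← pow_succ, Nat.sub_add_cancel i.pos]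
  simp only [h2, sum_const, card_univ, Fintype.card_fin, nsmul_eq_mul]
  ring

theorem ks_le {τ : ℝ} (h0 : 0 ≤ τ)
    (hτ : ∀ u v : Fin m → F, u ≠ 0 ∨ v ≠ 0 → ‖ks e u v‖ ≤ Fintype.card Fˣ * τ)
    (h k ξ η : Fin m → F) :
    ‖ks e (η * h) (ξ * k)‖ ≤ Fintype.card Fˣ * (τ + zi h + zi k + oi ξ * oi η) := by
  have h1 := zi_nonneg h
  have h2 := zi_nonneg k
  have h3 := mul_nonneg (oi_nonneg ξ) (oi_nonneg η)
  by_cases c : η * h ≠ 0 ∨ ξ * k ≠ 0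
  · exact (hτ _ _ c).trans (mul_le_mul_of_nonneg_left (by linarith) (Nat.cast_nonneg _))
  have h4 : ‖ks e (η * h) (ξ * k)‖ ≤ Fintype.card Fˣ * 1 :=
    (norm_sum_le _ _).trans (by simp [AddChar.norm_apply])
  refine h4.trans (mul_le_mul_of_nonneg_left ?_ (Nat.cast_nonneg _))
  by_cases c1 : ∃ i, h i = 0
  · linarith [show zi h = 1 from if_pos c1]
  by_cases c2 : ∃ i, k i = 0
  · linarith [show zi k = 1 from if_pos c2]
  push Not at c c1 c2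
  have a1 : η = 0 := funext fun i => (mul_eq_zero.1 (congrFun c.1 i)).resolve_right (c1 i)
  have a2 : ξ = 0 := funext fun i => (mul_eq_zero.1 (congrFun c.2 i)).resolve_right (c2 i)
  linarith [show oi ξ * oi η = 1 by simp [oi, a1, a2]]

theorem ks_eq (h k ξ η : Fin m → F) :
    ∑ a : Fˣ, e ((tor a).symm ξ ⬝ᵥ k + η ⬝ᵥ tor a h) = ks e (η * h) (ξ * k) :=
  sum_congr rfl fun a _ => by
    rw [add_comm]
    congr 2
    · exact sum_congr rfl fun i _ => by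
        show η i * ((a : F) ^ (i.1 + 1) * h i) = η i * h i * (a : F) ^ (i.1 + 1)
        ring
    · exact sum_congr rfl fun i _ => by
        show ((a : F)⁻¹) ^ (i.1 + 1) * ξ i * k i = ξ i * k i * ((a : F)⁻¹) ^ (i.1 + 1)
        ring

theorem u2 (he : e.IsPrimitive) {τ : ℝ} (h0 : 0 ≤ τ)
    (hτ : ∀ u v : Fin m → F, u ≠ 0 ∨ v ≠ 0 → ‖ks e u v‖ ≤ Fintype.card Fˣ * τ)
    (ψ : (Fin m → F) → ℝ) (h1 : ∀ z, |ψ z| ≤ 1) (h2 : ∑ z, ψ z = 0)
    (h3 : ∀ a z, ψ (tor a z) = ψ z) :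
    ∑ h, (∑ z, ψ z * ψ (z + h)) ^ 2 ≤
      ((Fintype.card F : ℝ) ^ m) ^ 3 * (τ + m / Fintype.card F) := by
  have hN : (0 : ℝ) < (Fintype.card F : ℝ) ^ m := by exact_mod_cast pow_pos Fintype.card_pos m
  have a1 := avg (e := e) (fun h => ∑ z, ψ z * ψ (z + h)) (wt e ψ) tor (fun a h => by
      rw [← (tor a).sum_comp]
      simp only [← tor_add, h3]) (fun h ξ => ξ ⬝ᵥ h)
    (S := (Fintype.card F : ℝ) ^ m * ∑ h, (∑ z, ψ z * ψ (z + h)) ^ 2) (by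
      simp only [← mul_sum, auto he, ← Complex.ofReal_mul, ← Complex.ofReal_sum]
      rw [Complex.ofReal_inj, mul_sum]
      exact sum_congr rfl fun h _ => by ring) (fun h ξ => τ + zi h + oi ξ) fun h ξ => by
      have := ks_le h0 hτ h 1 0 ξ
      rw [← ks_eq] at this
      simpa [show ∀ a : Fˣ, (tor a).symm (0 : Fin m → F) = 0 from
        fun a => funext fun i => mul_zero _, zi, oi] using this
  have a2 : ∀ h, |∑ z, ψ z * ψ (z + h)| ≤ (Fintype.card F : ℝ) ^ m := fun h =>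
    (abs_sum_le_sum_abs _ _).trans ((sum_le_sum fun z _ => abs_mul_le (h1 _) (h1 _)).trans
      (by simp))
  have a3 : wt e ψ 0 = 0 := by simp [wt, ← Complex.ofReal_sum, h2]
  have a4 : ∀ h, ∑ ξ, |∑ z, ψ z * ψ (z + h)| * |wt e ψ ξ| * (τ + zi h + oi ξ) ≤
      ((Fintype.card F : ℝ) ^ m) ^ 3 * (τ + zi h) := fun h => by
    have b1 : ∀ ξ, |wt e ψ ξ| * (τ + zi h + oi ξ) = wt e ψ ξ * (τ + zi h) := fun ξ => by
      rw [abs_of_nonneg (wt_nonneg _ _), oi]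
      split_ifs with c
      · simp [c, a3]
      · rw [add_zero]
    simp only [mul_assoc, b1, ← mul_sum, ← sum_mul]
    have b2 := wt_sum he ψ h1
    have b3 := zi_nonneg h
    have b4 := a2 h
    have b5 : 0 ≤ ∑ ξ, wt e ψ ξ := sum_nonneg fun _ _ => wt_nonneg _ _
    have b6 : 0 ≤ τ + zi h := add_nonneg h0 b3
    exact (mul_le_mul b4 (mul_le_mul_of_nonneg_right b2 b6) (mul_nonneg b5 b6) hN.le).trans_eq
      (by ring)
  refine le_of_mul_le_mul_left (a1.trans ((sum_le_sum fun h _ => a4 h).trans ?_)) hN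
  rw [← mul_sum, sum_add_distrib, mul_left_comm, mul_add _ τ]
  refine mul_le_mul_of_nonneg_left (add_le_add (by simp) zi_sum) (by positivity)

end Pool.Agent.MP_a43263_nt.h72

end MrgPart2

-- ======== part 3: formerly Pool.Agent.MP_a43263_nt.h72.U3
section MrgPart3

/-! The third uniformity norm of a function that is invariant under the torus. -/

namespace Pool.Agent.MP_a43263_nt.h72

open Finset

theorem tot {A : Type} [Fintype A] (W z o : A → ℝ) (τ : ℝ) (w0 : ∀ P, 0 ≤ W P) :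
    ∑ P, ∑ Q, |W P| * |W Q| * (τ + z P + z Q + o P * o Q) =
      τ * ((∑ P, W P) * ∑ P, W P) + (∑ P, W P * z P) * ∑ P, W P +
      (∑ P, W P) * ∑ P, W P * z P + (∑ P, W P * o P) * ∑ P, W P * o P := by
  simp only [sum_mul_sum, mul_sum _ _ τ, ← sum_add_distrib, abs_of_nonneg (w0 _)]
  exact sum_congr rfl fun P _ => sum_congr rfl fun Q _ => by ring

variable {F : Type} [Field F] [Fintype F] [DecidableEq F] {e : AddChar F ℂ} {m : ℕ}

/-- the ambiguity function -/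
noncomputable def ww (e : AddChar F ℂ) (ψ : (Fin m → F) → ℝ) (P : (Fin m → F) × (Fin m → F)) : ℝ :=
  wt e (fun z => ψ z * ψ (z + P.1)) P.2

theorem ww_id (he : e.IsPrimitive) (ψ : (Fin m → F) → ℝ) :
    ((((Fintype.card F : ℝ) ^ m) ^ 2 * ∑ h, ∑ k, cub ψ h k ^ 2 : ℝ) : ℂ) =
      ∑ P, ∑ Q, ww e ψ P * (ww e ψ Q * e (P.2 ⬝ᵥ Q.1 + Q.2 ⬝ᵥ P.1)) := by
  have w2 : ∀ h k, ∑ ξ, (ww e ψ (h, ξ) : ℂ) * e (ξ ⬝ᵥ k) =
      (((Fintype.card F : ℝ) ^ m * cub ψ h k : ℝ) : ℂ) := fun h k =>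
    auto he (fun z => ψ z * ψ (z + h)) k
  have w3 : ∀ h k, cub ψ h k = cub ψ k h := fun h k => sum_congr rfl fun z _ => by
    rw [add_right_comm z k h]; ring
  rw [Fintype.sum_prod_type, mul_sum, Complex.ofReal_sum]
  refine sum_congr rfl fun h _ => ?_
  simp only [Fintype.sum_prod_type]
  rw [sum_comm, mul_sum, Complex.ofReal_sum]
  refine sum_congr rfl fun k _ => ?_
  rw [← mul_pow, sq, Complex.ofReal_mul]
  rw [(congrArg₂ (· * ·) (w2 h k) ((w2 k h).trans (by rw [w3 k h]))).symm.trans (sum_mul_sum ..)]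
  refine sum_congr rfl fun ξ _ => sum_congr rfl fun η _ => ?_
  rw [e.map_add_eq_mul]
  ring

theorem u3 (he : e.IsPrimitive) {τ : ℝ} (h0 : 0 ≤ τ)
    (hτ : ∀ u v : Fin m → F, u ≠ 0 ∨ v ≠ 0 → ‖ks e u v‖ ≤ Fintype.card Fˣ * τ)
    (ψ : (Fin m → F) → ℝ) (h1 : ∀ z, |ψ z| ≤ 1) (h2 : ∑ z, ψ z = 0)
    (h3 : ∀ a z, ψ (tor a z) = ψ z) :
    ∑ h, ∑ k, cub ψ h k ^ 2 ≤
      ((Fintype.card F : ℝ) ^ m) ^ 4 * (2 * τ + 3 * (m / Fintype.card F)) := by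
  have hN : (0 : ℝ) < (Fintype.card F : ℝ) ^ m := by exact_mod_cast pow_pos Fintype.card_pos m
  have w0 : ∀ P, 0 ≤ ww e ψ P := fun _ => wt_nonneg _ _
  have w1 : ∀ h, ∑ ξ, ww e ψ (h, ξ) ≤ ((Fintype.card F : ℝ) ^ m) ^ 2 := fun h =>
    wt_sum he (fun z => ψ z * ψ (z + h)) fun _ => abs_mul_le (h1 _) (h1 _)
  have w4 : ∀ h, ww e ψ (h, 0) = (∑ z, ψ z * ψ (z + h)) ^ 2 := fun h => by
    simp only [ww, wt, zero_dotProduct, AddChar.map_zero_eq_one, mul_one, ← Complex.ofReal_sum,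
      Complex.norm_real, Real.norm_eq_abs, sq_abs]
  have w5 : ∀ (a : Fˣ) P, ww e ψ (((tor a).prodCongr (tor a).symm) P) = ww e ψ P := fun a P => by
    simp only [ww, wt, Equiv.prodCongr_apply, Prod.map_fst, Prod.map_snd]
    rw [← (tor a).sum_comp]
    simp only [← tor_add, h3, tor_dot]
  have a1 := avg (e := e) (ww e ψ) (ww e ψ) (fun a => (tor a).prodCongr (tor a).symm) w5
    (fun P Q => P.2 ⬝ᵥ Q.1 + Q.2 ⬝ᵥ P.1) (ww_id he ψ)
    (fun P Q => τ + zi P.1 + zi Q.1 + oi P.2 * oi Q.2) fun P Q =>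
      (congrArg _ (ks_eq P.1 Q.1 P.2 Q.2)).trans_le (ks_le h0 hτ P.1 Q.1 P.2 Q.2)
  rw [tot (ww e ψ) (fun P => zi P.1) (fun P => oi P.2) τ w0] at a1
  have s1 : ∑ P, ww e ψ P ≤ ((Fintype.card F : ℝ) ^ m) ^ 3 := by
    rw [Fintype.sum_prod_type]
    refine (sum_le_sum fun h _ => w1 h).trans (le_of_eq ?_)
    rw [sum_const, card_univ, Fintype.card_fun, Fintype.card_fin, nsmul_eq_mul, Nat.cast_pow]
    ring
  have s2 : ∑ P, ww e ψ P * zi P.1 ≤ ((Fintype.card F : ℝ) ^ m) ^ 3 * (m / Fintype.card F) := by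
    rw [Fintype.sum_prod_type]
    simp only [← sum_mul]
    refine (sum_le_sum fun h _ => mul_le_mul_of_nonneg_right (w1 h) (zi_nonneg h)).trans ?_
    rw [← mul_sum, pow_succ _ 2, mul_assoc]
    exact mul_le_mul_of_nonneg_left zi_sum (pow_pos hN 2).le
  have s3 : ∑ P, ww e ψ P * oi P.2 ≤
      ((Fintype.card F : ℝ) ^ m) ^ 3 * (τ + m / Fintype.card F) := by
    rw [Fintype.sum_prod_type]
    simp only [oi, mul_ite, mul_one, mul_zero, sum_ite_eq', mem_univ, if_true, w4]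
    exact u2 he h0 hτ ψ h1 h2 h3
  have s4 : ∑ P, ww e ψ P * oi P.2 ≤ ((Fintype.card F : ℝ) ^ m) ^ 3 := (sum_le_sum fun P _ =>
    mul_le_of_le_one_right (w0 P) (by unfold oi; split_ifs <;> norm_num)).trans s1
  have t1 : 0 ≤ ∑ P, ww e ψ P := sum_nonneg fun P _ => w0 P
  have t2 : 0 ≤ ∑ P, ww e ψ P * zi P.1 := sum_nonneg fun P _ => mul_nonneg (w0 P) (zi_nonneg _)
  have t3 : 0 ≤ ∑ P, ww e ψ P * oi P.2 := sum_nonneg fun P _ => mul_nonneg (w0 P) (oi_nonneg _)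
  have t4 := (pow_pos hN 3).le
  refine le_of_mul_le_mul_left (a1.trans ?_) (pow_pos hN 2)
  exact (add_le_add (add_le_add (add_le_add
    (mul_le_mul_of_nonneg_left (mul_le_mul s1 s1 t1 t4) h0) (mul_le_mul s2 s1 t1 (t2.trans s2)))
    (mul_le_mul s1 s2 t2 t4)) (mul_le_mul s3 s4 t3 (t3.trans s3))).trans_eq (by ring)

end Pool.Agent.MP_a43263_nt.h72

end MrgPart3

-- ======== part 4: formerly Pool.Agent.MP_a43263_nt.W1.Tri
section MrgPart4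

/-! THEOREM W: three complete shifts. -/

set_option autoImplicit false

namespace Pool.Agent.MP_a43263_nt.W1

open Finset Filter h72

namespace Tri

theorem small (c ε : ℝ) (hε : 0 < ε) : ∃ r₀ : ℕ, ∀ r : ℕ, r₀ ≤ r → c ≤ ε * r := by
  obtain ⟨n, hn⟩ := exists_nat_ge (c / ε)
  refine ⟨n, fun r hr => ?_⟩
  rw [div_le_iff₀' hε] at hn
  exact hn.trans (mul_le_mul_of_nonneg_left (Nat.cast_le.2 hr) hε.le)

theorem laur (m : ℕ) (τ : ℝ) (hτ : 0 < τ) : ∃ r₀ : ℕ, ∀ (r : ℕ) [Fact r.Prime], r₀ ≤ r →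
    ∀ u v : Fin m → ZMod r, u ≠ 0 ∨ v ≠ 0 →
      ‖ks ZMod.stdAddChar u v‖ ≤ Fintype.card (ZMod r)ˣ * τ := by
  obtain ⟨n, hn⟩ := small (m * (2 * m + 1) ^ (2 * m + 1) * 2 ^ (2 * m + 1)) (τ ^ (4 * m + 2))
    (by positivity)
  refine ⟨n + m + 1, fun r hr h u v huv => ?_⟩
  have h1 := mordell (ZMod.isPrimitive_stdAddChar r) (fun k k1 k2 => by
    rw [Ne, ZMod.natCast_eq_zero_iff]
    exact Nat.not_dvd_of_pos_of_lt k1 (by omega)) u v huv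
  have h2 : (r : ℝ) ≤ 2 * Fintype.card (ZMod r)ˣ := by
    have := hr.out.two_le
    rw [ZMod.card_units]
    exact_mod_cast (by omega : r ≤ 2 * (r - 1))
  have h3 : (0 : ℝ) < r := by exact_mod_cast hr.out.pos
  rw [ZMod.card] at h1
  obtain ⟨c, hc⟩ : ∃ c : ℝ, c = Fintype.card (ZMod r)ˣ := ⟨_, rfl⟩
  rw [← hc] at h1 h2 ⊢
  have h4 : 0 < c := by linarith
  have h5 := hn r (by omega)
  refine le_of_pow_le_pow_left₀ (n := 4 * m + 2) (by omega) (by positivity) (h1.trans ?_)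
  refine le_of_mul_le_mul_left ?_ (pow_pos two_pos (2 * m + 1))
  calc _ = m * (2 * m + 1) ^ (2 * m + 1) * 2 ^ (2 * m + 1) * ((r : ℝ) ^ (2 * m) * c ^ (2 * m + 1)) := by
        ring
    _ ≤ τ ^ (4 * m + 2) * r * ((r : ℝ) ^ (2 * m) * c ^ (2 * m + 1)) :=
        mul_le_mul_of_nonneg_right h5 (by positivity)
    _ = τ ^ (4 * m + 2) * c ^ (2 * m + 1) * (r : ℝ) ^ (2 * m + 1) := by ring
    _ ≤ τ ^ (4 * m + 2) * c ^ (2 * m + 1) * (2 * c) ^ (2 * m + 1) :=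
        mul_le_mul_of_nonneg_left (pow_le_pow_left₀ h3.le h2 _) (by positivity)
    _ = _ := by rw [mul_pow, mul_pow]; ring

theorem cube_sum {m r : ℕ} [NeZero r] (G : (Fin m → ℕ) → ℝ) :
    ∑ b ∈ cube m r, G b = ∑ x : Fin m → ZMod r, G fun i => (x i).val := by
  refine sum_nbij' (fun b i => (b i : ZMod r)) (fun x i => (x i).val) (fun _ _ => mem_univ _)
    (fun x _ => Fintype.mem_piFinset.2 fun i => mem_range.2 (ZMod.val_lt _))
    (fun b hb => funext fun i => ZMod.val_cast_of_lt (mem_range.1 (Fintype.mem_piFinset.1 hb i)))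
    (fun x _ => funext fun i => ZMod.natCast_zmod_val _) fun b hb => ?_
  congr 1
  exact funext fun i => (ZMod.val_cast_of_lt (mem_range.1 (Fintype.mem_piFinset.1 hb i))).symm

end Tri

open Tri in
theorem tri : TRIStmt := by
  intro m δ hδ
  obtain ⟨r₁, h₁⟩ := laur m (δ ^ 8 / 4) (by positivity)
  obtain ⟨r₂, h₂⟩ := small m (δ ^ 8 / 6) (by positivity)
  refine ⟨r₁ + r₂, fun r hr h ψ z n₁ n₂ n₃ A B D hψ a1 a2 a3 hA hB hD => ?_⟩
  have h3 : (0 : ℝ) < r := by exact_mod_cast hr.out.pos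
  have u := u3 (ZMod.isPrimitive_stdAddChar r) (by positivity) (h₁ r (by omega)) ψ hψ.bdd hψ.zero
    hψ.inv
  let E : ∀ n : ℤ, ¬(r : ℤ) ∣ n → (Fin m → ZMod r) ≃ (Fin m → ZMod r) := fun n hn =>
    MulAction.toPerm (Units.mk0 (n : ZMod r) (mt (ZMod.intCast_zmod_eq_zero_iff_dvd n r).1 hn))
  let E1 := (E n₁ a1).trans (Equiv.addLeft z)
  let vl : (Fin m → ZMod r) → Fin m → ℕ := fun x i => (x i).val
  have b := box ψ (fun y w => A (vl ((E n₂ a2).symm y)) (vl ((E n₃ a3).symm w)))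
    (fun x w => B (vl (E1.symm x)) (vl ((E n₃ a3).symm w)))
    (fun x y => D (vl (E1.symm x)) (vl ((E n₂ a2).symm y))) (fun _ _ => hA _ _) (fun _ _ => hB _ _)
    fun _ _ => hD _ _
  have e : ∑ b ∈ cube m r, ∑ h ∈ cube m r, ∑ k ∈ cube m r,
      ψ (z + fun i => ((n₁ * b i + n₂ * h i + n₃ * k i : ℤ) : ZMod r)) * (A h k * B b k * D b h) =
      ∑ x, ∑ y, ∑ w, ψ (x + y + w) * A (vl ((E n₂ a2).symm y)) (vl ((E n₃ a3).symm w)) *
        B (vl (E1.symm x)) (vl ((E n₃ a3).symm w)) * D (vl (E1.symm x)) (vl ((E n₂ a2).symm y)) := by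
    rw [cube_sum]
    refine Fintype.sum_equiv E1 _ _ fun x => ?_
    rw [cube_sum]
    refine Fintype.sum_equiv (E n₂ a2) _ _ fun y => ?_
    rw [cube_sum]
    refine Fintype.sum_equiv (E n₃ a3) _ _ fun w => ?_
    simp only [Equiv.symm_apply_apply, mul_assoc]
    congr 2
    funext i
    show z i + _ = z i + (n₁ : ZMod r) * x i + (n₂ : ZMod r) * y i + (n₃ : ZMod r) * w i
    push_cast
    simp only [ZMod.natCast_zmod_val]
    ring
  rw [e]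
  rw [Fintype.card_fun, ZMod.card, Fintype.card_fin, Nat.cast_pow] at b
  rw [ZMod.card] at u
  have c : (m : ℝ) / r ≤ δ ^ 8 / 6 := (div_le_iff₀ h3).2 (h₂ r (by omega))
  refine le_of_pow_le_pow_left₀ (n := 8) (by omega) (by positivity) ?_
  rw [Even.pow_abs (by decide)]
  refine b.trans ((mul_le_mul_of_nonneg_left (u.trans (mul_le_mul_of_nonneg_left
    (show _ ≤ δ ^ 8 by linarith) (by positivity))) (by positivity)).trans_eq (by ring))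

end Pool.Agent.MP_a43263_nt.W1

end MrgPart4

-- ======== part 5: formerly Pool.Agent.MP_a43263_nt.W1.SpecB
section MrgPart5

/-! THEOREM W, algebraic part and assembly: statements. Note: `/team-store/W1_BLUEPRINT.md`. -/

set_option autoImplicit false

noncomputable section

namespace Pool.Agent.MP_a43263_nt.W1

open Polynomial Finset Filter JC
open UV (Qb zK Nm Nx)
open VV (GQ Fam Ty Ev NF Str Wv SelT Od OdP mo)
open VD (Cx Sv act CLoc par)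

theorem fm_eq {R : Type} [CommRing R] {n : ℕ} (c : Fin n → R) : fm c = VV.fm c := rfl

theorem mem_bx {g k : ℕ} {c : Vec g} : c ∈ bx g k ↔ VE.Sb k c := by
  simp only [bx, ce, Fintype.mem_piFinset, mem_Icc, VE.Sb, abs_le]
  exact forall_congr' fun i => by constructor <;> rintro ⟨a, b⟩ <;> constructor <;> linarith

/-- no quadratic subfield -/
def Noq (f : ℚ[X]) : Prop := ∀ (x : ℚ[X]) (c : ℚ), f ∣ x ^ 2 - C c → ∃ t : ℚ, f ∣ x - C t

/-- the index of the doubles -/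
abbrev ix (f : ℚ[X]) : ℕ := (nsmulAddMonoidHom (α := VJ.JQ f) 2).range.index

/-- rank one, no 2-torsion, trivial 2-part of the Tate-Shafarevich group -/
def Rk1 (f : ℚ[X]) : Prop := Module.Finite ℤ (VJ.JQ f) ∧ Module.finrank ℤ (VJ.JQ f) = 1 ∧
  (∀ P : VJ.JQ f, 2 • P = 0 → P = 0) ∧ ∀ x ∈ VJ.JSha f, ∀ k : ℕ, 2 ^ k • x = 0 → x = 0

/-- the output of the sieve -/
def Sif (g : ℕ) (Q : Finset ℕ) (f : ℤ[X]) : Prop := Fam g f ∧
  (∀ q ∈ Q, q.Prime ∧ q % 8 = 1 ∧ Ty g q f) ∧ (∀ p : ℕ, p.Prime → ¬Nx p f) ∧ Str Q f ∧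
  ∀ p : ℕ, p.Prime → p ≤ 2 * g + 2 → VE.Tz g p f

/-- there is no local condition at a good prime -/
def GEVStmt : Prop := ∀ (p : ℕ) [Fact p.Prime] (g : ℕ) (f : ℤ[X]) (δ : ℚ_[p][X]), Fam g f →
  Gd g p f → IsCoprime δ (zK f ℚ_[p]) → IsSquare (Nm (mo (zK f ℚ_[p])) δ) → Ev p f δ

/-- reciprocity, with a twist at 2 -/
def REC2Stmt : Prop := ∀ (g : ℕ) (f : ℤ[X]) (Q : Finset ℕ) (δ : ℚ[X]) (u y : ℕ → ZMod 2)
  (c : ℚ_[2]), c ≠ 0 → Fam g f → (∀ q ∈ Q, q.Prime ∧ q % 4 = 1 ∧ Ty g q f) →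
  IsCoprime δ (zK f ℚ) → IsSquare (Nm (mo (zK f ℚ)) δ) →
  Wv (C c * zK f ℚ_[2]) (fK δ ℚ_[2]) 0 →
  (∀ (p : ℕ) [Fact p.Prime], p ∉ Q → Ev p f (fK δ ℚ_[p])) →
  (∀ (q : ℕ) [Fact q.Prime], q ∈ Q → NF q f (fK δ ℚ_[q]) (u q) (y q)) → ∑ q ∈ Q, u q * y q = 0

/-- many twists without Selmer group -/
def KILL2Stmt : Prop := ∀ (g : ℕ) (f : ℤ[X]) (Q : Finset ℕ) (c : ℤ), Sif g Q f → Odd c →
  ∃ S ⊆ Q, ∀ D : ℤ, 8 ∣ D - c → (∀ q ∈ S, (q : ℤ) ∣ D ∧ ¬(q : ℤ) ^ 2 ∣ D) →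
    (∀ p : ℕ, p.Prime → (p : ℤ) ∣ D → p ∈ S ∨ (p ∉ Q ∧ Gd g p f)) → SelT (C (D : ℚ) * zK f ℚ)

/-- the main step of the descent, for even classes -/
def CORE2Stmt : Prop := ∀ (g : ℕ) (f : ℚ[X]), Sv g f → OdP f → SelT f →
  ∀ c : GQ → Cx (fK f Qb), IsLocallyConstant c → (∀ σ τ, c (σ * τ) = c σ * act f σ (c τ)) →
  (∀ (p : ℕ) [Fact p.Prime], CLoc f ℚ_[p] c) → ∀ Y : Cx (fK f Qb), par Y = 0 →
  (∀ σ, c σ ^ 2 = act f σ Y / Y) → ∃ y, y ^ 2 = Y ∧ ∀ σ, c σ = act f σ y / y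

/-- no invariant class of order two -/
def TORStmt : Prop := ∀ (g : ℕ) (f : ℚ[X]), Sv g f → Noq f → ∀ x : Cx (fK f Qb), x ^ 2 = 1 →
  (∀ σ : GQ, act f σ x = x) → x = 1

/-- descent in the presence of a rational divisor of odd degree -/
def FIN2Stmt : Prop := ∀ (g : ℕ) (f : ℚ[X]), Sv g f → Noq f → Od f → SelT f →
  (∀ P : VJ.JQ f, 2 • P = 0 → P = 0) ∧ ix f = 2 ∧
    ∀ x ∈ VJ.JSha f, ∀ k : ℕ, 2 ^ k • x = 0 → x = 0

/-- the theorem of Mordell and Weil from its weak form -/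
def MW2Stmt : Prop := ∀ (g : ℕ) (f : ℚ[X]), f.natDegree = 2 * g + 2 → Irreducible f →
  (∀ s : ℚ[X], ¬f ∣ s ^ 2 - C f.leadingCoeff) → ix f ≠ 0 → Module.Finite ℤ (VJ.JQ f)

/-- one polynomial -/
def ONEStmt : Prop := ∀ (g : ℕ) (f : ℤ[X]) (Q : Finset ℕ), Sif g Q f → ∃ S ⊆ Q,
  ∀ (M : ℕ) (x : ℤ), (∀ q ∈ Q, q ∣ M) → 8 ∣ x - 1 → Gp g M (∏ q ∈ S, q) f x →
    f.eval x ≠ 0 ∧ Rk1 (C ((f.eval x : ℤ) : ℚ) * zK f ℚ)

/-- the sieve -/
def SIFStmt : Prop := ∀ g : ℕ, 2 ≤ g → ∃ (Q : Finset ℕ) (ε : ℝ), 0 < ε ∧ (∀ q ∈ Q, q.Prime) ∧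
  ∀ᶠ k : ℕ in atTop, ε * (k : ℝ) ^ (2 * g + 3) ≤ cnt g k fun c => Sif g Q (fm c)

/-- admissible classes exist -/
def CLSStmt : Prop := ∀ (g : ℕ) (f : ℤ[X]) (Q S : Finset ℕ) (M : ℕ), Sif g Q f → S ⊆ Q → 0 < M →
  ∃ a : ℤ, 8 ∣ a - 1 ∧ ((∏ q ∈ S, q : ℕ) : ℤ) ∣ f.eval a ∧
    IsCoprime (f.eval a / ((∏ q ∈ S, q : ℕ) : ℤ)) (M : ℤ)

/-- the conclusion for one polynomial -/
def Best (g H : ℕ) (f : ℚ[X]) : Prop := f.natDegree = 2 * g + 2 ∧ Irreducible f ∧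
  ∃ a : ℤ, |(a : ℝ)| ≤ Real.log H ^ 7 ∧ f.eval (a : ℚ) ≠ 0 ∧ Rk1 (C (f.eval (a : ℚ)) * f)

def MAINStmt : Prop := ∀ g : ℕ, 2 ≤ g → ∃ ε : ℝ, 0 < ε ∧ ∀ᶠ H : ℕ in atTop,
  ε * ({c : Vec g | ∀ i, |c i| ≤ H}.ncard : ℝ) ≤
    ({c : Vec g | (∀ i, |c i| ≤ H) ∧ Best g H (fm fun i => (c i : ℚ))}.ncard : ℝ)

theorem main_of (all : ALLStmt) (gev : GEVStmt) (rec2 : REC2Stmt)
    (kill2 : GEVStmt → REC2Stmt → KILL2Stmt) (core2 : CORE2Stmt) (tor : TORStmt)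
    (fin2 : CORE2Stmt → TORStmt → FIN2Stmt) (mw2 : MW2Stmt)
    (one : KILL2Stmt → FIN2Stmt → MW2Stmt → ONEStmt) (sif : SIFStmt) (cls : CLSStmt)
    (main : ALLStmt → ONEStmt → SIFStmt → CLSStmt → MAINStmt) : MAINStmt :=
  main all (one (kill2 gev rec2) (fin2 core2 tor) mw2) sif cls

end Pool.Agent.MP_a43263_nt.W1

end
end MrgPart5

-- ======== part 6: formerly Pool.Agent.MP_a43263_nt.W1.Core2
section MrgPart6

/-! THEOREM W: the main step of the descent for even classes. -/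

set_option autoImplicit false

noncomputable section

namespace Pool.Agent.MP_a43263_nt.W1

open Polynomial JC JC.Mum Filter Topology VD VD.Sgn VD.Core
open Pool.Agent.MP_a43263_nt.UV (Qb)
open VV (GQ HStmt Od Wv)

theorem Core2.aux (move : MOVEStmt) (rat : VD.RATStmt) (half : VD.HALFStmt) (za : ZAStmt) (zb : ZBStmt)
    (gal : GALStmt) (H : HStmt) : CORE2Stmt := by
  intro g f s od sel c lc co lo Y pY h2
  have sQ := sv s Qb
  have em : ∀ (φ : ℚ →+* Qb) (p : ℚ[X]), p.map φ = fK p Qb := fun φ p => by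
    rw [RingHom.ext_rat φ (Rat.castHom Qb)]
  obtain ⟨z1, z2, z3, z4, z5, z6, z7, -⟩ := za _ g _ sQ
  obtain ⟨U, V, hU, hd, cp, rfl⟩ := move Qb g _ sQ Y _ sQ.ne
  have nu := sQ.nu_MI hU hd
  have nv : ∀ σ : GQ, Nu (MI _ (U.map (σ : Qb →+* Qb)) (V.map (σ : Qb →+* Qb))) _ := fun σ =>
    sQ.nu_MI (hU.map _) ((RatA.dvd_map _ (fK_map f _)).2 hd)
  obtain ⟨t, ht⟩ := IsAlgClosed.exists_root (fK f Qb) 
    (by rw [sQ.degree]; exact_mod_cast (by omega : 2 * g + 2 ≠ 0))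
  choose r hr using fun θ : Qb => IsAlgClosed.exists_pow_nat_eq (U.eval θ) two_pos
  have r0 : ∀ {θ}, (fK f Qb).eval θ = 0 → r θ ≠ 0 := fun h c =>
    cop_ne cp h (by rw [← hr, c, zero_pow two_ne_zero])
  have ex : ∀ (x : Cx (fK f Qb)) (A B : Qb[X]), ∃ ρ, (∃ ρ', Z _ x (MI _ A B * cj (MI _ U V)) ρ') →
      Z _ x (MI _ A B * cj (MI _ U V)) ρ := fun x A B => by
    by_cases c : ∃ ρ', Z _ x (MI _ A B * cj (MI _ U V)) ρ'
    · exact ⟨_, fun _ => c.choose_spec⟩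
    · exact ⟨0, fun h => absurd h c⟩
  choose pk hpk using ex
  obtain ⟨ρ, hρ⟩ : ∃ ρ : GQ → Qb → Qb, ∀ σ, ρ σ =
    pk (c σ) (U.map (σ : Qb →+* Qb)) (V.map (σ : Qb →+* Qb)) := ⟨_, fun _ => rfl⟩
  have hz : ∀ σ : GQ, Z _ (c σ) (MI _ (U.map (σ : Qb →+* Qb)) (V.map (σ : Qb →+* Qb)) *
      cj (MI _ U V)) (ρ σ) := fun σ => by
    rw [hρ]
    refine hpk _ _ _ (z2 _ _ _ (nu_mul (nv σ) (nu_cj nu)) ?_)
    rw [h2, cx_mul (nv σ) (nu_cj nu), cx_cj nu, div_eq_mul_inv, sQ.cmap_MI _ _ hU hd]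
    rfl
  obtain ⟨e, hE⟩ : ∃ e : GQ → Qb → ℤˣ, ∀ σ θ, e σ θ = sg (ρ σ θ / (r θ * σ (r (σ⁻¹ θ)))) :=
    ⟨_, fun _ _ => rfl⟩
  have n1 : ∀ (σ : GQ) {θ}, (fK f Qb).eval θ = 0 → r (σ θ) * σ (r θ) ≠ 0 := fun σ θ h =>
    mul_ne_zero (r0 (root_act σ h)) ((_root_.map_ne_zero σ).2 (r0 h))
  have ev : ∀ (σ : GQ) (p : Qb[X]) θ, (p.map (σ : Qb →+* Qb)).eval (σ θ) = σ (p.eval θ) :=
    fun σ => ev_map (σ : Qb →+* Qb)
  have ta : ∀ (σ : GQ) (z : Qb → Qb) θ, tr (σ : Qb →+* Qb) z (σ θ) = σ (z θ) :=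
    fun σ => tr_apply (σ : Qb →+* Qb)
  have he : ∀ (σ : GQ) θ, (fK f Qb).eval θ = 0 →
      ρ σ (σ θ) = (e σ (σ θ) : ℤ) * (r (σ θ) * σ (r θ)) := fun σ θ h => by
    rw [hE, show σ⁻¹ (σ θ) = θ from σ.symm_apply_apply θ, sg_val, div_mul_cancel₀ _ (n1 σ h)]
    rw [div_pow, (z1 _ _ _ _ (hz σ) (nu_mul (nv σ) (nu_cj nu))).2 _ (root_act σ h), eval_mul, ev,
      ← hr, ← hr, map_pow, ← mul_pow, mul_comm, div_self (pow_ne_zero 2 (n1 σ h))]
  have L := fun (p : ℕ) [Fact p.Prime] =>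
    loc move rat za s hU hd cp h2 hr hz he ℚ_[p] (od p) (lo p)
  refine (sgn gal H s.ne ht e (fun θ h => ?_) (fun σ τ => ?_) fun p _ => ?_).elim
    fun q ⟨b, hq⟩ => ?_
  · refine (IsLocallyConstant.iff_eventually_eq _).2 fun σ0 => ?_
    filter_upwards [lc.eventually_eq σ0, RatA.ev_map σ0 U, RatA.ev_map σ0 V, ev_inv σ0 θ,
      RatA.ev_apply σ0 (r (σ0⁻¹ θ))] with σ h1 h2 h3 h4 h5
    rw [hE, hE, hρ, hρ, h1, h2, h3, h4, h5]
  · have k1 := z3 _ _ _ _ _ _ (hz σ) (z_map za s (σ : Qb →+* Qb) (hz τ))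
    have k2 := z3 _ _ _ _ _ _ (hz (σ * τ)) (z7 _ (hU.map (σ : Qb →+* Qb)))
    rw [mul_one, co] at k2
    have e1 : (σ : Qb →+* Qb).comp (τ : Qb →+* Qb) = (σ * τ : GQ) := rfl
    simp only [Ideal.map_mul, map_cj, RatA.map_MI, Polynomial.map_map, e1] at k1
    rw [rb (nv σ).2] at k1
    obtain ⟨η, h1, h3⟩ := z6 _ _ _ _ k2 k1
    refine ⟨sg η, fun θ h => val_inj (K := Qb) ?_⟩
    obtain ⟨θ', rfl⟩ := τ.surjective θ
    have h' : (fK f Qb).eval θ' = 0 := by simpa using root_act τ⁻¹ h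
    have k3 := h3 _ (root_act σ h)
    have k4 := he (σ * τ) θ' h'
    rw [AlgEquiv.mul_apply, AlgEquiv.mul_apply] at k4
    rw [ta, ev, he σ _ h, he τ _ h', k4, ← hr] at k3
    simp only [map_mul, map_intCast, map_pow] at k3
    simp only [Units.val_mul, Int.cast_mul, sg_val h1]
    refine mul_right_cancel₀ (mul_ne_zero (n1 σ h) ((_root_.map_ne_zero σ).2 (n1 τ h'))) ?_
    rw [map_mul]
    linear_combination k3
  · obtain ⟨_, _, -, -, -, -, u, h1, h3⟩ := L p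
    exact ⟨u, fun θ h => (h1 θ h).1, h3⟩
  obtain ⟨-, G⟩ := gal.1 ℚ
  obtain ⟨-, g2, g3, -⟩ := G f _ (em _ f) s.sep
  have q2 : ∀ (σ : GQ) θ, (fK f Qb).eval θ = 0 → σ (q θ ^ 2) = q (σ θ) ^ 2 := fun σ θ h => by
    rw [map_pow, (hq θ h).2, mul_pow, val_sq, one_mul]
  obtain ⟨δ, hδ⟩ := g3 (fun θ => q θ ^ 2) q2
  rw [em] at hδ
  have cδ : IsCoprime δ f := (g2 δ).2 fun θ h => by
    rw [em, hδ θ h]
    exact pow_ne_zero 2 (hq θ h).1
  have W : ∀ (p : ℕ) [Fact p.Prime], Wv (fK f ℚ_[p]) (fK δ ℚ_[p]) U.natDegree := fun p _ => by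
    obtain ⟨U1, V1, a1, a2, a3, a4, u, h1, h3⟩ := L p
    obtain ⟨-, G⟩ := gal.1 ℚ_[p]
    obtain ⟨g1, -, -, g4⟩ := G _ _ (fK_map f _) (sv s _).sep
    have iv := Function.leftInverse_invFun (emb ℚ_[p]).injective
    obtain ⟨a, P, a0, hP⟩ := g4 (fun y => emb ℚ_[p] (q (Function.invFun (emb ℚ_[p]) y)) *
      u (Function.invFun (emb ℚ_[p]) y)) fun σ => by
        obtain ⟨τ, hτ⟩ := exists_res ℚ_[p] σ
        obtain ⟨b', hb⟩ := h3 σ τ hτ
        refine ⟨((b τ * b' : ℤˣ) : ℤ), val_sq _, fun y hy => ?_⟩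
        obtain ⟨θ, h, rfl⟩ := root_surj s (emb ℚ_[p]) hy
        have k := hb θ h
        rw [← hτ, iv, iv, map_mul, ← hτ, (hq θ h).2]
        simp only [Units.val_mul, Int.cast_mul, map_mul, map_intCast]
        linear_combination (-((b τ : ℤ) * (e τ (τ θ) : ℤ) * emb ℚ_[p] (q (τ θ)) * (b' : ℤ))) * k +
          ((b τ : ℤ) * emb ℚ_[p] (q (τ θ)) * (b' : ℤ) * u (τ θ)) *
            val_sq (K := AlgebraicClosure ℚ_[p]) (e τ (τ θ)) -
          ((b τ : ℤ) * (e τ (τ θ) : ℤ) * emb ℚ_[p] (q (τ θ)) * σ (u θ)) *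
            val_sq (K := AlgebraicClosure ℚ_[p]) b'
    refine ⟨cop_map _ rfl cδ, U1, V1, C a * P, a, a1, a2, a3, a4, a0,
      g1 _ fun y hy => ?_⟩
    have k := hP y hy
    obtain ⟨θ, h, rfl⟩ := root_surj s (emb ℚ_[p]) hy
    rw [iv, mul_pow, (h1 θ h).2, ← map_pow, ← hδ θ h, ← root_map] at k
    simp only [Polynomial.map_sub, Polynomial.map_mul, Polynomial.map_pow, map_C, fK_map, eval_sub,
      eval_mul, eval_pow, eval_C]
    linear_combination (algebraMap ℚ_[p] (AlgebraicClosure ℚ_[p]) a) * k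
  have p0 : (U.natDegree : ZMod 2) = 0 := (sQ.par_MI hU hd).symm.trans pY
  obtain ⟨a, z, a0, w, hw⟩ := sel δ (p0 ▸ W)
  obtain ⟨γ, hγ⟩ := IsAlgClosed.exists_pow_nat_eq (a : Qb) two_pos
  have e1 : ∀ θ, (fK f Qb).eval θ = 0 → q θ ^ 2 = (γ * (fK z Qb).eval θ) ^ 2 := fun θ h => by
    have := congrArg (fun p => (fK p Qb).eval θ) hw
    simp only [fK, Polynomial.map_sub, Polynomial.map_mul, Polynomial.map_pow, eval_sub, eval_mul,
      eval_pow, hδ θ h, h, zero_mul, map_C, eval_C] at this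
    rw [mul_pow, hγ]
    exact sub_eq_zero.1 this
  have n2 : ∀ {θ}, (fK f Qb).eval θ = 0 → γ * (fK z Qb).eval θ ≠ 0 := fun h c =>
    pow_ne_zero 2 (hq _ h).1 (by rw [e1 _ h, c, zero_pow two_ne_zero])
  obtain ⟨R, hR⟩ := half Qb g _ sQ (cx (MI _ U V)) (by rw [sQ.par_MI hU hd, p0])
  obtain ⟨π, hπ⟩ := z2 R _ _ nu hR
  have e2 := (z1 _ _ _ _ hπ nu).2
  obtain ⟨T, hT⟩ := (zb Qb g _ sQ).2 (fun θ => q θ / (γ * (fK z Qb).eval θ) * (r θ / π θ))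
    fun θ h => by
      rw [mul_pow, div_pow, div_pow, e1 θ h, hr, e2 θ h, div_self (pow_ne_zero 2 (n2 h)),
        div_self (cop_ne cp h), one_mul]
  have k0 := z5 _ _ _ (fun θ => q θ / (γ * (fK z Qb).eval θ) * r θ) 1 (z3 _ _ _ _ _ _ hπ hT)
    (one_pow 2) fun θ h => by
      have : π θ ≠ 0 := fun c => cop_ne cp h (by rw [← e2 θ h, c, zero_pow two_ne_zero])
      field_simp
  rw [Ideal.mul_top] at k0
  refine ⟨R * T, (z1 _ _ _ _ k0 nu).1, fun σ => ?_⟩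
  have k1 := z3 _ _ _ _ _ _ (z_map za s (σ : Qb →+* Qb) k0) (z4 _ _ _ k0)
  rw [RatA.map_MI] at k1
  have γ0 : γ ≠ 0 := left_ne_zero_of_mul (n2 ht)
  have e3 : σ γ ^ 2 = γ ^ 2 := by rw [← map_pow, hγ, map_ratCast]
  refine (zb Qb g _ sQ).1 _ _ _ _ _ (nu_mul (nv σ) (nu_cj nu)) 
    ((cop_map _ (fK_map f (σ : Qb →+* Qb)) cp).mul_left cp) (hz σ) ?_
  rw [div_eq_mul_inv]
  refine z5 _ _ _ _ ((b σ : ℤ) * (σ γ / γ)) k1
    (by rw [mul_pow, val_sq, div_pow, e3, div_self (pow_ne_zero 2 γ0), one_mul]) fun θ h => ?_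
  obtain ⟨θ, rfl⟩ := σ.surjective θ
  have h' : (fK f Qb).eval θ = 0 := by simpa using root_act σ⁻¹ h
  have k2 := e1 _ h
  have k3 := root_map (σ : Qb →+* Qb) z θ
  have k4 := n2 h
  rw [RingHom.coe_coe] at k3
  rw [ta, he σ θ h', map_mul, map_div₀, map_mul, ← k3, (hq θ h').2]
  have : σ γ ≠ 0 := (_root_.map_ne_zero σ).2 γ0
  have := right_ne_zero_of_mul k4
  simp only [Units.val_mul, Int.cast_mul]
  field_simp
  linear_combination (-(r (σ θ) * σ (r θ))) * k2 -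
    (r (σ θ) * σ (r θ) * q (σ θ) ^ 2) * val_sq (K := Qb) (b σ)

theorem core2 : CORE2Stmt :=
  Core2.aux VD.move (VD.rat VD.prin) (VD.half VD.prin) (VD.za VD.move) (VD.zb (VD.za VD.move))
    VD.gal VH.abhn

end Pool.Agent.MP_a43263_nt.W1

end
end MrgPart6

-- ======== part 7: formerly Pool.Agent.MP_a43263_nt.W1.Cls
section MrgPart7

/-! THEOREM W, row CLS: admissible classes exist. -/

set_option autoImplicit false

noncomputable section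

namespace Pool.Agent.MP_a43263_nt.W1

open Polynomial Finset
open UV (zK Nx)

namespace Cls

theorem cop {p q : ℕ} (hp : p.Prime) (hq : q.Prime) (h : p ≠ q) : IsCoprime (p : ℤ) (q : ℤ) :=
  Nat.isCoprime_iff_coprime.2 ((Nat.coprime_primes hp hq).2 h)

theorem crt (ρ : ℕ → ℤ) (P : Finset ℕ) (hP : ∀ p ∈ P, p.Prime) :
    ∃ a : ℤ, ∀ p ∈ P, (p : ℤ) ^ 3 ∣ a - ρ p := by
  induction P using Finset.induction_on with
  | empty => exact ⟨0, by simp⟩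
  | insert q P hq ih =>
    obtain ⟨a, ha⟩ := ih fun p hp => hP p (mem_insert_of_mem hp)
    obtain ⟨u, v, e⟩ : IsCoprime (∏ p ∈ P, (p : ℤ) ^ 3) ((q : ℤ) ^ 3) :=
      IsCoprime.prod_left fun p hp => (cop (hP p (mem_insert_of_mem hp))
        (hP q (mem_insert_self q P)) fun e => hq (e ▸ hp)).pow
    refine ⟨a + (ρ q - a) * u * ∏ p ∈ P, (p : ℤ) ^ 3, fun p hp => ?_⟩
    rcases mem_insert.1 hp with rfl | hp
    · exact ⟨(a - ρ p) * v, by linear_combination (ρ p - a) * e⟩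
    · rw [add_sub_right_comm]
      exact (ha p hp).add ((dvd_prod_of_mem _ hp).mul_left _)

theorem ev (f : ℤ[X]) (p : ℕ) (x : ℤ) :
    (p : ℤ) ∣ f.eval x ↔ (zK f (ZMod p)).eval (x : ZMod p) = 0 := by
  rw [← ZMod.intCast_zmod_eq_zero_iff_dvd, eval_intCast_map, eq_intCast, Int.cast_id]

theorem simple {f : ℤ[X]} {p : ℕ} (hp : p.Prime) (h0 : (p : ℤ) ∣ f.eval 0) (hn : ¬Nx p f) :
    ∃ ρ : ℤ, (p : ℤ) ∣ f.eval ρ ∧ ¬(p : ℤ) ^ 2 ∣ f.eval ρ := by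
  by_contra! H
  obtain ⟨a, c0, c1, rfl⟩ : ∃ (a : ℤ[X]) (c0 c1 : ℤ), f = X * (X * a + C c1) + C c0 :=
    ⟨f.divX.divX, f.coeff 0, f.divX.coeff 0, by rw [X_mul_divX_add, X_mul_divX_add]⟩
  obtain ⟨c, hc⟩ := H 0 h0
  simp only [eval_add, eval_mul, eval_X, eval_C, zero_mul, zero_add] at hc h0
  obtain ⟨b, hb⟩ := H p (by
    simp only [eval_add, eval_mul, eval_X, eval_C]
    exact (dvd_mul_right _ _).add h0)
  simp only [eval_add, eval_mul, eval_X, eval_C] at hb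
  have h1 : c1 = p * (b - c - a.eval (p : ℤ)) :=
    mul_left_cancel₀ (Int.natCast_ne_zero.2 hp.ne_zero) (by linear_combination hb - hc)
  refine hn ⟨X, a, C (b - c - a.eval (p : ℤ)), C c, monic_X, by simp, ?_⟩
  rw [h1, hc, C_mul, C_mul, C_pow]
  ring

theorem loc {g : ℕ} {f : ℤ[X]} {Q S : Finset ℕ} (h : Sif g Q f) (hS : S ⊆ Q) (p : ℕ) :
    ∃ ρ : ℤ, p.Prime → (p = 2 → ρ = 1) ∧ (p ∈ S → (p : ℤ) ∣ f.eval ρ ∧ ¬(p : ℤ) ^ 2 ∣ f.eval ρ) ∧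
      (p ∉ S → ¬(p : ℤ) ∣ f.eval ρ) := by
  by_cases hp : p.Prime
  swap
  · exact ⟨0, fun h => absurd h hp⟩
  have : Fact p.Prime := ⟨hp⟩
  obtain ⟨hF, hQ, hN, -, hT⟩ := h
  by_cases hs : p ∈ S
  · obtain ⟨-, h8, c, k, -, e, -⟩ := hQ p (hS hs)
    obtain ⟨ρ, hρ⟩ := simple hp ((ev f p 0).2 (by rw [e]; simp)) (hN p hp)
    exact ⟨ρ, fun _ => ⟨fun e => by omega, fun _ => hρ, fun h => absurd hs h⟩⟩
  by_cases hl : p ≤ 2 * g + 2
  · obtain ⟨k, e, hi, hd⟩ := hT p hp hl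
    refine ⟨1, fun _ => ⟨fun _ => rfl, fun h => absurd h hs, fun _ h => ?_⟩⟩
    rw [ev, e, Int.cast_one, eval_mul, eval_X, one_mul] at h
    have h1 : k.natDegree = 1 :=
      natDegree_eq_of_degree_eq_some (degree_eq_one_of_irreducible_of_root hi h)
    have := hF.pos
    omega
  · obtain ⟨x, hx⟩ : ∃ x, (zK f (ZMod p)).eval x ≠ 0 := by
      by_contra! H
      refine VA.fam_red hF hp (eq_zero_of_natDegree_lt_card_of_eval_eq_zero _
        (f := id) Function.injective_id H ?_)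
      have h1 : (zK f (ZMod p)).natDegree ≤ f.natDegree := natDegree_map_le
      rw [ZMod.card]
      have := hF.deg
      omega
    obtain ⟨ρ, rfl⟩ := ZMod.intCast_surjective x
    exact ⟨ρ, fun _ => ⟨fun e => by omega, fun h => absurd h hs, fun _ h => hx ((ev f p ρ).1 h)⟩⟩

end Cls

open Cls in
theorem cls : CLSStmt := by
  intro g f Q S M h hS hM
  choose ρ hρ using loc h hS
  have hp : ∀ q ∈ S, q.Prime := fun q hq => (h.2.1 q (hS hq)).1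
  obtain ⟨a, ha⟩ := crt ρ (insert 2 (M.primeFactors ∪ S)) fun p hp' => by
    rcases mem_insert.1 hp' with rfl | hp'
    · exact Nat.prime_two
    · exact (mem_union.1 hp').elim Nat.prime_of_mem_primeFactors (hp p)
  have tr : ∀ p ∈ M.primeFactors ∪ S, ∀ n ≤ 3,
      ((p : ℤ) ^ n ∣ f.eval a ↔ (p : ℤ) ^ n ∣ f.eval (ρ p)) := fun p hp' n hn =>
    dvd_iff_dvd_of_dvd_sub (((pow_dvd_pow _ hn).trans (ha p (mem_insert_of_mem hp'))).trans
      (sub_dvd_eval_sub _ _ f))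
  have hd : ((∏ q ∈ S, q : ℕ) : ℤ) ∣ f.eval a := by
    rw [Nat.cast_prod]
    refine prod_dvd_of_coprime (fun p hp1 q hq e => cop (hp p hp1) (hp q hq) e) fun q hq => ?_
    have := (tr q (mem_union_right _ hq) 1 (by norm_num)).2
    simp only [pow_one] at this
    exact this (((hρ q (hp q hq)).2.1 hq).1)
  refine ⟨a, ?_, hd, ?_⟩
  · have := ha 2 (mem_insert_self _ _)
    rwa [(hρ 2 Nat.prime_two).1 rfl] at this
  · obtain ⟨e, he⟩ := hd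
    have h0 : ((∏ q ∈ S, q : ℕ) : ℤ) ≠ 0 :=
      Int.natCast_ne_zero.2 (prod_ne_zero_iff.2 fun q hq => (hp q hq).ne_zero)
    rw [he, Int.mul_ediv_cancel_left _ h0, Int.isCoprime_iff_nat_coprime, Int.natAbs_natCast]
    refine Nat.coprime_of_dvd fun r hr h1 h2 => ?_
    have h3 : (r : ℤ) ∣ e := Int.natCast_dvd.2 h1
    have h4 := tr r (mem_union_left _ (Nat.mem_primeFactors.2 ⟨hr, h2, hM.ne'⟩))
    by_cases hs : r ∈ S
    · refine ((hρ r hr).2.1 hs).2 ((h4 2 (by norm_num)).1 ?_)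
      rw [he, sq]
      exact mul_dvd_mul (Int.natCast_dvd_natCast.2 (dvd_prod_of_mem _ hs)) h3
    · refine (hρ r hr).2.2 hs ?_
      have := (h4 1 (by norm_num)).1
      simp only [pow_one] at this
      exact this (he ▸ h3.mul_left _)

end Pool.Agent.MP_a43263_nt.W1

end
end MrgPart7

-- marker of a merged file
example : 731051 + 841891 = 731051 + 841891 := rfl
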