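import Mathlib.Analysis.SpecialFunctions.Pow.NthRootLemmas
import Mathlib.Data.Nat.Prime.Factorial
import Pool.Agent.MP_a43263_nt.W1.Cls

-- ======== part 0: formerly Pool.Agent.MP_a43263_nt.W1.Basic
section MrgPart0

/-! THEOREM W: small tools. -/

set_option autoImplicit false

noncomputable section

namespace Pool.Agent.MP_a43263_nt.W1

open Polynomial Finset Filter

theorem ind_pos {P : Prop} (h : P) : ind P = 1 := if_pos h

theorem ind_neg {P : Prop} (h : ¬P) : ind P = 0 := if_neg h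

theorem ind_nonneg (P : Prop) : 0 ≤ ind P := by
  by_cases h : P
  · rw [ind_pos h]; exact zero_le_one
  · rw [ind_neg h]

theorem ind_le_one (P : Prop) : ind P ≤ 1 := by
  by_cases h : P
  · rw [ind_pos h]
  · rw [ind_neg h]; exact zero_le_one

theorem ind_congr {P Q : Prop} (h : P ↔ Q) : ind P = ind Q := by rw [propext h]

theorem ind_mono {P Q : Prop} (h : P → Q) : ind P ≤ ind Q := by
  by_cases k : P
  · rw [ind_pos k, ind_pos (h k)]
  · rw [ind_neg k]; exact ind_nonneg Q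

theorem ind_and (P Q : Prop) : ind (P ∧ Q) = ind P * ind Q := by
  by_cases h : P
  · rw [ind_pos h, one_mul, ind_congr (and_iff_right h)]
  · rw [ind_neg h, zero_mul, ind_neg fun k => h k.1]

theorem of_ind_ne {P : Prop} (h : ind P ≠ 0) : P := by_contra fun k => h (ind_neg k)

variable {g k : ℕ} {P Q : Vec g → Prop}

theorem cnt_nonneg : 0 ≤ cnt g k P := sum_nonneg fun _ _ => ind_nonneg _

theorem cnt_mono (h : ∀ c ∈ bx g k, P c → Q c) : cnt g k P ≤ cnt g k Q :=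
  sum_le_sum fun c hc => ind_mono (h c hc)

theorem cnt_le_card : cnt g k P ≤ (bx g k).card := by
  simpa [cnt] using sum_le_card_nsmul (bx g k) (fun c => ind (P c)) 1 fun _ _ => ind_le_one _

open Classical in
theorem cnt_eq_card : cnt g k P = ((bx g k).filter P).card := by
  simp [cnt, ind]

theorem cnt_eq_ncard : cnt g k P = ({c | c ∈ bx g k ∧ P c}.ncard : ℝ) := by
  classical
  rw [cnt_eq_card, ← Set.ncard_coe_finset, coe_filter]

/-- the union bound -/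
theorem cnt_le_sum {ι : Type} (s : Finset ι) (R : ι → Vec g → Prop)
    (h : ∀ c ∈ bx g k, P c → ∃ i ∈ s, R i c) : cnt g k P ≤ ∑ i ∈ s, cnt g k (R i) := by
  simp only [cnt]
  rw [sum_comm]
  refine sum_le_sum fun c hc => ?_
  by_cases e : P c
  · obtain ⟨i, hi, r⟩ := h c hc e
    rw [ind_pos e, ← ind_pos r]
    exact single_le_sum (f := fun i => ind (R i c)) (fun _ _ => ind_nonneg _) hi
  · rw [ind_neg e]
    exact sum_nonneg fun _ _ => ind_nonneg _

theorem cnt_le_add {R : Vec g → Prop} (h : ∀ c ∈ bx g k, P c → Q c ∨ R c) :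
    cnt g k P ≤ cnt g k Q + cnt g k R := by
  simp only [cnt]
  rw [← sum_add_distrib]
  refine sum_le_sum fun c hc => ?_
  by_cases e : P c
  · rw [ind_pos e]
    rcases h c hc e with r | r <;> rw [ind_pos r]
    · exact le_add_of_nonneg_right (ind_nonneg _)
    · exact le_add_of_nonneg_left (ind_nonneg _)
  · rw [ind_neg e]
    exact add_nonneg (ind_nonneg _) (ind_nonneg _)

/-- Markov -/
theorem cnt_mul_le {a : ℝ} {F : Vec g → ℝ} (h0 : ∀ c ∈ bx g k, 0 ≤ F c)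
    (h : ∀ c ∈ bx g k, P c → a ≤ F c) : cnt g k P * a ≤ ∑ c ∈ bx g k, F c := by
  rw [cnt, sum_mul]
  refine sum_le_sum fun c hc => ?_
  by_cases e : P c
  · rw [ind_pos e, one_mul]; exact h c hc e
  · rw [ind_neg e, zero_mul]; exact h0 c hc

/-- the logarithm is large -/
theorem ev_le_log (a : ℝ) : ∀ᶠ t : ℕ in atTop, a ≤ Real.log t :=
  (Real.tendsto_log_atTop.comp tendsto_natCast_atTop_atTop).eventually_ge_atTop a

/-- powers of the logarithm are small -/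
theorem ev_log_le (a : ℝ) (A : ℕ) : ∀ᶠ t : ℕ in atTop, a * Real.log t ^ A ≤ t := by
  have h := (Real.isLittleO_pow_log_id_atTop (n := A)).const_mul_left a
  filter_upwards [tendsto_natCast_atTop_atTop.eventually (h.bound one_pos)] with t ht
  rw [one_mul, id, Real.norm_natCast] at ht
  exact (le_abs_self _).trans ht

theorem nl_le (t : ℕ) : (nl t : ℝ) ≤ Real.log t ^ 6 := Nat.floor_le (by positivity)

theorem le_nl {t : ℕ} (h : 1 ≤ Real.log t) : Real.log t ^ 6 / 2 ≤ nl t := by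
  have h1 : (1 : ℝ) ≤ Real.log t ^ 6 := one_le_pow₀ h
  have h2 := Nat.lt_floor_add_one (Real.log t ^ 6)
  have h3 : (1 : ℝ) ≤ (⌊Real.log t ^ 6⌋₊ : ℕ) := by exact_mod_cast Nat.le_floor (by simpa using h1)
  rw [nl]
  linarith

theorem pt_nonneg (M a j : ℕ) : 0 ≤ pt M a j := by rw [pt]; positivity

/-- the points are small -/
theorem ev_pt (M a : ℕ) : ∀ᶠ t : ℕ in atTop, ∀ j ∈ range (nl t),
    1 + (pt M a j : ℝ) ≤ Real.log t ^ 7 := by
  filter_upwards [ev_le_log (1 + a + (M : ℝ) ^ 3), ev_le_log 1] with t h h1 j hj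
  have h2 : (j : ℝ) ≤ Real.log t ^ 6 := (Nat.cast_le.2 (mem_range.1 hj).le).trans (nl_le t)
  have h3 : (1 : ℝ) ≤ Real.log t ^ 6 := one_le_pow₀ h1
  have h4 : (0 : ℝ) ≤ (M : ℝ) ^ 3 := by positivity
  have h5 : (0 : ℝ) ≤ a := by positivity
  rw [pt]
  push_cast
  calc 1 + (a + (M : ℝ) ^ 3 * j) ≤ (1 + a + (M : ℝ) ^ 3) * Real.log t ^ 6 := by nlinarith
    _ ≤ Real.log t * Real.log t ^ 6 := by gcongr
    _ = _ := by ring

/-- the vector of a constant -/
def e0 (g : ℕ) (n : ℤ) : Vec g := Pi.single 0 n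

theorem val_e0 (geo : GEOStmt) (n x : ℤ) : val (e0 g n) x = n := by
  rw [geo.2.2.1, sum_eq_single 0 (fun i _ h => by simp [e0, h]) (by simp)]
  simp [e0]

end Pool.Agent.MP_a43263_nt.W1

end
end MrgPart0

-- ======== part 1: formerly Pool.Agent.MP_a43263_nt.W1.Lam
section MrgPart1

/-! THEOREM W, row LAM: the weight on products of five primes. -/

set_option autoImplicit false

noncomputable section

namespace Pool.Agent.MP_a43263_nt.W1

open Finset

namespace Lam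

theorem mem_pr {a b r : ℕ} : r ∈ pr a b ↔ (a < r ∧ r ≤ b) ∧ r.Prime := by
  rw [pr, mem_filter, mem_Ioc]

variable {t r r' : ℕ} {s s' : Finset ℕ}

theorem of_quad (hs : s ∈ quad t) :
    s.card = 4 ∧ ∀ x ∈ s, (t ^ 8 < x ∧ x ≤ 2 * t ^ 8) ∧ x.Prime := by
  obtain ⟨h1, h2⟩ := mem_powersetCard.1 hs
  exact ⟨h2, fun x hx => mem_pr.1 (h1 hx)⟩

theorem not_mem (hs : s ∈ quad t) (hr : r ∈ pr (2 * t ^ 8) (t ^ 10)) : r ∉ s := fun h =>
  absurd ((of_quad hs).2 r h).1.2 (not_le.2 (mem_pr.1 hr).1.1)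

theorem all_prime (hs : s ∈ quad t) (hr : r ∈ pr (2 * t ^ 8) (t ^ 10)) :
    ∀ x ∈ insert r s, x.Prime := fun x hx => by
  rcases mem_insert.1 hx with e | e
  · exact e ▸ (mem_pr.1 hr).2
  · exact ((of_quad hs).2 x e).2

theorem prod_eq (hs : s ∈ quad t) (hr : r ∈ pr (2 * t ^ 8) (t ^ 10)) :
    (∏ x ∈ s, x) * r = ∏ x ∈ insert r s, x := by
  rw [prod_insert (not_mem hs hr), mul_comm]

theorem fac (hs : s ∈ quad t) (hr : r ∈ pr (2 * t ^ 8) (t ^ 10)) :
    ((∏ x ∈ s, x) * r).primeFactors = insert r s := by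
  rw [prod_eq hs hr, Nat.primeFactors_prod (all_prime hs hr)]

theorem uniq (hs : s ∈ quad t) (hr : r ∈ pr (2 * t ^ 8) (t ^ 10)) (hs' : s' ∈ quad t)
    (hr' : r' ∈ pr (2 * t ^ 8) (t ^ 10)) (e : (∏ x ∈ s, x) * r = (∏ x ∈ s', x) * r') :
    s = s' ∧ r = r' := by
  have h : insert r s = insert r' s' := by rw [← fac hs hr, e, fac hs' hr']
  have h1 : r = r' := (mem_insert.1 (h ▸ mem_insert_self r s)).resolve_right (not_mem hs' hr)
  subst h1
  exact ⟨by rw [← erase_insert (not_mem hs hr), h, erase_insert (not_mem hs' hr)], rfl⟩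

theorem lam_eq (hs : s ∈ quad t) (hr : r ∈ pr (2 * t ^ 8) (t ^ 10)) :
    lam t (((∏ x ∈ s, x) * r : ℕ) : ℤ) = Real.log r := by
  rw [lam, sum_eq_single_of_mem s hs, sum_eq_single_of_mem r hr, if_pos rfl]
  · exact fun b hb ne => if_neg fun e => ne (uniq hs hb hs hr (Nat.cast_injective e)).2
  · exact fun b hb ne => sum_eq_zero fun c hc =>
      if_neg fun e => ne (uniq hb hc hs hr (Nat.cast_injective e)).1

theorem lam_cases (t : ℕ) (u : ℤ) : lam t u = 0 ∨ ∃ s ∈ quad t, ∃ r ∈ pr (2 * t ^ 8) (t ^ 10),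
    (((∏ x ∈ s, x) * r : ℕ) : ℤ) = u := by
  by_contra h
  rw [not_or] at h
  exact h.1 (sum_eq_zero fun s hs => sum_eq_zero fun r hr => if_neg fun e => h.2 ⟨s, hs, r, hr, e⟩)

end Lam

open Lam in
theorem lamp : LAMStmt := by
  intro t u ht
  have h1 : (0 : ℝ) ≤ Real.log t := Real.log_natCast_nonneg t
  rcases lam_cases t u with h | ⟨s, hs, r, hr, rfl⟩
  · rw [h]
    exact ⟨le_rfl, by positivity, fun e => absurd rfl e⟩
  obtain ⟨⟨r1, r2⟩, rp⟩ := mem_pr.1 hr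
  have h8 : 0 < t ^ 8 := by positivity
  have h2 : 2 * t ^ 8 ≤ t ^ 10 := (r1.le).trans r2
  rw [lam_eq hs hr, Int.natAbs_natCast, fac hs hr]
  refine ⟨Real.log_natCast_nonneg r, ?_, fun _ => ⟨?_, ?_, ?_, fun x hx => ?_⟩⟩
  · have : Real.log r ≤ Real.log ((t : ℝ) ^ 10) :=
      Real.log_le_log (by exact_mod_cast rp.pos) (by exact_mod_cast r2)
    rw [Real.log_pow] at this
    exact_mod_cast this
  · have : 0 < ∏ x ∈ s, x := prod_pos fun x hx => ((of_quad hs).2 x hx).2.pos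
    exact_mod_cast lt_of_lt_of_le rp.one_lt (Nat.le_mul_of_pos_left r this)
  · rw [prod_eq hs hr]
    exact squarefree_prod_of_pairwise_isCoprime
      (fun x hx y hy ne => Nat.coprime_iff_isRelPrime.1
        ((Nat.coprime_primes (all_prime hs hr x hx) (all_prime hs hr y hy)).2 ne))
      fun x hx => (all_prime hs hr x hx).squarefree
  · rw [card_insert_of_notMem (not_mem hs hr), (of_quad hs).1]
  · rcases mem_insert.1 hx with e | e
    · exact e ▸ ⟨by omega, r2⟩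
    · exact ⟨((of_quad hs).2 x e).1.1, ((of_quad hs).2 x e).1.2.trans h2⟩

end Pool.Agent.MP_a43263_nt.W1

end
end MrgPart1

-- ======== part 2: formerly Pool.Agent.MP_a43263_nt.W1.M2
section MrgPart2

/-! THEOREM W: the second moment. -/

set_option autoImplicit false

noncomputable section

namespace Pool.Agent.MP_a43263_nt.W1

open Polynomial Finset Filter

namespace M2

/-- the vector of `n (X - x')` -/
def e1 (g : ℕ) (n x' : ℤ) : Vec g :=
  fun i => if i.1 = 0 then -(n * x') else if i.1 = 1 then n else 0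

theorem val_e1 (geo : GEOStmt) (g : ℕ) (n x' y : ℤ) : val (e1 g n x') y = n * (y - x') := by
  rw [geo.2.2.1, Fin.sum_univ_succ, Fin.sum_univ_succ]
  simp [e1]
  ring

theorem dvd_e1 (g : ℕ) {N n : ℤ} (h : N ∣ n) (x' : ℤ) (i : Fin (2 * g + 3)) :
    N ∣ e1 g n x' i := by
  unfold e1
  split_ifs
  · exact (h.mul_right _).neg_right
  · exact h
  · exact dvd_zero _

theorem abs_e1 (g : ℕ) (n : ℤ) {x' : ℤ} (h : 0 ≤ x') (i : Fin (2 * g + 3)) :
    |e1 g n x' i| ≤ |n| * (1 + x') := by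
  have h0 := abs_nonneg n
  unfold e1
  split_ifs
  · rw [abs_neg, abs_mul, abs_of_nonneg h]; nlinarith
  · nlinarith
  · rw [abs_zero]; positivity

/-- the cofactor is prime to the difference of the indices -/
theorem cop (geo : GEOStmt) (lamp : LAMStmt) {g M d a t j j' : ℕ} {P : Vec g → Prop}
    (D : Dat g M d a P) (ht : 2 ≤ t) {c : Vec g} (hc : P c) (h0 : la t d c (pt M a j') ≠ 0)
    (hne : j ≠ j') (hle : ((j : ℤ) - j').natAbs ≤ t ^ 8) :
    IsCoprime (uu d c (pt M a j)) (((j : ℤ) - j').natAbs : ℤ) := by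
  obtain ⟨-, v, cu⟩ := geo.2.2.2.2 g M d a P D c j hc
  obtain ⟨-, v', -⟩ := geo.2.2.2.2 g M d a P D c j' hc
  obtain ⟨h1, -, -, h4⟩ := (lamp t _ ht).2.2 h0
  rw [Int.isCoprime_iff_gcd_eq_one]
  by_contra hg
  obtain ⟨p, hp, hd⟩ := Nat.exists_prime_and_dvd hg
  have hp' : Prime (p : ℤ) := Nat.prime_iff_prime_int.1 hp
  have a1 : (p : ℤ) ∣ uu d c (pt M a j) := (Int.natCast_dvd_natCast.2 hd).trans (Int.gcd_dvd_left ..)
  have a2 : (p : ℤ) ∣ (((j : ℤ) - j').natAbs : ℤ) :=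
    (Int.natCast_dvd_natCast.2 hd).trans (Int.gcd_dvd_right ..)
  have a3 : (p : ℤ) ∣ val c (pt M a j) - val c (pt M a j') := by
    refine dvd_trans ?_ (sub_dvd_eval_sub _ _ (fm c))
    rw [show pt M a j - pt M a j' = (M : ℤ) ^ 3 * ((j : ℤ) - j') by unfold pt; ring]
    exact (Int.dvd_natAbs.1 a2).mul_left _
  have a4 : (p : ℤ) ∣ (d : ℤ) * uu d c (pt M a j') := by
    have := a3.add (a1.mul_left (d : ℤ))
    rwa [v, v', show -((d : ℤ) * uu d c (pt M a j)) - -((d : ℤ) * uu d c (pt M a j')) +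
      (d : ℤ) * uu d c (pt M a j) = (d : ℤ) * uu d c (pt M a j') by ring] at this
  rcases hp'.dvd_or_dvd a4 with a5 | a5
  · exact hp'.not_isUnit (cu.isUnit_of_dvd' a1 (a5.trans (Int.natCast_dvd_natCast.2 D.dvd)))
  · have b1 := (h4 p (Nat.mem_primeFactors.2 ⟨hp, Int.natCast_dvd.1 a5, by omega⟩)).1
    have b2 := Nat.le_of_dvd (by omega) (Int.natCast_dvd_natCast.1 a2)
    omega

theorem pf_eq {M m Δ : ℕ} (hM : 0 < M) (hm : m ∣ M) (hΔ : 0 < Δ) :
    (M ^ 5 * m * Δ).primeFactors = (M * Δ).primeFactors := by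
  have h0 : 0 < m := Nat.pos_of_dvd_of_pos hm hM
  refine subset_antisymm ?_ (Nat.primeFactors_mono ⟨M ^ 4 * m, by ring⟩ (by positivity))
  rw [← Nat.primeFactors_pow (M * Δ) (k := 6) (by norm_num)]
  obtain ⟨e, he⟩ := hm
  exact Nat.primeFactors_mono ⟨e * Δ ^ 5, by rw [mul_pow, pow_succ M 5]; nth_rw 2 [he]; ring⟩
    (by positivity)

/-- the two error terms -/
theorem err {n A : ℕ} {L k T R R' C : ℝ} (hL : 1 ≤ L) (hk : 1 ≤ k) (hT : T ≤ k) (hT0 : 0 ≤ T)
    (h1 : k / L ^ (A + 10) ≤ R) (h2 : R ≤ 2 * (k / L ^ (A + 10))) (hC : 0 ≤ C)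
    (h3 : R' ≤ R * C * L ^ 7) (h4 : 3 ^ (n + 1) * (10 + 800 * (n + 1) * C) ≤ L) :
    (2 * k + 1) ^ (n + 1) * (10 * L * (T / L ^ (2 * A + 12) / R)) +
      100 * L ^ 2 * (4 * (n + 1) * R' * (2 * k + 1) ^ n) ≤ k ^ (n + 1) / L ^ A := by
  have hL0 : 0 < L := by linarith
  have hk0 : 0 < k := by linarith
  have hR : 0 < R := lt_of_lt_of_le (by positivity) h1
  have e1 : T / L ^ (2 * A + 12) / R ≤ 1 / L ^ (A + 2) := by
    calc T / L ^ (2 * A + 12) / R ≤ k / L ^ (2 * A + 12) / (k / L ^ (A + 10)) := by gcongr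
      _ = _ := by field_simp; ring
  have e2 : R' ≤ 2 * C * k / L ^ (A + 3) := by
    calc R' ≤ 2 * (k / L ^ (A + 10)) * C * L ^ 7 := h3.trans (by gcongr)
      _ = _ := by field_simp; ring
  have e3 : 2 * k + 1 ≤ 3 * k := by linarith
  have e4 : (3 : ℝ) ^ n ≤ 3 ^ (n + 1) := pow_le_pow_right₀ (by norm_num) n.le_succ
  calc _ ≤ (3 * k) ^ (n + 1) * (10 * L * (1 / L ^ (A + 2))) +
        100 * L ^ 2 * (4 * (n + 1) * (2 * C * k / L ^ (A + 3)) * (3 * k) ^ n) := by gcongr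
    _ = (3 ^ (n + 1) * 10 + 3 ^ n * (800 * (n + 1) * C)) * (k ^ (n + 1) / L ^ (A + 1)) := by
        field_simp; ring
    _ ≤ L * (k ^ (n + 1) / L ^ (A + 1)) := by
        gcongr
        calc _ ≤ 3 ^ (n + 1) * 10 + 3 ^ (n + 1) * (800 * (n + 1) * C) := by gcongr
          _ ≤ L := by linarith
    _ = _ := by field_simp; ring

end M2

open M2 in
theorem m2 : SHStmt → GEOStmt → LAMStmt → SIGStmt → APLStmt → PHIStmt → M2Stmt := by
  intro shf geo lamp _ apl phil g M d a P D A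
  filter_upwards [apl (2 * A + 12) 7 (7 * (2 * g + 2) + 1), ev_pt M a, ev_le_log 1,
    ev_le_log ((M : ℝ) ^ 6), ev_le_log (2 ^ 44 * (2 * g + 3) + 2 ^ 42),
    ev_le_log (3 ^ (2 * g + 2 + 1) * (10 + 800 * (((2 * g + 2 : ℕ) : ℝ) + 1) * (M : ℝ) ^ 3)),
    ev_log_le 1 6, ev_log_le 1 (A + 10), eventually_ge_atTop (13 * M + 2)]
    with t hapl hpt l1 l2 l3 l4 l5 l6 ht k hk j hj j' hj' hne
  have hM := D.pos
  obtain ⟨m, hm⟩ := D.dvd
  have hd : 0 < d := Nat.pos_of_dvd_of_pos D.dvd hM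
  have hmM : m ∣ M := ⟨d, by rw [hm, mul_comm]⟩
  have hm0 : 0 < m := Nat.pos_of_dvd_of_pos hmM hM
  have ht2 : 2 ≤ t := by omega
  rw [one_mul] at l5 l6
  set L := Real.log t with hL
  set x := pt M a j with hx
  set x' := pt M a j' with hx'
  set Δ := ((j : ℤ) - j').natAbs with hΔ
  have hΔ0 : 0 < Δ := by omega
  have hΔ1 : (Δ : ℝ) ≤ L ^ 6 := by
    have := mem_range.1 hj
    have := mem_range.1 hj'
    exact (Nat.cast_le.2 (by omega : Δ ≤ nl t)).trans (nl_le t)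
  have htt : t ≤ t ^ 8 := Nat.le_self_pow (by norm_num) t
  have hΔ2 : Δ ≤ t ^ 8 := (Nat.cast_le.1 (hΔ1.trans l5)).trans htt
  have htk : t ≤ k := (Nat.le_self_pow (by norm_num) t).trans hk.1
  have hk1 : (1 : ℝ) ≤ k := by exact_mod_cast (by omega : 1 ≤ k)
  have hk2 : (t : ℝ) ^ 41 ≤ k := by exact_mod_cast hk.1
  have hk3 : (k : ℝ) ≤ 2 ^ 41 * (t : ℝ) ^ 41 := by exact_mod_cast hk.2
  have hL0 : 0 < L := by linarith
  obtain ⟨s, s1, s2⟩ : ∃ s : ℤ, |s| = 1 ∧ s * ((j : ℤ) - j') = Δ := by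
    rcases Int.natAbs_eq ((j : ℤ) - j') with e | e
    · exact ⟨1, by simp, by rw [one_mul]; exact e⟩
    · exact ⟨-1, by simp, by rw [hΔ]; linarith⟩
  have hq1 : 1 ≤ k / L ^ (A + 10) := by
    rw [le_div_iff₀ (by positivity), one_mul]
    exact l6.trans (Nat.cast_le.2 htk)
  set R := ⌈(k : ℝ) / L ^ (A + 10)⌉₊ with hR
  have r1 : (k : ℝ) / L ^ (A + 10) ≤ R := Nat.le_ceil _
  have r2 : (R : ℝ) ≤ 2 * (k / L ^ (A + 10)) := by
    have := Nat.ceil_lt_add_one (a := (k : ℝ) / L ^ (A + 10)) (by linarith)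
    linarith
  have r3 : (0 : ℝ) < R := by linarith
  have r4 : 0 < R := by exact_mod_cast r3
  set q := M ^ 5 * m * Δ with hq
  have q0 : 0 < q := by positivity
  have q1 : (q : ℝ) ≤ L ^ 7 := by
    have : (m : ℝ) ≤ M := Nat.cast_le.2 (Nat.le_of_dvd hM hmM)
    calc (q : ℝ) = (M : ℝ) ^ 5 * m * Δ := by rw [hq]; push_cast; ring
      _ ≤ (M : ℝ) ^ 5 * M * L ^ 6 := by gcongr
      _ = (M : ℝ) ^ 6 * L ^ 6 := by ring
      _ ≤ L * L ^ 6 := by gcongr
      _ = _ := by ring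
  have q2 : ph q = ph (M * Δ) := phil.2.1 _ _ q0 (by positivity) (pf_eq hM hmM hΔ0)
  have x0 : 0 ≤ x := pt_nonneg M a j
  have x0' : 0 ≤ x' := pt_nonneg M a j'
  let h : ℕ → Vec g := fun ω => e1 g (-(s * (M : ℤ) ^ 3 * ω)) x'
  have la0 : ∀ (c : Vec g) (y : ℤ), 0 ≤ la t d c y ∧ la t d c y ≤ 10 * L := fun c y =>
    ⟨(lamp t _ ht2).1, (lamp t _ ht2).2.1⟩
  have hP : ∀ c ω, P (c + h ω) ↔ P c := fun c ω =>
    D.inv c _ (dvd_e1 g (Dvd.intro (-(s * ω)) (by ring)) x')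
  have hu' : ∀ c ω, la t d (c + h ω) x' = la t d c x' := fun c ω => by
    simp only [la, uu, geo.2.1, h, val_e1 geo, sub_self, mul_zero, add_zero]
  have hu : ∀ c ω, la t d (c + h ω) x = lam t (uu d c x + ω * q) := fun c ω => by
    have e : -(s * (M : ℤ) ^ 3 * ω) * (x - x') = (d : ℤ) * -(ω * q) := by
      have : (M : ℤ) = d * m := by exact_mod_cast hm
      rw [hq, hx, hx', pt, pt]
      push_cast
      linear_combination (-(M : ℤ) ^ 6 * ω) * s2 - (ω * (M : ℤ) ^ 5 * Δ) * this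
    simp only [la, uu, geo.2.1, h, val_e1 geo]
    rw [e, Int.add_mul_ediv_left _ _ (by omega)]
    congr 1
    ring
  have S := shf g k (R * M ^ 3 * (1 + x').toNat) ℕ (fun _ => range R) (fun _ => h)
    (fun c => ind (P c) * (la t d c x * la t d c x')) (100 * L ^ 2)
    (fun _ => ⟨0, mem_range.2 r4⟩)
    (fun c ω hω => ⟨fun i => (abs_e1 g _ x0' i).trans (by
      have : (ω : ℤ) ≤ R := by exact_mod_cast (mem_range.1 hω).le
      rw [abs_neg, abs_mul, abs_mul, s1, abs_of_nonneg (by positivity : (0 : ℤ) ≤ (M : ℤ) ^ 3),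
        abs_of_nonneg (by positivity : (0 : ℤ) ≤ (ω : ℤ))]
      push_cast
      rw [Int.toNat_of_nonneg (by omega)]
      calc 1 * (M : ℤ) ^ 3 * ω * (1 + x') ≤ 1 * (M : ℤ) ^ 3 * R * (1 + x') := by gcongr
        _ = _ := by ring), rfl, rfl⟩)
    (fun c => by
      obtain ⟨a1, a2⟩ := la0 c x
      obtain ⟨a3, a4⟩ := la0 c x'
      have a5 := ind_nonneg (P c)
      have a6 := ind_le_one (P c)
      rw [abs_of_nonneg (by positivity)]
      calc _ ≤ 1 * (10 * L * (10 * L)) := by gcongr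
        _ = _ := by ring)
  have key : ∀ c ∈ bx g k,
      (∑ ω ∈ range R, ind (P (c + h ω)) * (la t d (c + h ω) x * la t d (c + h ω) x')) /
        ((range R).card : ℝ) ≤ sig t * ph (M * Δ) * (ind (P c) * la t d c x') +
          10 * L * ((t : ℝ) ^ 41 / L ^ (2 * A + 12) / R) := by
    intro c hc
    simp only [ind_congr (hP c _), hu', hu, card_range]
    by_cases e : P c ∧ la t d c x' ≠ 0
    swap
    · have z : ind (P c) = 0 ∨ la t d c x' = 0 := by
        by_cases p : P c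
        · exact Or.inr (by_contra fun n => e ⟨p, n⟩)
        · exact Or.inl (ind_neg p)
      rcases z with z | z <;> simp only [z, zero_mul, mul_zero, sum_const_zero, zero_div, zero_add] <;>
        positivity
    obtain ⟨p, n⟩ := e
    obtain ⟨-, v, cu⟩ := geo.2.2.2.2 g M d a P D c j p
    obtain ⟨b1, b2⟩ := geo.2.2.2.1 g k c x hc x0
    rw [← hx] at v cu
    rw [v, neg_neg] at b1 b2
    have c1 : IsCoprime (uu d c x) (q : ℤ) := by
      rw [hq]
      push_cast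
      exact (cu.pow_right.mul_right (cu.of_isCoprime_of_dvd_right
        (Int.natCast_dvd_natCast.2 hmM))).mul_right (cop geo lamp D ht2 p n hne hΔ2)
    have d1 : (1 : ℤ) ≤ d := by exact_mod_cast hd
    have d2 : (d : ℤ) ≤ M := by exact_mod_cast Nat.le_of_dvd hM D.dvd
    have k0 : (t : ℤ) ^ 41 ≤ k := by exact_mod_cast hk.1
    have t0 : 13 * (M : ℤ) + 2 ≤ t := by exact_mod_cast ht
    have t1 : (0 : ℤ) < (t : ℤ) ^ 40 := by positivity
    have c2 : 64 * (t : ℤ) ^ 40 ≤ uu d c x := by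
      refine le_of_mul_le_mul_left (a := (d : ℤ)) ?_ (by omega)
      calc (d : ℤ) * (64 * (t : ℤ) ^ 40) = 64 * d * (t : ℤ) ^ 40 := by ring
        _ ≤ 5 * t * (t : ℤ) ^ 40 := by gcongr ?_ * _; omega
        _ = 5 * (t : ℤ) ^ 41 := by ring
        _ ≤ _ := by omega
    have c3 : (uu d c x : ℝ) + R * q ≤ (t : ℝ) ^ 41 * L ^ (7 * (2 * g + 2) + 1) := by
      have u1 : uu d c x ≤ 8 * k * (2 * g + 3) * (1 + x) ^ (2 * g + 2) := by nlinarith
      have u2 : (uu d c x : ℝ) ≤ 8 * k * (2 * g + 3) * (1 + (x : ℝ)) ^ (2 * g + 2) := by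
        exact_mod_cast u1
      have u3 := hpt j hj
      have u4 : (0 : ℝ) ≤ x := by exact_mod_cast x0
      have u5 : (1 : ℝ) ≤ L ^ (7 * (2 * g + 2)) := one_le_pow₀ l1
      have u6 : (R : ℝ) * q ≤ 2 * k := by
        calc (R : ℝ) * q ≤ 2 * (k / L ^ (A + 10)) * L ^ (A + 10) := by
              gcongr
              exact q1.trans (pow_le_pow_right₀ l1 (by omega))
          _ = _ := by field_simp
      calc _ ≤ 8 * (2 ^ 41 * (t : ℝ) ^ 41) * (2 * g + 3) * (L ^ 7) ^ (2 * g + 2) +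
            2 * (2 ^ 41 * (t : ℝ) ^ 41) * L ^ (7 * (2 * g + 2)) := by
            refine add_le_add (u2.trans (by gcongr)) (u6.trans ?_)
            calc 2 * (k : ℝ) = 2 * k * 1 := by ring
              _ ≤ _ := by gcongr
        _ = (t : ℝ) ^ 41 * (L ^ (7 * (2 * g + 2)) * (2 ^ 44 * (2 * g + 3) + 2 ^ 42)) := by
            rw [← pow_mul]; ring
        _ ≤ (t : ℝ) ^ 41 * (L ^ (7 * (2 * g + 2)) * L) := by gcongr
        _ = _ := by rw [← pow_succ]
    have a1 := (abs_le.1 (hapl _ q R q0 q1 c1 c2 c3)).2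
    obtain ⟨a2, a3⟩ := la0 c x'
    rw [ind_pos p]
    simp only [one_mul]
    rw [← sum_mul, ← q2]
    calc _ ≤ (R * (sig t * ph q) + (t : ℝ) ^ 41 / L ^ (2 * A + 12)) * la t d c x' / R := by
          gcongr; linarith
      _ = sig t * ph q * la t d c x' + la t d c x' * ((t : ℝ) ^ 41 / L ^ (2 * A + 12) / R) := by
          field_simp
      _ ≤ _ := by gcongr
  have K := sum_le_sum key
  rw [sum_add_distrib, ← mul_sum, sum_const, geo.1, nsmul_eq_mul] at K
  have E := err (n := 2 * g + 2) (A := A) (R' := ((R * M ^ 3 * (1 + x').toNat : ℕ) : ℝ)) l1 hk1 hk2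
    (by positivity) r1 r2 (by positivity : (0 : ℝ) ≤ (M : ℝ) ^ 3) (by
      have e : (((1 + x').toNat : ℕ) : ℝ) = 1 + (x' : ℝ) := by
        exact_mod_cast congrArg (Int.cast : ℤ → ℝ) (Int.toNat_of_nonneg (by omega : 0 ≤ 1 + x'))
      have := hpt j' hj'
      push_cast
      rw [e]
      gcongr) l4
  have S' := (abs_le.1 S).1
  rw [bd] at S'
  push_cast at K E S' ⊢
  rw [show 2 * g + 2 + 1 = 2 * g + 3 from rfl, show 2 * (g : ℝ) + 2 + 1 = 2 * g + 3 by ring] at E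
  linarith

end Pool.Agent.MP_a43263_nt.W1

end
end MrgPart2

-- ======== part 3: formerly Pool.Agent.MP_a43263_nt.W1.Var1
section MrgPart3

/-! THEOREM W: the number of values with five prime factors is concentrated. -/

set_option autoImplicit false

noncomputable section

namespace Pool.Agent.MP_a43263_nt.W1

open Polynomial Finset Filter

namespace Var1

theorem core {J : Type} (B : Finset J) (w : J → ℝ) (L : ℕ) (l : ℕ → J → ℝ) (q : ℕ → ℕ → ℝ)
    {Λ p E Q N : ℝ} (hw : ∀ c, 0 ≤ w c) (hl : ∀ j c, 0 ≤ l j c ∧ l j c ≤ Λ) (hE : 0 ≤ E)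
    (hN : 0 ≤ p * N) (hq : ∀ j j', 0 ≤ q j j')
    (hQ : ∑ j ∈ range L, ∑ j' ∈ (range L).erase j, q j j' ≤ Q)
    (h1 : ∀ j ∈ range L, |∑ c ∈ B, w c * l j c - p * N| ≤ E)
    (h2 : ∀ j ∈ range L, ∀ j' ∈ range L, j ≠ j' →
      ∑ c ∈ B, w c * (l j c * l j' c) ≤ q j j' * ∑ c ∈ B, w c * l j' c + E) :
    |∑ c ∈ B, w c * ∑ j ∈ range L, l j c - L * p * N| ≤ L * E ∧
    ∑ c ∈ B, w c * (∑ j ∈ range L, l j c) ^ 2 ≤
      Λ * ∑ c ∈ B, w c * ∑ j ∈ range L, l j c + Q * (p * N + E) + L ^ 2 * E := by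
  have e1 : ∑ c ∈ B, w c * ∑ j ∈ range L, l j c = ∑ j ∈ range L, ∑ c ∈ B, w c * l j c := by
    simp only [mul_sum]
    exact sum_comm
  have e2 : ∑ c ∈ B, w c * (∑ j ∈ range L, l j c) ^ 2 =
      ∑ j ∈ range L, ∑ j' ∈ range L, ∑ c ∈ B, w c * (l j c * l j' c) := by
    simp only [sq, sum_mul_sum]
    simp only [mul_sum]
    rw [sum_comm]
    exact sum_congr rfl fun j _ => sum_comm
  constructor
  · have e3 : (L : ℝ) * p * N = ∑ _j ∈ range L, p * N := by simp [mul_assoc]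
    rw [e1, e3, ← sum_sub_distrib]
    exact (abs_sum_le_sum_abs _ _).trans ((sum_le_sum h1).trans (by simp))
  · have h3 : ∀ j ∈ range L, ∑ j' ∈ range L, ∑ c ∈ B, w c * (l j c * l j' c) ≤
        Λ * ∑ c ∈ B, w c * l j c + (∑ j' ∈ (range L).erase j, q j j') * (p * N + E) + L * E := by
      intro j hj
      rw [← add_sum_erase _ _ hj, add_assoc, mul_sum, sum_mul]
      refine add_le_add (sum_le_sum fun c _ => ?_) ?_
      · rw [mul_left_comm]
        exact mul_le_mul_of_nonneg_right (hl j c).2 (mul_nonneg (hw c) (hl j c).1)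
      · refine (sum_le_sum fun j' hj' => (h2 j hj j' (mem_of_mem_erase hj')
          (ne_of_mem_erase hj').symm).trans (add_le_add_left (mul_le_mul_of_nonneg_left
            (c := p * N + E) (by linarith [(abs_le.1 (h1 j' (mem_of_mem_erase hj'))).2])
              (hq j j')) E)).trans ?_
        rw [sum_add_distrib, sum_const, nsmul_eq_mul]
        have : (((range L).erase j).card : ℝ) ≤ L := by
          exact_mod_cast card_erase_le.trans (card_range L).le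
        gcongr
    rw [e2, e1]
    refine (sum_le_sum h3).trans ?_
    rw [sum_add_distrib, sum_add_distrib, ← mul_sum, ← sum_mul, sum_const, card_range, nsmul_eq_mul,
      ← mul_assoc, ← sq]
    gcongr

theorem num {S1 S2 T μ L p s E K N D ℓ c δ z : ℝ} (hμ : μ = L * p) (hL : 1 ≤ L)
    (hK : 0 ≤ K) (hN : 0 ≤ N) (hD : N ≤ D * K) (hD1 : 1 ≤ D) (hE : 0 ≤ E) (hz : 1 ≤ z)
    (hδ : 0 < δ) (hδ1 : δ ≤ 1 / 5) (h1 : 1 ≤ μ) (hℓ : 0 < ℓ) (h2 : c * ℓ ^ 2 ≤ μ)
    (h3 : 20 * D ≤ δ * c * ℓ) (h4 : L ^ 2 * E ≤ δ * K) (hs : s = L ^ 2 * (p * (1 + 2 / z)))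
    (a1 : |S1 - L * p * N| ≤ L * E) (a2 : S2 ≤ 10 * ℓ * S1 + s * (p * N + E) + L ^ 2 * E)
    (a3 : T * (μ ^ 2 / 4) ≤ S2 - 2 * μ * S1 + μ ^ 2 * N) :
    T ≤ 8 / z * N + 28 * δ * K ∧ S2 ≤ 4 * μ ^ 2 * (D * K) ∧ 10 * ℓ * S1 ≤ δ * μ ^ 2 * K := by
  rw [← hμ] at a1
  obtain ⟨b1, b2⟩ := abs_le.1 a1
  have m2 : 1 ≤ μ ^ 2 := one_le_pow₀ h1
  have m3 : μ ≤ μ ^ 2 := le_self_pow₀ h1 two_ne_zero
  have c1 : L * E ≤ δ * K := le_trans (by gcongr; exact le_self_pow₀ hL two_ne_zero) h4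
  have c0 : 0 ≤ δ * K := by positivity
  have c2 : δ * K ≤ D * K := by gcongr; linarith
  have c3 : 10 * ℓ * S1 ≤ δ * μ ^ 2 * K :=
    calc 10 * ℓ * S1 ≤ 10 * ℓ * (2 * μ * (D * K)) := by
          have : μ * N ≤ μ * (D * K) := by gcongr
          have : D * K ≤ μ * (D * K) := le_mul_of_one_le_left (by positivity) h1
          gcongr
          linarith
      _ = 20 * D * ℓ * μ * K := by ring
      _ ≤ δ * c * ℓ * ℓ * μ * K := by gcongr
      _ = δ * (c * ℓ ^ 2) * μ * K := by ring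
      _ ≤ δ * μ * μ * K := by gcongr
      _ = _ := by ring
  have z3 : 2 / z ≤ 2 := div_le_self zero_le_two hz
  have z0 : 0 ≤ 2 / z := by positivity
  have c4 : μ * (L * E) ≤ μ ^ 2 * (δ * K) := by gcongr
  have c5 : δ * K ≤ μ ^ 2 * (δ * K) := le_mul_of_one_le_left c0 m2
  have c6 : s * (p * N + E) ≤ μ ^ 2 * N + 2 / z * (μ ^ 2 * N) + 3 * (μ * (L * E)) := by
    have : s * (p * N + E) = μ ^ 2 * N + 2 / z * (μ ^ 2 * N) + (1 + 2 / z) * (μ * (L * E)) := by
      rw [hs, hμ]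
      ring
    rw [this]
    gcongr
    linarith
  refine ⟨le_of_mul_le_mul_right (a3.trans ?_) (show 0 < μ ^ 2 / 4 by positivity), ?_, c3⟩
  · have : μ * (μ * N - L * E) ≤ μ * S1 := by gcongr; linarith
    have e : (8 / z * N + 28 * δ * K) * (μ ^ 2 / 4) = 2 / z * (μ ^ 2 * N) + 7 * (μ ^ 2 * (δ * K)) := by
      ring
    rw [e]
    linarith
  · have d1 : μ ^ 2 * N ≤ μ ^ 2 * (D * K) := by gcongr
    have d2 : 2 / z * (μ ^ 2 * N) ≤ 2 * (μ ^ 2 * N) := by gcongr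
    have d3 : μ ^ 2 * (5 * δ * K) ≤ μ ^ 2 * (D * K) := by gcongr; linarith
    linarith

end Var1

theorem var1 : GEOStmt → LAMStmt → SIGStmt → PHIStmt → M1Stmt → M2Stmt → VAR1Stmt := by
  intro geo lamp ⟨c, hc, sg⟩ phil m1 m2 g M d a z P D hz hp ε hε
  obtain ⟨δ, δ0, δ1, δ2⟩ : ∃ δ : ℝ, 0 < δ ∧ δ ≤ 1 / 5 ∧ 28 * δ ≤ ε :=
    ⟨min (1 / 5) (ε / 28), by positivity, min_le_left _ _, by linarith [min_le_right (1 / 5) (ε / 28)]⟩
  filter_upwards [sg, m1 g M d a P D 13, m2 g M d a P D 13, eventually_ge_atTop 2, ev_le_log 1,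
    ev_le_log (2 / c), ev_le_log (1 / δ), ev_le_log (20 * 3 ^ (2 * g + 3) / (δ * (c / 2)))]
    with t hs a1 a2 t2 l1 l2 l3 l4 k hk
  obtain ⟨p1, -⟩ := phil.1 M D.pos
  have l0 : 0 < Real.log t := by linarith
  have s0 : 0 ≤ sig t := le_trans (by positivity) hs.1
  have k1 : (1 : ℝ) ≤ k := by exact_mod_cast (Nat.one_le_pow _ _ (by omega)).trans hk.1
  have n1 : (1 : ℝ) ≤ nl t := by
    exact_mod_cast Nat.le_floor (by simpa using one_le_pow₀ l1 (n := 6))
  have u1 : c / 2 * Real.log t ^ 2 ≤ mu t M :=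
    calc c / 2 * Real.log t ^ 2 = Real.log t ^ 6 / 2 * (c / Real.log t ^ 4 * 1) := by field_simp
      _ ≤ nl t * (sig t * ph M) := by
          gcongr
          exacts [le_nl l1, hs.1]
  have u2 : 1 ≤ mu t M := by
    refine le_trans ?_ u1
    rw [div_le_iff₀ hc] at l2
    nlinarith
  obtain ⟨b1, b2⟩ := Var1.core (bx g k) (fun c => ind (P c)) (nl t)
    (fun j c => la t d c (pt M a j)) (fun j j' => sig t * ph (M * ((j : ℤ) - j').natAbs))
    (fun _ => ind_nonneg _) (fun j c => ⟨(lamp t _ t2).1, (lamp t _ t2).2.1⟩) (by positivity)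
    (mul_nonneg (by positivity) cnt_nonneg) (fun j j' => mul_nonneg s0 (by rw [ph]; positivity))
    (Q := (nl t : ℝ) ^ 2 * (sig t * ph M * (1 + 2 / z))) (by
      simp only [← mul_sum]
      exact (mul_le_mul_of_nonneg_left (phil.2.2 z M _ hz D.pos hp) s0).trans_eq (by ring))
    (a1 k hk) (a2 k hk)
  obtain ⟨r1, r2, r3⟩ := Var1.num (μ := mu t M) (K := (k : ℝ) ^ (2 * g + 3)) (D := 3 ^ (2 * g + 3))
    (T := cnt g k fun c => P c ∧ XX t M d a c ≤ mu t M / 2) (c := c / 2) rfl n1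
    (by positivity) cnt_nonneg (cnt_le_card.trans (by
      rw [geo.1, ← mul_pow]
      push_cast
      gcongr
      linarith)) (one_le_pow₀ (by norm_num)) (by positivity) (by exact_mod_cast hz) δ0 δ1 u2 l0 u1
    (by rwa [div_le_iff₀' (by positivity)] at l4) (by
      calc (nl t : ℝ) ^ 2 * ((k : ℝ) ^ (2 * g + 3) / Real.log t ^ 13)
          ≤ (Real.log t ^ 6) ^ 2 * ((k : ℝ) ^ (2 * g + 3) / Real.log t ^ 13) := by
            gcongr
            exact nl_le t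
        _ = 1 / Real.log t * (k : ℝ) ^ (2 * g + 3) := by field_simp
        _ ≤ δ * (k : ℝ) ^ (2 * g + 3) := by
            gcongr
            exact (one_div_le δ0 l0).1 l3) rfl b1 b2 (by
      refine (cnt_mul_le (F := fun c => ind (P c) * (XX t M d a c - mu t M) ^ 2)
        (fun c _ => mul_nonneg (ind_nonneg _) (sq_nonneg _)) fun c _ h => ?_).trans_eq ?_
      · rw [ind_pos h.1, one_mul]
        nlinarith [h.2]
      · simp only [cnt, mul_sum, ← sum_sub_distrib, ← sum_add_distrib]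
        refine sum_congr rfl fun c _ => ?_
        simp only [← mul_sum, XX]
        ring)
  refine ⟨r1.trans (by gcongr), by rwa [mul_pow], r3.trans (by gcongr; linarith)⟩

end Pool.Agent.MP_a43263_nt.W1

end
end MrgPart3

-- ======== part 4: formerly Pool.Agent.MP_a43263_nt.W1.Loc
section MrgPart4

/-! THEOREM W: the shifts that keep two values. -/

set_option autoImplicit false

noncomputable section

namespace Pool.Agent.MP_a43263_nt.W1

open Polynomial Finset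

namespace Loc

section Ring

variable {R S : Type} [CommRing R] [CommRing S] {n : ℕ}

theorem fm_coeff (c : Fin n → R) (i : Fin n) : (fm c).coeff i.1 = c i := by
  rw [fm, finsetSum_coeff, sum_eq_single i]
  · simp
  · intro j _ hj
    rw [coeff_C_mul, coeff_X_pow, if_neg fun h => hj (Fin.ext h.symm), mul_zero]
  · simp

theorem fm_coeff_ge (c : Fin n → R) {i : ℕ} (hi : n ≤ i) : (fm c).coeff i = 0 := by
  rw [fm, finsetSum_coeff]
  refine sum_eq_zero fun j _ => ?_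
  rw [coeff_C_mul, coeff_X_pow, if_neg (by have := j.2; omega), mul_zero]

theorem fm_deg (c : Fin (n + 1) → R) : (fm c).natDegree ≤ n :=
  natDegree_le_iff_coeff_eq_zero.2 fun _ h => fm_coeff_ge c h

theorem fm_of {p : R[X]} (h : p.natDegree < n) : fm (fun i : Fin n => p.coeff i.1) = p := by
  ext i
  by_cases hi : i < n
  · exact fm_coeff (fun i : Fin n => p.coeff i.1) ⟨i, hi⟩
  · rw [fm_coeff_ge _ (not_lt.1 hi), coeff_eq_zero_of_natDegree_lt (by omega)]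

theorem fm_add (c e : Fin n → R) : fm (c + e) = fm c + fm e := by
  simp [fm, add_mul, sum_add_distrib]

theorem fm_smul (a : R) (c : Fin n → R) : fm (a • c) = C a * fm c := by
  simp [fm, mul_sum, mul_assoc]

theorem fm_map (φ : R →+* S) (c : Fin n → R) : (fm c).map φ = fm fun i => φ (c i) := by
  simp [fm, Polynomial.map_sum]

theorem split {p : R[X]} (h : p.natDegree ≤ n) :
    C (p.coeff 0) + X * fm (fun i : Fin n => p.coeff (i.1 + 1)) = p := by
  ext i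
  rcases i with _ | i
  · simp
  · rw [coeff_add, coeff_C_succ, coeff_X_mul, zero_add]
    by_cases hi : i < n
    · exact fm_coeff (fun i : Fin n => p.coeff (i.1 + 1)) ⟨i, hi⟩
    · rw [fm_coeff_ge _ (not_lt.1 hi), coeff_eq_zero_of_natDegree_lt (by omega)]

end Ring

theorem fm_sh (g : ℕ) (x x' : ℤ) (y : Fin (2 * g + 1) → ℤ) :
    fm (sh g x x' y) = (X - C x) * (X - C x') * (fm y).comp (X - C x') := by
  refine fm_of ?_
  have h1 : ((fm y).comp (X - C x')).natDegree ≤ 2 * g := by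
    refine natDegree_comp_le.trans ?_
    rw [natDegree_X_sub_C, mul_one]
    exact fm_deg y
  have h2 : ((X - C x) * (X - C x') : ℤ[X]).natDegree ≤ 2 := by
    refine natDegree_mul_le.trans ?_
    rw [natDegree_X_sub_C, natDegree_X_sub_C]
  have h3 := natDegree_mul_le (p := ((X - C x) * (X - C x') : ℤ[X]))
    (q := (fm y).comp (X - C x'))
  omega

theorem bd_lin {p : ℤ[X]} {B : ℤ} (a : ℤ) (h : ∀ i, |p.coeff i| ≤ B) (i : ℕ) :
    |((X - C a) * p).coeff i| ≤ (1 + |a|) * B := by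
  have h0 : 0 ≤ B := (abs_nonneg _).trans (h 0)
  have h1 : |(X * p).coeff i| ≤ B := by
    rcases i with _ | i
    · simpa using h0
    · rw [coeff_X_mul]; exact h i
  have h2 : |a * p.coeff i| ≤ |a| * B := by
    rw [abs_mul]; exact mul_le_mul_of_nonneg_left (h i) (abs_nonneg a)
  rw [sub_mul, coeff_sub, coeff_C_mul]
  have h3 := abs_sub ((X * p).coeff i) (a * p.coeff i)
  linarith

theorem bd_pow (a : ℤ) (j : ℕ) : ∀ i, |((X - C a : ℤ[X]) ^ j).coeff i| ≤ (1 + |a|) ^ j := by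
  induction j with
  | zero =>
    intro i
    rw [pow_zero, pow_zero, coeff_one]
    split_ifs <;> simp
  | succ j ih =>
    intro i
    rw [pow_succ', pow_succ']
    exact bd_lin a ih i

theorem bd_comp {g : ℕ} {W : ℤ} (a : ℤ) {y : Fin (2 * g + 1) → ℤ} (h : ∀ i, |y i| ≤ W) (i : ℕ) :
    |((fm y).comp (X - C a)).coeff i| ≤ (2 * g + 1) * W * (1 + |a|) ^ (2 * g) := by
  have h0 : 0 ≤ W := (abs_nonneg _).trans (h 0)
  have h1 : (1 : ℤ) ≤ 1 + |a| := le_add_of_nonneg_right (abs_nonneg a)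
  have e : (fm y).comp (X - C a) = ∑ j, C (y j) * (X - C a) ^ j.1 := by
    simp [fm, Polynomial.sum_comp]
  rw [e, finsetSum_coeff]
  refine (abs_sum_le_sum_abs _ _).trans ?_
  have h2 : ∀ j ∈ (univ : Finset (Fin (2 * g + 1))),
      |(C (y j) * (X - C a) ^ j.1 : ℤ[X]).coeff i| ≤ W * (1 + |a|) ^ (2 * g) := by
    intro j _
    rw [coeff_C_mul, abs_mul]
    exact mul_le_mul (h j) ((bd_pow a _ i).trans (pow_le_pow_right₀ h1 (by have := j.2; omega)))
      (abs_nonneg _) h0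
  have h3 := sum_le_card_nsmul _ _ _ h2
  rw [card_univ, Fintype.card_fin, nsmul_eq_mul] at h3
  push_cast at h3
  linarith

theorem good_iff {F : Type} [Field F] {m : ℕ} (hm : m ≠ 1) (x : F) (h₁ : F[X]) :
    (∃ (a : F) (h : F[X]), (X - C x) * h₁ = (X - C a) * h ∧ Irreducible h ∧ h.natDegree = m) ↔
      Irreducible h₁ ∧ h₁.natDegree = m := by
  refine ⟨?_, fun h => ⟨x, h₁, rfl, h⟩⟩
  rintro ⟨a, h, e, hi, hd⟩
  have h1 := congrArg (eval x) e
  simp only [eval_mul, eval_sub, eval_X, eval_C, sub_self, zero_mul] at h1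
  rcases mul_eq_zero.1 h1.symm with h2 | h2
  · rw [← sub_eq_zero.1 h2] at e
    rw [mul_left_cancel₀ (X_sub_C_ne_zero x) e]
    exact ⟨hi, hd⟩
  · have h3 := degree_eq_one_of_irreducible_of_root hi h2
    exact (hm (hd ▸ natDegree_eq_of_degree_eq_some h3)).elim

end Loc

open Loc

theorem loc : LOCStmt := by
  intro g x x'
  refine ⟨fun y => ?_, fun y y' => ?_, fun n y => ?_, fun W y h i => ?_, fun r c e h => ?_,
    fun r c hg hr h1 h2 => ?_⟩
  · simp [val, fm_sh]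
  · funext i
    simp only [sh, fm_add, add_comp, mul_add, coeff_add, Pi.add_apply]
  · funext i
    simp only [sh, fm_smul, mul_comp, C_comp, Pi.smul_apply, smul_eq_mul]
    rw [mul_left_comm, coeff_C_mul]
  · have h0 : 0 ≤ W := (abs_nonneg _).trans (h 0)
    have h3 := bd_lin x (bd_lin x' (bd_comp x' h)) i.1
    rw [← mul_assoc] at h3
    refine h3.trans ?_
    have h4 : (1 : ℤ) ≤ 1 + |x| := le_add_of_nonneg_right (abs_nonneg x)
    have h5 : 1 + |x| ≤ (1 + |x|) ^ (2 * g + 1) := le_self_pow₀ h4 (by omega)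
    calc (1 + |x|) * ((1 + |x'|) * ((2 * g + 1) * W * (1 + |x'|) ^ (2 * g)))
        = (2 * g + 1) * W * ((1 + |x|) * (1 + |x'|) ^ (2 * g + 1)) := by ring
      _ ≤ (2 * g + 1) * W * ((1 + |x|) ^ (2 * g + 1) * (1 + |x'|) ^ (2 * g + 1)) := by gcongr
      _ = _ := by rw [mul_pow]
  · have e1 : (fm (c + e)).map (Int.castRingHom (ZMod r)) =
        (fm c).map (Int.castRingHom (ZMod r)) := by
      rw [fm_map, fm_map]
      refine congrArg fm (funext fun i => ?_)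
      rw [Pi.add_apply, map_add, eq_intCast _ (e i), (ZMod.intCast_zmod_eq_zero_iff_dvd _ _).2 (h i),
        add_zero]
    simp only [phi, Gd, e1]
  · have := Fact.mk hr
    have ev : ∀ u : ℤ, ((fm c).map (Int.castRingHom (ZMod r))).eval (u : ZMod r) =
        (val c u : ZMod r) := fun u => by
      rw [val, eval_intCast_map, eq_intCast, Int.cast_id]
    have r1 : ((fm c).map (Int.castRingHom (ZMod r))).IsRoot (x : ZMod r) := by
      rw [IsRoot, ev]; exact (ZMod.intCast_zmod_eq_zero_iff_dvd _ _).2 h1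
    obtain ⟨h₀, e0⟩ := dvd_iff_isRoot.2 r1
    have r2 : h₀.eval (x' : ZMod r) ≠ 0 := by
      intro k
      have k1 := ev x'
      rw [e0, eval_mul, k, mul_zero] at k1
      exact h2 ((ZMod.intCast_zmod_eq_zero_iff_dvd _ _).1 k1.symm)
    have d0 : h₀.natDegree ≤ 2 * g + 1 := by
      have k0 : h₀ ≠ 0 := fun k => r2 (by rw [k, eval_zero])
      have k1 : ((fm c).map (Int.castRingHom (ZMod r))).natDegree ≤ 2 * g + 2 :=
        natDegree_map_le.trans (fm_deg c)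
      rw [e0, natDegree_mul (X_sub_C_ne_zero _) k0, natDegree_X_sub_C] at k1
      omega
    refine ⟨(taylor (x' : ZMod r) h₀).coeff 0,
      fun i => (taylor (x' : ZMod r) h₀).coeff (i.1 + 1), by rwa [taylor_coeff_zero], fun y => ?_⟩
    have e1 : (fm (c + sh g x x' y)).map (Int.castRingHom (ZMod r)) = (X - C (x : ZMod r)) *
        (h₀ + (X - C (x' : ZMod r)) * (fm fun i => (y i : ZMod r)).comp (X - C (x' : ZMod r))) := by
      rw [fm_add, Polynomial.map_add, e0, fm_sh, Polynomial.map_mul, Polynomial.map_mul, map_comp,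
        fm_map, Polynomial.map_sub, Polynomial.map_sub, map_X, map_C, map_C]
      simp only [eq_intCast]
      ring
    have e2 : taylor (x' : ZMod r)
        (h₀ + (X - C (x' : ZMod r)) * (fm fun i => (y i : ZMod r)).comp (X - C (x' : ZMod r))) =
        C ((taylor (x' : ZMod r) h₀).coeff 0) + X * fm
          ((fun i : Fin (2 * g + 1) => (taylor (x' : ZMod r) h₀).coeff (i.1 + 1)) +
            fun i => (y i : ZMod r)) := by
      rw [fm_add, mul_add, ← add_assoc, split (by rwa [natDegree_taylor]), map_add]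
      refine congrArg _ ?_
      rw [taylor_apply, mul_comp, comp_assoc]
      simp
    rw [Gd, e1, good_iff (by omega), Ir, ← e2, natDegree_taylor]
    exact and_congr_left' (MulEquiv.irreducible_iff (taylorEquiv (x' : ZMod r))).symm

end Pool.Agent.MP_a43263_nt.W1

end
end MrgPart4

-- ======== part 5: formerly Pool.Agent.MP_a43263_nt.W1.Pair
section MrgPart5

/-! THEOREM W, row PAIR: the types at two points are uncorrelated. -/

set_option autoImplicit false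

noncomputable section

namespace Pool.Agent.MP_a43263_nt.W1

open Polynomial Finset Filter

namespace Pair

theorem err {g k t R : ℕ} {l K a b : ℝ} {A E : ℕ} (hl : 1 ≤ l) (ht : 2 ≤ t) (hk : t ^ 41 ≤ k)
    (ha : 0 ≤ a) (hR : (R : ℝ) ≤ a * t ^ 40 * l ^ E)
    (hb : b = 3000 * (4 * (2 * g + 3) * a * 3 ^ (2 * g + 2)) + 100 * |K|)
    (h : b * l ^ (A + 2 + E) ≤ t) :
    30 * (100 * l ^ 2 * bd g k R) + 100 * l ^ 2 * (K * (k : ℝ) ^ (2 * g + 3) / (t ^ 8 : ℕ)) ≤
      (k : ℝ) ^ (2 * g + 3) / l ^ A := by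
  have h1 : (1 : ℝ) ≤ t := by exact_mod_cast one_le_two.trans ht
  have h2 : (t : ℝ) ^ 41 ≤ k := by exact_mod_cast hk
  have h3 : (1 : ℝ) ≤ k := (one_le_pow₀ h1).trans h2
  have h4 : (t : ℝ) ^ 40 ≤ k / t := by
    rw [le_div_iff₀ (by positivity), ← pow_succ]
    exact h2
  have h5 : bd g k R ≤ 4 * (2 * g + 3) * a * 3 ^ (2 * g + 2) * l ^ E *
      ((k : ℝ) ^ (2 * g + 3) / t) :=
    calc bd g k R ≤ 4 * (2 * g + 3) * (a * (k / t) * l ^ E) * (3 * k) ^ (2 * g + 2) := by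
          rw [bd]
          gcongr
          · exact hR.trans (by gcongr)
          · linarith
      _ = _ := by rw [mul_pow]; ring
  have h6 : K * (k : ℝ) ^ (2 * g + 3) / (t ^ 8 : ℕ) ≤ |K| * l ^ E * ((k : ℝ) ^ (2 * g + 3) / t) :=
    calc K * (k : ℝ) ^ (2 * g + 3) / (t ^ 8 : ℕ) ≤ |K| * (k : ℝ) ^ (2 * g + 3) / t := by
          rw [Nat.cast_pow]
          gcongr
          · exact le_abs_self K
          · exact le_self_pow₀ h1 (by norm_num)
      _ = |K| * 1 * ((k : ℝ) ^ (2 * g + 3) / t) := by ring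
      _ ≤ _ := by gcongr; exact one_le_pow₀ hl
  calc _ ≤ 30 * (100 * l ^ 2 * (4 * (2 * g + 3) * a * 3 ^ (2 * g + 2) * l ^ E *
          ((k : ℝ) ^ (2 * g + 3) / t))) +
        100 * l ^ 2 * (|K| * l ^ E * ((k : ℝ) ^ (2 * g + 3) / t)) := by gcongr
    _ = b * l ^ (A + 2 + E) / t * ((k : ℝ) ^ (2 * g + 3) / l ^ A) := by
        rw [hb]
        field_simp
        ring
    _ ≤ 1 * _ := by
        gcongr
        rwa [div_le_one (by positivity)]
    _ = _ := one_mul _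

end Pair

theorem pair : GEOStmt → LAMStmt → COPStmt → KAPStmt → DECStmt → PAIRStmt := by
  classical
  intro geo lamp cop kapl dec g M d a P hg hD δ A hδ
  obtain ⟨r₀, hdec⟩ := dec g (δ / 30) hg (by positivity)
  obtain ⟨K, hK⟩ := cop g
  filter_upwards [eventually_ge_atTop 2, eventually_ge_atTop r₀, eventually_ge_atTop M, ev_pt M a,
    ev_le_log 1, ev_log_le 1 7, ev_log_le (3000 * (4 * (2 * g + 3) * (3 * M ^ 3 * (2 * g + 1)) *
      3 ^ (2 * g + 2)) + 100 * |K|) (A + 2 + 14 * (2 * g + 1))] with t ht hr hM hpt hl h7 hbig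
  intro k hk j hj j' hj' hne
  have p1 := hpt j hj
  have p2 := hpt j' hj'
  have q1 := pt_nonneg M a j
  have q2 := pt_nonneg M a j'
  have a1 := fun c => geo.2.2.2.2 g M d a P hD c j
  have a2 := fun c => geo.2.2.2.2 g M d a P hD c j'
  have hx : pt M a j ≠ pt M a j' := fun h => hne (by
    have h0 : (M : ℤ) ^ 3 ≠ 0 := pow_ne_zero _ (Nat.cast_ne_zero.2 hD.pos.ne')
    exact_mod_cast mul_left_cancel₀ h0 (add_left_cancel h))
  clear hpt hne
  generalize pt M a j = x at p1 q1 a1 hx ⊢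
  generalize pt M a j' = x' at p2 q2 a2 hx ⊢
  have t8 : t ≤ t ^ 8 := Nat.le_self_pow (by norm_num) t
  have hxx : |x - x'| ≤ (t ^ 8 : ℕ) := by
    have h1 : (x : ℝ) ≤ t := by linarith
    have h2 : (x' : ℝ) ≤ t := by linarith
    have h3 : x ≤ t := by exact_mod_cast h1
    have h4 : x' ≤ t := by exact_mod_cast h2
    have h5 : (t : ℤ) ≤ (t ^ 8 : ℕ) := by exact_mod_cast t8
    rw [abs_le]
    constructor <;> linarith
  have hQ := hK k (t ^ 8) (t ^ 10) x x' (by omega)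
    ((Nat.pow_le_pow_right (by omega) (by norm_num)).trans hk.1) hx hxx
  let R : ℕ := 3 * M ^ 3 * (2 * g + 1) * (t ^ 10) ^ 4 * ((1 + x.natAbs) * (1 + x'.natAbs)) ^ (2 * g + 1)
  have hS : Sz g (M ^ 3) R (t ^ 10) x x' := by
    simp only [Sz, R]
    push_cast
    exact le_rfl
  have hR : (R : ℝ) ≤ 3 * M ^ 3 * (2 * g + 1) * t ^ 40 * Real.log t ^ (14 * (2 * g + 1)) := by
    have h1 : ((x.natAbs : ℕ) : ℝ) = x := by rw [← Int.cast_natCast, Int.natAbs_of_nonneg q1]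
    have h2 : ((x'.natAbs : ℕ) : ℝ) = x' := by rw [← Int.cast_natCast, Int.natAbs_of_nonneg q2]
    have h3 : (0 : ℝ) ≤ x := by exact_mod_cast q1
    have h4 : (0 : ℝ) ≤ x' := by exact_mod_cast q2
    simp only [R, Nat.cast_mul, Nat.cast_pow, Nat.cast_add, Nat.cast_one, Nat.cast_ofNat, h1, h2]
    rw [← pow_mul, pow_mul (Real.log t), show Real.log t ^ 14 = Real.log t ^ 7 * Real.log t ^ 7 by
      ring]
    gcongr
  have hE := Pair.err hl ht hk.1 (by positivity) hR rfl hbig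
  set B := 100 * Real.log t ^ 2 with hB
  have hL : ∀ c : Vec g, 0 ≤ la t d c x * la t d c x' ∧ la t d c x * la t d c x' ≤ B := fun c => by
    obtain ⟨h1, h2, -⟩ := lamp t (uu d c x) ht
    obtain ⟨h3, h4, -⟩ := lamp t (uu d c x') ht
    have h5 := mul_le_mul h2 h4 h3 (h1.trans h2)
    exact ⟨mul_nonneg h1 h3, h5.trans_eq (by rw [hB]; ring)⟩
  have hκ : ∀ (c : Vec g) y, 0 ≤ ∏ r ∈ pf d c y, kap g r ∧ ∏ r ∈ pf d c y, kap g r ≤ 1 := fun c y =>
    have h := fun r (hr : r ∈ pf d c y) => (kapl g hg).1 r (Nat.prime_of_mem_primeFactors hr)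
    ⟨prod_nonneg fun r hr => (h r hr).1, prod_le_one (fun r hr => (h r hr).1) fun r hr => (h r hr).2⟩
  have hφ : ∀ (c : Vec g) y, 0 ≤ ∏ r ∈ pf d c y, phi g r c ∧ ∏ r ∈ pf d c y, phi g r c ≤ 1 :=
    fun c y => ⟨prod_nonneg fun _ _ => ind_nonneg _,
      prod_le_one (fun _ _ => ind_nonneg _) fun _ _ => ind_le_one _⟩
  let w : Vec g → ℝ := fun c =>
    ind (P c ∧ Disjoint (pf d c x) (pf d c x')) * (la t d c x * la t d c x')
  have hw : ∀ c, 0 ≤ w c ∧ w c ≤ B := fun c => ⟨mul_nonneg (ind_nonneg _) (hL c).1,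
    (mul_le_of_le_one_left (hL c).1 (ind_le_one _)).trans (hL c).2⟩
  have hI : ∀ c e : Vec g, (∀ i, ((M ^ 3 : ℕ) : ℤ) ∣ e i) → val e x = 0 → val e x' = 0 →
      w (c + e) = w c ∧ pf d (c + e) x = pf d c x ∧ pf d (c + e) x' = pf d c x' :=
    fun c e h1 h2 h3 => by
      simp only [w, la, pf, uu, geo.2.1, h2, h3, add_zero, and_self,
        hD.inv c e (by exact_mod_cast h1)]
  have hv : ∀ (c : Vec g) y r, val c y = -((d : ℤ) * uu d c y) → r ∈ pf d c y → (r : ℤ) ∣ val c y :=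
    fun c y r h hr => h ▸ ((Int.natCast_dvd.2 (Nat.dvd_of_mem_primeFactors hr)).mul_left _).neg_right
  have hn : ∀ (c : Vec g) y r, val c y = -((d : ℤ) * uu d c y) → la t d c y ≠ 0 → r.Prime →
      ¬r ∣ M → r ∉ pf d c y → ¬(r : ℤ) ∣ val c y := fun c y r h h0 hp hM' hr h1 => by
    rw [h, dvd_neg] at h1
    rcases (Nat.prime_iff_prime_int.1 hp).dvd_or_dvd h1 with h2 | h2
    · exact hM' ((Int.natCast_dvd_natCast.1 h2).trans hD.dvd)
    · exact hr (Nat.mem_primeFactors.2 ⟨hp, Int.natCast_dvd.1 h2,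
        ((lamp t _ ht).2.2 h0).2.1.ne_zero⟩)
  have hO : ∀ c, w c ≠ 0 → (pf d c x).card = 5 ∧ (pf d c x').card = 5 ∧
      ∀ r ∈ pf d c x ∪ pf d c x', One r₀ (t ^ 10) (M ^ 3) x x' c r := fun c h => by
    obtain ⟨h1, h2⟩ := mul_ne_zero_iff.1 h
    obtain ⟨h2, h3⟩ := mul_ne_zero_iff.1 h2
    obtain ⟨hP, hd⟩ : P c ∧ Disjoint (pf d c x) (pf d c x') := by_contra fun e => h1 (ind_neg e)
    obtain ⟨-, -, h4, h5⟩ := (lamp t _ ht).2.2 h2
    obtain ⟨-, -, h6, h7⟩ := (lamp t _ ht).2.2 h3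
    refine ⟨h4, h6, fun r hr => ?_⟩
    obtain ⟨hp, h8, h9⟩ : r.Prime ∧ t ^ 8 < r ∧ r ≤ t ^ 10 := by
      rcases mem_union.1 hr with e | e
      · exact ⟨Nat.prime_of_mem_primeFactors e, h5 r e⟩
      · exact ⟨Nat.prime_of_mem_primeFactors e, h7 r e⟩
    have h10 : ¬r ∣ M := Nat.not_dvd_of_pos_of_lt hD.pos (by omega)
    refine ⟨hp, by omega, h9, fun e => h10 (hp.dvd_of_dvd_pow e), ?_⟩
    rcases mem_union.1 hr with e | e
    · exact iff_of_true (hv c x r (a1 c hP).2.1 e)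
        (hn c x' r (a2 c hP).2.1 h3 hp h10 (disjoint_left.1 hd e))
    · exact iff_of_false (hn c x r (a1 c hP).2.1 h2 hp h10 (disjoint_right.1 hd e))
        (not_not.2 (hv c x' r (a2 c hP).2.1 e))
  have D1 := hdec k (M ^ 3) R (t ^ 10) x x' w (fun c => pf d c x ∪ pf d c x') B
    (fun c e h1 h2 h3 => (hI c e h1 h2 h3).1)
    (fun c e h1 h2 h3 => by simp only [hI c e h1 h2 h3]) hw hS fun c h =>
      ⟨(card_union_le _ _).trans (by rw [(hO c h).1, (hO c h).2.1]), (hO c h).2.2⟩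
  have D : ∀ y y', (y = x ∧ y' = x' ∨ y = x' ∧ y' = x) →
      |∑ c ∈ bx g k, w c * (∏ r ∈ pf d c y', kap g r) *
        (∏ r ∈ pf d c y, phi g r c - ∏ r ∈ pf d c y, kap g r)| ≤
        10 * (δ / 30 * ∑ c ∈ bx g k, w c + B * bd g k R) := fun y y' hy => by
    refine (hdec k (M ^ 3) R (t ^ 10) x x' (fun c => w c * ∏ r ∈ pf d c y', kap g r)
      (fun c => pf d c y) B (fun c e h1 h2 h3 => ?_) (fun c e h1 h2 h3 => ?_)
      (fun c => ⟨mul_nonneg (hw c).1 (hκ c _).1,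
        (mul_le_of_le_one_right (hw c).1 (hκ c _).2).trans (hw c).2⟩) hS fun c h => ?_).trans ?_
    · rcases hy with ⟨rfl, rfl⟩ | ⟨rfl, rfl⟩ <;> simp only [hI c e h1 h2 h3]
    · rcases hy with ⟨rfl, rfl⟩ | ⟨rfl, rfl⟩ <;> simp only [hI c e h1 h2 h3]
    · obtain ⟨h1, h2, h3⟩ := hO c (left_ne_zero_of_mul h)
      rcases hy with ⟨rfl, rfl⟩ | ⟨rfl, rfl⟩
      · exact ⟨by omega, fun r hr => h3 r (mem_union_left _ hr)⟩
      · exact ⟨by omega, fun r hr => h3 r (mem_union_right _ hr)⟩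
    · gcongr with c
      exact mul_le_of_le_one_right (hw c).1 (hκ c _).2
  have D2 := D x x' (.inl ⟨rfl, rfl⟩)
  have D3 := D x' x (.inr ⟨rfl, rfl⟩)
  have hw' : ∑ c ∈ bx g k, w c ≤ ∑ c ∈ bx g k, ind (P c) * (la t d c x * la t d c x') :=
    sum_le_sum fun c _ => mul_le_mul_of_nonneg_right (ind_mono And.left) (hL c).1
  have hB0 : 0 ≤ B := by positivity
  have hQ' := mul_le_mul_of_nonneg_left hQ hB0
  rw [cnt, mul_sum] at hQ'
  refine le_trans (sum_le_sum (g := fun c => w c * (∏ r ∈ pf d c x ∪ pf d c x', phi g r c -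
    ∏ r ∈ pf d c x ∪ pf d c x', kap g r) - w c * (∏ r ∈ pf d c x', kap g r) *
      (∏ r ∈ pf d c x, phi g r c - ∏ r ∈ pf d c x, kap g r) - w c * (∏ r ∈ pf d c x, kap g r) *
      (∏ r ∈ pf d c x', phi g r c - ∏ r ∈ pf d c x', kap g r) + B * ind (∃ r : ℕ, r.Prime ∧
        t ^ 8 < r ∧ r ≤ t ^ 10 ∧ (r : ℤ) ∣ val c x ∧ (r : ℤ) ∣ val c x')) fun c _ => ?_) ?_
  · have h0 := mul_nonneg hB0 (ind_nonneg (∃ r : ℕ, r.Prime ∧
        t ^ 8 < r ∧ r ≤ t ^ 10 ∧ (r : ℤ) ∣ val c x ∧ (r : ℤ) ∣ val c x'))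
    by_cases hP : P c
    swap
    · simp only [w, ind_neg hP, ind_neg fun h : P c ∧ _ => hP h.1]
      linarith
    by_cases hd : Disjoint (pf d c x) (pf d c x')
    · simp only [w, ind_pos hP, ind_pos (And.intro hP hd), prod_union hd]
      linarith
    simp only [w, ind_pos hP, ind_neg fun h : P c ∧ _ => hd h.2]
    by_cases h1 : la t d c x = 0
    · rw [h1]
      linarith
    obtain ⟨r, h2, h3⟩ := not_disjoint_iff.1 hd
    obtain ⟨h4, h5⟩ := ((lamp t _ ht).2.2 h1).2.2.2 r h2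
    rw [ind_pos ⟨r, Nat.prime_of_mem_primeFactors h2, h4, h5, hv c x r (a1 c hP).2.1 h2,
      hv c x' r (a2 c hP).2.1 h3⟩]
    have h6 : (∏ r ∈ pf d c x, phi g r c - ∏ r ∈ pf d c x, kap g r) *
        (∏ r ∈ pf d c x', phi g r c - ∏ r ∈ pf d c x', kap g r) ≤ 1 := by
      obtain ⟨b1, b2⟩ := hφ c x
      obtain ⟨b3, b4⟩ := hφ c x'
      obtain ⟨b5, b6⟩ := hκ c x
      obtain ⟨b7, b8⟩ := hκ c x'
      exact (le_abs_self _).trans ((abs_mul _ _).trans_le (mul_le_one₀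
        (abs_le.2 ⟨by linarith, by linarith⟩) (abs_nonneg _) (abs_le.2 ⟨by linarith, by linarith⟩)))
    have h7 := (mul_le_of_le_one_right (hL c).1 h6).trans (hL c).2
    linarith
  · rw [sum_add_distrib, sum_sub_distrib, sum_sub_distrib]
    have h1 := mul_le_mul_of_nonneg_left hw' hδ.le
    linarith [(abs_le.1 D1).2, (abs_le.1 D2).1, (abs_le.1 D3).1]

end Pool.Agent.MP_a43263_nt.W1

end
end MrgPart5

-- ======== part 6: formerly Pool.Agent.MP_a43263_nt.W1.Var2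
section MrgPart6

/-! THEOREM W: the types at the points are independent. -/

set_option autoImplicit false

noncomputable section

namespace Pool.Agent.MP_a43263_nt.W1

open Finset Filter

namespace Var2

theorem dev (kapl : KAPStmt) {g : ℕ} (hg : 1 ≤ g) (u : ℕ) (c : Vec g) :
    (∏ r ∈ u.primeFactors, phi g r c - ∏ r ∈ u.primeFactors, kap g r) ^ 2 ≤ 1 := by
  have k := fun r (hr : r ∈ u.primeFactors) => (kapl g hg).1 r (Nat.prime_of_mem_primeFactors hr)
  have a0 : 0 ≤ ∏ r ∈ u.primeFactors, phi g r c := prod_nonneg fun _ _ => ind_nonneg _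
  have a1 : ∏ r ∈ u.primeFactors, phi g r c ≤ 1 :=
    prod_le_one (fun _ _ => ind_nonneg _) fun _ _ => ind_le_one _
  have b0 : 0 ≤ ∏ r ∈ u.primeFactors, kap g r := prod_nonneg fun r hr => (k r hr).1
  have b1 : ∏ r ∈ u.primeFactors, kap g r ≤ 1 :=
    prod_le_one (fun r hr => (k r hr).1) fun r hr => (k r hr).2
  nlinarith

variable {ι : Type} (s : Finset ι) (L : ℕ) (w : ι → ℝ)

theorem expand (f : ℕ → ι → ℝ) : ∑ c ∈ s, w c * (∑ j ∈ range L, f j c) ^ 2 =
    ∑ j ∈ range L, ∑ j' ∈ range L, ∑ c ∈ s, w c * (f j c * f j' c) := by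
  simp only [sq, sum_mul_sum]
  simp only [mul_sum]
  rw [sum_comm]
  exact sum_congr rfl fun j _ => sum_comm

theorem second (a z : ℕ → ι → ℝ) {B δ E : ℝ} (hw : ∀ c, 0 ≤ w c)
    (hz : ∀ j c, z j c * z j c ≤ B * a j c) (hδ : 0 ≤ δ) (hE : 0 ≤ E)
    (hp : ∀ j ∈ range L, ∀ j' ∈ range L, j ≠ j' →
      ∑ c ∈ s, w c * (z j c * z j' c) ≤ δ * ∑ c ∈ s, w c * (a j c * a j' c) + E) :
    ∑ c ∈ s, w c * (∑ j ∈ range L, z j c) ^ 2 ≤ B * ∑ c ∈ s, w c * ∑ j ∈ range L, a j c +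
      (δ * ∑ c ∈ s, w c * (∑ j ∈ range L, a j c) ^ 2 + (L : ℝ) ^ 2 * E) := by
  have e : B * ∑ c ∈ s, w c * ∑ j ∈ range L, a j c =
      ∑ j ∈ range L, ∑ j' ∈ range L, if j = j' then B * ∑ c ∈ s, w c * a j c else 0 := by
    simp only [mul_sum]
    rw [sum_comm]
    exact sum_congr rfl fun j hj => by rw [sum_ite_eq, if_pos hj]
  have e' : (L : ℝ) ^ 2 * E = ∑ _j ∈ range L, ∑ _j' ∈ range L, E := by
    simp only [sum_const, card_range, nsmul_eq_mul]
    ring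
  rw [expand, expand, e, e', mul_sum, ← sum_add_distrib, ← sum_add_distrib]
  refine sum_le_sum fun j hj => ?_
  rw [mul_sum _ _ δ, ← sum_add_distrib, ← sum_add_distrib]
  refine sum_le_sum fun j' hj' => ?_
  split_ifs with h
  · subst h
    refine le_add_of_le_of_nonneg ?_ (add_nonneg (mul_nonneg hδ (sum_nonneg fun c _ =>
      mul_nonneg (hw c) (mul_self_nonneg _))) hE)
    rw [mul_sum]
    exact sum_le_sum fun c _ => (mul_le_mul_of_nonneg_left (hz j c) (hw c)).trans_eq (by ring)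
  · rw [zero_add]
    exact hp j hj j' hj' h

theorem ev_mu (sigl : SIGStmt) (phil : PHIStmt) {M : ℕ} (hM : 0 < M) :
    ∀ᶠ t : ℕ in atTop, 1 ≤ mu t M := by
  obtain ⟨c, hc, h⟩ := sigl
  filter_upwards [h, ev_le_log 1, ev_le_log (2 / c)] with t h1 h2 h3
  have h0 : 0 < Real.log t := by linarith
  have h4 : 2 ≤ Real.log t * c := (div_le_iff₀ hc).1 h3
  calc (1 : ℝ) ≤ Real.log t * c * Real.log t / 2 := by nlinarith
    _ = Real.log t ^ 6 / 2 * (c / Real.log t ^ 4 * 1) := by field_simp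
    _ ≤ nl t * (sig t * ph M) :=
      mul_le_mul (le_nl h2) (mul_le_mul h1.1 (phil.1 M hM).1 zero_le_one
        (le_trans (by positivity) h1.1)) (by positivity) (Nat.cast_nonneg _)

end Var2

open Var2 in
theorem var2 : LAMStmt → SIGStmt → PHIStmt → KAPStmt → VAR1Stmt → PAIRStmt → VAR2Stmt := by
  intro lamp sigl phil kapl var1 pair g M d a P hg hD ε η hε hη
  have h1 : 0 < ε * η ^ 2 / 3 := by positivity
  have h2 : 0 < ε * η ^ 2 / 3 / (4 * 3 ^ (2 * g + 3)) := by positivity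
  filter_upwards [var1 g M d a 1 P hD le_rfl (fun p hp h => absurd hp.one_lt (not_lt.2 h)) _ h1,
    pair g M d a P hg hD _ 13 h2, ev_mu sigl phil hD.pos, ev_le_log 1,
    ev_le_log (1 / (ε * η ^ 2 / 3)), eventually_ge_atTop 2] with t v1 v2 hμ l1 l2 ht k hk
  obtain ⟨-, a2, a3⟩ := v1 k hk
  have l0 : 0 < Real.log t := by linarith
  have hK : (0 : ℝ) ≤ (k : ℝ) ^ (2 * g + 3) := by positivity
  have key := second (bx g k) (nl t) (fun c => ind (P c)) (fun j c => la t d c (pt M a j))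
    (fun j c => la t d c (pt M a j) *
      (∏ r ∈ pf d c (pt M a j), phi g r c - ∏ r ∈ pf d c (pt M a j), kap g r))
    (B := 10 * Real.log t) (fun c => ind_nonneg _) (fun j c => by
      obtain ⟨b0, b1, -⟩ := lamp t (uu d c (pt M a j)) ht
      have b2 := dev kapl hg (uu d c (pt M a j)).natAbs c
      rw [mul_mul_mul_comm, ← sq (_ - _)]
      exact (mul_le_of_le_one_right (mul_self_nonneg _) b2).trans
        (mul_le_mul_of_nonneg_right b1 b0)) h2.le (by positivity) (v2 k hk)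
  have mk := cnt_mul_le (g := g) (k := k) (P := fun c => P c ∧ η * mu t M ≤ |ZZ t M d a c|)
    (a := (η * mu t M) ^ 2) (F := fun c => ind (P c) * ZZ t M d a c ^ 2)
    (fun c _ => mul_nonneg (ind_nonneg _) (sq_nonneg _)) fun c _ hc => by
      rw [ind_pos hc.1, one_mul, ← sq_abs (ZZ t M d a c)]
      exact pow_le_pow_left₀ (by positivity) hc.2 2
  have b1 := mul_le_mul_of_nonneg_left a2 h2.le
  have b2 : (nl t : ℝ) ^ 2 * ((k : ℝ) ^ (2 * g + 3) / Real.log t ^ 13) ≤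
      ε * η ^ 2 / 3 * mu t M ^ 2 * (k : ℝ) ^ (2 * g + 3) :=
    calc _ ≤ (Real.log t ^ 6) ^ 2 * ((k : ℝ) ^ (2 * g + 3) / Real.log t ^ 13) := by
          gcongr
          exact nl_le t
      _ = 1 / Real.log t * 1 * (k : ℝ) ^ (2 * g + 3) := by field_simp
      _ ≤ _ := mul_le_mul_of_nonneg_right
          (mul_le_mul ((one_div_le l0 h1).2 l2) (one_le_pow₀ hμ) zero_le_one h1.le) hK
  have b3 : ε * η ^ 2 / 3 / (4 * 3 ^ (2 * g + 3)) * (4 * mu t M ^ 2 * (3 * k : ℝ) ^ (2 * g + 3)) =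
      ε * η ^ 2 / 3 * mu t M ^ 2 * (k : ℝ) ^ (2 * g + 3) := by
    rw [mul_pow]
    field_simp
  refine le_of_mul_le_mul_right (mk.trans (key.trans ?_)) (by positivity)
  refine (add_le_add a3 (add_le_add (b1.trans_eq b3) b2)).trans_eq ?_
  ring

end Pool.Agent.MP_a43263_nt.W1

end
end MrgPart6

-- ======== part 7: formerly Pool.Agent.MP_a43263_nt.W1.Point
section MrgPart7

/-! THEOREM W: a good point in one class. -/

set_option autoImplicit false

noncomputable section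

namespace Pool.Agent.MP_a43263_nt.W1

open Polynomial Finset Filter

namespace Point

/-- from the scale `t` to the scale `k` -/
theorem ev_rel {F : ℕ → ℕ → Prop} (h : ∀ᶠ t : ℕ in atTop, ∀ k : ℕ, Rel t k → F t k) :
    ∀ᶠ k : ℕ in atTop, ∃ t, F t k := by
  obtain ⟨N, hN⟩ := eventually_atTop.1 h
  filter_upwards [eventually_ge_atTop ((N + 1) ^ 41)] with k hk
  have a : N + 1 ≤ Nat.nthRoot 41 k := (Nat.le_nthRoot_iff (by norm_num)).2 hk
  refine ⟨Nat.nthRoot 41 k, hN _ (by omega) k ⟨Nat.pow_nthRoot_le (Or.inl (by norm_num)), ?_⟩⟩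
  rw [← mul_pow]
  exact (Nat.lt_pow_nthRoot_add_one (by norm_num) k).le.trans (Nat.pow_le_pow_left (by omega) _)

/-- one term at a point that is not good -/
theorem term (geo : GEOStmt) (lamp : LAMStmt) {g M d a t j : ℕ} {P : Vec g → Prop} {κ : ℝ}
    (D : Dat g M d a P) (h2 : 2 ≤ t) (h0 : 0 ≤ κ) (hk : ∀ r : ℕ, r.Prime → t ^ 8 < r → κ ≤ kap g r)
    {c : Vec g} (hc : P c) (hn : ¬Gp g M d (fm c) (pt M a j)) :
    la t d c (pt M a j) * (∏ r ∈ pf d c (pt M a j), phi g r c - ∏ r ∈ pf d c (pt M a j), kap g r) ≤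
      -κ ^ 5 * la t d c (pt M a j) := by
  obtain ⟨l0, -, l1⟩ := lamp t (uu d c (pt M a j)) h2
  by_cases e : la t d c (pt M a j) = 0
  · simp [e]
  obtain ⟨u1, sq, cd, bg⟩ := l1 e
  obtain ⟨-, hv, co⟩ := geo.2.2.2.2 g M d a P D c j hc
  have ab : ((uu d c (pt M a j)).natAbs : ℤ) = uu d c (pt M a j) := Int.natAbs_of_nonneg (by omega)
  have p0 : ∏ r ∈ pf d c (pt M a j), phi g r c = 0 := by
    by_contra k
    refine hn ⟨(uu d c (pt M a j)).natAbs, by omega, sq, by rw [ab]; exact hv, fun r hr hd => ⟨?_, ?_⟩⟩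
    · intro hM
      have := co.isUnit_of_dvd' (Int.natCast_dvd.2 hd) (Int.natCast_dvd_natCast.2 hM)
      exact hr.ne_one (Nat.isUnit_iff.1 (by simpa [Int.isUnit_iff_natAbs_eq] using this))
    · exact of_ind_ne (prod_ne_zero_iff.1 k r (Nat.mem_primeFactors.2 ⟨hr, hd, by omega⟩))
  have p1 : κ ^ 5 ≤ ∏ r ∈ pf d c (pt M a j), kap g r := by
    rw [← cd, ← prod_const]
    exact prod_le_prod (fun _ _ => h0) fun r hr =>
      hk r (Nat.prime_of_mem_primeFactors hr) (bg r hr).1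
  rw [p0, mul_comm]
  exact mul_le_mul_of_nonneg_right (by linarith) l0

end Point

open Point

theorem point :
    GEOStmt → LAMStmt → SIGStmt → PHIStmt → KAPStmt → VAR1Stmt → VAR2Stmt → POINTStmt := by
  intro geo lamp _ _ kapl v1 v2 g M d a z P hg D hz hp ε hε
  obtain ⟨r₀, hr⟩ := (kapl g hg).2.2
  set κ : ℝ := 1 / (2 * (2 * g + 1)) with hκ
  have k0 : 0 < κ := by positivity
  refine (ev_rel (F := fun _ k => cnt g k (fun c => P c ∧ ∀ x : ℤ, |(x : ℝ)| ≤ Real.log k ^ 7 →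
    (M : ℤ) ^ 3 ∣ x - a → ¬Gp g M d (fm c) x) ≤ 8 / z * cnt g k P + ε * (k : ℝ) ^ (2 * g + 3))
    ?_).mono fun k h => h.choose_spec
  filter_upwards [v1 g M d a z P D hz hp (ε / 2) (half_pos hε),
    v2 g M d a P hg D (ε / 2) (κ ^ 5 / 2) (half_pos hε) (by positivity), ev_pt M a,
    eventually_ge_atTop 2, eventually_ge_atTop r₀] with t a1 a2 a3 h2 h3 k hk
  have lg : Real.log t ≤ Real.log k := Real.log_le_log (by positivity) (by
    exact_mod_cast (Nat.le_self_pow (by norm_num) t).trans hk.1)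
  refine (cnt_le_add (Q := fun c => P c ∧ XX t M d a c ≤ mu t M / 2)
    (R := fun c => P c ∧ κ ^ 5 / 2 * mu t M ≤ |ZZ t M d a c|) fun c _ hc => ?_).trans
    (by linarith [(a1 k hk).1, a2 k hk])
  have z0 : ZZ t M d a c ≤ -κ ^ 5 * XX t M d a c := by
    rw [ZZ, XX, mul_sum]
    refine sum_le_sum fun j hj => term geo lamp D h2 k0.le (fun r p q => hr r p ?_) hc.1
      (hc.2 _ ?_ (by simp [pt]))
    · exact h3.trans ((Nat.le_self_pow (by norm_num) t).trans q.le)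
    · rw [abs_of_nonneg (by exact_mod_cast pt_nonneg M a j)]
      have := pow_le_pow_left₀ (Real.log_natCast_nonneg t) lg 7
      linarith [a3 j hj]
  rcases le_or_gt (XX t M d a c) (mu t M / 2) with e | e
  · exact Or.inl ⟨hc.1, e⟩
  · refine Or.inr ⟨hc.1, le_trans ?_ (neg_le_abs _)⟩
    have := mul_le_mul_of_nonneg_left e.le (pow_pos k0 5).le
    linarith

end Pool.Agent.MP_a43263_nt.W1

end
end MrgPart7

-- ======== part 8: formerly Pool.Agent.MP_a43263_nt.W1.AllC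
section MrgPart8

/-! THEOREM W, row ALL: the union over the admissible classes. -/

set_option autoImplicit false

noncomputable section

namespace Pool.Agent.MP_a43263_nt.W1

open Polynomial Finset Filter

namespace AllC

variable {g M d : ℕ}

theorem key (hM : 0 < M) (hd : d ∣ M) {v v' : ℤ} (h : (M : ℤ) ^ 3 ∣ v' - v)
    (k : (d : ℤ) ∣ v ∧ IsCoprime (v / d) (M : ℤ)) :
    (d : ℤ) ∣ v' ∧ IsCoprime (v' / d) (M : ℤ) := by
  obtain ⟨⟨w, rfl⟩, k⟩ := k
  obtain ⟨s, hs⟩ := h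
  obtain ⟨e, he⟩ := hd
  have d0 : (d : ℤ) ≠ 0 := Int.natCast_ne_zero.2 fun h => by simp [he, h] at hM
  have he' : (M : ℤ) = d * e := by exact_mod_cast he
  have e1 : v' = d * (w + M * (M * e * s)) := by
    linear_combination hs + (M : ℤ) ^ 2 * s * he'
  rw [Int.mul_ediv_cancel_left _ d0] at k
  rw [e1, Int.mul_ediv_cancel_left _ d0]
  exact ⟨dvd_mul_right _ _, k.add_mul_left_left _⟩

/-- admissible points -/
def Ad (M d : ℕ) (a : ℤ) (c : Vec g) : Prop :=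
  8 ∣ a - 1 ∧ (d : ℤ) ∣ val c a ∧ IsCoprime (val c a / d) (M : ℤ)

/-- the least admissible point is `a` -/
def Pa (M d a : ℕ) (c : Vec g) : Prop := Ad M d a c ∧ ∀ a' : ℕ, a' < a → ¬Ad M d a' c

theorem ad_add (geo : GEOStmt) (hM : 0 < M) (hd : d ∣ M) (a : ℤ) (c e : Vec g)
    (h : ∀ i, (M : ℤ) ^ 3 ∣ e i) : Ad M d a (c + e) ↔ Ad M d a c := by
  have h1 : (M : ℤ) ^ 3 ∣ val (c + e) a - val c a := by
    rw [geo.2.1, add_sub_cancel_left, geo.2.2.1]
    exact dvd_sum fun i _ => (h i).mul_right _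
  exact and_congr_right fun _ => ⟨key hM hd (dvd_sub_comm.1 h1), key hM hd h1⟩

theorem dat (geo : GEOStmt) (hM : 0 < M) (hd : d ∣ M) (a : ℕ) : Dat g M d a (Pa M d a) :=
  ⟨hM, hd, fun c e h => by simp only [Pa, ad_add geo hM hd _ c e h], fun _ h => h.1.2⟩

theorem exists_pa (hM : 0 < M) (hd : d ∣ M) (h8 : (8 : ℤ) ∣ (M : ℤ) ^ 3) {a : ℤ} {c : Vec g}
    (h : Ad M d a c) : ∃ b ∈ range (M ^ 3), Pa M d b c := by
  classical
  have h0 : (0 : ℤ) < (M : ℤ) ^ 3 := by positivity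
  obtain ⟨b, hb⟩ := Int.eq_ofNat_of_zero_le (Int.emod_nonneg a h0.ne')
  have h1 : (M : ℤ) ^ 3 ∣ b - a := hb ▸ dvd_sub_comm.1 (Int.dvd_self_sub_emod)
  have h2 : Ad M d b c := ⟨by simpa using dvd_add (h8.trans h1) h.1,
    key hM hd (h1.trans (sub_dvd_eval_sub _ _ _)) h.2⟩
  have h3 : b < M ^ 3 := by exact_mod_cast hb ▸ Int.emod_lt_of_pos a h0
  have ex : ∃ b : ℕ, Ad M d b c := ⟨b, h2⟩
  exact ⟨Nat.find ex, mem_range.2 ((Nat.find_min' ex h2).trans_lt h3), Nat.find_spec ex,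
    fun _ => Nat.find_min ex⟩

theorem sum_le (k : ℕ) (s : Finset ℕ) : ∑ a ∈ s, cnt g k (Pa M d a) ≤ (bx g k).card := by
  simp only [cnt]
  rw [sum_comm]
  refine (sum_le_card_nsmul _ _ 1 fun c _ => ?_).trans (by simp)
  by_cases h : ∃ a ∈ s, Pa M d a c
  · obtain ⟨a, ha, h⟩ := h
    rw [sum_eq_single_of_mem a ha fun b _ hb => ind_neg fun k =>
      (lt_or_gt_of_ne hb).elim (fun l => h.2 b l k.1) fun l => k.2 a l h.1]
    exact ind_le_one _
  · rw [sum_eq_zero fun a ha => ind_neg fun k => h ⟨a, ha, k⟩]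
    exact zero_le_one

end AllC

theorem all : GEOStmt → POINTStmt → ALLStmt := by
  intro geo point g M d z hg hM hd hz hp ε hε
  have h8 : (8 : ℤ) ∣ (M : ℤ) ^ 3 := by
    exact_mod_cast pow_dvd_pow_of_dvd (hp 2 Nat.prime_two hz) 3
  have hM' : (0 : ℝ) < (M : ℝ) ^ 3 := by positivity
  filter_upwards [(eventually_all_finset (range (M ^ 3))).2 fun a _ => point g M d a z _ hg
    (AllC.dat geo hM hd a) (by omega) hp _ (div_pos hε hM'), eventually_ge_atTop 1] with k hk h1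
  refine (cnt_le_sum (range (M ^ 3)) _ fun c _ hc => ?_).trans ((sum_le_sum hk).trans ?_)
  · obtain ⟨⟨a, ha⟩, h2⟩ := hc
    obtain ⟨b, hb, h3⟩ := AllC.exists_pa hM hd h8 ha
    exact ⟨b, hb, h3, fun x hx h4 => h2 x hx (by simpa using dvd_add (h8.trans h4) h3.1.1)⟩
  · have h2 := AllC.sum_le (g := g) (M := M) (d := d) k (range (M ^ 3))
    have h3 : (1 : ℝ) ≤ k := by exact_mod_cast h1
    have h4 : ((bx g k).card : ℝ) ≤ 3 ^ (2 * g + 3) * (k : ℝ) ^ (2 * g + 3) := by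
      rw [geo.1, ← mul_pow]
      push_cast
      exact pow_le_pow_left₀ (by positivity) (by linarith) _
    rw [sum_add_distrib, ← mul_sum, sum_const, card_range, nsmul_eq_mul, add_mul]
    refine add_le_add ((mul_le_mul_of_nonneg_left (h2.trans h4) (by positivity)).trans_eq
      (by ring)) (le_of_eq ?_)
    push_cast
    field_simp

end Pool.Agent.MP_a43263_nt.W1

end
end MrgPart8

-- ======== part 9: formerly Pool.Agent.MP_a43263_nt.W1.Many
section MrgPart9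

/-! THEOREM W: many good points. -/

set_option autoImplicit false

noncomputable section

namespace Pool.Agent.MP_a43263_nt.W1

open Polynomial Finset Filter

/-- few good points with the property `E` -/
def Few (g M d k : ℕ) (η : ℝ) (E : ℤ → Prop) (f : ℤ[X]) : Prop := ∀ A : Finset ℤ,
  (∀ x ∈ A, |(x : ℝ)| ≤ Real.log k ^ 7 ∧ E x ∧ Gp g M d f x) → (A.card : ℝ) < η * Real.log k

def POINT2Stmt : Prop := ∀ g : ℕ, 1 ≤ g → ∃ η : ℝ, 0 < η ∧ ∀ (M d a z : ℕ) (P : Vec g → Prop),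
  Dat g M d a P → 1 ≤ z → (∀ p : ℕ, p.Prime → p ≤ z → p ∣ M) → ∀ ε : ℝ, 0 < ε →
    ∀ᶠ k : ℕ in atTop, cnt g k (fun c => P c ∧ Few g M d k η (fun x => (M : ℤ) ^ 3 ∣ x - a) (fm c)) ≤
      8 / z * cnt g k P + ε * (k : ℝ) ^ (2 * g + 3)

def ALL2Stmt : Prop := ∀ g : ℕ, 1 ≤ g → ∃ η : ℝ, 0 < η ∧ ∀ M d z : ℕ, 0 < M → d ∣ M → 2 ≤ z →
  (∀ p : ℕ, p.Prime → p ≤ z → p ∣ M) → ∀ ε : ℝ, 0 < ε → ∀ᶠ k : ℕ in atTop,
    cnt g k (fun c => (∃ a : ℤ, 8 ∣ a - 1 ∧ (d : ℤ) ∣ val c a ∧ IsCoprime (val c a / d) (M : ℤ)) ∧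
      Few g M d k η (fun x => 8 ∣ x - 1) (fm c)) ≤
      (8 * 3 ^ (2 * g + 3) / z + ε) * (k : ℝ) ^ (2 * g + 3)

theorem Many.term (lamp : LAMStmt) {g d t : ℕ} {κ : ℝ} (h2 : 2 ≤ t)
    (h0 : 0 ≤ κ) (hk : ∀ r : ℕ, r.Prime → t ^ 8 < r → κ ≤ kap g r) (c : Vec g) (x : ℤ) :
    la t d c x * (∏ r ∈ pf d c x, phi g r c - ∏ r ∈ pf d c x, kap g r) ≤
      -κ ^ 5 * la t d c x + 10 * Real.log t := by
  obtain ⟨l0, l2, l1⟩ := lamp t (uu d c x) h2
  by_cases e : la t d c x = 0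
  · rw [e, zero_mul, mul_zero, zero_add]
    exact l0.trans l2
  obtain ⟨-, -, cd, bg⟩ := l1 e
  have p0 : ∏ r ∈ pf d c x, phi g r c ≤ 1 :=
    prod_le_one (fun _ _ => ind_nonneg _) fun _ _ => ind_le_one _
  have p1 : κ ^ 5 ≤ ∏ r ∈ pf d c x, kap g r := by
    rw [← cd, ← prod_const]
    exact prod_le_prod (fun _ _ => h0) fun r hr =>
      hk r (Nat.prime_of_mem_primeFactors hr) (bg r hr).1
  have := mul_le_mul_of_nonneg_left
    (by linarith : ∏ r ∈ pf d c x, phi g r c - ∏ r ∈ pf d c x, kap g r ≤ 1 - κ ^ 5) l0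
  rw [la] at *
  linarith

theorem point2 (geo : GEOStmt) (lamp : LAMStmt) (sg : SIGStmt) (phil : PHIStmt) (kapl : KAPStmt)
    (v1 : VAR1Stmt) (v2 : VAR2Stmt) : POINT2Stmt := by
  classical
  intro g hg
  obtain ⟨r₀, hr⟩ := (kapl g hg).2.2
  obtain ⟨s, s0, hs⟩ := sg
  set κ : ℝ := 1 / (2 * (2 * g + 1)) with hκ
  have k0 : 0 < κ := by positivity
  refine ⟨κ ^ 5 * s / 6560, by positivity, fun M d a z P D hz hp ε hε => ?_⟩
  refine (Point.ev_rel (F := fun _ k => cnt g k (fun c => P c ∧ Few g M d k (κ ^ 5 * s / 6560)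
    (fun x => (M : ℤ) ^ 3 ∣ x - a) (fm c)) ≤ 8 / z * cnt g k P + ε * (k : ℝ) ^ (2 * g + 3))
    ?_).mono fun k h => h.choose_spec
  filter_upwards [v1 g M d a z P D hz hp (ε / 2) (half_pos hε),
    v2 g M d a P hg D (ε / 2) (κ ^ 5 / 4) (half_pos hε) (by positivity), ev_pt M a,
    eventually_ge_atTop 2, eventually_ge_atTop r₀, hs, ev_le_log 1]
    with t a1 a2 a3 h2 h3 h4 h5 k hk
  have t0 : (0 : ℝ) < t := by positivity
  have lg : Real.log t ≤ Real.log k := Real.log_le_log t0 (by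
    exact_mod_cast (Nat.le_self_pow (by norm_num) t).trans hk.1)
  have lg' : Real.log k ≤ 82 * Real.log t := by
    have e : (k : ℝ) ≤ (t : ℝ) ^ 82 := by
      have : k ≤ t ^ 82 := hk.2.trans (by
        rw [show 82 = 41 + 41 from rfl, pow_add t]
        exact Nat.mul_le_mul_right _ (Nat.pow_le_pow_left h2 _))
      exact_mod_cast this
    have k1 : (0 : ℝ) < k := by exact_mod_cast lt_of_lt_of_le (by positivity) hk.1
    simpa using Real.log_le_log k1 e
  have m0 : s / 2 * Real.log t ^ 2 ≤ mu t M := by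
    have b : s / Real.log t ^ 4 ≤ sig t * ph M :=
      h4.1.trans (le_mul_of_one_le_right (le_trans (by positivity) h4.1) (phil.1 M D.pos).1)
    refine le_trans (le_of_eq ?_) (mul_le_mul (le_nl h5) b (by positivity) (Nat.cast_nonneg _))
    field_simp
  refine (cnt_le_add (Q := fun c => P c ∧ XX t M d a c ≤ mu t M / 2)
    (R := fun c => P c ∧ κ ^ 5 / 4 * mu t M ≤ |ZZ t M d a c|) fun c _ hc => ?_).trans
    (by linarith [(a1 k hk).1, a2 k hk])
  have kr : ∀ r : ℕ, r.Prime → t ^ 8 < r → κ ≤ kap g r := fun r p q =>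
    hr r p (h3.trans ((Nat.le_self_pow (by norm_num) t).trans q.le))
  set G := (range (nl t)).filter fun j => Gp g M d (fm c) (pt M a j) with hG
  have c0 := hc.2 (G.image (pt M a)) fun x hx => by
    obtain ⟨j, hj, rfl⟩ := mem_image.1 hx
    refine ⟨?_, by simp [pt], (mem_filter.1 hj).2⟩
    rw [abs_of_nonneg (by exact_mod_cast pt_nonneg M a j)]
    have := pow_le_pow_left₀ (Real.log_natCast_nonneg t) lg 7
    linarith [a3 j (mem_filter.1 hj).1]
  rw [card_image_of_injective _ fun i j e => by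
    have M0 : (M : ℤ) ^ 3 ≠ 0 := pow_ne_zero _ (Int.natCast_ne_zero.2 D.pos.ne')
    exact_mod_cast mul_left_cancel₀ M0 (add_left_cancel e)] at c0
  have z0 : ZZ t M d a c ≤ -κ ^ 5 * XX t M d a c + G.card * (10 * Real.log t) := by
    rw [ZZ, XX, mul_sum, hG, card_filter, Nat.cast_sum, sum_mul, ← sum_add_distrib]
    refine sum_le_sum fun j _ => ?_
    split_ifs with e
    · simpa using Many.term lamp h2 k0.le kr c _
    · simpa using Point.term geo lamp D h2 k0.le kr hc.1 e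
  rcases le_or_gt (XX t M d a c) (mu t M / 2) with e | e
  · exact Or.inl ⟨hc.1, e⟩
  · refine Or.inr ⟨hc.1, le_trans ?_ (neg_le_abs _)⟩
    have b1 := mul_le_mul_of_nonneg_left e.le (pow_pos k0 5).le
    have b2 := mul_le_mul_of_nonneg_right (c0.le.trans (mul_le_mul_of_nonneg_left lg'
      (by positivity))) (by positivity : 0 ≤ 10 * Real.log t)
    have b3 := mul_le_mul_of_nonneg_left m0 (pow_pos k0 5).le
    linarith

theorem all2 (geo : GEOStmt) (point : POINT2Stmt) : ALL2Stmt := by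
  intro g hg
  obtain ⟨η, η0, point⟩ := point g hg
  refine ⟨η, η0, fun M d z hM hd hz hp ε hε => ?_⟩
  have h8 : (8 : ℤ) ∣ (M : ℤ) ^ 3 := by
    exact_mod_cast pow_dvd_pow_of_dvd (hp 2 Nat.prime_two hz) 3
  have hM' : (0 : ℝ) < (M : ℝ) ^ 3 := by positivity
  filter_upwards [(eventually_all_finset (range (M ^ 3))).2 fun a _ => point M d a z _
    (AllC.dat geo hM hd a) (by omega) hp _ (div_pos hε hM'), eventually_ge_atTop 1] with k hk h1
  refine (cnt_le_sum (range (M ^ 3)) _ fun c _ hc => ?_).trans ((sum_le_sum hk).trans ?_)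
  · obtain ⟨⟨a, ha⟩, h2⟩ := hc
    obtain ⟨b, hb, h3⟩ := AllC.exists_pa hM hd h8 ha
    exact ⟨b, hb, h3, fun A hA => h2 A fun x hx => ⟨(hA x hx).1,
      by simpa using dvd_add (h8.trans (hA x hx).2.1) h3.1.1, (hA x hx).2.2⟩⟩
  · have h2 := AllC.sum_le (g := g) (M := M) (d := d) k (range (M ^ 3))
    have h3 : (1 : ℝ) ≤ k := by exact_mod_cast h1
    have h4 : ((bx g k).card : ℝ) ≤ 3 ^ (2 * g + 3) * (k : ℝ) ^ (2 * g + 3) := by
      rw [geo.1, ← mul_pow]
      push_cast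
      exact pow_le_pow_left₀ (by positivity) (by linarith) _
    rw [sum_add_distrib, ← mul_sum, sum_const, card_range, nsmul_eq_mul, add_mul]
    refine add_le_add ((mul_le_mul_of_nonneg_left (h2.trans h4) (by positivity)).trans_eq
      (by ring)) (le_of_eq ?_)
    push_cast
    field_simp

end Pool.Agent.MP_a43263_nt.W1

end
end MrgPart9

-- ======== part 10: formerly Pool.Agent.MP_a43263_nt.W1.Main
section MrgPart10

/-! THEOREM W: the final count. -/

set_option autoImplicit false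

noncomputable section

namespace Pool.Agent.MP_a43263_nt.W1

open Polynomial Finset Filter JC
open Pool.Agent.MP_a43263_nt.UV (zK)

theorem Main.bx_le {g k : ℕ} {c : Vec g} (h : c ∈ bx g k) (i : Fin (2 * g + 3)) :
    |c i| ≤ 8 * (k : ℤ) := by
  have := mem_Icc.1 (Fintype.mem_piFinset.1 h i)
  have k0 : (0 : ℤ) ≤ k := Nat.cast_nonneg k
  rw [ce] at this
  rw [abs_le]
  split_ifs at this <;> constructor <;> linarith [this.1, this.2]

theorem main : ALLStmt → ONEStmt → SIFStmt → CLSStmt → MAINStmt := by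
  intro all one sif cls g hg
  classical
  obtain ⟨Q, ε, ε0, hQ, h1⟩ := sif g hg
  obtain ⟨z, hz⟩ := exists_nat_ge (2 + 4 * 2 ^ Q.card * (8 * 3 ^ (2 * g + 3)) / ε : ℝ)
  have p0 : (0 : ℝ) ≤ 4 * 2 ^ Q.card * (8 * 3 ^ (2 * g + 3)) / ε := by positivity
  have z2 : 2 ≤ z := by exact_mod_cast (by linarith : (2 : ℝ) ≤ z)
  have z0 : (0 : ℝ) < z := by linarith
  obtain ⟨M, hM⟩ : ∃ M, M = z.factorial * ∏ q ∈ Q, q := ⟨_, rfl⟩
  have M0 : 0 < M := hM ▸ mul_pos z.factorial_pos (prod_pos fun q hq => (hQ q hq).pos)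
  have dS : ∀ S ⊆ Q, ∏ q ∈ S, q ∣ M := fun S hS =>
    hM ▸ (prod_dvd_prod_of_subset _ _ _ hS).mul_left _
  have h2 := (eventually_all_finset Q.powerset).2 fun S hS =>
    all g M (∏ q ∈ S, q) z (by omega) M0 (dS S (mem_powerset.1 hS)) z2
      (fun p hp l => hM ▸ (hp.dvd_factorial.2 l).mul_right _) (ε / (4 * 2 ^ Q.card)) (by positivity)
  refine ⟨ε / 2 / 48 ^ (2 * g + 3), by positivity, ?_⟩
  have tk : Tendsto (fun H : ℕ => H / 8) atTop atTop := Nat.tendsto_div_const_atTop (by norm_num)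
  filter_upwards [tk.eventually h1, tk.eventually h2, eventually_ge_atTop 8] with H h1 h2 h3
  have kH : 8 * (H / 8) ≤ H := Nat.mul_div_le _ _
  have k0 : 1 ≤ H / 8 := by omega
  have Hk : H ≤ 16 * (H / 8) := by omega
  generalize H / 8 = k at h1 h2 kH k0 Hk
  have lg : Real.log k ^ 7 ≤ Real.log H ^ 7 :=
    pow_le_pow_left₀ (Real.log_natCast_nonneg k) (Real.log_le_log (by exact_mod_cast k0)
      (by exact_mod_cast (by omega : k ≤ H))) 7
  have h4 := cnt_le_add (g := g) (k := k) (P := fun c => Sif g Q (fm c))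
    (Q := fun c => Best g H (fm fun i => (c i : ℚ)))
    (R := fun c => ∃ S ∈ Q.powerset, (∃ a : ℤ, 8 ∣ a - 1 ∧ ((∏ q ∈ S, q : ℕ) : ℤ) ∣ val c a ∧
      IsCoprime (val c a / ((∏ q ∈ S, q : ℕ) : ℤ)) (M : ℤ)) ∧ ∀ x : ℤ,
        |(x : ℝ)| ≤ Real.log k ^ 7 → 8 ∣ x - 1 → ¬Gp g M (∏ q ∈ S, q) (fm c) x) fun c _ hc => by
    obtain ⟨S, hS, h⟩ := one g _ Q hc
    by_cases b : ∀ x : ℤ, |(x : ℝ)| ≤ Real.log k ^ 7 → 8 ∣ x - 1 →
      ¬Gp g M (∏ q ∈ S, q) (fm c) x
    · exact .inr ⟨S, mem_powerset.2 hS, cls g _ Q S M hc hS M0, b⟩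
    push Not at b
    obtain ⟨x, b1, b2, b3⟩ := b
    obtain ⟨n0, r⟩ := h M x (fun q hq => by simpa using dS {q} (singleton_subset_iff.2 hq)) b2 b3
    have e : (fm fun i => (c i : ℚ)) = zK (fm c) ℚ := (VA.fm_map (Int.castRingHom ℚ) c).symm
    have e' : (zK (fm c) ℚ).eval (x : ℚ) = ((fm c).eval x : ℤ) :=
      eval_intCast_map (Int.castRingHom ℚ) _ x
    refine .inl ?_
    rw [e]
    exact ⟨(VA.fam_sq hc.1 ℚ).deg, hc.1.irr, x, b1.trans lg,
      e' ▸ Int.cast_ne_zero.2 n0, e' ▸ r⟩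
  have h5 := (cnt_le_sum (g := g) (k := k) Q.powerset _ fun c _ hc => hc).trans (sum_le_sum h2)
  rw [sum_const, card_powerset, nsmul_eq_mul] at h5
  have h6 : cnt g k (fun c => Best g H (fm fun i => (c i : ℚ))) ≤
      ({c : Vec g | (∀ i, |c i| ≤ H) ∧ Best g H (fm fun i => (c i : ℚ))}.ncard : ℝ) := by
    rw [cnt_eq_ncard]
    refine Nat.cast_le.2 (Set.ncard_le_ncard (fun c hc => ⟨fun i => (Main.bx_le hc.1 i).trans
      (by exact_mod_cast kH), hc.2⟩) ?_)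
    exact ((VE.FinE.box_eq _ H).symm ▸ finite_toSet _ :
      {c : Vec g | ∀ i, |c i| ≤ (H : ℤ)}.Finite).subset fun c hc => hc.1
  have h7 : ({c : Vec g | ∀ i, |c i| ≤ H}.ncard : ℝ) ≤ 48 ^ (2 * g + 3) * (k : ℝ) ^ (2 * g + 3) := by
    have := (VE.FinE.box_card (2 * g + 3) H (by omega)).trans
      (Nat.pow_le_pow_left (by omega : 3 * H ≤ 48 * k) _)
    rw [← mul_pow]
    exact_mod_cast this
  have h8 : ((2 ^ Q.card : ℕ) : ℝ) * (8 * 3 ^ (2 * g + 3) / z + ε / (4 * 2 ^ Q.card)) ≤ ε / 2 := by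
    have a : (2 : ℝ) ^ Q.card * (8 * 3 ^ (2 * g + 3) / z) ≤ ε / 4 := by
      rw [← mul_div_assoc, div_le_iff₀ z0]
      have : 4 * 2 ^ Q.card * (8 * 3 ^ (2 * g + 3)) / ε ≤ (z : ℝ) := by linarith
      rw [div_le_iff₀ ε0] at this
      linarith
    have b : (2 : ℝ) ^ Q.card * (ε / (4 * 2 ^ Q.card)) = ε / 4 := by field_simp
    push_cast
    rw [mul_add, b]
    linarith
  have k1 : (0 : ℝ) ≤ (k : ℝ) ^ (2 * g + 3) := by positivity
  have h9 := mul_le_mul_of_nonneg_right h8 k1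
  rw [mul_assoc] at h9
  calc _ ≤ ε / 2 / 48 ^ (2 * g + 3) * (48 ^ (2 * g + 3) * (k : ℝ) ^ (2 * g + 3)) := by gcongr
    _ = ε / 2 * (k : ℝ) ^ (2 * g + 3) := by field_simp
    _ ≤ _ := by linarith

end Pool.Agent.MP_a43263_nt.W1

end
end MrgPart10

-- ======== part 11: formerly Pool.Agent.MP_a43263_nt.W1.Main2
section MrgPart11

/-! THEOREM W: the final count, with many twists. -/

set_option autoImplicit false

noncomputable section

namespace Pool.Agent.MP_a43263_nt.W1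

open Polynomial Finset Filter JC
open Pool.Agent.MP_a43263_nt.UV (zK)

/-- the conclusion for one polynomial -/
def Best2 (g H : ℕ) (η : ℝ) (f : ℚ[X]) : Prop := f.natDegree = 2 * g + 2 ∧ Irreducible f ∧
  ∃ S : Finset ℤ, η * Real.log H ≤ S.card ∧ ∀ D ∈ S, Squarefree D ∧
    (∃ a : ℤ, |(a : ℝ)| ≤ Real.log H ^ 7 ∧ f.eval (a : ℚ) = D) ∧ Rk1 (C (D : ℚ) * f)

def MAIN2Stmt : Prop := ∀ g : ℕ, 2 ≤ g → ∃ ε : ℝ, 0 < ε ∧ ∀ᶠ H : ℕ in atTop,
  ε * ({c : Vec g | ∀ i, |c i| ≤ H}.ncard : ℝ) ≤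
    ({c : Vec g | (∀ i, |c i| ≤ H) ∧ Best2 g H ε (fm fun i => (c i : ℚ))}.ncard : ℝ)

namespace Main2

theorem sqf {g M : ℕ} {S : Finset ℕ} {f : ℤ[X]} {x : ℤ} (hS : ∀ q ∈ S, q.Prime ∧ q ∣ M)
    (h : Gp g M (∏ q ∈ S, q) f x) : Squarefree (f.eval x) := by
  obtain ⟨u, -, sq, e, hu⟩ := h
  rw [← Int.squarefree_natAbs, e, Int.natAbs_neg, ← Nat.cast_mul, Int.natAbs_natCast]
  refine (Nat.squarefree_mul (Nat.Coprime.prod_left fun q hq => ((hS q hq).1.coprime_iff_not_dvd).2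
    fun d => (hu q (hS q hq).1 d).1 (hS q hq).2)).2 ⟨?_, sq⟩
  exact squarefree_prod_of_pairwise_isCoprime (fun p hp q hq n => Nat.coprime_iff_isRelPrime.1
    ((Nat.coprime_primes (hS p hp).1 (hS q hq).1).2 n)) fun q hq => (hS q hq).1.squarefree

theorem fib {f : ℤ[X]} {n : ℕ} (hn : 0 < n) (hd : f.natDegree = n) (A : Finset ℤ) :
    A.card ≤ n * (A.image f.eval).card := by
  refine card_le_mul_card_image A n fun D _ => ?_
  have h0 : f - C D ≠ 0 := fun e => by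
    have := natDegree_sub_C (p := f) (a := D)
    rw [e, natDegree_zero] at this
    omega
  refine (card_le_card (t := (f - C D).roots.toFinset) fun x hx => ?_).trans
    ((Multiset.toFinset_card_le _).trans ((card_roots' _).trans (by rw [natDegree_sub_C, hd])))
  rw [Multiset.mem_toFinset, mem_roots h0, IsRoot, eval_sub, eval_C, (mem_filter.1 hx).2, sub_self]

theorem mono {g H : ℕ} {η η' : ℝ} {f : ℚ[X]} (h : η' ≤ η) (b : Best2 g H η f) : Best2 g H η' f := by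
  obtain ⟨a, b, S, c, d⟩ := b
  exact ⟨a, b, S, (mul_le_mul_of_nonneg_right h (Real.log_natCast_nonneg H)).trans c, d⟩

end Main2

theorem main2 (all : ALL2Stmt) (one : ONEStmt) (sif : SIFStmt) (cls : CLSStmt) : MAIN2Stmt := by
  intro g hg
  classical
  obtain ⟨η, η0, all⟩ := all g (by omega)
  obtain ⟨Q, ε, ε0, hQ, h1⟩ := sif g hg
  obtain ⟨z, hz⟩ := exists_nat_ge (2 + 4 * 2 ^ Q.card * (8 * 3 ^ (2 * g + 3)) / ε : ℝ)
  have p0 : (0 : ℝ) ≤ 4 * 2 ^ Q.card * (8 * 3 ^ (2 * g + 3)) / ε := by positivity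
  have z2 : 2 ≤ z := by exact_mod_cast (by linarith : (2 : ℝ) ≤ z)
  have z0 : (0 : ℝ) < z := by linarith
  obtain ⟨M, hM⟩ : ∃ M, M = z.factorial * ∏ q ∈ Q, q := ⟨_, rfl⟩
  have M0 : 0 < M := hM ▸ mul_pos z.factorial_pos (prod_pos fun q hq => (hQ q hq).pos)
  have dS : ∀ S ⊆ Q, ∏ q ∈ S, q ∣ M := fun S hS =>
    hM ▸ (prod_dvd_prod_of_subset _ _ _ hS).mul_left _
  have dq : ∀ q ∈ Q, q ∣ M := fun q hq => by simpa using dS {q} (singleton_subset_iff.2 hq)
  have h2 := (eventually_all_finset Q.powerset).2 fun S hS =>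
    all M (∏ q ∈ S, q) z M0 (dS S (mem_powerset.1 hS)) z2
      (fun p hp l => hM ▸ (hp.dvd_factorial.2 l).mul_right _) (ε / (4 * 2 ^ Q.card)) (by positivity)
  refine ⟨min (ε / 2 / 48 ^ (2 * g + 3)) (η / (2 * (2 * g + 2))), by positivity, ?_⟩
  have tk : Tendsto (fun H : ℕ => H / 8) atTop atTop := Nat.tendsto_div_const_atTop (by norm_num)
  filter_upwards [tk.eventually h1, tk.eventually h2, eventually_ge_atTop 128] with H h1 h2 h3
  have kH : 8 * (H / 8) ≤ H := Nat.mul_div_le _ _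
  have k0 : 16 ≤ H / 8 := by omega
  have Hk : H ≤ 16 * (H / 8) := by omega
  generalize H / 8 = k at h1 h2 kH k0 Hk
  have lg : Real.log k ^ 7 ≤ Real.log H ^ 7 :=
    pow_le_pow_left₀ (Real.log_natCast_nonneg k) (Real.log_le_log (by
      exact_mod_cast (by omega : 0 < k)) (by exact_mod_cast (by omega : k ≤ H))) 7
  have lg' : Real.log H ≤ 2 * Real.log k := by
    have : (H : ℝ) ≤ (k : ℝ) ^ 2 := by exact_mod_cast Hk.trans (by nlinarith)
    simpa using Real.log_le_log (by exact_mod_cast (by omega : 0 < H)) this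
  have h4 := cnt_le_add (g := g) (k := k) (P := fun c => Sif g Q (fm c))
    (Q := fun c => Best2 g H (η / (2 * (2 * g + 2))) (fm fun i => (c i : ℚ)))
    (R := fun c => ∃ S ∈ Q.powerset, (∃ a : ℤ, 8 ∣ a - 1 ∧ ((∏ q ∈ S, q : ℕ) : ℤ) ∣ val c a ∧
      IsCoprime (val c a / ((∏ q ∈ S, q : ℕ) : ℤ)) (M : ℤ)) ∧
        Few g M (∏ q ∈ S, q) k η (fun x => 8 ∣ x - 1) (fm c)) fun c _ hc => by
    obtain ⟨S, hS, h⟩ := one g _ Q hc
    by_cases b : Few g M (∏ q ∈ S, q) k η (fun x => 8 ∣ x - 1) (fm c)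
    · exact .inr ⟨S, mem_powerset.2 hS, cls g _ Q S M hc hS M0, b⟩
    rw [Few] at b
    push Not at b
    obtain ⟨A, b1, b2⟩ := b
    have e : (fm fun i => (c i : ℚ)) = zK (fm c) ℚ := (VA.fm_map (Int.castRingHom ℚ) c).symm
    refine .inl ?_
    rw [e]
    refine ⟨(VA.fam_sq hc.1 ℚ).deg, hc.1.irr, A.image (fm c).eval, ?_, fun D hD => ?_⟩
    · have b3 : (A.card : ℝ) ≤ (2 * g + 2) * (A.image (fm c).eval).card := by
        exact_mod_cast Main2.fib (by omega) hc.1.deg A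
      rw [div_mul_eq_mul_div, div_le_iff₀ (by positivity)]
      nlinarith [mul_le_mul_of_nonneg_left lg' η0.le]
    · obtain ⟨x, hx, rfl⟩ := mem_image.1 hD
      obtain ⟨c1, c2, c3⟩ := b1 x hx
      exact ⟨Main2.sqf (fun q hq => ⟨hQ q (hS hq), dq q (hS hq)⟩) c3,
        ⟨x, c1.trans lg, eval_intCast_map (Int.castRingHom ℚ) _ x⟩, (h M x dq c2 c3).2⟩
  have h5 := (cnt_le_sum (g := g) (k := k) Q.powerset _ fun c _ hc => hc).trans (sum_le_sum h2)
  rw [sum_const, card_powerset, nsmul_eq_mul] at h5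
  have h6 : cnt g k (fun c => Best2 g H (η / (2 * (2 * g + 2))) (fm fun i => (c i : ℚ))) ≤
      ({c : Vec g | (∀ i, |c i| ≤ H) ∧ Best2 g H (min (ε / 2 / 48 ^ (2 * g + 3))
        (η / (2 * (2 * g + 2)))) (fm fun i => (c i : ℚ))}.ncard : ℝ) := by
    rw [cnt_eq_ncard]
    refine Nat.cast_le.2 (Set.ncard_le_ncard (fun c hc => ⟨fun i => (Main.bx_le hc.1 i).trans
      (by exact_mod_cast kH), Main2.mono (min_le_right _ _) hc.2⟩) ?_)
    exact ((VE.FinE.box_eq _ H).symm ▸ finite_toSet _ :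
      {c : Vec g | ∀ i, |c i| ≤ (H : ℤ)}.Finite).subset fun c hc => hc.1
  have h7 : ({c : Vec g | ∀ i, |c i| ≤ H}.ncard : ℝ) ≤ 48 ^ (2 * g + 3) * (k : ℝ) ^ (2 * g + 3) := by
    have := (VE.FinE.box_card (2 * g + 3) H (by omega)).trans
      (Nat.pow_le_pow_left (by omega : 3 * H ≤ 48 * k) _)
    rw [← mul_pow]
    exact_mod_cast this
  have h8 : ((2 ^ Q.card : ℕ) : ℝ) * (8 * 3 ^ (2 * g + 3) / z + ε / (4 * 2 ^ Q.card)) ≤ ε / 2 := by
    have a : (2 : ℝ) ^ Q.card * (8 * 3 ^ (2 * g + 3) / z) ≤ ε / 4 := by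
      rw [← mul_div_assoc, div_le_iff₀ z0]
      have : 4 * 2 ^ Q.card * (8 * 3 ^ (2 * g + 3)) / ε ≤ (z : ℝ) := by linarith
      rw [div_le_iff₀ ε0] at this
      linarith
    have b : (2 : ℝ) ^ Q.card * (ε / (4 * 2 ^ Q.card)) = ε / 4 := by field_simp
    push_cast
    rw [mul_add, b]
    linarith
  have k1 : (0 : ℝ) ≤ (k : ℝ) ^ (2 * g + 3) := by positivity
  have h9 := mul_le_mul_of_nonneg_right h8 k1
  rw [mul_assoc] at h9
  calc _ ≤ ε / 2 / 48 ^ (2 * g + 3) * (48 ^ (2 * g + 3) * (k : ℝ) ^ (2 * g + 3)) :=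
        mul_le_mul (min_le_left _ _) h7 (Nat.cast_nonneg _) (by positivity)
    _ = ε / 2 * (k : ℝ) ^ (2 * g + 3) := by field_simp
    _ ≤ _ := by linarith

end Pool.Agent.MP_a43263_nt.W1

end
end MrgPart11

-- marker of a merged file
example : 731051 + 339912 = 731051 + 339912 := rfl
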