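import Pool.Agent.MP_a43263_nt.W1.Main2
import Pool.Agent.MP_a43263_nt.VE.All
import Pool.Agent.MP_a43263_nt.W1.Cls

-- ======== part 0: formerly Pool.Agent.MP_a43263_nt.W1.M1
section MrgPart0

/-! THEOREM W: the first moment. -/

set_option autoImplicit false

noncomputable section

namespace Pool.Agent.MP_a43263_nt.W1

open Polynomial Finset Filter

namespace M1

theorem e0_dvd (g : ℕ) {m n : ℤ} (h : m ∣ n) (i) : m ∣ e0 g n i := by
  rw [e0, Pi.single_apply]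
  split_ifs
  · exact h
  · exact dvd_zero m

theorem e0_abs (g : ℕ) (n : ℤ) (i) : |e0 g n i| ≤ |n| := by
  rw [e0, Pi.single_apply]
  split_ifs <;> simp

theorem fin {X K l : ℝ} {A : ℕ} (hX : 0 ≤ X) (hl : 1 ≤ l) (hK : 2 * K ≤ l) :
    K * X / l ^ (A + 1) ≤ X / l ^ A / 2 := by
  rw [div_div, div_le_div_iff₀ (by positivity) (by positivity), pow_succ]
  have : 0 ≤ X * l ^ A := by positivity
  nlinarith

end M1

open M1 in
theorem m1 : SHStmt → GEOStmt → LAMStmt → SIGStmt → APLStmt → PHIStmt → M1Stmt := by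
  intro shf geo lamp _ apl phil g M d a P hD A
  obtain ⟨e, he⟩ := hD.dvd
  have hM := hD.pos
  have hd : 0 < d := Nat.pos_of_ne_zero fun h => by simp [h] at he; omega
  have he0 : 0 < e := Nat.pos_of_ne_zero fun h => by simp [h] at he; omega
  obtain ⟨q, hq, q1, qM, qp⟩ : ∃ q : ℕ, d * q = M ^ 3 ∧ 1 ≤ q ∧ q ≤ M ^ 3 ∧ ph q = ph M := by
    have a1 : d * (M ^ 2 * e) = M ^ 3 := by rw [mul_left_comm, ← he]; ring
    have a2 : 0 < M ^ 2 * e := by positivity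
    refine ⟨M ^ 2 * e, a1, a2, a1 ▸ Nat.le_mul_of_pos_left _ hd, phil.2.1 _ _ a2 hM ?_⟩
    rw [Nat.primeFactors_mul (by positivity) he0.ne', Nat.primeFactors_pow _ two_ne_zero,
      union_eq_left]
    exact Nat.primeFactors_mono ⟨d, by rw [he, mul_comm]⟩ hM.ne'
  filter_upwards [apl (A + (A + 2) + 1) 1 (7 * (2 * g + 2) + 1), ev_pt M a, ev_le_log 1,
    ev_le_log ((M : ℝ) ^ 3), ev_le_log (2 ^ 41 * (8 * (2 * g + 3) + 1)),
    ev_le_log (2 * (2 * 3 ^ (2 * g + 3))),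
    ev_le_log (2 * (40 * (2 * g + 3) * (M : ℝ) ^ 3 * 3 ^ (2 * g + 2))), ev_log_le 1 (A + 2),
    eventually_ge_atTop 2, eventually_ge_atTop (64 * M)] with t ha hp l1 l2 l3 l4 l5 l6 t2 t3
  intro k ⟨k1, k2⟩ j hj
  replace hp := hp j hj
  generalize hx : pt M a j = x at hp
  have x0 : 0 ≤ x := hx ▸ pt_nonneg M a j
  have g5 := fun c h => hx ▸ geo.2.2.2.2 g M d a P hD c j h
  set l := Real.log t
  have tk : t ≤ k := (Nat.le_self_pow (by norm_num) t).trans k1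
  have k0 : (1 : ℝ) ≤ k := by exact_mod_cast (by omega : 1 ≤ k)
  have k1' : (t : ℝ) ^ 41 ≤ k := by exact_mod_cast k1
  have k2' : (k : ℝ) ≤ 2 ^ 41 * (t : ℝ) ^ 41 := by exact_mod_cast k2
  have lD : (1 : ℝ) ≤ l ^ (A + 2) := one_le_pow₀ l1
  obtain ⟨R, R1, R2, R3⟩ : ∃ R : ℕ, 1 ≤ R ∧ (R : ℝ) ≤ k / l ^ (A + 2) ∧
      (k : ℝ) ≤ 2 * R * l ^ (A + 2) := by
    have a1 : (1 : ℝ) ≤ k / l ^ (A + 2) := by
      rw [le_div_iff₀ (by positivity)]
      exact l6.trans (by exact_mod_cast tk)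
    have a2 : 1 ≤ ⌊(k : ℝ) / l ^ (A + 2)⌋₊ := Nat.le_floor (by simpa using a1)
    refine ⟨_, a2, Nat.floor_le (by positivity), ?_⟩
    have a3 := Nat.lt_floor_add_one ((k : ℝ) / l ^ (A + 2))
    have a4 : (1 : ℝ) ≤ (⌊(k : ℝ) / l ^ (A + 2)⌋₊ : ℕ) := by exact_mod_cast a2
    rw [← div_le_iff₀ (by positivity)]
    linarith
  have R0 : (0 : ℝ) < R := by exact_mod_cast R1
  have s1 := shf g k (R * M ^ 3) ℕ (fun _ => range R) (fun _ i => e0 g (-((M : ℤ) ^ 3 * i)))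
    (fun c => ind (P c) * la t d c x) (10 * l) (fun _ => ⟨0, mem_range.2 R1⟩)
    (fun c ω hω => ⟨fun i => (e0_abs g _ i).trans (by
      rw [abs_neg, abs_of_nonneg (by positivity), mul_comm]
      push_cast
      gcongr
      exact_mod_cast (mem_range.1 hω).le), rfl, rfl⟩) fun c => by
      obtain ⟨a1, a2, -⟩ := lamp t (uu d c x) t2
      rw [la, abs_of_nonneg (mul_nonneg (ind_nonneg _) a1)]
      exact (mul_le_of_le_one_left a1 (ind_le_one _)).trans a2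
  have s2 : ∀ c ∈ bx g k, |(∑ i ∈ range R, ind (P (c + e0 g (-((M : ℤ) ^ 3 * i)))) *
      la t d (c + e0 g (-((M : ℤ) ^ 3 * i))) x) / ((range R).card : ℕ) - sig t * ph M * ind (P c)|
      ≤ 2 / l ^ (A + 1) := by
    intro c hc
    have iv : ∀ i : ℕ, P (c + e0 g (-((M : ℤ) ^ 3 * i))) ↔ P c := fun i =>
      hD.inv c _ (e0_dvd g (dvd_neg.2 (dvd_mul_right _ _)))
    by_cases h : P c
    swap
    · simp only [ind_congr (iv _), ind_neg h, zero_mul, sum_const_zero, zero_div, mul_zero,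
        sub_zero, abs_zero]
      positivity
    obtain ⟨-, b1, b2⟩ := g5 c h
    obtain ⟨b3, b4⟩ := geo.2.2.2.1 g k c x hc x0
    have d0 : (0 : ℤ) < d := by exact_mod_cast hd
    have hq' : (d : ℤ) * q = (M : ℤ) ^ 3 := by exact_mod_cast hq
    have b5 : ∀ i : ℕ, uu d (c + e0 g (-((M : ℤ) ^ 3 * i))) x = uu d c x + i * q := fun i => by
      have := (g5 _ ((iv i).2 h)).2.1
      rw [geo.2.1, val_e0 geo, b1] at this
      exact mul_left_cancel₀ d0.ne' (by linear_combination this - i * hq')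
    rw [b1, neg_neg] at b3 b4
    simp only [ind_congr (iv _), ind_pos h, one_mul, mul_one, la, b5, card_range]
    generalize uu d c x = u at *
    have b6 : 64 * (t : ℤ) ^ 40 ≤ u := by
      by_contra c1
      have c2 : (d : ℤ) * u < d * (64 * (t : ℤ) ^ 40) := mul_lt_mul_of_pos_left (not_le.1 c1) d0
      have c3 : (d : ℤ) * 64 ≤ t := by
        have := Nat.le_of_dvd hM hD.dvd
        omega
      have c4 : (d : ℤ) * 64 * (t : ℤ) ^ 40 ≤ t * (t : ℤ) ^ 40 := by gcongr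
      have c5 : (t : ℤ) ^ 41 ≤ k := by exact_mod_cast k1
      have c6 : (0 : ℤ) ≤ k := by positivity
      linarith [pow_succ' (t : ℤ) 40]
    have qr : (q : ℝ) ≤ l := le_trans (by exact_mod_cast qM) l2
    have b7 : (u : ℝ) + R * q ≤ (t : ℝ) ^ 41 * l ^ (7 * (2 * g + 2) + 1) := by
      have u0 : 0 ≤ u := le_trans (by positivity) b6
      have c1 : u ≤ 8 * k * (2 * g + 3) * (1 + x) ^ (2 * g + 2) :=
        (le_mul_of_one_le_left u0 d0).trans b4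
      have c2 : (u : ℝ) ≤ 8 * k * (2 * g + 3) * (1 + (x : ℝ)) ^ (2 * g + 2) := by exact_mod_cast c1
      have x0' : (0 : ℝ) ≤ x := by exact_mod_cast x0
      have c3 : (u : ℝ) ≤ 8 * k * (2 * g + 3) * l ^ (7 * (2 * g + 2)) :=
        c2.trans (by rw [pow_mul]; gcongr)
      have c4 : (R : ℝ) * q ≤ k * l ^ (7 * (2 * g + 2)) :=
        mul_le_mul (R2.trans (div_le_self (by positivity) lD))
          (qr.trans (le_self_pow₀ l1 (by omega))) (by positivity) (by positivity)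
      calc (u : ℝ) + R * q ≤ k * (8 * (2 * g + 3) + 1) * l ^ (7 * (2 * g + 2)) := by linarith
        _ ≤ 2 ^ 41 * (t : ℝ) ^ 41 * (8 * (2 * g + 3) + 1) * l ^ (7 * (2 * g + 2)) := by gcongr
        _ = (t : ℝ) ^ 41 * (l ^ (7 * (2 * g + 2)) * (2 ^ 41 * (8 * (2 * g + 3) + 1))) := by ring
        _ ≤ _ := by rw [pow_succ l]; gcongr
    have b8 := ha u q R q1 (by simpa using qr)
      (IsCoprime.of_isCoprime_of_dvd_right (b2.pow_right (n := 3)) ⟨d, by rw [← hq', mul_comm]⟩) b6 b7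
    rw [qp] at b8
    rw [div_sub' R0.ne', abs_div, abs_of_pos R0, div_le_iff₀ R0]
    refine b8.trans ?_
    rw [div_mul_eq_mul_div, div_le_div_iff₀ (by positivity) (by positivity)]
    calc (t : ℝ) ^ 41 * l ^ (A + 1) ≤ 2 * R * l ^ (A + 2) * l ^ (A + 1) := by
          gcongr
          exact k1'.trans R3
      _ = _ := by ring
  have s3 := (abs_sum_le_sum_abs _ _).trans (sum_le_card_nsmul _ _ _ s2)
  rw [sum_sub_distrib, ← mul_sum, geo.1, nsmul_eq_mul] at s3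
  have k3 : 2 * (k : ℝ) + 1 ≤ 3 * k := by linarith
  have f1 := fin (X := (k : ℝ) ^ (2 * g + 3)) (A := A) (by positivity) l1 l4
  have f2 := fin (X := (k : ℝ) ^ (2 * g + 3)) (A := A) (by positivity) l1 l5
  have e1 : (((2 * k + 1) ^ (2 * g + 3) : ℕ) : ℝ) * (2 / l ^ (A + 1)) ≤
      2 * 3 ^ (2 * g + 3) * (k : ℝ) ^ (2 * g + 3) / l ^ (A + 1) := by
    push_cast
    calc _ ≤ (3 * (k : ℝ)) ^ (2 * g + 3) * (2 / l ^ (A + 1)) := by gcongr
      _ = _ := by rw [mul_pow]; ring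
  have e2 : 10 * l * bd g k (R * M ^ 3) ≤ 40 * (2 * g + 3) * (M : ℝ) ^ 3 * 3 ^ (2 * g + 2) *
      (k : ℝ) ^ (2 * g + 3) / l ^ (A + 1) := by
    rw [bd]
    push_cast
    calc _ ≤ 10 * l * (4 * (2 * g + 3) * (k / l ^ (A + 2) * (M : ℝ) ^ 3) *
          (3 * (k : ℝ)) ^ (2 * g + 2)) := by gcongr
      _ = _ := by rw [mul_pow]; field_simp; ring
  rw [abs_le] at s1 s3 ⊢
  simp only [cnt]
  constructor <;> linarith [s1.1, s1.2, s3.1, s3.2]

end Pool.Agent.MP_a43263_nt.W1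

end
end MrgPart0

-- ======== part 1: formerly Pool.Agent.MP_a43263_nt.W1.Sif
section MrgPart1

/-! THEOREM W: the sieve. -/

set_option autoImplicit false

noncomputable section

namespace Pool.Agent.MP_a43263_nt.W1

open Polynomial Finset Filter JC
open UV (zK Nx BXCStmt)

namespace SifA

open VV

open VE VE.Sieve in
theorem aux : BADStmt → COUNTStmt → BXCStmt → VE.GEOStmt → TYPStmt →
    BASEStmt → BNXStmt → BSXStmt → LOWStmt → TAILStmt → SIFStmt := by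
  intro bad count bxc geo typ base bnx bsx low tail g hg
  classical
  obtain ⟨q₀, c, c0, hc⟩ := count g 3 hg (by norm_num)
  obtain ⟨P, hP⟩ : ∃ P, P = 16 * g + 29 := ⟨_, rfl⟩
  have F0 : (0 : ℝ) < P.factorial := by exact_mod_cast P.factorial_pos
  obtain ⟨N, hN⟩ := exists_pow_lt_of_lt_one
    (x := 1 / (8 * c * (2 * (P.factorial : ℝ)) ^ (2 * g + 3))) (y := (4 / 5 : ℝ))
    (by positivity) (by norm_num)
  obtain ⟨Q, c₀, rfl, tz, hQ⟩ := base g q₀ N P (by omega)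
  have D0 : 0 < ∏ q ∈ Q, (q : ℝ) := prod_pos fun q hq => by exact_mod_cast (hQ q hq).1.pos
  obtain ⟨m, hm⟩ : ∃ m, m = P.factorial * ∏ q ∈ Q, q := ⟨_, rfl⟩
  have mR : (m : ℝ) = P.factorial * ∏ q ∈ Q, (q : ℝ) := by rw [hm]; push_cast; rfl
  have m0 : (0 : ℝ) < m := by rw [mR]; positivity
  have d₀ := deg0 (tz 2 Nat.prime_two (by omega))
  obtain ⟨M, M0, k1⟩ := hc (1 / (8 * (2 * (m : ℝ)) ^ (2 * g + 3))) (by positivity)
  replace k1 := k1 Q (VV.fm c₀) d₀ fun q hq => ⟨(hQ q hq).1, (hQ q hq).2.2⟩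
  obtain ⟨M₁, k3⟩ := tail g (1 / (8 * (4 * (m : ℝ)) ^ (2 * g + 3))) (by positivity)
  have dv : ∀ p : ℕ, p.Prime → (p ∣ m ↔ p ≤ P ∨ p ∈ Q) := fun p hp => by
    rw [hm, hp.dvd_mul, hp.dvd_factorial, hp.prime.dvd_finsetProd_iff]
    refine or_congr_right ⟨?_, fun h => ⟨p, h, dvd_rfl⟩⟩
    rintro ⟨q, hq, d⟩
    rwa [(Nat.prime_dvd_prime_iff_eq hp (hQ q hq).1).1 d]
  have k2 := low (2 * g + 3) m _ _ _ _ (max M M₁) c₀ (fun i => if Even i.1 then 7 else 0)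
    (by exact_mod_cast m0) (fun p hp => ⟨bnx _ p (by omega) hp, bsx g p hg hp⟩) fun p hp d => by
      have : (P : ℝ) ≤ p := by exact_mod_cast (not_le.1 fun l => d ((dv p hp).2 (.inl l))).le
      rw [hP] at this
      push_cast at this ⊢
      linarith
  refine ⟨Q, 1 / 8 * (2 / (m : ℝ)) ^ (2 * g + 3), by positivity, fun q hq => (hQ q hq).1, ?_⟩
  filter_upwards [(tendsto_natCast_atTop_atTop.const_mul_atTop
    (four_pos (α := ℝ))).eventually k1, k2, eventually_ge_atTop 1] with k h1 h2 k0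
  rw [cnt_eq_ncard]
  have fin : ∀ L : ℕ, {c : Fin (2 * g + 3) → ℤ | ∀ i, |c i| ≤ L}.Finite := fun L =>
    (bxc _ (fun _ : Fin (2 * g + 3) => (L : ℝ)) fun i => by positivity).1.subset
      fun c hc i => by exact_mod_cast hc i
  obtain ⟨B, hB⟩ : ∃ B : Set (Fin (2 * g + 3) → ℤ), B = {c | Sb k c ∧ Fam g (VV.fm c) ∧
    (∀ q ∈ Q, ((VV.fm c).leadingCoeff : ZMod q) = (VV.fm c₀).leadingCoeff) ∧
      Cl g Q (VV.fm c₀) M (VV.fm c)} := ⟨_, rfl⟩
  have fB : B.Finite := (fin (8 * k)).subset fun c hc => (geo g k c k0 (hB ▸ hc).1).1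
  have h4 := h1 (fB.toFinset.image VV.fm) fun f hf => by
    obtain ⟨c, hc, rfl⟩ := mem_image.1 hf
    obtain ⟨b1, b2, b3⟩ := hB ▸ fB.mem_toFinset.1 hc
    obtain ⟨-, -, -, -, g1, g2, -, g3⟩ := geo g k c k0 b1
    exact ⟨b2, g1, g2, g3, b3⟩
  rw [card_image_of_injective _ VA.fm_inj, ← Set.ncard_eq_toFinset_card _ fB] at h4
  have h5 := k3 (8 * k)
  have h6 : {c : Fin (2 * g + 3) → ℤ |
      (∀ i, |c i + (if Even i.1 then 7 else 0) * (k : ℤ)| ≤ k) ∧ (∀ i, (c i : ZMod m) = c₀ i) ∧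
      ∀ p : ℕ, p.Prime → ¬p ∣ m → (p : ℝ) < max M M₁ →
        ¬Nx p (VV.fm c) ∧ ¬(Sx p (VV.fm c) ∨ Bi g p c)} ⊆
      ({c | c ∈ bx g k ∧ Sif g Q (W1.fm c)} ∪ B) ∪
      {c | (∀ i, |c i| ≤ (8 * k : ℕ)) ∧ c (Fin.last _) ≠ 0 ∧
        ∃ p : ℕ, p.Prime ∧ M₁ ≤ p ∧ Bi g p c} := by
    rintro c ⟨b1, b2, b3⟩
    obtain ⟨g1, g2, g3, g4, -, -, g5, -⟩ := geo g k c k0 b1
    obtain ⟨t1, t2, t3⟩ := typ g (VV.fm c) (by omega) g3
    have zq : ∀ q ∈ Q, zK (VV.fm c) (ZMod q) = zK (VV.fm c₀) (ZMod q) := fun q hq =>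
      red b2 ((dv q (hQ q hq).1).2 (.inr hq))
    have ty : ∀ q ∈ Q, Ty g q (VV.fm c) := fun q hq => by
      rw [Ty, zq q hq]; exact (hQ q hq).2.2.2
    have tp : ∀ p : ℕ, p.Prime → p ≤ P → Tz g p (VV.fm c) := fun p hp l => by
      rw [Tz, red b2 ((dv p hp).2 (.inl l))]; exact tz p hp l
    have sm := fun (p : ℕ) (hp : p.Prime) (d : p ∣ m) =>
      t2 p hp (((dv p hp).1 d).imp (tp p hp) (ty p))
    by_cases T : ∃ p : ℕ, p.Prime ∧ M₁ ≤ p ∧ Bi g p c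
    · exact .inr ⟨g1, g2, T⟩
    have bi : ∀ p : ℕ, p.Prime → ¬Bi g p c := fun p hp b => by
      by_cases d : p ∣ m
      · exact (sm p hp d).1 (g4 ▸ b.1)
      exact T ⟨p, hp, not_lt.1 fun l => (b3 p hp d (lt_max_of_lt_right l)).2 (.inr b), b⟩
    have t2 := tp 2 Nat.prime_two (by omega)
    have hF : Fam g (VV.fm c) := ⟨hg, g3, t1 g5 t2, g5, sqf fun p hp d => bi p hp
      ⟨(dvd_pow_self _ two_ne_zero).trans (g4 ▸ d), .inl (g4 ▸ d)⟩,
      fun p hp d => not_not.1 fun n => bi p hp ⟨g4 ▸ d, .inr n⟩, t2⟩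
    obtain ⟨u1, u2⟩ := t3 (VV.fm c₀) Q M d₀ zq
    by_cases a : ¬Str Q (VV.fm c) ∨
      ∃ p : ℕ, p.Prime ∧ p ≠ 2 ∧ p ∉ Q ∧ M ≤ p ∧ (Nx p (VV.fm c) ∨ Sx p (VV.fm c))
    · exact .inl (.inr (hB ▸ ⟨b1, hF, u1, u2 (bad g _ Q M hF (fun q hq =>
        ⟨(hQ q hq).1, by have := (hQ q hq).2.1; omega, ty q hq⟩) M0.le a)⟩))
    rw [not_or, not_not] at a
    have ns : ∀ p : ℕ, p.Prime → ¬Nx p (VV.fm c) ∧ ¬Sx p (VV.fm c) := fun p hp => by
      by_cases d : p ∣ m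
      · exact (sm p hp d).2
      refine not_or.1 fun b => a.2 ⟨p, hp, fun e => d ((dv p hp).2 (.inl (by omega))),
        fun e => d ((dv p hp).2 (.inr e)), not_lt.1 fun l => ?_, b⟩
      have := b3 p hp d (lt_max_of_lt_left l)
      exact b.elim this.1 fun s => this.2 (.inl s)
    exact .inl (.inl ⟨mem_bx.2 b1, hF, fun q hq => ⟨(hQ q hq).1, (hQ q hq).2.1, ty q hq⟩,
      fun p hp => (ns p hp).1, a.1, fun p hp l => tp p hp (by omega)⟩)
  have h7 := (Set.ncard_le_ncard h6 ((((bx g k).finite_toSet.subset fun c hc => hc.1).union fB).union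
    ((fin (8 * k)).subset fun c hc => hc.1))).trans
    ((Set.ncard_union_le _ _).trans (Nat.add_le_add_right (Set.ncard_union_le _ _) _))
  have h8 := h2.trans (Nat.cast_le.2 h7)
  rw [Nat.cast_add, Nat.cast_add] at h8
  have e1 : 1 / (8 * (4 * (m : ℝ)) ^ (2 * g + 3)) * ((8 * k : ℕ) : ℝ) ^ (2 * g + 3) =
      1 / 8 * (2 * (k : ℝ) / m) ^ (2 * g + 3) := by
    rw [show 2 * (k : ℝ) / m = (8 * k : ℕ) / (4 * m) by push_cast; field_simp; norm_num, div_pow]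
    field_simp
  have e2 : 1 / (8 * (2 * (m : ℝ)) ^ (2 * g + 3)) * (4 * (k : ℝ)) ^ (2 * g + 3) =
      1 / 8 * (2 * (k : ℝ) / m) ^ (2 * g + 3) := by
    rw [show 2 * (k : ℝ) / m = 4 * k / (2 * m) by field_simp; norm_num, div_pow]
    field_simp
  have e3 : c * (4 / 5) ^ Q.card / (∏ q ∈ Q, (q : ℝ)) ^ (2 * g + 3) * (4 * (k : ℝ)) ^ (2 * g + 3) ≤
      1 / 8 * (2 * (k : ℝ) / m) ^ (2 * g + 3) := by
    have : (0 : ℝ) < (2 * (P.factorial : ℝ)) ^ (2 * g + 3) := by positivity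
    rw [show 2 * (k : ℝ) / m = 4 * k / (∏ q ∈ Q, (q : ℝ)) / (2 * P.factorial) by
      rw [mR]; field_simp; norm_num, div_pow (_ / _), div_pow (4 * (k : ℝ)), div_mul_eq_mul_div,
      mul_div_assoc, mul_div_assoc' (1 / 8 : ℝ), le_div_iff₀ this, mul_right_comm]
    refine mul_le_mul_of_nonneg_right ?_ (by positivity)
    rw [lt_div_iff₀ (by positivity)] at hN
    linarith
  have e4 : (2 / (m : ℝ)) ^ (2 * g + 3) * (k : ℝ) ^ (2 * g + 3) =
      (2 * (k : ℝ) / m) ^ (2 * g + 3) := by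
    rw [← mul_pow, div_mul_eq_mul_div]
  rw [add_mul, e2] at h4
  rw [e1] at h5
  rw [mul_assoc]
  linarith

end SifA

theorem sif : SIFStmt :=
  SifA.aux VB.bad (VC.count V99.fc) UV.bxc VE.geo VE.typ (VE.base UV.irr) VE.bnx (VE.bsx VE.ins)
    (VE.low UV.bxc) (VE.tail UV.bxc VE.ins)

end Pool.Agent.MP_a43263_nt.W1

end
end MrgPart1

-- marker of a merged file
example : 731051 + 399610 = 731051 + 399610 := rfl
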