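import Pool.Agent.MP_a43263_nt.W1.One
import Pool.Agent.MP_a43263_nt.W1.Main2
import Pool.Agent.MP_a43263_nt.W1.Sif
import Pool.Agent.MP_a43263_nt.W1.Cls
import Pool.Agent.MP_a43263_nt.R2.Sw

/-! THEOREM W: assembly. -/

set_option autoImplicit false

namespace Pool.Agent.MP_a43263_nt.W1

theorem sw : SWStmt := R2.sw

theorem v1 : VAR1Stmt :=
  var1 geo lamp (sigl sw) phil (m1 shf geo lamp (sigl sw) (apl sw) phil)
    (m2 shf geo lamp (sigl sw) (apl sw) phil)

theorem v2 : VAR2Stmt :=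
  var2 lamp (sigl sw) phil kapl v1 (pair geo lamp cop kapl (dec kapl (dec1 shf geo tri loc kapl)))

theorem thmW : MAIN2Stmt :=
  main2 (all2 geo (point2 geo lamp (sigl sw) phil kapl v1 v2))
    (one (kill2 gev rec2) (fin2 core2 tor) mw2) sif cls

end Pool.Agent.MP_a43263_nt.W1
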