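import Mathlib.Analysis.PSeries
import Mathlib.Order.Interval.Finset.Box
import Pool.Agent.MP_a43263_nt.W1.Main2
import Pool.Agent.MP_a43263_nt.W1.Cls
import Pool.Agent.MP_a43263_nt.VW.Ns
import Pool.Agent.MP_a43263_nt.VA.All
import Pool.Agent.MP_a43263_nt.VD.All
import Pool.Agent.MP_a43263_nt.VW.All
import Pool.Agent.MP_a43263_nt.VH.All

-- ======== part 0: formerly Pool.Agent.MP_a43263_nt.W1.Sh
section MrgPart0

/-! THEOREM W: the shift lemma. -/

set_option autoImplicit false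

noncomputable section

namespace Pool.Agent.MP_a43263_nt.W1

open Finset

namespace Sh

theorem wl {α : Type} [DecidableEq α] {K K' : Finset α} {Φ : α → α} {G w : α → ℝ} {B : ℝ}
    (hK : K' ⊆ K) (inj : Set.InjOn Φ K') (maps : ∀ x ∈ K', Φ x ∈ K)
    (hw : ∀ x ∈ K, w (Φ x) = w x) (hG : ∀ x, |G x| ≤ B * w x) :
    |∑ x ∈ K, G (Φ x) - ∑ x ∈ K, G x| ≤ 2 * B * ∑ x ∈ K \ K', w x := by
  have hI : K'.image Φ ⊆ K := image_subset_iff.2 maps
  have e1 := sum_sdiff (f := fun x => G (Φ x)) hK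
  have e2 := sum_sdiff (f := G) hI
  have e3 := sum_sdiff (f := w) hK
  have e4 := sum_sdiff (f := w) hI
  rw [sum_image inj] at e2 e4
  rw [sum_congr rfl fun x hx => hw x (hK hx)] at e4
  have b1 : |∑ x ∈ K \ K', G (Φ x)| ≤ B * ∑ x ∈ K \ K', w x := by
    rw [mul_sum]
    exact (abs_sum_le_sum_abs _ _).trans (sum_le_sum fun x hx => by
      rw [← hw x (mem_sdiff.1 hx).1]; exact hG _)
  have b2 : |∑ x ∈ K \ K'.image Φ, G x| ≤ B * ∑ x ∈ K \ K'.image Φ, w x := by
    rw [mul_sum]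
    exact (abs_sum_le_sum_abs _ _).trans (sum_le_sum fun x _ => hG _)
  have e5 : ∑ x ∈ K \ K'.image Φ, w x = ∑ x ∈ K \ K', w x := by linarith
  rw [e5] at b2
  have e6 : ∑ x ∈ K, G (Φ x) - ∑ x ∈ K, G x =
      ∑ x ∈ K \ K', G (Φ x) - ∑ x ∈ K \ K'.image Φ, G x := by linarith
  rw [e6]
  exact (abs_sub _ _).trans (by linarith)

/-- the points far from the faces -/
def inner (g k R : ℕ) : Finset (Vec g) :=
  (bx g k).filter fun c => ∀ i, -ce k i.1 - k + R ≤ c i ∧ c i + R ≤ -ce k i.1 + k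

theorem card_strip (g k R : ℕ) :
    (bx g k \ inner g k R).card ≤ (2 * g + 3) * (2 * R * (2 * k + 1) ^ (2 * g + 2)) := by
  let S : Fin (2 * g + 3) → Finset ℤ := fun i => Icc (-ce k i.1 - k) (-ce k i.1 + k)
  let s : Fin (2 * g + 3) → Finset ℤ := fun i =>
    Ico (-ce k i.1 - k) (-ce k i.1 - k + R) ∪ Ioc (-ce k i.1 + k - R) (-ce k i.1 + k)
  have hS : ∀ i, (S i).card = 2 * k + 1 := fun i => by
    simp only [S, Int.card_Icc]
    omega
  have hs : ∀ i, (s i).card ≤ 2 * R := fun i => by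
    refine (card_union_le _ _).trans ?_
    simp only [Int.card_Ico, Int.card_Ioc]
    omega
  have sub : bx g k \ inner g k R ⊆
      univ.biUnion fun i => Fintype.piFinset (Function.update S i (s i)) := by
    intro c hc
    obtain ⟨h1, h2⟩ := mem_sdiff.1 hc
    rw [inner, mem_filter, not_and] at h2
    obtain ⟨i, hi⟩ := not_forall.1 (h2 h1)
    have h3 : ∀ j, c j ∈ S j := Fintype.mem_piFinset.1 h1
    refine mem_biUnion.2 ⟨i, mem_univ _, Fintype.mem_piFinset.2 fun j => ?_⟩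
    by_cases e : j = i
    · subst e
      have := mem_Icc.1 (h3 j)
      rw [Function.update_self]
      simp only [s, mem_union, mem_Ico, mem_Ioc]
      omega
    · rw [Function.update_of_ne e]; exact h3 j
  refine (card_le_card sub).trans ((card_biUnion_le_card_mul _ _ _ fun i _ => ?_).trans
    (by rw [card_univ, Fintype.card_fin]))
  rw [Fintype.card_piFinset, ← mul_prod_erase _ _ (mem_univ i), Function.update_self,
    prod_congr rfl fun j hj => (by rw [Function.update_of_ne (ne_of_mem_erase hj), hS] :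
      (Function.update S i (s i) j).card = 2 * k + 1), prod_const, card_erase_of_mem (mem_univ i),
    card_univ, Fintype.card_fin]
  exact Nat.mul_le_mul_right _ (hs i)

end Sh

theorem shf : SHStmt := by
  intro g k R J T h F B hT hh hF
  classical
  have hB : 0 ≤ B := (abs_nonneg _).trans (hF 0)
  have hc : ∀ c, (0 : ℝ) < (T c).card := fun c => Nat.cast_pos.2 (hT c).card_pos
  have key := Sh.wl (α := Σ _ : Vec g, J) (K := (bx g k).sigma T)
    (K' := (Sh.inner g k R).sigma T) (Φ := fun x => ⟨x.1 + h x.1 x.2, x.2⟩)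
    (G := fun x => F x.1 / (T x.1).card) (w := fun x => 1 / (T x.1).card) (B := B)
    (sigma_mono (filter_subset _ _) fun _ => Subset.refl _)
    (by
      rintro ⟨c, ω⟩ hx ⟨c', ω'⟩ hy e
      obtain ⟨e1, e2⟩ := Sigma.mk.inj e
      obtain rfl : ω = ω' := eq_of_heq e2
      have a := (hh c ω (mem_sigma.1 hx).2).2.2
      have b := (hh c' ω (mem_sigma.1 hy).2).2.2
      have e3 : h c = h c' := by rw [← a, ← b, e1]
      have e4 : c + h c ω = c' + h c' ω := e1
      rw [e3] at e4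
      rw [add_right_cancel e4])
    (by
      rintro ⟨c, ω⟩ hx
      obtain ⟨h1, h2⟩ := mem_sigma.1 hx
      obtain ⟨a, b, -⟩ := hh c ω h2
      refine mem_sigma.2 ⟨Fintype.mem_piFinset.2 fun i => ?_, b.symm ▸ h2⟩
      have := (mem_filter.1 h1).2 i
      have := abs_le.1 (a i)
      simp only [mem_Icc, Pi.add_apply] at *
      omega)
    (fun x hx => by rw [(hh x.1 x.2 (mem_sigma.1 hx).2).2.1])
    (fun x => by
      rw [abs_div, abs_of_pos (hc _), mul_one_div]
      exact div_le_div_of_nonneg_right (hF _) (hc _).le)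
  have e : (bx g k).sigma T \ (Sh.inner g k R).sigma T = (bx g k \ Sh.inner g k R).sigma T := by
    ext x
    simp only [mem_sdiff, mem_sigma]
    tauto
  have one : ∀ (c : Vec g) (a : ℝ), ∑ _ω ∈ T c, a / (T c).card = a := fun c a => by
    rw [sum_const, nsmul_eq_mul, mul_div_cancel₀ _ (hc c).ne']
  rw [e, sum_sigma, sum_sigma, sum_sigma] at key
  simp only [one, sum_const, nsmul_eq_mul, mul_one] at key
  rw [sum_congr rfl fun c _ => sum_congr rfl fun ω hω => by rw [(hh c ω hω).2.1]] at key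
  simp only [← sum_div] at key
  have cs : ((bx g k \ Sh.inner g k R).card : ℝ) ≤
      (2 * g + 3) * (2 * R * (2 * k + 1) ^ (2 * g + 2)) := by exact_mod_cast Sh.card_strip g k R
  refine key.trans ((mul_le_mul_of_nonneg_left cs (by positivity)).trans_eq ?_)
  rw [bd]
  ring

end Pool.Agent.MP_a43263_nt.W1

end
end MrgPart0

-- ======== part 1: formerly Pool.Agent.MP_a43263_nt.W1.Geo
section MrgPart1

/-! THEOREM W, row GEO: the box, the values and the admissible classes. -/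

set_option autoImplicit false

noncomputable section

namespace Pool.Agent.MP_a43263_nt.W1

open Polynomial Finset Filter

namespace Geo

theorem val_eq (g : ℕ) (c : Vec g) (x : ℤ) : val c x = ∑ i, c i * x ^ i.1 := by
  simp [val, fm, eval_finsetSum]

theorem card_bx (g k : ℕ) : (bx g k).card = (2 * k + 1) ^ (2 * g + 3) := by
  rw [bx, Fintype.card_piFinset]
  have h : ∀ i : Fin (2 * g + 3), (Icc (-ce k i.1 - k) (-ce k i.1 + k)).card = 2 * k + 1 := by
    intro i
    rw [Int.card_Icc]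
    have e : -ce k i.1 + k + 1 - (-ce k i.1 - k) = ((2 * k + 1 : ℕ) : ℤ) := by push_cast; ring
    rw [e, Int.toNat_natCast]
  simp [h]

theorem alt (x : ℤ) (n : ℕ) :
    5 + x ^ (2 * n) ≤ ∑ i ∈ range (2 * n + 1), (if Even i then 6 else -1) * x ^ i := by
  induction n with
  | zero => simp
  | succ n ih =>
    have e : 2 * (n + 1) + 1 = 2 * n + 1 + 1 + 1 := by ring
    have h1 : ¬Even (2 * n + 1) := by simp
    have h2 : Even (2 * n + 1 + 1) := ⟨n + 1, by ring⟩
    rw [e, sum_range_succ, sum_range_succ, if_neg h1, if_pos h2]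
    have h3 : 0 ≤ x ^ (2 * n) := by rw [pow_mul]; positivity
    have h4 : 0 ≤ 1 - x + 5 * x ^ 2 := by nlinarith [sq_nonneg (2 * x - 1), sq_nonneg x]
    have h5 := mul_nonneg h3 h4
    have e1 : x ^ (2 * (n + 1)) = x ^ (2 * n) * x ^ 2 := by ring
    have e2 : x ^ (2 * n + 1) = x ^ (2 * n) * x := by ring
    have e3 : x ^ (2 * n + 1 + 1) = x ^ (2 * n) * x ^ 2 := by ring
    rw [e1, e2, e3]
    nlinarith

theorem size (g k : ℕ) (c : Vec g) (x : ℤ) (hc : c ∈ bx g k) (hx : 0 ≤ x) :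
    5 * (k : ℤ) ≤ -val c x ∧ -val c x ≤ 8 * k * (2 * g + 3) * (1 + x) ^ (2 * g + 2) := by
  have hk : (0 : ℤ) ≤ k := Int.natCast_nonneg k
  have hb : ∀ i : Fin (2 * g + 3),
      (if Even i.1 then 6 else -1) * (k : ℤ) ≤ -c i ∧ -c i ≤ 8 * k := by
    intro i
    have h := mem_Icc.1 (Fintype.mem_piFinset.1 hc i)
    rw [ce] at h
    by_cases e : Even i.1
    · rw [if_pos e] at h ⊢
      constructor <;> linarith [h.1, h.2]
    · rw [if_neg e] at h ⊢
      constructor <;> linarith [h.1, h.2]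
  have hv : -val c x = ∑ i : Fin (2 * g + 3), -c i * x ^ i.1 := by
    rw [val_eq, ← sum_neg_distrib]
    exact sum_congr rfl fun i _ => by ring
  rw [hv]
  constructor
  · have h := alt x (g + 1)
    have e : 2 * (g + 1) + 1 = 2 * g + 3 := by ring
    rw [e, ← Fin.sum_univ_eq_sum_range (fun i => (if Even i then 6 else -1) * x ^ i)] at h
    have h0 : 0 ≤ x ^ (2 * (g + 1)) := pow_nonneg hx _
    calc 5 * (k : ℤ) ≤ (∑ i : Fin (2 * g + 3), (if Even i.1 then 6 else -1) * x ^ i.1) * k :=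
          mul_le_mul_of_nonneg_right (by linarith) hk
      _ = ∑ i : Fin (2 * g + 3), (if Even i.1 then 6 else -1) * (k : ℤ) * x ^ i.1 := by
          rw [sum_mul]
          exact sum_congr rfl fun i _ => by ring
      _ ≤ _ := sum_le_sum fun i _ => mul_le_mul_of_nonneg_right (hb i).1 (pow_nonneg hx _)
  · have h1 : ∀ i : Fin (2 * g + 3), -c i * x ^ i.1 ≤ 8 * k * (1 + x) ^ (2 * g + 2) := by
      intro i
      have a1 : x ^ i.1 ≤ (1 + x) ^ (2 * g + 2) :=
        (pow_le_pow_left₀ hx (by linarith) _).trans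
          (pow_le_pow_right₀ (by linarith) (by have := i.2; omega))
      exact mul_le_mul (hb i).2 a1 (pow_nonneg hx _) (by positivity)
    calc ∑ i : Fin (2 * g + 3), -c i * x ^ i.1
        ≤ ∑ _i : Fin (2 * g + 3), 8 * (k : ℤ) * (1 + x) ^ (2 * g + 2) := sum_le_sum fun i _ => h1 i
      _ = _ := by
          rw [sum_const, card_univ, Fintype.card_fin, nsmul_eq_mul]
          push_cast
          ring

theorem cls (g M d a : ℕ) (P : Vec g → Prop) (D : Dat g M d a P) (c : Vec g) (j : ℕ) (hc : P c) :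
    0 < d ∧ val c (pt M a j) = -((d : ℤ) * uu d c (pt M a j)) ∧
      IsCoprime (uu d c (pt M a j)) (M : ℤ) := by
  have hd : 0 < d := Nat.pos_of_dvd_of_pos D.dvd D.pos
  have hd' : (d : ℤ) ≠ 0 := by exact_mod_cast hd.ne'
  obtain ⟨⟨v, hv⟩, hco⟩ := D.adm c hc
  obtain ⟨e, he⟩ := D.dvd
  obtain ⟨w, hw⟩ : pt M a j - a ∣ val c (pt M a j) - val c a := sub_dvd_eval_sub _ _ _
  have hM : (M : ℤ) = d * e := by exact_mod_cast he
  have h1 : val c (pt M a j) = d * (v + M * (M * e * j * w)) := by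
    have h2 : pt M a j - a = (M : ℤ) * M * (d * e) * j := by rw [pt, ← hM]; ring
    rw [h2, hv] at hw
    linear_combination hw
  have h3 : uu d c (pt M a j) = -(v + M * (M * e * j * w)) := by
    rw [uu, h1, Int.mul_ediv_cancel_left _ hd']
  rw [hv, Int.mul_ediv_cancel_left _ hd'] at hco
  refine ⟨hd, ?_, ?_⟩
  · rw [h3, h1]; ring
  · rw [h3]
    exact (hco.add_mul_left_left _).neg_left

end Geo

theorem geo : GEOStmt :=
  ⟨Geo.card_bx, fun g c e x => by
    simp only [Geo.val_eq, Pi.add_apply, add_mul, sum_add_distrib], Geo.val_eq, Geo.size, Geo.cls⟩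

end Pool.Agent.MP_a43263_nt.W1

end
end MrgPart1

-- ======== part 2: formerly Pool.Agent.MP_a43263_nt.W1.Sig
section MrgPart2

/-! THEOREM W: the size of the singular sum. -/

set_option autoImplicit false

noncomputable section

namespace Pool.Agent.MP_a43263_nt.W1

open Finset Filter

namespace Sig

theorem mem_pr {a b p : ℕ} : p ∈ pr a b ↔ (a < p ∧ p ≤ b) ∧ p.Prime := by
  rw [pr, mem_filter, mem_Ioc]

theorem split (Y : ℕ) : ∑ p ∈ pr 0 (2 * Y), Real.log p =
    ∑ p ∈ pr 0 Y, Real.log p + ∑ p ∈ pr Y (2 * Y), Real.log p := by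
  rw [← sum_union (disjoint_left.2 fun p h h' =>
    absurd (mem_pr.1 h').1.1 (not_lt.2 (mem_pr.1 h).1.2))]
  refine sum_congr (Finset.ext fun p => ?_) fun _ _ => rfl
  simp only [mem_union, mem_pr]
  refine ⟨fun h => ?_, fun h => ?_⟩
  · rcases le_or_gt p Y with k | k
    · exact Or.inl ⟨⟨h.1.1, k⟩, h.2⟩
    · exact Or.inr ⟨⟨k, h.1.2⟩, h.2⟩
  · rcases h with h | h <;> exact ⟨by omega, h.2⟩

/-- many primes between `t ^ 8` and `2 t ^ 8` -/
theorem many (sw : SWStmt) : ∀ᶠ t : ℕ in atTop,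
    (t : ℝ) ^ 8 / (18 * Real.log t) ≤ (pr (t ^ 8) (2 * t ^ 8)).card := by
  have T : Tendsto (fun t : ℕ => ((2 * t ^ 8 : ℕ) : ℝ)) atTop atTop :=
    tendsto_natCast_atTop_atTop.comp (tendsto_atTop_mono (fun t =>
      (Nat.le_self_pow (by norm_num) t).trans (Nat.le_mul_of_pos_left _ two_pos)) tendsto_id)
  filter_upwards [T.eventually (sw 1 0), ev_le_log 1, eventually_ge_atTop 2,
    T.eventually (Real.tendsto_log_atTop.eventually_ge_atTop 8)] with t h h1 h2 h8
  have key : ∀ y : ℕ, y ≤ 2 * t ^ 8 → |∑ p ∈ pr 0 y, Real.log p - y| ≤ (t : ℝ) ^ 8 / 4 := by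
    intro y hy
    have e := h y 1 0 (Nat.cast_nonneg y) (Nat.cast_le.2 hy) le_rfl (by simp) (by simp)
    rw [Nat.floor_natCast, filter_true_of_mem fun p _ => Nat.modEq_one, Nat.totient_one,
      Nat.cast_one, div_one, pow_one] at e
    refine e.trans ((div_le_div_of_nonneg_left (Nat.cast_nonneg _) (by norm_num) h8).trans_eq ?_)
    push_cast
    ring
  have k1 := (abs_le.1 (key _ le_rfl)).1
  have k2 := (abs_le.1 (key (t ^ 8) (by omega))).2
  have k3 : ∑ p ∈ pr (t ^ 8) (2 * t ^ 8), Real.log p ≤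
      (pr (t ^ 8) (2 * t ^ 8)).card * (9 * Real.log t) := by
    rw [← nsmul_eq_mul]
    refine sum_le_card_nsmul _ _ _ fun p hp => ?_
    have hp' := mem_pr.1 hp
    have : p ≤ t ^ 9 := hp'.1.2.trans (by rw [pow_succ' t 8]; exact Nat.mul_le_mul_right _ h2)
    calc Real.log p ≤ Real.log ((t : ℝ) ^ 9) :=
          Real.log_le_log (Nat.cast_pos.2 hp'.2.pos) (by exact_mod_cast this)
      _ = 9 * Real.log t := by rw [Real.log_pow]; norm_num
  rw [split] at k1
  push_cast at k1 k2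
  rw [div_le_iff₀ (by positivity)]
  linarith

end Sig

open Sig in
theorem sigl : SWStmt → SIGStmt := fun sw => by
  refine ⟨1 / (24 * 72 ^ 4), by positivity, ?_⟩
  filter_upwards [many sw, ev_log_le 108 1, ev_le_log 1, eventually_ge_atTop 1] with t h h6 h1 ht
  have t1 : (1 : ℝ) ≤ t := by exact_mod_cast ht
  have tY : (t : ℝ) ≤ (t : ℝ) ^ 8 := le_self_pow₀ t1 (by norm_num)
  have hc : ((quad t).card : ℝ) = (pr (t ^ 8) (2 * t ^ 8)).card.choose 4 := by
    rw [quad, card_powersetCard]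
  have hm : ∀ s ∈ quad t, s.card = 4 ∧ ∀ x ∈ s, (t : ℝ) ^ 8 ≤ x ∧ (x : ℝ) ≤ 2 * (t : ℝ) ^ 8 := by
    intro s hs
    obtain ⟨k1, k2⟩ := mem_powersetCard.1 hs
    refine ⟨k2, fun x hx => ?_⟩
    have := (mem_pr.1 (k1 hx)).1
    exact ⟨by exact_mod_cast this.1.le, by exact_mod_cast this.2⟩
  have hN : (pr (t ^ 8) (2 * t ^ 8)).card ≤ t ^ 8 :=
    (card_filter_le _ _).trans (by rw [Nat.card_Ioc]; omega)
  generalize (pr (t ^ 8) (2 * t ^ 8)).card = N at h hc hN
  have Y0 : (0 : ℝ) < (t : ℝ) ^ 8 := by positivity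
  constructor
  · have n6 : (6 : ℝ) ≤ N := le_trans (by rw [le_div_iff₀ (by positivity)]; linarith) h
    have n3 : (t : ℝ) ^ 8 / (36 * Real.log t) ≤ ((N + 1 - 4 : ℕ) : ℝ) := by
      have : 6 ≤ N := by exact_mod_cast n6
      rw [Nat.cast_sub (by omega), show (t : ℝ) ^ 8 / (36 * Real.log t) =
        (t : ℝ) ^ 8 / (18 * Real.log t) / 2 by field_simp; norm_num]
      push_cast
      linarith
    have c1 : (((N + 1 - 4 : ℕ) : ℝ) ^ 4) / (Nat.factorial 4 : ℕ) ≤ N.choose 4 :=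
      Nat.pow_le_choose 4 N
    calc 1 / (24 * 72 ^ 4) / Real.log t ^ 4
        = ((t : ℝ) ^ 8 / (36 * Real.log t)) ^ 4 / 24 * (1 / (2 * (t : ℝ) ^ 8) ^ 4) := by
          field_simp
          norm_num
      _ ≤ (quad t).card * (1 / (2 * (t : ℝ) ^ 8) ^ 4) := by
          rw [hc]
          refine mul_le_mul_of_nonneg_right (le_trans ?_ c1) (by positivity)
          rw [show ((Nat.factorial 4 : ℕ) : ℝ) = 24 by norm_num [Nat.factorial]]
          gcongr
      _ ≤ sig t := by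
          rw [← nsmul_eq_mul]
          refine card_nsmul_le_sum _ _ _ fun s hs => ?_
          obtain ⟨k1, k2⟩ := hm s hs
          refine one_div_le_one_div_of_le (prod_pos fun x hx => Y0.trans_le (k2 x hx).1) ?_
          rw [← k1, ← prod_const]
          exact prod_le_prod (fun x _ => Nat.cast_nonneg x) fun x hx => (k2 x hx).2
  · calc sig t ≤ (quad t).card * (1 / ((t : ℝ) ^ 8) ^ 4) := by
          rw [← nsmul_eq_mul]
          refine sum_le_card_nsmul _ _ _ fun s hs => ?_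
          obtain ⟨k1, k2⟩ := hm s hs
          refine one_div_le_one_div_of_le (by positivity) ?_
          rw [← k1, ← prod_const]
          exact prod_le_prod (fun _ _ => Y0.le) fun x hx => (k2 x hx).1
      _ ≤ 1 := by
          rw [hc, mul_one_div, div_le_one (by positivity)]
          exact_mod_cast (Nat.choose_le_pow N 4).trans (Nat.pow_le_pow_left hN 4)

end Pool.Agent.MP_a43263_nt.W1

end
end MrgPart2

-- ======== part 3: formerly Pool.Agent.MP_a43263_nt.W1.Apl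
section MrgPart3

/-! THEOREM W, row APL: the weight along progressions, from Siegel-Walfisz. -/

set_option autoImplicit false

noncomputable section

namespace Pool.Agent.MP_a43263_nt.W1

open Finset Filter

namespace Apl

theorem le_fl {μ N r : ℕ} (hμ : 0 < μ) (hN : 1 ≤ N) :
    r ≤ ⌊((N : ℝ) - 1) / μ⌋₊ ↔ μ * r < N := by
  have h0 : (0 : ℝ) < μ := by exact_mod_cast hμ
  have h1 : (1 : ℝ) ≤ N := by exact_mod_cast hN
  rw [Nat.le_floor_iff (div_nonneg (by linarith) h0.le), le_div_iff₀ h0, le_sub_iff_add_le,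
    mul_comm, ← Nat.add_one_le_iff]
  exact_mod_cast Iff.rfl

theorem inner {μ q u a R r : ℕ} (hq : 1 ≤ q) (hc : μ.Coprime q) (ha : μ * a ≡ u [MOD q]) (b : ℝ) :
    ∑ i ∈ range R, (if ((μ * r : ℕ) : ℤ) = (u : ℤ) + i * q then b else 0) =
      if u ≤ μ * r ∧ μ * r < u + R * q ∧ r ≡ a [MOD q] then b else 0 := by
  by_cases h : u ≤ μ * r ∧ μ * r < u + R * q ∧ r ≡ a [MOD q]
  · rw [if_pos h]
    obtain ⟨h1, h2, h3⟩ := h
    have h4 : u ≡ μ * r [MOD q] := ha.symm.trans (h3.symm.mul_left μ)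
    obtain ⟨i, hi⟩ := (Nat.modEq_iff_dvd' h1).1 h4
    have h5 : μ * r = u + i * q := by rw [mul_comm i q]; omega
    have h6 : i < R := by
      rw [h5] at h2
      exact Nat.lt_of_mul_lt_mul_right (Nat.lt_of_add_lt_add_left h2)
    rw [sum_eq_single i]
    · rw [if_pos (by rw [h5]; push_cast; rfl)]
    · intro j _ hj
      refine if_neg fun e => hj ?_
      have e' : μ * r = u + j * q := by exact_mod_cast e
      rw [h5] at e'
      exact (Nat.eq_of_mul_eq_mul_right hq (Nat.add_left_cancel e')).symm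
    · intro hi'
      exact absurd (mem_range.2 h6) hi'
  · rw [if_neg h]
    refine sum_eq_zero fun i hi => if_neg fun e => h ?_
    have e' : μ * r = u + i * q := by exact_mod_cast e
    have h6 := mem_range.1 hi
    refine ⟨by omega, ?_, ?_⟩
    · rw [e']
      exact Nat.add_lt_add_left (Nat.mul_lt_mul_of_pos_right h6 hq) u
    · have h7 : μ * r ≡ μ * a [MOD q] := by
        rw [e']
        exact (Nat.ModEq.trans (by simp [Nat.ModEq]) ha.symm)
      exact Nat.ModEq.cancel_left_of_coprime hc.symm h7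

theorem swap {μ q u a R Y W : ℕ} (hμ : 0 < μ) (hq : 1 ≤ q) (hu : 1 ≤ u) (hc : μ.Coprime q)
    (ha : μ * a ≡ u [MOD q]) (hr : ∀ r, u ≤ μ * r → μ * r < u + R * q → Y < r ∧ r ≤ W) :
    ∑ i ∈ range R, ∑ r ∈ pr Y W,
      (if ((μ * r : ℕ) : ℤ) = (u : ℤ) + i * q then Real.log r else 0) =
    ∑ p ∈ (pr 0 ⌊(((u + R * q : ℕ) : ℝ) - 1) / μ⌋₊).filter (fun p => p ≡ a [MOD q]), Real.log p -
      ∑ p ∈ (pr 0 ⌊((u : ℝ) - 1) / μ⌋₊).filter (fun p => p ≡ a [MOD q]), Real.log p := by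
  have hu' : 1 ≤ u + R * q := by omega
  have hs : (pr 0 ⌊((u : ℝ) - 1) / μ⌋₊).filter (fun p => p ≡ a [MOD q]) ⊆
      (pr 0 ⌊(((u + R * q : ℕ) : ℝ) - 1) / μ⌋₊).filter (fun p => p ≡ a [MOD q]) := by
    intro p hp
    simp only [pr, mem_filter, mem_Ioc, le_fl hμ hu, le_fl hμ hu'] at hp ⊢
    exact ⟨⟨⟨hp.1.1.1, by omega⟩, hp.1.2⟩, hp.2⟩
  rw [← sum_sdiff_eq_sub hs, sum_comm]
  simp only [inner hq hc ha]
  rw [← sum_filter]
  refine sum_congr ?_ fun _ _ => rfl
  ext p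
  simp only [pr, mem_filter, Finset.mem_sdiff, mem_Ioc, le_fl hμ hu, le_fl hμ hu']
  constructor
  · rintro ⟨⟨_, h2⟩, h3, h4, h5⟩
    exact ⟨⟨⟨⟨h2.pos, h4⟩, h2⟩, h5⟩, fun h => by omega⟩
  · rintro ⟨⟨⟨⟨h1, h2⟩, h3⟩, h4⟩, h5⟩
    have h6 : u ≤ μ * p := by
      by_contra h
      exact h5 ⟨⟨⟨h1, by omega⟩, h3⟩, h4⟩
    exact ⟨⟨hr p h6 h2, h3⟩, h6, h2, h4⟩

theorem exa {μ q u : ℕ} (hq : 1 ≤ q) (hc : μ.Coprime q) (hu : u.Coprime q) :
    ∃ a : ℕ, μ * a ≡ u [MOD q] ∧ a.Coprime q := by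
  obtain ⟨a, ha⟩ := Nat.exists_mul_mod_eq_of_coprime u hc (by omega)
  have h : μ * a ≡ u [MOD q] := ha.2
  refine ⟨a, h, ?_⟩
  have h2 : (μ * a).Coprime q := by
    rw [Nat.Coprime, h.gcd_eq]
    exact hu
  exact h2.coprime_mul_left

theorem quad_mem {t : ℕ} {s : Finset ℕ} (hs : s ∈ quad t) :
    t ^ 32 ≤ ∏ x ∈ s, x ∧ ∏ x ∈ s, x ≤ 16 * t ^ 32 ∧
      ∀ q : ℕ, 1 ≤ q → q ≤ t ^ 8 → (∏ x ∈ s, x).Coprime q := by
  obtain ⟨h1, h2⟩ := mem_powersetCard.1 hs
  have h3 : ∀ x ∈ s, t ^ 8 < x ∧ x ≤ 2 * t ^ 8 ∧ x.Prime := fun x hx => by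
    have := h1 hx
    simp only [pr, mem_filter, mem_Ioc] at this
    exact ⟨this.1.1, this.1.2, this.2⟩
  refine ⟨?_, ?_, fun q hq hq' => Nat.Coprime.prod_left fun x hx => ?_⟩
  · have := pow_card_le_prod s (fun x => x) (t ^ 8) fun x hx => (h3 x hx).1.le
    rw [h2] at this
    calc t ^ 32 = (t ^ 8) ^ 4 := by ring
      _ ≤ _ := this
  · have := prod_le_pow_card s (fun x => x) (2 * t ^ 8) fun x hx => (h3 x hx).2.1
    rw [h2] at this
    calc _ ≤ (2 * t ^ 8) ^ 4 := this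
      _ = _ := by ring
  · refine (Nat.Prime.coprime_iff_not_dvd (h3 x hx).2.2).2 fun h => ?_
    have := Nat.le_of_dvd hq h
    have := (h3 x hx).1
    omega

theorem card_quad (t : ℕ) : (quad t).card ≤ t ^ 32 := by
  rw [quad, card_powersetCard]
  have h : (pr (t ^ 8) (2 * t ^ 8)).card ≤ t ^ 8 := by
    refine (card_filter_le _ _).trans ?_
    rw [Nat.card_Ioc]
    omega
  calc _ ≤ (pr (t ^ 8) (2 * t ^ 8)).card ^ 4 := Nat.choose_le_pow _ _
    _ ≤ (t ^ 8) ^ 4 := Nat.pow_le_pow_left h 4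
    _ = _ := by ring

theorem tend (E : ℕ) : Tendsto (fun t : ℕ => (t : ℝ) ^ 9 * Real.log t ^ E) atTop atTop := by
  refine tendsto_atTop_mono' _ ?_ tendsto_natCast_atTop_atTop
  filter_upwards [ev_le_log 1, eventually_ge_atTop 1] with t h h1
  have h2 : (1 : ℝ) ≤ t := by exact_mod_cast h1
  calc (t : ℝ) = t ^ 1 * 1 := by ring
    _ ≤ _ := by
      gcongr
      · norm_num
      · exact one_le_pow₀ h

end Apl

open Apl in
theorem apl : SWStmt → APLStmt := by
  intro sw A B E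
  filter_upwards [(tend E).eventually (sw (A + E + 1) B), ev_le_log 2, ev_log_le 1 B,
    ev_log_le 1 E, eventually_ge_atTop 1] with t hsw hl hB hE ht u q R hq hqB hc hu hR
  have ht' : (1 : ℝ) ≤ t := by exact_mod_cast ht
  have hu0 : 0 ≤ u := le_trans (by positivity) hu
  lift u to ℕ using hu0
  have hu1 : 64 * t ^ 40 ≤ u := by exact_mod_cast hu
  have hpos : 0 < t ^ 40 := by positivity
  have hcu : u.Coprime q := Nat.isCoprime_iff_coprime.1 hc
  have hl0 : 0 < Real.log t := by linarith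
  have hqt : q ≤ t ^ 8 := by
    have h1 : (q : ℝ) ≤ t := by linarith
    have h2 : q ≤ t := by exact_mod_cast h1
    exact h2.trans (Nat.le_self_pow (by norm_num) t)
  set x : ℝ := (t : ℝ) ^ 9 * Real.log t ^ E with hx
  have hE1 : 1 ≤ Real.log t ^ E := one_le_pow₀ (by linarith)
  have hxt : (t : ℝ) ≤ x := by
    calc (t : ℝ) = t ^ 1 * 1 := by ring
      _ ≤ _ := by
        rw [hx]
        gcongr
        norm_num
  have hlx : Real.log t ≤ Real.log x := Real.log_le_log (by linarith) hxt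
  have hqx : (q : ℝ) ≤ Real.log x ^ B := hqB.trans (pow_le_pow_left₀ hl0.le hlx B)
  have herr : x / Real.log x ^ (A + E + 1) ≤ (t : ℝ) ^ 9 / Real.log t ^ A / 2 := by
    calc x / Real.log x ^ (A + E + 1) ≤ x / Real.log t ^ (A + E + 1) := by
          gcongr
      _ = (t : ℝ) ^ 9 / Real.log t ^ A / Real.log t := by
          rw [hx]
          field_simp
          ring
      _ ≤ _ := by gcongr
  have hR' : ((u + R * q : ℕ) : ℝ) ≤ (t : ℝ) ^ 32 * x := by
    push_cast at hR ⊢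
    rw [hx]
    calc _ ≤ _ := hR
      _ = _ := by ring
  have key : ∀ s ∈ quad t, |∑ i ∈ range R, ∑ r ∈ pr (2 * t ^ 8) (t ^ 10),
      (if (((∏ x ∈ s, x) * r : ℕ) : ℤ) = (u : ℤ) + i * q then Real.log r else 0) -
      R * (1 / (∏ x ∈ s, (x : ℝ)) * ph q)| ≤ (t : ℝ) ^ 9 / Real.log t ^ A := by
    intro s hs
    obtain ⟨h1, h2, h3⟩ := quad_mem hs
    rw [← Nat.cast_prod]
    generalize ∏ x ∈ s, x = μ at h1 h2 h3 ⊢
    have hμ : 0 < μ := lt_of_lt_of_le (by positivity) h1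
    have hμ' : (0 : ℝ) < μ := by exact_mod_cast hμ
    have h1' : (t : ℝ) ^ 32 ≤ μ := by exact_mod_cast h1
    obtain ⟨a, ha, ha'⟩ := exa hq (h3 q hq hqt) hcu
    have hx0 : 0 ≤ x := by linarith
    have hy2 : (((u + R * q : ℕ) : ℝ) - 1) / μ ≤ x := by
      rw [div_le_iff₀ hμ']
      nlinarith [mul_le_mul_of_nonneg_right h1' hx0]
    have hu2 : (1 : ℝ) ≤ u := by exact_mod_cast (by omega : 1 ≤ u)
    have hRq : (0 : ℝ) ≤ R * q := by positivity
    have hy1 : ((u : ℝ) - 1) / μ ≤ (((u + R * q : ℕ) : ℝ) - 1) / μ := by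
      push_cast
      gcongr
      linarith
    have hy0 : 0 ≤ ((u : ℝ) - 1) / μ := div_nonneg (by linarith) hμ'.le
    rw [swap hμ hq (by omega) (h3 q hq hqt) ha]
    · have e2 := abs_le.1 (hsw _ q a (hy0.trans hy1) hy2 hq hqx ha')
      have e1 := abs_le.1 (hsw _ q a hy0 (hy1.trans hy2) hq hqx ha')
      have e3 : (R : ℝ) * (1 / μ * ph q) = (((u + R * q : ℕ) : ℝ) - 1) / μ / q.totient -
          ((u : ℝ) - 1) / μ / q.totient := by
        rw [ph]
        push_cast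
        ring
      rw [e3, abs_le]
      constructor <;> linarith [e1.1, e1.2, e2.1, e2.2]
    · intro r hr1 hr2
      constructor
      · by_contra h
        have h4 : μ * r ≤ 16 * t ^ 32 * (2 * t ^ 8) := Nat.mul_le_mul h2 (by omega)
        have h5 : 16 * t ^ 32 * (2 * t ^ 8) = 32 * t ^ 40 := by ring
        omega
      · have h4 : (μ : ℝ) * r ≤ ((u + R * q : ℕ) : ℝ) := by exact_mod_cast hr2.le
        have h5 : (μ : ℝ) * r ≤ μ * x := by nlinarith [mul_le_mul_of_nonneg_right h1' hx0]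
        have h6 : (r : ℝ) ≤ x := le_of_mul_le_mul_left h5 hμ'
        have h7 : x ≤ (t : ℝ) ^ 10 := by
          rw [hx]
          calc _ ≤ (t : ℝ) ^ 9 * t := by
                gcongr
                linarith
            _ = _ := by ring
        exact_mod_cast h6.trans h7
  simp only [lam, sig]
  rw [sum_comm, sum_mul, mul_sum, ← sum_sub_distrib]
  calc _ ≤ ∑ s ∈ quad t, (t : ℝ) ^ 9 / Real.log t ^ A :=
        (abs_sum_le_sum_abs _ _).trans (sum_le_sum key)
    _ = (quad t).card * ((t : ℝ) ^ 9 / Real.log t ^ A) := by rw [sum_const, nsmul_eq_mul]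
    _ ≤ (t : ℝ) ^ 32 * ((t : ℝ) ^ 9 / Real.log t ^ A) := by
        gcongr
        exact_mod_cast card_quad t
    _ = _ := by ring

end Pool.Agent.MP_a43263_nt.W1

end
end MrgPart3

-- ======== part 4: formerly Pool.Agent.MP_a43263_nt.W1.Phi
section MrgPart4

/-! THEOREM W, row PHI: the mean of `q / φ(q)`. -/

set_option autoImplicit false

noncomputable section

namespace Pool.Agent.MP_a43263_nt.W1

open Finset

namespace Phi

/-- the local weight -/
def wt (p : ℕ) : ℝ := 1 / ((p : ℝ) - 1)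

theorem wt_nonneg {p : ℕ} (h : 1 ≤ p) : 0 ≤ wt p :=
  one_div_nonneg.2 (sub_nonneg.2 (by exact_mod_cast h))

theorem ph_eq {q : ℕ} (h : 0 < q) : ph q = ∏ p ∈ q.primeFactors, (1 + wt p) := by
  have e : (q.totient : ℝ) = q * ∏ p ∈ q.primeFactors, (1 - (p : ℝ)⁻¹) := by
    have := congrArg (fun x : ℚ => (x : ℝ)) (Nat.totient_eq_mul_prod_factors q)
    simpa using this
  have h0 : (q : ℝ) ≠ 0 := by exact_mod_cast h.ne'
  rw [ph, e, div_mul_cancel_left₀ h0, ← prod_inv_distrib]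
  refine prod_congr rfl fun p hp => ?_
  have h2 : (2 : ℝ) ≤ p := by exact_mod_cast (Nat.prime_of_mem_primeFactors hp).two_le
  have h3 : (p : ℝ) - 1 ≠ 0 := by linarith [h2] |> fun (a : (0 : ℝ) < p - 1) => a.ne'
  have h4 : (p : ℝ) ≠ 0 := by linarith [h2] |> fun (a : (0 : ℝ) < p) => a.ne'
  rw [wt]
  field_simp
  ring

/-- the part of the product over a set of primes -/
def G (S : Finset ℕ) (n : ℕ) : ℝ := ∏ p ∈ S.filter (· ∣ n), (1 + wt p)

theorem mean (S : Finset ℕ) (hS : ∀ p ∈ S, p.Prime) : ∀ j : ℕ,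
    ∑ n ∈ Ioc 0 j, G S n ≤ j * ∏ p ∈ S, (1 + wt p / p) := by
  induction S using Finset.induction_on with
  | empty => intro j; simp [G]
  | insert p S hp ih =>
    intro j
    have pp := hS p (mem_insert_self _ _)
    have hS' : ∀ q ∈ S, q.Prime := fun q hq => hS q (mem_insert_of_mem hq)
    have w := wt_nonneg pp.one_le
    have P : 0 ≤ ∏ q ∈ S, (1 + wt q / q) := prod_nonneg fun q hq =>
      add_nonneg zero_le_one (div_nonneg (wt_nonneg (hS' q hq).one_le) (Nat.cast_nonneg _))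
    have e1 : ∀ n, G (insert p S) n = G S n + wt p * if p ∣ n then G S n else 0 := fun n => by
      rw [G, filter_insert]
      split_ifs with h
      · rw [prod_insert fun a => hp (mem_filter.1 a).1, G]
        ring
      · rw [G, mul_zero, add_zero]
    have e2 : ∑ n ∈ Ioc 0 j, (if p ∣ n then G S n else 0) = ∑ m ∈ Ioc 0 (j / p), G S m := by
      rw [← sum_filter]
      refine (sum_nbij' (fun m => p * m) (fun n => n / p) ?_ ?_ ?_ ?_ ?_).symm
      · intro m hm
        rw [mem_Ioc] at hm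
        refine mem_filter.2 ⟨mem_Ioc.2 ⟨Nat.mul_pos pp.pos hm.1, ?_⟩, dvd_mul_right _ _⟩
        exact (Nat.mul_le_mul_left p hm.2).trans (Nat.mul_div_le j p)
      · intro n hn
        obtain ⟨h1, h2⟩ := mem_filter.1 hn
        rw [mem_Ioc] at h1
        exact mem_Ioc.2 ⟨Nat.div_pos (Nat.le_of_dvd h1.1 h2) pp.pos, Nat.div_le_div_right h1.2⟩
      · exact fun m _ => Nat.mul_div_cancel_left m pp.pos
      · exact fun n hn => Nat.mul_div_cancel' (mem_filter.1 hn).2
      · intro m _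
        rw [G, G]
        refine prod_congr (filter_congr fun q hq => ?_) fun _ _ => rfl
        refine ⟨fun a => a.mul_left p, fun a => ((hS' q hq).dvd_mul.1 a).resolve_left fun b => ?_⟩
        exact hp (((Nat.prime_dvd_prime_iff_eq (hS' q hq) pp).1 b) ▸ hq)
    simp only [e1, sum_add_distrib, ← mul_sum, e2]
    rw [prod_insert hp]
    have h1 := ih hS' j
    have h2 := (ih hS' (j / p)).trans (mul_le_mul_of_nonneg_right Nat.cast_div_le P)
    have h3 := mul_le_mul_of_nonneg_left h2 w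
    calc _ ≤ j * ∏ q ∈ S, (1 + wt q / q) + wt p * (j / p * ∏ q ∈ S, (1 + wt q / q)) :=
          add_le_add h1 h3
      _ = _ := by ring

theorem tele {z : ℕ} (hz : 1 ≤ z) (L : ℕ) (hL : z ≤ L) :
    (∏ n ∈ Ioc z L, (1 + wt n / n)) * (1 + 2 / L) ≤ 1 + 2 / z := by
  induction L, hL using Nat.le_induction with
  | base => simp
  | succ L hL ih =>
    have h1 : (1 : ℝ) ≤ L := by exact_mod_cast hz.trans hL
    have P : 0 ≤ ∏ n ∈ Ioc z L, (1 + wt n / n) := prod_nonneg fun q hq =>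
      add_nonneg zero_le_one (div_nonneg (wt_nonneg (hz.trans (mem_Ioc.1 hq).1.le))
        (Nat.cast_nonneg _))
    rw [prod_Ioc_succ_top hL, mul_assoc]
    refine le_trans (mul_le_mul_of_nonneg_left ?_ P) ih
    rw [wt]
    push_cast
    rw [add_sub_cancel_right, ← sub_nonneg]
    have : (1 + 2 / (L : ℝ)) - (1 + 1 / L / (L + 1)) * (1 + 2 / (L + 1)) =
        (L - 1) / (L * (L + 1) ^ 2) := by
      field_simp
      ring
    rw [this]
    exact div_nonneg (sub_nonneg.2 h1) (by positivity)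

theorem tail {z : ℕ} (hz : 1 ≤ z) (L : ℕ) :
    ∏ p ∈ (Ioc z L).filter Nat.Prime, (1 + wt p / p) ≤ 1 + 2 / z := by
  have o : ∀ n ∈ Ioc z L, 1 ≤ 1 + wt n / n := fun q hq =>
    le_add_of_nonneg_right (div_nonneg (wt_nonneg (hz.trans (mem_Ioc.1 hq).1.le))
      (Nat.cast_nonneg _))
  rcases le_total z L with h | h
  · refine le_trans (prod_le_prod_of_subset_of_one_le (filter_subset _ _)
      (fun n hn => zero_le_one.trans (o n (mem_filter.1 hn).1)) fun n hn _ => o n hn) ?_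
    refine le_trans (le_mul_of_one_le_right (zero_le_one.trans (one_le_prod o)) ?_) (tele hz L h)
    exact le_add_of_nonneg_right (by positivity)
  · rw [Ioc_eq_empty_of_le h, filter_empty, prod_empty]
    exact le_add_of_nonneg_right (by positivity)

theorem split {z M L n : ℕ} (hM : 0 < M) (h : ∀ p : ℕ, p.Prime → p ≤ z → p ∣ M) (h0 : 0 < n)
    (hn : n ≤ L) : ph (M * n) ≤ ph M * G ((Ioc z L).filter Nat.Prime) n := by
  have o : ∀ p : ℕ, p.Prime → 1 ≤ 1 + wt p := fun p a => le_add_of_nonneg_right (wt_nonneg a.one_le)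
  rw [ph_eq (Nat.mul_pos hM h0), ph_eq hM, Nat.primeFactors_mul hM.ne' h0.ne',
    ← union_sdiff_self_eq_union, prod_union disjoint_sdiff]
  refine mul_le_mul_of_nonneg_left ?_ (prod_nonneg fun p hp =>
    zero_le_one.trans (o p (Nat.prime_of_mem_primeFactors hp)))
  refine prod_le_prod_of_subset_of_one_le (fun p hp => ?_) (fun p hp => zero_le_one.trans
    (o p (Nat.prime_of_mem_primeFactors (mem_sdiff.1 hp).1))) fun p hp _ =>
      o p (mem_filter.1 (mem_filter.1 hp).1).2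
  obtain ⟨h1, h2⟩ := mem_sdiff.1 hp
  have pp := Nat.prime_of_mem_primeFactors h1
  have pd := Nat.dvd_of_mem_primeFactors h1
  refine mem_filter.2 ⟨mem_filter.2 ⟨mem_Ioc.2 ⟨?_, (Nat.le_of_dvd h0 pd).trans hn⟩, pp⟩, pd⟩
  exact not_le.1 fun a => h2 (Nat.mem_primeFactors.2 ⟨pp, h p pp a, hM.ne'⟩)

theorem one_le {q : ℕ} (h : 0 < q) : 1 ≤ ph q := by
  rw [ph, one_le_div (by exact_mod_cast Nat.totient_pos.2 h)]
  exact_mod_cast Nat.totient_le q

theorem key {z M L j : ℕ} (hz : 1 ≤ z) (hM : 0 < M) (h : ∀ p : ℕ, p.Prime → p ≤ z → p ∣ M)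
    (hj : j ≤ L) : ∑ n ∈ Ioc 0 j, ph (M * n) ≤ j * (ph M * (1 + 2 / z)) := by
  have p := zero_le_one.trans (one_le hM)
  calc _ ≤ ∑ n ∈ Ioc 0 j, ph M * G ((Ioc z L).filter Nat.Prime) n := sum_le_sum fun n hn =>
        split hM h (mem_Ioc.1 hn).1 ((mem_Ioc.1 hn).2.trans hj)
    _ ≤ ph M * (j * (1 + 2 / z)) := by
        rw [← mul_sum]
        exact mul_le_mul_of_nonneg_left ((mean _ (fun p a => (mem_filter.1 a).2) j).trans
          (mul_le_mul_of_nonneg_left (tail hz L) (Nat.cast_nonneg _))) p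
    _ = _ := by ring

theorem fold (F : ℕ → ℝ) {L j : ℕ} (hj : j < L) :
    ∑ j' ∈ (range L).erase j, F ((j : ℤ) - j').natAbs =
      ∑ n ∈ Ioc 0 j, F n + ∑ n ∈ Ioc 0 (L - 1 - j), F n := by
  rw [← sum_filter_add_sum_filter_not _ (· < j)]
  refine congrArg₂ _ (sum_nbij' (fun a => j - a) (fun n => j - n) ?_ ?_ ?_ ?_ ?_)
    (sum_nbij' (fun a => a - j) (fun n => j + n) ?_ ?_ ?_ ?_ ?_) <;> intro a ha <;>
    simp only [mem_filter, mem_erase, mem_range, mem_Ioc] at ha ⊢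
  all_goals first | omega | exact congrArg F (by omega)

end Phi

open Phi in
theorem phil : PHIStmt := by
  refine ⟨fun q h => ⟨one_le h, ?_⟩, fun q q' h h' e => by rw [ph_eq h, ph_eq h', e],
    fun z M L hz hM h => ?_⟩
  · exact div_le_self (Nat.cast_nonneg _) (by exact_mod_cast Nat.totient_pos.2 h)
  · have c : 0 ≤ ph M * (1 + 2 / z) := mul_nonneg (zero_le_one.trans (one_le hM)) (by positivity)
    calc _ ≤ ∑ _j ∈ range L, L * (ph M * (1 + 2 / z)) := sum_le_sum fun j hj => by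
          have hj := mem_range.1 hj
          rw [fold (fun n => ph (M * n)) hj]
          refine (add_le_add (key hz hM h hj.le) (key (L := L) hz hM h (by omega))).trans ?_
          rw [← add_mul]
          exact mul_le_mul_of_nonneg_right (by exact_mod_cast (by omega : j + (L - 1 - j) ≤ L)) c
      _ = _ := by
          rw [sum_const, card_range, nsmul_eq_mul]
          ring

end Pool.Agent.MP_a43263_nt.W1

end
end MrgPart4

-- ======== part 5: formerly Pool.Agent.MP_a43263_nt.W1.Cop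
section MrgPart5

/-! THEOREM W: common prime factors are rare. -/

set_option autoImplicit false

noncomputable section

namespace Pool.Agent.MP_a43263_nt.W1

open Polynomial Finset Filter

namespace Cop

theorem val_sub {g : ℕ} {c c' : Vec g} (h : ∀ i : Fin (2 * g + 3), ¬i.1 < 2 → c i = c' i) (x : ℤ) :
    val c x - val c' x = (c 0 - c' 0) + (c 1 - c' 1) * x := by
  have e : ∀ i : Fin (2 * g + 1), c i.succ.succ = c' i.succ.succ := fun i => h _ (by simp)
  simp only [val, fm, eval_finsetSum, eval_mul, eval_C, eval_pow, eval_X]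
  simp only [Fin.sum_univ_succ (n := 2 * g + 2), Fin.sum_univ_succ (n := 2 * g + 1), e,
    Fin.succ_zero_eq_one, Fin.val_zero, Fin.val_one]
  ring

theorem one_prime {g k Y r : ℕ} {x x' : ℤ} (hr : r.Prime) (hY : Y < r) (hk : r ≤ k) (hx : x ≠ x')
    (hd : |x - x'| ≤ Y) :
    cnt g k (fun c => (r : ℤ) ∣ val c x ∧ (r : ℤ) ∣ val c x') ≤
      (3 * k : ℝ) ^ (2 * g + 3) * ((r : ℝ) ^ 2)⁻¹ := by
  classical
  let d : Fin (2 * g + 3) → ℕ := fun i => if i.1 < 2 then r else 1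
  have hd0 : ∀ i, 0 < d i := fun i => by
    simp only [d]; split_ifs
    · exact hr.pos
    · exact one_pos
  have hdk : ∀ i, d i ≤ k := fun i => by
    simp only [d]; split_ifs
    · exact hk
    · exact hr.pos.trans_le hk
  let φ : Vec g → Fin (2 * g + 3) → ℕ := fun c i => (c i - (-ce k i.1 - k)).toNat / d i
  have hc : #((bx g k).filter fun c => (r : ℤ) ∣ val c x ∧ (r : ℤ) ∣ val c x') ≤
      #(Fintype.piFinset fun i => range (2 * k / d i + 1)) := by
    refine card_le_card_of_injOn φ (fun c hc => ?_) fun c hc c' hc' h => ?_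
    · refine mem_coe.2 (Fintype.mem_piFinset.2 fun i => mem_range.2 (Nat.lt_succ_of_le ?_))
      have := mem_Icc.1 (Fintype.mem_piFinset.1 (mem_filter.1 hc).1 i)
      exact Nat.div_le_div_right (by omega)
    · obtain ⟨b, h1, h2⟩ := mem_filter.1 hc
      obtain ⟨b', h1', h2'⟩ := mem_filter.1 hc'
      have key : ∀ i, (d i : ℤ) ∣ c i - c' i → c i = c' i := fun i hi => by
        have m := mem_Icc.1 (Fintype.mem_piFinset.1 b i)
        have m' := mem_Icc.1 (Fintype.mem_piFinset.1 b' i)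
        have q : (c i - (-ce k i.1 - k)).toNat / d i = (c' i - (-ce k i.1 - k)).toNat / d i :=
          congrFun h i
        have md : (c' i - (-ce k i.1 - k)).toNat ≡ (c i - (-ce k i.1 - k)).toNat [MOD d i] := by
          rw [Nat.modEq_iff_dvd, Int.toNat_of_nonneg (by omega), Int.toNat_of_nonneg (by omega)]
          simpa using hi
        have := Nat.ext_div_modEq q.symm md
        omega
      have e : ∀ i : Fin (2 * g + 3), ¬i.1 < 2 → c i = c' i := fun i hi =>
        key i (by simp only [d, if_neg hi, Nat.cast_one, one_dvd])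
      have a1 := dvd_sub h1 h1'
      have a2 := dvd_sub h2 h2'
      rw [val_sub e] at a1 a2
      have a3 : (r : ℤ) ∣ (c 1 - c' 1) * (x - x') := by
        have := dvd_sub a1 a2
        rwa [add_sub_add_left_eq_sub, ← mul_sub] at this
      have a4 : (r : ℤ) ∣ c 1 - c' 1 := by
        refine ((Nat.prime_iff_prime_int.1 hr).dvd_or_dvd a3).resolve_right fun k => ?_
        have := Int.le_of_dvd (abs_pos.2 (sub_ne_zero.2 hx)) ((dvd_abs _ _).2 k)
        omega
      have a5 : (r : ℤ) ∣ c 0 - c' 0 := (dvd_add_left (a4.mul_right x)).1 a1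
      funext i
      by_cases hi : i.1 < 2
      · refine key i ?_
        simp only [d, if_pos hi]
        obtain rfl | rfl : i = 0 ∨ i = 1 := by
          rw [Fin.ext_iff, Fin.ext_iff, Fin.val_zero, Fin.val_one]; omega
        exacts [a5, a4]
      · exact e i hi
  rw [cnt_eq_card]
  refine (Nat.cast_le.2 (by convert hc)).trans ?_
  rw [Fintype.card_piFinset, Nat.cast_prod]
  calc _ ≤ ∏ i, (3 * k : ℝ) * (d i : ℝ)⁻¹ := by
        refine prod_le_prod (fun _ _ => Nat.cast_nonneg _) fun i _ => ?_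
        have h0 : (0 : ℝ) < d i := Nat.cast_pos.2 (hd0 i)
        have h1 : (d i : ℝ) ≤ k := Nat.cast_le.2 (hdk i)
        have h2 : ((2 * k / d i : ℕ) : ℝ) ≤ (2 * k : ℕ) / d i := Nat.cast_div_le
        have h3 : (1 : ℝ) ≤ k / d i := (one_le_div h0).2 h1
        rw [card_range]
        push_cast at h2 ⊢
        calc _ ≤ 2 * (k : ℝ) / d i + k / d i := add_le_add h2 h3
          _ = _ := by ring
    _ = _ := by
        rw [prod_mul_distrib, prod_const, card_univ, Fintype.card_fin, Fin.prod_univ_succ,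
          Fin.prod_univ_succ]
        simp [d, sq]

end Cop

theorem cop : COPStmt := by
  classical
  refine fun g => ⟨3 ^ (2 * g + 3), fun k Y W x x' hY hW hx hd => ?_⟩
  refine (cnt_le_sum ((Ioc Y (Y + W)).filter fun r => r.Prime ∧ r ≤ k)
    (fun r c => (r : ℤ) ∣ val c x ∧ (r : ℤ) ∣ val c x') ?_).trans ?_
  · rintro c - ⟨r, h1, h2, h3, h4⟩
    exact ⟨r, mem_filter.2 ⟨mem_Ioc.2 ⟨h2, by omega⟩, h1, h3.trans hW⟩, h4⟩
  · calc _ ≤ ∑ r ∈ (Ioc Y (Y + W)).filter fun r => r.Prime ∧ r ≤ k,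
          (3 * k : ℝ) ^ (2 * g + 3) * ((r : ℝ) ^ 2)⁻¹ := sum_le_sum fun r hr =>
            Cop.one_prime (mem_filter.1 hr).2.1 (mem_Ioc.1 (mem_filter.1 hr).1).1
              (mem_filter.1 hr).2.2 hx hd
      _ ≤ ∑ r ∈ Ioc Y (Y + W), (3 * k : ℝ) ^ (2 * g + 3) * ((r : ℝ) ^ 2)⁻¹ :=
          sum_le_sum_of_subset_of_nonneg (filter_subset _ _) fun _ _ _ => by positivity
      _ ≤ (3 * k : ℝ) ^ (2 * g + 3) * (Y : ℝ)⁻¹ := by
          rw [← mul_sum]
          gcongr
          exact (sum_Ioc_inv_sq_le_sub (by omega) (Nat.le_add_right Y W)).trans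
            (sub_le_self _ (by positivity))
      _ = _ := by rw [mul_pow, div_eq_mul_inv]

end Pool.Agent.MP_a43263_nt.W1

end
end MrgPart5

-- ======== part 6: formerly Pool.Agent.MP_a43263_nt.W1.Kap
section MrgPart6

/-! THEOREM W: the density of irreducible polynomials over a prime field. -/

set_option autoImplicit false

noncomputable section

namespace Pool.Agent.MP_a43263_nt.W1

open Polynomial Finset Filter IntermediateField

namespace Kap

variable {m r : ℕ} [hr : Fact r.Prime]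

theorem ex {K : Type} [Field K] (p : K[X]) (h : p.natDegree ≤ m) :
    ∃ z : Fin m → K, C (p.coeff 0) + X * fm z = p := by
  refine ⟨fun i => p.coeff (i + 1), ?_⟩
  conv_rhs => rw [p.as_sum_range_C_mul_X_pow' (Nat.lt_succ_of_le h), sum_range_succ', sum_range]
  rw [fm, mul_sum, pow_zero, mul_one, add_comm]
  exact congrArg (· + _) (sum_congr rfl fun i _ => by ring)

theorem ir_smul {s : ZMod r} (hs : s ≠ 0) (z : Fin m → ZMod r) : Ir s (s • z) ↔ Ir 1 z := by
  have e : C s + X * fm (s • z) = C s * (C 1 + X * fm z) := by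
    simp [fm, mul_sum, mul_add, mul_assoc, mul_left_comm]
  rw [Ir, Ir, e, irreducible_isUnit_mul (isUnit_C.2 hs.isUnit), natDegree_C_mul hs]

theorem ir_tor (s : ZMod r) (a : (ZMod r)ˣ) (z : Fin m → ZMod r) :
    Ir s (fun i => (a : ZMod r) ^ (i.1 + 1) * z i) ↔ Ir s z := by
  have e : C s + X * fm (fun i => (a : ZMod r) ^ (i.1 + 1) * z i) =
      (C s + X * fm z).comp (C (a : ZMod r) * X + C 0) := by
    simp only [fm, add_comp, mul_comp, C_comp, X_comp, Polynomial.sum_comp, pow_comp, mul_sum,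
      map_mul, map_pow, map_zero, add_zero]
    exact congrArg (_ + ·) (sum_congr rfl fun i _ => by ring)
  have := a.invertible
  have e' := MulEquiv.irreducible_iff (f := algEquivCMulXAddC (a : ZMod r) 0) (x := C s + X * fm z)
  rw [algEquivCMulXAddC_apply, ← comp_eq_aeval] at e'
  rw [Ir, Ir, e, e', natDegree_comp, natDegree_linear a.ne_zero, mul_one]

theorem low (m1 : 1 < m) : r ^ m ≤ {z : Fin m → ZMod r | Ir 1 z}.ncard * m + m * r ^ (m - 1) := by
  classical
  have hm : m ≠ 0 := by omega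
  have := Fintype.ofFinite (GaloisField r m)
  have r1 := hr.out.one_lt
  have s : (univ : Finset (GaloisField r m)) ⊆
      (univ.filter fun z : Fin m → ZMod r => Ir 1 z).biUnion
      (fun z => ((C 1 + X * fm z).aroots (GaloisField r m)).toFinset) ∪ (range m).biUnion
      fun d => (X ^ r ^ d - X : (GaloisField r m)[X]).roots.toFinset := by
    intro α _
    have hi : IsIntegral (ZMod r) α := IsIntegral.of_finite _ α
    have h1 := minpoly.natDegree_le (A := ZMod r) α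
    rw [GaloisField.finrank r hm] at h1
    simp only [mem_union, mem_biUnion, mem_filter, mem_univ, true_and, Multiset.mem_toFinset,
      mem_range]
    rcases h1.eq_or_lt with h | h
    · have c0 := minpoly.coeff_zero_ne_zero hi fun h0 => by
        rw [h0, minpoly.zero, natDegree_X] at h
        omega
      have u := isUnit_C.2 (inv_ne_zero c0).isUnit
      have d := natDegree_C_mul (p := minpoly (ZMod r) α) (inv_ne_zero c0)
      obtain ⟨z, hz⟩ := ex _ (d.trans h).le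
      rw [coeff_C_mul, inv_mul_cancel₀ c0] at hz
      have ir := (irreducible_isUnit_mul u).2 (minpoly.irreducible hi)
      refine .inl ⟨z, ⟨hz ▸ ir, hz ▸ d.trans h⟩, ?_⟩
      rw [hz, mem_aroots, map_mul, minpoly.aeval, mul_zero]
      exact ⟨ir.ne_zero, rfl⟩
    · have hd := minpoly.natDegree_pos hi
      have := Fintype.ofFinite (ZMod r)⟮α⟯
      have hc : Fintype.card (ZMod r)⟮α⟯ = r ^ (minpoly (ZMod r) α).natDegree := by
        rw [← Nat.card_eq_fintype_card, Module.natCard_eq_pow_finrank (K := ZMod r), Nat.card_zmod,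
          adjoin.finrank hi]
      have h2 := congrArg Subtype.val (FiniteField.pow_card (AdjoinSimple.gen (ZMod r) α))
      rw [hc] at h2
      refine .inr ⟨_, h, (mem_roots (FiniteField.X_pow_card_sub_X_ne_zero _
        (Nat.one_lt_pow hd.ne' r1))).2 ?_⟩
      rw [IsRoot, eval_sub, eval_pow, eval_X, sub_eq_zero]
      exact h2
  have c := (card_le_card s).trans (card_union_le _ _)
  rw [card_univ, ← Nat.card_eq_fintype_card, GaloisField.card r m hm] at c
  refine c.trans (add_le_add ?_ ?_)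
  · refine (card_biUnion_le_card_mul _ _ m fun z hz => ?_).trans ?_
    · exact (Multiset.toFinset_card_le _).trans ((card_roots' _).trans
        (natDegree_map_le.trans (mem_filter.1 hz).2.2.le))
    · rw [← Set.ncard_coe_finset, coe_filter_univ]
  · refine (card_biUnion_le_card_mul _ _ (r ^ (m - 1)) fun d hd => ?_).trans (by rw [card_range])
    refine (Multiset.toFinset_card_le _).trans ((card_roots' _).trans
      ((natDegree_sub_le _ _).trans ?_))
    rw [natDegree_X_pow, natDegree_X]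
    have := mem_range.1 hd
    exact max_le (Nat.pow_le_pow_right r1.le (by omega)) (Nat.one_le_pow _ _ (by omega))

theorem bd (g r : ℕ) (h : r.Prime) : 0 ≤ kap g r ∧ kap g r ≤ 1 := by
  have := Fact.mk h
  refine ⟨by rw [kap]; positivity, div_le_one_of_le₀ ?_ (by positivity)⟩
  have := Set.ncard_le_card {z : Fin (2 * g + 1) → ZMod r | Ir 1 z}
  rw [Nat.card_fun, Nat.card_zmod, Nat.card_fin] at this
  exact_mod_cast this

end Kap

open Kap in
theorem kapl : KAPStmt := by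
  classical
  refine fun g hg => ⟨Kap.bd g, fun r hr s hs => ⟨fun z => ?_, ?_, fun a z => ?_⟩,
    2 * (2 * g + 1), fun r hr h => ?_⟩
  · have := Kap.bd g r hr.out
    have := ind_nonneg (Ir s z)
    have := ind_le_one (Ir s z)
    rw [abs_le]
    constructor <;> linarith
  · have r0 : (r : ℝ) ≠ 0 := by exact_mod_cast hr.out.ne_zero
    rw [sum_sub_distrib, ← Equiv.sum_comp (MulAction.toPerm (Units.mk0 s hs)), sum_const, card_univ,
      Fintype.card_fun, ZMod.card, Fintype.card_fin, nsmul_eq_mul, kap, Nat.cast_pow,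
      mul_div_cancel₀ _ (pow_ne_zero _ r0), sub_eq_zero, ← coe_filter_univ, Set.ncard_coe_finset,
      card_filter, Nat.cast_sum]
    exact sum_congr rfl fun z _ => (ind_congr (ir_smul hs z)).trans (by simp [ind])
  · rw [ind_congr (ir_tor s a z)]
  · have := Fact.mk hr
    have l := low (m := 2 * g + 1) (r := r) (by omega)
    have r0 : (0 : ℝ) < r := by exact_mod_cast hr.pos
    have e := Nat.mul_le_mul_right (r ^ (2 * g)) h
    rw [Nat.add_sub_cancel] at l
    rw [← pow_succ'] at e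
    rw [kap, div_le_div_iff₀ (by positivity) (by positivity)]
    have : 1 * r ^ (2 * g + 1) ≤
      {z : Fin (2 * g + 1) → ZMod r | Ir 1 z}.ncard * (2 * (2 * g + 1)) := by nlinarith
    exact_mod_cast this

end Pool.Agent.MP_a43263_nt.W1

end
end MrgPart6

-- ======== part 7: formerly Pool.Agent.MP_a43263_nt.W1.Dec1
section MrgPart7

/-! THEOREM W: one prime is decoupled by a shift in three blocks. -/

set_option autoImplicit false

noncomputable section

namespace Pool.Agent.MP_a43263_nt.W1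

open Finset

namespace Dec1

theorem cut (S : Finset ℕ) : ∃ A ⊆ S, A.card ≤ 3 ∧ (S \ A).card ≤ S.card - 3 := by
  obtain ⟨A, h, e⟩ := exists_subset_card_eq (min_le_right 3 S.card)
  exact ⟨A, h, by omega, by rw [card_sdiff_of_subset h]; omega⟩

theorem split (S : Finset ℕ) : ∃ T : Fin 3 → Finset ℕ, (∀ j, T j ⊆ S) ∧
    (S.card ≤ 9 → ∀ j, (T j).card ≤ 3) ∧
    ∀ f : ℕ → ℝ, ∏ r ∈ S, f r = (∏ r ∈ T 0, f r) * (∏ r ∈ T 1, f r) * ∏ r ∈ T 2, f r := by
  obtain ⟨A, a1, a2, a3⟩ := cut S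
  obtain ⟨B, b1, b2, b3⟩ := cut (S \ A)
  refine ⟨![A, B, (S \ A) \ B], fun j => ?_, fun h j => ?_, fun f => ?_⟩
  · fin_cases j
    exacts [a1, b1.trans sdiff_subset, sdiff_subset.trans sdiff_subset]
  · fin_cases j
    exacts [a2, b2, b3.trans (by omega)]
  · rw [← prod_sdiff a1, ← prod_sdiff b1]
    simp only [Matrix.cons_val]
    ring

/-- triples of vectors -/
abbrev J (g : ℕ) : Type := (Fin (2 * g + 1) → ℕ) × (Fin (2 * g + 1) → ℕ) × (Fin (2 * g + 1) → ℕ)

/-- the triples of residues -/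
def cu (g r : ℕ) : Finset (J g) := cube _ r ×ˢ cube _ r ×ˢ cube _ r

theorem card_cu (g r : ℕ) : ((cu g r).card : ℝ) = (r : ℝ) ^ (3 * (2 * g + 1)) := by
  simp only [cu, cube, card_product, Fintype.card_piFinset, card_range, prod_const, card_univ,
    Fintype.card_fin]
  push_cast
  ring

variable {g : ℕ} {y y' : ℤ}

/-- the shift -/
def ee (y y' : ℤ) (n : Fin 3 → ℤ) (ω : J g) : Vec g :=
  sh g y y' fun i => n 0 * ω.1 i + n 1 * ω.2.1 i + n 2 * ω.2.2 i

theorem ee_eq (loc : LOCStmt) (n : Fin 3 → ℤ) (ω : J g) : ee y y' n ω =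
    n 0 • sh g y y' (fun i => ω.1 i) + n 1 • sh g y y' (fun i => ω.2.1 i) +
      n 2 • sh g y y' fun i => ω.2.2 i := by
  obtain ⟨-, h2, h3, -⟩ := loc g y y'
  rw [← h3, ← h3, ← h3, ← h2, ← h2]
  rfl

theorem ee_dvd (loc : LOCStmt) {n : Fin 3 → ℤ} {N : ℤ} (h : ∀ j, N ∣ n j) (ω : J g)
    (i : Fin (2 * g + 3)) : N ∣ ee y y' n ω i := by
  rw [ee_eq loc]
  exact (((h 0).mul_right _).add ((h 1).mul_right _)).add ((h 2).mul_right _)

theorem ee_le (loc : LOCStmt) {n : Fin 3 → ℤ} {K : ℤ} {r W : ℕ} (h : ∀ j, |n j| ≤ K) (hr : r ≤ W)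
    {ω : J g} (hω : ω ∈ cu g r) (i : Fin (2 * g + 3)) :
    |ee y y' n ω i| ≤ (2 * g + 1) * (3 * (K * W)) * ((1 + |y|) * (1 + |y'|)) ^ (2 * g + 1) := by
  refine (loc g y y').2.2.2.1 _ _ (fun l => ?_) i
  simp only [cu, cube, mem_product, Fintype.mem_piFinset, mem_range] at hω
  have k : ∀ (j : Fin 3) (a : ℕ), a < r → |n j * a| ≤ K * W := fun j a ha => by
    rw [abs_mul, Nat.abs_cast]
    exact mul_le_mul (h j) (by exact_mod_cast ha.le.trans hr) (by positivity)
      ((abs_nonneg _).trans (h j))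
  have := abs_add_three (n 0 * ω.1 l) (n 1 * ω.2.1 l) (n 2 * ω.2.2 l)
  linarith [k 0 _ (hω.1 l), k 1 _ (hω.2.1 l), k 2 _ (hω.2.2 l)]

theorem abs_prod (S : Finset ℕ) (c : Vec g) : |∏ r ∈ S, phi g r c| ≤ 1 := by
  simp only [phi]
  rw [abs_of_nonneg (prod_nonneg fun _ _ => ind_nonneg _)]
  exact prod_le_one (fun _ _ => ind_nonneg _) fun _ _ => ind_le_one _

theorem avg (tri : TRIStmt) (loc : LOCStmt) (kp : KAPStmt) (hg : 1 ≤ g) {δ : ℝ} (hδ : 0 < δ) :
    ∃ r₀ : ℕ, ∀ r : ℕ, r.Prime → r₀ ≤ r → ∀ (y y' : ℤ) (c : Vec g) (T : Fin 3 → Finset ℕ)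
      (n : Fin 3 → ℤ), (r : ℤ) ∣ val c y → ¬(r : ℤ) ∣ val c y' → (∀ j, ¬(r : ℤ) ∣ n j) →
      (∀ j, ∀ p ∈ T j, (p : ℤ) ∣ n j) →
      |∑ ω ∈ cu g r, (phi g r (c + ee y y' n ω) - kap g r) *
        ((∏ p ∈ T 0, phi g p (c + ee y y' n ω)) * (∏ p ∈ T 1, phi g p (c + ee y y' n ω)) *
          ∏ p ∈ T 2, phi g p (c + ee y y' n ω))| ≤ δ * (cu g r).card := by
  obtain ⟨r₀, H⟩ := tri (2 * g + 1) δ hδ
  refine ⟨r₀, fun r hr h0 y y' c T n h1 h2 hn hT => ?_⟩
  have := Fact.mk hr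
  obtain ⟨-, -, -, -, l5, l6⟩ := loc g y y'
  obtain ⟨s, z, hs, hz⟩ := l6 r c hg hr h1 h2
  have := H r h0 _ z (n 0) (n 1) (n 2)
    (fun h k => ∏ p ∈ T 0, phi g p (c + (n 1 • sh g y y' (fun i => h i) +
      n 2 • sh g y y' fun i => k i)))
    (fun b k => ∏ p ∈ T 1, phi g p (c + (n 0 • sh g y y' (fun i => b i) +
      n 2 • sh g y y' fun i => k i)))
    (fun b h => ∏ p ∈ T 2, phi g p (c + (n 0 • sh g y y' (fun i => b i) +
      n 1 • sh g y y' fun i => h i)))
    ((kp g hg).2.1 r s hs) (hn 0) (hn 1) (hn 2) (fun _ _ => abs_prod _ _)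
    (fun _ _ => abs_prod _ _) fun _ _ => abs_prod _ _
  rw [card_cu, cu, sum_product]
  simp only [sum_product]
  refine le_of_eq_of_le (congrArg _ (sum_congr rfl fun b _ => sum_congr rfl fun h _ =>
    sum_congr rfl fun k _ => ?_)) this
  have key : ∀ (j : Fin 3) (u v : Vec g), ee y y' n (b, h, k) = u + n j • v →
      ∏ p ∈ T j, phi g p (c + ee y y' n (b, h, k)) = ∏ p ∈ T j, phi g p (c + u) :=
    fun j u v e => prod_congr rfl fun p hp => by
      rw [e, ← add_assoc]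
      exact l5 p _ _ fun i => (hT j p hp).mul_right _
  rw [key 0 _ _ ((ee_eq loc n _).trans (by rw [add_assoc, add_comm])),
    key 1 _ _ ((ee_eq loc n _).trans (add_right_comm _ _ _)), key 2 _ _ (ee_eq loc n _)]
  exact congrArg (fun a => (a - _) * _) (ind_congr (hz _))

end Dec1

open Dec1 in
theorem dec1 : SHStmt → GEOStmt → TRIStmt → LOCStmt → KAPStmt → DEC1Stmt := by
  intro shf geo tri loc kp g δ hg hδ
  obtain ⟨r₀, H⟩ := avg tri loc kp hg hδ
  refine ⟨r₀, fun k N R W x x' w ρ T B iw iρ iT hw hS hc => ?_⟩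
  classical
  choose S S1 S2 S3 using split
  let n : Finset ℕ → Fin 3 → ℤ := fun U j => N * ∏ p ∈ S U j, (p : ℤ)
  let tt : ℝ → ℕ → Finset (J g) := fun a r => if a = 0 then {0} else cu g r
  let hh : ℝ → ℕ → Finset ℕ → ℤ → J g → Vec g := fun a r U v ω =>
    if a = 0 then 0 else if (r : ℤ) ∣ v then ee x x' (n U) ω else ee x' x (n U) ω
  have hi : ∀ a r U v ω, (∀ i, (N : ℤ) ∣ hh a r U v ω i) ∧ val (hh a r U v ω) x = 0 ∧
      val (hh a r U v ω) x' = 0 := fun a r U v ω => by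
    simp only [hh]
    split_ifs
    · simp [geo.2.2.1]
    · exact ⟨ee_dvd loc (fun _ => dvd_mul_right _ _) ω, (loc g x x').1 _⟩
    · exact ⟨ee_dvd loc (fun _ => dvd_mul_right _ _) ω, ((loc g x' x).1 _).symm⟩
  let F : Vec g → ℝ := fun c => w c * ((phi g (ρ c) c - kap g (ρ c)) * ∏ r ∈ T c, phi g r c)
  have hF : ∀ c, |F c| ≤ B := fun c => by
    by_cases h : w c = 0
    · simpa [F, h] using (hw c).1.trans (hw c).2
    · obtain ⟨a, b⟩ := (kp g hg).1 _ (hc c h).1.1
      have e : |phi g (ρ c) c - kap g (ρ c)| ≤ 1 := abs_le.2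
        ⟨by linarith [show 0 ≤ phi g (ρ c) c from ind_nonneg _],
          by linarith [show phi g (ρ c) c ≤ 1 from ind_le_one _]⟩
      rw [abs_mul, abs_mul, abs_of_nonneg (hw c).1]
      exact (mul_le_of_le_one_right (hw c).1
        (mul_le_one₀ e (abs_nonneg _) (abs_prod _ _))).trans (hw c).2
  have ne : ∀ c, (tt (w c) (ρ c)).Nonempty := fun c => by
    simp only [tt]
    split_ifs with h
    · exact singleton_nonempty _
    · rw [← card_pos, ← Nat.cast_pos (α := ℝ), card_cu]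
      exact pow_pos (Nat.cast_pos.2 (hc c h).1.1.pos) _
  have sh1 := shf g k R (J g) (fun c => tt (w c) (ρ c))
    (fun c => hh (w c) (ρ c) (T c) (val c x)) F B ne (fun c ω hω => by
      obtain ⟨a, b, d⟩ := hi (w c) (ρ c) (T c) (val c x) ω
      refine ⟨fun i => ?_, by rw [iw c _ a b d, iρ c _ a b d],
        by rw [iw c _ a b d, iρ c _ a b d, iT c _ a b d, geo.2.1, b, add_zero]⟩
      by_cases h : w c = 0
      · simp [hh, h]
      obtain ⟨⟨p1, -, p3, -⟩, -, p5, p6⟩ := hc c h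
      have hn : ∀ j, |n (T c) j| ≤ N * (W : ℤ) ^ 3 := fun j => by
        have h1 : ∏ p ∈ S (T c) j, p ≤ W ^ 3 :=
          (prod_le_pow_card _ _ W fun p hp => (p6 p (S1 _ j hp)).2).trans
            (Nat.pow_le_pow_right (p1.pos.trans_le p3) (S2 _ p5 j))
        simp only [n]
        rw [abs_of_nonneg (by positivity), ← Nat.cast_prod]
        exact mul_le_mul_of_nonneg_left (by exact_mod_cast h1) (by positivity)
      simp only [tt, if_neg h] at hω
      simp only [hh, if_neg h]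
      split_ifs
      · exact (ee_le loc hn p3 hω i).trans (le_of_eq_of_le (by ring) hS)
      · exact (ee_le loc hn p3 hω i).trans (le_of_eq_of_le (by rw [mul_comm (1 + |x'|)]; ring) hS))
    hF
  have av : ∀ c, |(∑ ω ∈ tt (w c) (ρ c), F (c + hh (w c) (ρ c) (T c) (val c x) ω)) /
      (tt (w c) (ρ c)).card| ≤ δ * w c := fun c => by
    have e : ∀ ω, F (c + hh (w c) (ρ c) (T c) (val c x) ω) =
        w c * ((phi g (ρ c) (c + hh (w c) (ρ c) (T c) (val c x) ω) - kap g (ρ c)) *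
          ∏ r ∈ T c, phi g r (c + hh (w c) (ρ c) (T c) (val c x) ω)) := fun ω => by
      obtain ⟨a, b, d⟩ := hi (w c) (ρ c) (T c) (val c x) ω
      simp only [F]
      rw [iw c _ a b d, iρ c _ a b d, iT c _ a b d]
    simp only [e]
    by_cases h : w c = 0
    · simp [h]
    obtain ⟨⟨p1, p2, -, p4, p7⟩, p8, -, p6⟩ := hc c h
    have hn : ∀ j, ¬(ρ c : ℤ) ∣ n (T c) j := fun j hd => by
      have : ρ c ∣ N * ∏ p ∈ S (T c) j, p := by
        simp only [n] at hd
        rw [← Nat.cast_prod] at hd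
        exact_mod_cast hd
      obtain ⟨p, hp, hd⟩ := (p1.prime.dvd_finsetProd_iff _).1
        ((p1.dvd_mul.1 this).resolve_left p4)
      exact p8 ((Nat.prime_dvd_prime_iff_eq p1 (p6 p (S1 _ j hp)).1).1 hd ▸ S1 _ j hp)
    have hT : ∀ j, ∀ p ∈ S (T c) j, (p : ℤ) ∣ n (T c) j := fun j p hp =>
      (dvd_prod_of_mem (fun p : ℕ => (p : ℤ)) hp).mul_left _
    rw [← mul_sum, abs_div, abs_mul, abs_of_nonneg (hw c).1, Nat.abs_cast,
      div_le_iff₀ (Nat.cast_pos.2 (ne c).card_pos), mul_comm δ, mul_assoc]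
    refine mul_le_mul_of_nonneg_left ?_ (hw c).1
    simp only [tt, hh, if_neg h, S3 (T c)]
    split_ifs with hd
    · exact H _ p1 p2 x x' c _ _ hd (p7.1 hd) hn hT
    · exact H _ p1 p2 x' x c _ _ (by_contra fun a => hd (p7.2 a)) hd hn hT
  have h2 := (abs_sum_le_sum_abs _ _).trans (sum_le_sum fun c (_ : c ∈ bx g k) => av c)
  rw [← mul_sum] at h2
  have h3 := abs_sub_abs_le_abs_sub (∑ c ∈ bx g k, F c) (∑ c ∈ bx g k,
    (∑ ω ∈ tt (w c) (ρ c), F (c + hh (w c) (ρ c) (T c) (val c x) ω)) / (tt (w c) (ρ c)).card)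
  rw [abs_sub_comm] at h3
  change |∑ c ∈ bx g k, F c| ≤ _
  linarith

end Pool.Agent.MP_a43263_nt.W1

end
end MrgPart7

-- ======== part 8: formerly Pool.Agent.MP_a43263_nt.W1.Dec
section MrgPart8

/-! THEOREM W, row DEC: from one prime to ten primes. -/

set_option autoImplicit false

noncomputable section

namespace Pool.Agent.MP_a43263_nt.W1

open Finset

theorem dec : KAPStmt → DEC1Stmt → DECStmt := by
  intro kp d1 g δ hg hδ
  obtain ⟨r₀, H⟩ := d1 g δ hg hδ
  obtain ⟨f, hf⟩ : ∃ f : Finset ℕ → ℕ, ∀ S : Finset ℕ, S.Nonempty → f S ∈ S :=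
    ⟨fun S => if h : S.Nonempty then h.choose else 0, fun S h => by
      simp only [dif_pos h]
      exact h.choose_spec⟩
  refine ⟨r₀, fun k N R W x x' w T B i1 i2 hw hs hT => ?_⟩
  have key : ∀ n : ℕ, n ≤ 10 → ∀ (w : Vec g → ℝ) (T : Vec g → Finset ℕ), Inv N x x' w →
      Inv N x x' T → (∀ c, 0 ≤ w c ∧ w c ≤ B) →
      (∀ c, w c ≠ 0 → (T c).card ≤ n ∧ ∀ r ∈ T c, One r₀ W N x x' c r) →
      |∑ c ∈ bx g k, w c * (∏ r ∈ T c, phi g r c - ∏ r ∈ T c, kap g r)| ≤
        n * (δ * ∑ c ∈ bx g k, w c + B * bd g k R) := by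
    intro n
    induction n with
    | zero =>
      intro _ w T _ _ _ hT
      rw [sum_eq_zero, abs_zero, Nat.cast_zero, zero_mul]
      intro c _
      by_cases e : w c = 0
      · rw [e, zero_mul]
      · rw [card_eq_zero.1 (Nat.le_zero.1 (hT c e).1), prod_empty, prod_empty, sub_self, mul_zero]
    | succ n ih =>
      intro hn w T i1 i2 hw hT
      have B0 : 0 ≤ B := (hw 0).1.trans (hw 0).2
      obtain ⟨u, hu⟩ : ∃ u : Vec g → ℝ, u = fun c => if (T c).Nonempty then w c else 0 := ⟨_, rfl⟩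
      have u0 : ∀ c, u c ≠ 0 → w c ≠ 0 ∧ f (T c) ∈ T c := fun c h => by
        rw [hu] at h
        by_cases e : (T c).Nonempty
        · exact ⟨by simpa only [if_pos e] using h, hf _ e⟩
        · exact absurd (if_neg e) h
      have u1 : ∀ c, 0 ≤ u c ∧ u c ≤ w c := fun c => by
        rw [hu]
        dsimp only
        split_ifs
        exacts [⟨(hw c).1, le_rfl⟩, ⟨le_rfl, (hw c).1⟩]
      have u2 : Inv N x x' u := fun c e a b d => by
        rw [hu]
        simp only [i1 c e a b d, i2 c e a b d]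
      have v1 : ∀ c, 0 ≤ u c * kap g (f (T c)) ∧ u c * kap g (f (T c)) ≤ w c := fun c => by
        by_cases e : u c = 0
        · rw [e, zero_mul]
          exact ⟨le_rfl, (hw c).1⟩
        · have := (kp g hg).1 _ ((hT c (u0 c e).1).2 _ (u0 c e).2).1
          exact ⟨mul_nonneg (u1 c).1 this.1, (mul_le_of_le_one_right (u1 c).1 this.2).trans (u1 c).2⟩
      have c1 : ∀ c, u c ≠ 0 → ((T c).erase (f (T c))).card ≤ n := fun c e => by
        have := (hT c (u0 c e).1).1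
        rw [card_erase_of_mem (u0 c e).2]
        omega
      have iT : Inv N x x' fun c => (T c).erase (f (T c)) := fun c e a b d => by
        simp only [i2 c e a b d]
      have h1 := H k N R W x x' u (fun c => f (T c)) (fun c => (T c).erase (f (T c))) B u2
        (fun c e a b d => by simp only [i2 c e a b d]) iT
        (fun c => ⟨(u1 c).1, (u1 c).2.trans (hw c).2⟩) hs fun c e =>
          ⟨(hT c (u0 c e).1).2 _ (u0 c e).2, notMem_erase _ _, (c1 c e).trans (by omega),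
            fun r hr => have := (hT c (u0 c e).1).2 r (mem_of_mem_erase hr)
              ⟨this.1, this.2.2.1⟩⟩
      have h2 := ih (by omega) (fun c => u c * kap g (f (T c))) (fun c => (T c).erase (f (T c)))
        (fun c e a b d => by simp only [u2 c e a b d, i2 c e a b d]) iT
        (fun c => ⟨(v1 c).1, (v1 c).2.trans (hw c).2⟩) fun c e =>
          have e' := left_ne_zero_of_mul e
          ⟨c1 c e', fun r hr => (hT c (u0 c e').1).2 r (mem_of_mem_erase hr)⟩
      have s1 : ∑ c ∈ bx g k, u c ≤ ∑ c ∈ bx g k, w c := sum_le_sum fun c _ => (u1 c).2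
      have s2 : ∑ c ∈ bx g k, u c * kap g (f (T c)) ≤ ∑ c ∈ bx g k, w c :=
        sum_le_sum fun c _ => (v1 c).2
      have e : ∀ c, w c * (∏ r ∈ T c, phi g r c - ∏ r ∈ T c, kap g r) =
          u c * ((phi g (f (T c)) c - kap g (f (T c))) * ∏ r ∈ (T c).erase (f (T c)), phi g r c) +
          u c * kap g (f (T c)) * (∏ r ∈ (T c).erase (f (T c)), phi g r c -
            ∏ r ∈ (T c).erase (f (T c)), kap g r) := fun c => by
        rw [hu]
        dsimp only
        split_ifs with m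
        · rw [← mul_prod_erase _ (fun r => phi g r c) (hf _ m),
            ← mul_prod_erase _ (fun r => kap g r) (hf _ m)]
          ring
        · rw [not_nonempty_iff_eq_empty.1 m, prod_empty, prod_empty]
          ring
      simp only [e, sum_add_distrib]
      refine (abs_add_le _ _).trans ((add_le_add h1 h2).trans ?_)
      have a1 := mul_le_mul_of_nonneg_left s1 hδ.le
      have a2 := mul_le_mul_of_nonneg_left (add_le_add_left (mul_le_mul_of_nonneg_left s2 hδ.le)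
        (B * bd g k R)) (Nat.cast_nonneg (α := ℝ) n)
      push_cast
      linarith
  exact_mod_cast key 10 le_rfl w T i1 i2 hw hT

end Pool.Agent.MP_a43263_nt.W1

end
end MrgPart8

-- ======== part 9: formerly Pool.Agent.MP_a43263_nt.W1.Gev
section MrgPart9

/-! THEOREM W: no local condition at a good prime. -/

set_option autoImplicit false

noncomputable section

namespace Pool.Agent.MP_a43263_nt.W1

open Polynomial VV VA
open Pool.Agent.MP_a43263_nt.UV (zK iq rq Nm iq_zK rq_zK dvd_sub_mod)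
open UV.Cmp (unit_iff iq_eval prim)

namespace Gev

variable {R : Type} [CommRing R]

theorem crt {a : R} {h : R[X]} (ha : IsUnit (h.eval a)) (A : R) (Z : R[X]) :
    ∃ W : R[X], W.eval a = A ∧ h ∣ W - Z := by
  obtain ⟨s, hs⟩ := ha.exists_right_inv
  refine ⟨Z + h * C ((A - Z.eval a) * s), ?_, by rw [add_sub_cancel_left]; exact dvd_mul_right _ _⟩
  simp only [eval_add, eval_mul, eval_C]
  linear_combination (A - Z.eval a) * hs

theorem two [IsDomain R] {a : R} {h D : R[X]} (ha : h.eval a ≠ 0) (h1 : D.eval a = 0)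
    (h3 : h ∣ D) : (X - C a) * h ∣ D := by
  obtain ⟨E, rfl⟩ := h3
  rw [eval_mul, mul_eq_zero] at h1
  obtain ⟨E, rfl⟩ := dvd_iff_isRoot.2 (h1.resolve_left ha)
  exact ⟨E, by ring⟩

end Gev

theorem gev : GEVStmt := by
  intro p _ g f δ Z ⟨t, h0, e0, i0, d0⟩ co ⟨s, hs⟩
  classical
  have G := UV.gram.1
  have g2 := Z.pos
  have hp : (p : ℚ_[p]) ≠ 0 := Nat.cast_ne_zero.2 (Fact.out : p.Prime).ne_zero
  obtain ⟨m, u, mm, md, -, e, em⟩ := exists_monic (p := p) Z fun c => by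
    have d : (zK f (ZMod p)).natDegree = 2 * g + 2 := by
      rw [zK, e0, (monic_X_sub_C t).natDegree_mul' i0.ne_zero, natDegree_X_sub_C, d0]
      omega
    have := leadingCoeff_ne_zero.2 (fam_red Z (Fact.out : p.Prime))
    rw [leadingCoeff, d, coeff_map, ← Z.deg, coeff_natDegree, eq_intCast] at this
    exact this ((ZMod.intCast_zmod_eq_zero_iff_dvd _ p).2 c)
  have u0 := unit_iff.1 u.isUnit
  have er : zK f (ZMod p) = C (PadicInt.toZMod (u : ℤ_[p])) * rq p m := by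
    rw [← rq_zK, e, rq, Polynomial.map_mul, map_C]
  have i1 : Irreducible (C (PadicInt.toZMod (u : ℤ_[p]))⁻¹ * h0) :=
    (irreducible_isUnit_mul (isUnit_C.2 (inv_ne_zero u0).isUnit)).2 i0
  have d1 : (C (PadicInt.toZMod (u : ℤ_[p]))⁻¹ * h0).natDegree = 2 * g + 1 := by
    rw [natDegree_C_mul (inv_ne_zero u0), d0]
  have nr : (C (PadicInt.toZMod (u : ℤ_[p]))⁻¹ * h0).eval t ≠ 0 := fun c => by
    have : _ = 1 := d1.symm.trans
      (natDegree_eq_of_degree_eq_some (degree_eq_one_of_irreducible_of_root i1 c))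
    omega
  obtain ⟨a, h, g1, rfl, g3⟩ := VA.Cmp.lift (F := m) (t := t) (by
    rw [mul_left_comm, ← e0, ← zK, er, ← mul_assoc, ← C_mul, inv_mul_cancel₀ u0, C_1, one_mul]) nr
  rw [← g3] at i1 d1 nr
  have mh : h.Monic := (monic_X_sub_C a).of_mul_monic_left (g1 ▸ mm)
  have hm : (iq p h).Monic := mh.map _
  have hg : (iq p h).natDegree = 2 * g + 1 := by rw [mh.natDegree_map, ← d1, mh.natDegree_map]
  have ua : IsUnit (h.eval a) := by rwa [unit_iff, ← VA.Cmp.rq_eval]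
  have qa : (iq p h).eval (a : ℚ_[p]) ≠ 0 := iq_eval h a ▸ (ua.map PadicInt.Coe.ringHom).ne_zero
  have f0 := sq_ne (fam_sq Z ℚ_[p])
  replace em : mo (zK f ℚ_[p]) = (X - C (a : ℚ_[p])) * iq p h := by
    rw [← em, g1, iq, Polynomial.map_mul, Polynomial.map_sub, map_X, map_C]
    rfl
  rw [← mo_cop f0] at co
  have s0 : s ≠ 0 := fun e => by
    have := ((G _ _ (mo_monic f0)).2.2.2.1 δ).2 co
    rw [hs, e, mul_zero] at this
    exact not_isUnit_zero this
  rw [em] at co hs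
  rw [(G _ _ (monic_X_sub_C _)).2.2.2.2.1 _ hm, Nm, natDegree_X_sub_C,
    resultant_X_sub_C_left _ _ _ le_rfl] at hs
  have n0 : δ %ₘ iq p h ≠ 0 := fun e => by
    have := natDegree_eq_zero_of_isUnit
      (co.of_mul_right_right.symm.isUnit_of_dvd ((modByMonic_eq_zero_iff_dvd hm).1 e))
    omega
  obtain ⟨k, z, ez, hz⟩ := prim n0
  have q0 : (p : ℚ_[p]) ^ k ≠ 0 := zpow_ne_zero _ hp
  generalize (p : ℚ_[p]) ^ k = q at ez q0
  have dv : iq p h ∣ δ - C q * iq p z := ez ▸ dvd_sub_mod _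
  have nd : ¬rq p h ∣ rq p z := fun c => by
    refine hz (eq_zero_of_dvd_of_degree_lt c ?_)
    have l1 := degree_modByMonic_lt δ hm
    rw [ez, degree_C_mul q0, mh.degree_map,
      degree_map_eq_of_injective Subtype.val_injective] at l1
    rw [mh.degree_map]
    exact degree_map_le.trans_lt l1
  obtain ⟨k1, k2, k3, -, -, -⟩ := G _ _ hm
  have k6 := (G _ _ mh).2.2.2.2.2
  obtain ⟨v, hv⟩ : IsUnit (Nm h z) := by
    rw [unit_iff, ← k6, ← isUnit_iff_ne_zero, (G _ _ (mh.map _)).2.2.2.1]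
    exact (i1.coprime_iff_not_dvd.2 nd).symm
  rw [k2 _ _ dv, k1, k3, hg, k6, ← hv] at hs
  have vv : (((v⁻¹ : ℤ_[p]ˣ) : ℤ_[p]) : ℚ_[p]) * PadicInt.Coe.ringHom (v : ℤ_[p]) = 1 := by
    change _ * ((v : ℤ_[p]) : ℚ_[p]) = 1
    rw [← PadicInt.coe_mul, Units.inv_mul, PadicInt.coe_one]
  obtain ⟨W, w1, w2⟩ := Gev.crt ua ((v⁻¹ : ℤ_[p]ˣ) : ℤ_[p]) z
  obtain ⟨x, x1, x2⟩ := Gev.crt qa.isUnit (q ^ (g + 1) / s) 1
  refine ⟨x, q⁻¹, W, inv_ne_zero q0, ?_, ?_⟩
  · rw [← mo_dvd f0, em]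
    refine Gev.two qa ?_ ?_
    · simp only [eval_sub, eval_mul, eval_pow, eval_C, iq_eval, w1, x1]
      field_simp
      linear_combination (((v⁻¹ : ℤ_[p]ˣ) : ℤ_[p]) : ℚ_[p]) * q * hs -
        δ.eval (a : ℚ_[p]) * q ^ (2 * g + 2) * vv
    · have a2 := Polynomial.map_dvd (PadicInt.Coe.ringHom (p := p)) w2
      rw [Polynomial.map_sub] at a2
      have k : C q * C q⁻¹ = 1 := by rw [← C_mul, mul_inv_cancel₀ q0, C_1]
      obtain ⟨A, hA⟩ := dv
      obtain ⟨B, hB⟩ := x2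
      obtain ⟨D, hD⟩ := a2
      exact ⟨δ * C q⁻¹ * (x + 1) * B + C q⁻¹ * A - D, by
        linear_combination δ * C q⁻¹ * (x + 1) * hB + C q⁻¹ * hA - hD + iq p z * k⟩
  · rw [er, isCoprime_mul_unit_left_right (isUnit_C.2 u0.isUnit), g1, rq, rq, Polynomial.map_mul,
      Polynomial.map_sub, map_X, map_C]
    refine IsCoprime.mul_right ?_ ?_
    · refine ((irreducible_X_sub_C _).coprime_iff_not_dvd.2 fun d => ?_).symm
      rw [dvd_iff_isRoot, IsRoot, VA.Cmp.rq_eval, w1] at d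
      exact unit_iff.1 (v⁻¹).isUnit d
    · refine (i1.coprime_iff_not_dvd.2 fun d => nd ?_).symm
      have a2 := Polynomial.map_dvd (PadicInt.toZMod (p := p)) w2
      rw [Polynomial.map_sub] at a2
      exact (dvd_sub_right d).1 a2

end Pool.Agent.MP_a43263_nt.W1

end

end MrgPart9

-- ======== part 10: formerly Pool.Agent.MP_a43263_nt.W1.Rec2
section MrgPart10

/-! THEOREM W: reciprocity with a twist at two. -/

set_option autoImplicit false

noncomputable section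

namespace Pool.Agent.MP_a43263_nt.W1

open Polynomial Finset Matrix JC VV VA VA.Kill
open Pool.Agent.MP_a43263_nt.UV (zK Nm Nx Dg zK_map isCoprime_of_map)
open UV.Rec (int_diag Hs_cast Hs_pm sn sn_sum sn_one z2)

theorem Rec2.split {g : ℕ} {f : ℤ[X]} {δ : ℚ[X]} {e : Fin (2 * g + 2) → ℤ}
    (hf : Fam g f) (hn : IsSquare (Nm (mo (zK f ℚ)) δ)) (he : ∀ i, e i ≠ 0)
    (h : Dg (Gm g (mo (zK f ℚ)) δ) fun i => (e i : ℚ)) {K : Type} [Field K] [CharZero K]
    {s : K → K → ℤ} {t : ℤ → ℤ → ℤ} (hs : Sy s)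
    (ht : ∀ x y : ℤ, x ≠ 0 → y ≠ 0 → s x y = t x y) {c : K} (c0 : c ≠ 0)
    (hw : Wv (C c * zK f K) (fK δ K) 0) : Hs t e = Hs t (alt g ℤ) := by
  have a := (hev K s hs g).1 _ _ (dg_loc hf h K) (fun i => Int.cast_ne_zero.2 (he i))
    (mo_C_mul c0 (zK f K) ▸ qs K g _ _ (sq_C_mul (fam_sq hf K) c0) hw) (by
      rw [(gram K g _ (sq_mq (fam_sq hf K))).1, ← mul_assoc, ← mul_pow, neg_mul_neg, one_mul,
        one_pow, one_mul]
      exact sq_loc hf hn K)
  rw [← Hs_cast ht he, a, ← Hs_cast ht (e := alt g ℤ) fun i =>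
    pow_ne_zero _ (neg_ne_zero.2 one_ne_zero)]
  refine congrArg _ (_root_.funext fun i => ?_)
  simp only [alt, Int.cast_pow, Int.cast_neg, Int.cast_one]

/-- reciprocity with the local condition of a twist at two -/
theorem rec2 : REC2Stmt := by
  intro g f Q δ u y c c0 hf hq hc hn h2 hv hnf
  have hS := JC.T.symb
  have hm := hmv gram hev
  have hU := locu gram UV.diag hm UV.pad
  have hI := loci gram UV.diag hev UV.pad hens
  have hL := locq gram UV.diag hm UV.pad hens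
  have hP := UV.pf
  have m := sq_mq (fam_sq hf ℚ)
  obtain ⟨e, he, hd⟩ := int_diag UV.diag (Gm g (mo (zK f ℚ)) δ) (Gm_symm δ) (by
    rw [(gram ℚ g _ m).1]
    exact (isUnit_one.neg.pow _).mul (((UV.gram.1 ℚ _ m.monic).2.2.2.1 δ).2
      ((mo_cop (sq_ne (fam_sq hf ℚ))).2 hc)))
  have hE : ∏ i, e i ≠ 0 := prod_ne_zero_iff.2 fun i _ => he i
  have q2 : ∀ q ∈ Q, q ≠ 2 := fun q h c => by
    have := (hq q h).2.1
    omega
  set T : Finset ℕ := Q ∪ (∏ i, e i).natAbs.primeFactors.erase 2 with hT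
  have T2 : ∀ p ∈ T, p.Prime ∧ p ≠ 2 := fun p h => by
    rcases mem_union.1 h with h | h
    · exact ⟨(hq p h).1, q2 p h⟩
    · exact ⟨Nat.prime_of_mem_primeFactors (mem_of_mem_erase h), ne_of_mem_erase h⟩
  have n2 : 2 ∉ T := fun h => (T2 2 h).2 rfl
  have A := hP _ e (insert 2 T) he (mem_insert_self _ _)
    (fun p h => (mem_insert.1 h).elim (fun c => c ▸ Nat.prime_two) fun c => (T2 p c).1)
    fun p i hp h => by
      by_cases c : p = 2
      · exact mem_insert.2 (Or.inl c)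
      · exact mem_insert_of_mem (mem_union_right _ (mem_erase.2 ⟨c, Nat.mem_primeFactors.2
          ⟨hp, Int.natCast_dvd.1 (h.trans (dvd_prod_of_mem _ (mem_univ i))),
            Int.natAbs_ne_zero.2 hE⟩⟩))
  have B := hP _ (alt g ℤ) {2}
    (fun i => pow_ne_zero _ (neg_ne_zero.2 one_ne_zero)) (mem_singleton_self _)
    (fun p h => mem_singleton.1 h ▸ Nat.prime_two) fun p i hp h =>
      absurd (isUnit_of_dvd_unit h (isUnit_one.neg.pow _)) (Nat.prime_iff_prime_int.1 hp).not_isUnit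
  obtain ⟨s2, a2, b2⟩ := hS.2 2
  rw [prod_singleton, ← Rec2.split hf hn he hd a2 b2 c0 h2,
    ← Kill.split gram qs hev hf hn he hd hS.1 (fun x y _ _ => by simp only [Int.cast_lt_zero])
      (Kill.real wg VA.real hf hc)] at B
  rw [prod_insert n2, ← mul_assoc, B, one_mul] at A
  have key : ∀ p ∈ T, Hs (RH.hs p) e = if p ∈ Q then sn (u p * y p) else 1 := fun p h => by
    obtain ⟨hp, hp2⟩ := T2 p h
    have := Fact.mk hp
    obtain ⟨s, a, b⟩ := hS.2 p
    have d := dg_loc hf hd ℚ_[p]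
    have n := sq_loc hf hn ℚ_[p]
    have ev : Ev p f (fK δ ℚ_[p]) → Hs (RH.hs p) e = 1 := fun v =>
      (Hs_cast b he).symm.trans <| (em ((p : ℤ) ∣ f.leadingCoeff)).elim
        (fun l => hI p g f _ s _ hp2 l hf ⟨a, b⟩ (cop_loc hc _) n d v)
        fun l => hU p g f _ s _ hp2 l hf ⟨a, b⟩ n d v
    split_ifs with c
    · have w := hnf p c
      rcases z2 (y p) with k | k <;> rw [k] at w ⊢
      · rw [mul_zero, ev (((nfm p g f hf).2.2.1 _).2 ⟨_, w⟩)]
        rfl
      · have l := hL p g f _ s _ (u p) (hq p c).2.1 hf (hq p c).2.2 ⟨a, b⟩ n d w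
        rw [mul_one, ← Hs_cast b he, sn]
        split_ifs with c'
        · exact l.2 c'
        · exact (Hs_pm a fun i => Int.cast_ne_zero.2 (he i)).resolve_left fun x => c' (l.1 x)
    · exact ev (hv p c)
  rw [prod_congr rfl key, prod_ite_mem, inter_eq_right.2 subset_union_left, ← sn_sum] at A
  exact sn_one _ A

end Pool.Agent.MP_a43263_nt.W1

end
end MrgPart10

-- ======== part 11: formerly Pool.Agent.MP_a43263_nt.W1.Kill2
section MrgPart11

/-! THEOREM W: one set of primes serves many twists. -/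

set_option autoImplicit false

noncomputable section

namespace Pool.Agent.MP_a43263_nt.W1

open Polynomial Finset Matrix JC VV VA VA.Kill
open Pool.Agent.MP_a43263_nt.UV (zK Nm Nx Dg zK_map isCoprime_of_map)
open UV.Kill (fK_mul)

/-- one set `S` serves all twists in a class modulo eight -/
theorem kill2 : GEVStmt → REC2Stmt → KILL2Stmt := by
  intro gev rec2 g f Q c ⟨hf, hQ, hx, hs, _⟩ oc
  classical
  have pad := UV.pad
  have ram := ram JC.T.symb gram wg qs UV.diag hev pad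
    (locq gram UV.diag (hmv gram hev) pad hens) hens cmp nfm
  have c0 : (c : ℚ_[2]) ≠ 0 := Int.cast_ne_zero.2 fun e => by simp [e] at oc
  let V : ℚ[X] → Prop := fun δ => IsCoprime δ (zK f ℚ) ∧ IsSquare (Nm (mo (zK f ℚ)) δ) ∧
    Wv (C (c : ℚ_[2]) * zK f ℚ_[2]) (fK δ ℚ_[2]) 0 ∧
    ∀ (p : ℕ) [Fact p.Prime], p ∉ Q → Ev p f (fK δ ℚ_[p])
  obtain ⟨S, hS, H⟩ := UV.lag Q {x | ∃ δ, V δ ∧
      ∀ (q : ℕ) [Fact q.Prime], q ∈ Q → NF q f (fK δ ℚ_[q]) (x.1 q) (x.2 q)}
    (by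
      rintro x ⟨δ, ⟨a1, a2, a3, a4⟩, a5⟩ x' ⟨δ', ⟨b1, b2, b3, b4⟩, b5⟩
      refine ⟨δ * δ', ⟨a1.mul_left b1, ?_, ?_, fun p _ hp => ?_⟩, fun q _ hq => ?_⟩
      · rw [(UV.gram.1 ℚ _ (sq_mq (fam_sq hf ℚ)).monic).1]
        exact a2.mul b2
      · rw [fK_mul, ← add_zero (0 : ZMod 2)]
        exact (wg ℚ_[2] g _ (sq_C_mul (fam_sq hf _) c0)).2.1 _ _ _ _ a3 b3
      · rw [fK_mul]
        exact (nfm p g f hf).2.1 _ _ (a4 p hp) (b4 p hp)
      · rw [fK_mul]
        refine (nfm q g f hf).2.2.2 ?_ (hQ q hq).2.2 _ _ _ _ _ _ (a5 q hq) (b5 q hq)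
        have := (hQ q hq).2.1
        omega)
    (by
      rintro x ⟨δ, ⟨a1, a2, a3, a4⟩, a5⟩
      exact rec2 g f Q δ x.1 x.2 _ c0 hf (fun q hq => ⟨(hQ q hq).1,
        by have := (hQ q hq).2.1; omega, (hQ q hq).2.2⟩) a1 a2 a3 a4 a5)
  refine ⟨S, hS, fun d d8 dS dG δ hp => ?_⟩
  have od : ¬((2 : ℕ) : ℤ) ∣ d := by
    obtain ⟨j, rfl⟩ := oc
    omega
  have d0 : d ≠ 0 := fun e => od (e ▸ dvd_zero _)
  simp only [fK_tw] at hp ⊢
  have un : ∀ (K : Type) [Field K] [CharZero K], IsUnit (C (d : K)) := fun K _ _ =>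
    isUnit_C.2 (Int.cast_ne_zero.2 d0).isUnit
  have cp : ∀ (p : ℕ) [Fact p.Prime], IsCoprime (fK δ ℚ_[p]) (zK f ℚ_[p]) := fun p _ =>
    (hp p).1.of_mul_right_right
  have hc : IsCoprime δ (zK f ℚ) :=
    isCoprime_of_map (Rat.castHom ℚ_[2]) (by rw [zK_map]; exact cp 2)
  have nsq : ∀ (p : ℕ) [Fact p.Prime], IsSquare (Nm (mo (zK f ℚ_[p])) (fK δ ℚ_[p])) := fun p _ =>
    mo_C_mul (Int.cast_ne_zero.2 d0 : (d : ℚ_[p]) ≠ 0) (zK f ℚ_[p]) ▸
      (wg _ g _ (sq_C_mul (fam_sq hf ℚ_[p]) (Int.cast_ne_zero.2 d0))).2.2.1 _ (hp p)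
  have nq : IsSquare (Nm (mo (zK f ℚ)) δ) :=
    pad.2.2 _ (nm_loc hf δ ℝ ▸ (wg ℝ g _ (fam_sq hf ℝ)).2.2.1 _ (Kill.real wg VA.real hf hc))
      fun p _ => nm_loc hf δ ℚ_[p] ▸ nsq p
  have hv : ∀ (p : ℕ) [Fact p.Prime], p ∉ S → Ev p f (fK δ ℚ_[p]) := fun p h c =>
    (em ((p : ℤ) ∣ d)).elim
      (fun e => gev p g f _ hf ((dG p h.out e).resolve_left c).2 (cp p) (nsq p))
      fun e => ev UV.intm UV.nxp p g f _ d 0 hf (hx p h.out) e (hp p)
  have h2 : Wv (C (c : ℚ_[2]) * zK f ℚ_[2]) (fK δ ℚ_[2]) 0 := by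
    obtain ⟨r, e⟩ := pad.2.1 (d * c) (by
      rw [Int.mul_emod, show d % 8 = c % 8 by omega, ← Int.mul_emod]
      obtain ⟨j, rfl⟩ := oc
      obtain ⟨i, hi⟩ := Int.even_mul_succ_self j
      rw [show (2 * j + 1) * (2 * j + 1) = 1 + 8 * i by linear_combination 4 * hi]
      omega)
    rw [Int.cast_mul] at e
    refine ((wg _ g _ (sq_C_mul (fam_sq hf ℚ_[2]) c0)).2.2.2.1 _ _ (r / c) (div_ne_zero
      (left_ne_zero_of_mul (e ▸ mul_ne_zero (Int.cast_ne_zero.2 d0) c0)) c0)).1 ?_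
    rw [← mul_assoc, ← C_mul, show (r / c) ^ 2 * c = d by rw [div_pow, sq r, ← e]; field_simp]
    exact hp 2
  have hV : V δ := ⟨hc, nq, h2, fun p _ c => hv p fun e => c (hS e)⟩
  have hn : ∀ q : ℕ, ∃ u y : ZMod 2, (q ∈ S → u = 0) ∧ (q ∉ S → y = 0) ∧
      ∀ [Fact q.Prime], q ∈ Q → NF q f (fK δ ℚ_[q]) u y := by
    intro q
    by_cases c : q ∈ Q
    swap
    · exact ⟨0, 0, fun _ => rfl, fun _ => rfl, fun e => absurd e c⟩
    have : Fact q.Prime := ⟨(hQ q c).1⟩
    by_cases c' : q ∈ S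
    · obtain ⟨u, y, h⟩ := nfe hens cmp q g f _ hf (hQ q c).2.2 (cp q) (nsq q)
      exact ⟨u, y, fun _ => ram q g f _ d u y (by have := (hQ q c).2.1; omega) hf (hQ q c).2.2
        (dS q c').1 (dS q c').2 (hp q) h, fun e => absurd c' e, fun _ => h⟩
    · obtain ⟨u, h⟩ := ((nfm q g f hf).2.2.1 _).1 (hv q c')
      exact ⟨u, 0, fun e => absurd e c', fun _ => rfl, fun _ => h⟩
  choose u y h1 h2 h3 using hn
  have z := H (u, y) ⟨δ, hV, fun q _ hq => h3 q hq⟩ h1 fun q _ => h2 q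
  have nf : ∀ (q : ℕ) [Fact q.Prime], q ∈ Q → NF q f (fK δ ℚ_[q]) 0 0 := fun q _ hq => by
    have := h3 q hq
    rwa [show u q = 0 from (z q hq).1, show y q = 0 from (z q hq).2] at this
  obtain ⟨r, w, r0, k⟩ := hs δ hc nq (fun p _ => (em (p ∈ Q)).elim
    (fun c => ((nfm p g f hf).2.2.1 _).2 ⟨0, nf p c⟩) (hV.2.2.2 p)) nf
  exact ⟨r, w, r0, (un ℚ).mul_left_dvd.2 k⟩

end Pool.Agent.MP_a43263_nt.W1

end
end MrgPart11

-- ======== part 12: formerly Pool.Agent.MP_a43263_nt.W1.Tor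
section MrgPart12

/-! THEOREM W: no invariant class of order two. -/

set_option autoImplicit false

noncomputable section

namespace Pool.Agent.MP_a43263_nt.W1

open Polynomial JC JC.Mum VD
open UV (Qb)
open VV (GQ)

/-- a sign vector that is equivariant up to a global sign is constant -/
theorem Tor.const {K : Type} [Field K] [CharZero K] {f : K[X]} {F : (AlgebraicClosure K)[X]}
    (e : f.map (algebraMap K _) = F) (hs : f.Separable)
    (nq : ∀ (x : K[X]) (c : K), f ∣ x ^ 2 - C c → ∃ t : K, f ∣ x - C t)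
    {ε : AlgebraicClosure K → AlgebraicClosure K} (e2 : ∀ θ, F.eval θ = 0 → ε θ ^ 2 = 1)
    (hσ : ∀ σ : AlgebraicClosure K ≃ₐ[K] AlgebraicClosure K, ∃ η : AlgebraicClosure K,
      η ^ 2 = 1 ∧ ∀ θ, F.eval θ = 0 → σ (ε θ) = η * ε (σ θ))
    {θ₀ : AlgebraicClosure K} (h₀ : F.eval θ₀ = 0) : ∀ θ, F.eval θ = 0 → ε θ = ε θ₀ := by
  have F0 : F ≠ 0 := (e ▸ hs.map : F.Separable).ne_zero
  obtain ⟨p, p1, p2⟩ := GalA.itp e F0 ε
  have γ0 : p.leadingCoeff ≠ 0 := leadingCoeff_ne_zero.2 fun c => by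
    have := e2 θ₀ h₀
    rw [← p1 θ₀ h₀, c] at this
    simp at this
  choose η η2 hη using hσ
  have lc : ∀ σ : AlgebraicClosure K ≃ₐ[K] AlgebraicClosure K,
      σ p.leadingCoeff = η σ * p.leadingCoeff := fun σ => by
    have := congrArg leadingCoeff (p2 σ _ (hη σ))
    rwa [leadingCoeff_map, leadingCoeff_mul, leadingCoeff_C] at this
  obtain ⟨P, hP⟩ := RatA.lift (U := C p.leadingCoeff⁻¹ * p) fun σ => by
    have η0 : η σ ≠ 0 := fun a => by simpa [a] using η2 σ
    rw [Polynomial.map_mul, map_C, p2 σ _ (hη σ), ← mul_assoc, ← C_mul, map_inv₀,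
      RingHom.coe_coe, lc, mul_inv, mul_right_comm, inv_mul_cancel₀ η0, one_mul]
  obtain ⟨r, hr⟩ := (InfiniteGalois.mem_range_algebraMap_iff_fixed (k := K)
    (p.leadingCoeff⁻¹ ^ 2)).2 fun σ => by
      rw [map_pow, map_inv₀, lc, mul_inv, mul_pow, inv_pow (η σ), η2, inv_one, one_mul]
  obtain ⟨t, w, hw⟩ := nq P r (((gal.1 K).2 f _ e hs).1 _ fun θ h => by
    rw [Polynomial.map_sub, Polynomial.map_pow, map_C, hP, hr, eval_sub, eval_pow, eval_mul,
      eval_C, eval_C, p1 θ h, mul_pow, e2 θ h, mul_one, sub_self])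
  have ct : ∀ θ, F.eval θ = 0 → ε θ = p.leadingCoeff * algebraMap K _ t := fun θ h => by
    have := congrArg (fun q => (q.map (algebraMap K (AlgebraicClosure K))).eval θ) hw
    simp only [Polynomial.map_sub, Polynomial.map_mul, map_C, hP, e, eval_sub, eval_mul, eval_C,
      h, zero_mul, p1 θ h] at this
    rw [← sub_eq_zero.1 this, mul_inv_cancel_left₀ γ0]
  exact fun θ h => (ct θ h).trans (ct θ₀ h₀).symm

theorem tor : TORStmt := by
  intro g f s nq x hx inv
  have sQ : Sv g (fK f Qb) := Core.sv s Qb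
  obtain ⟨z1, z2, -, -, z5, z6, z7, -⟩ := za move Qb g _ sQ
  obtain ⟨ε, hε⟩ := z2 x ⊤ 1 nu_top (by rw [hx, cx_top])
  have e2 : ∀ θ, (fK f Qb).eval θ = 0 → ε θ ^ 2 = 1 := fun θ h => by
    simpa using (z1 _ _ _ _ hε nu_top).2 θ h
  have hσ : ∀ σ : GQ, ∃ η : Qb, η ^ 2 = 1 ∧
      ∀ θ, (fK f Qb).eval θ = 0 → σ (ε θ) = η * ε (σ θ) := fun σ => by
    have k := Core.z_map (za move) s (σ : Qb →+* Qb) hε
    rw [Ideal.map_top] at k
    have k' : Z _ x ⊤ (Core.tr (σ : Qb →+* Qb) ε) := inv σ ▸ k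
    obtain ⟨η, a, b⟩ := z6 _ _ _ _ hε k'
    refine ⟨η, a, fun θ h => (Core.tr_apply (σ : Qb →+* Qb) ε θ).symm.trans (b _ ?_)⟩
    rw [← fK_map f (σ : Qb →+* Qb), Core.ev_map, h, map_zero]
  obtain ⟨θ₀, h₀⟩ : ∃ θ, (fK f Qb).eval θ = 0 := IsAlgClosed.exists_root _ (by
    rw [sQ.degree]; exact_mod_cast (by omega : 2 * g + 2 ≠ 0))
  have ct := Tor.const (K := ℚ) (F := fK f Qb)
    (congrArg (fun φ => f.map φ) (RingHom.ext_rat _ _)) s.sep nq e2 hσ h₀
  have one := z7 1 monic_one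
  rw [PI_one] at one
  exact (zb (za move) Qb g _ sQ).1 _ _ _ _ 1 nu_top isCoprime_one_left hε
    (z5 _ _ _ _ (ε θ₀) one (e2 θ₀ h₀) fun θ h => by rw [ct θ h, eval_one, mul_one])

end Pool.Agent.MP_a43263_nt.W1

end
end MrgPart12

-- ======== part 13: formerly Pool.Agent.MP_a43263_nt.W1.Fin2
section MrgPart13

/-! THEOREM W: descent in the presence of a rational divisor of odd degree. -/

set_option autoImplicit false

noncomputable section

namespace Pool.Agent.MP_a43263_nt.W1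

open Polynomial JC
open UV (Qb)
open VV (GQ Od OdP SelT)
open VD VD.Last

namespace FinTwo

variable {g : ℕ} {f : ℚ[X]}

theorem od_map (h : Od f) (K : Type) [Field K] [CharZero K] : Od (fK f K) := by
  obtain ⟨U, V, a, o, d⟩ := h
  refine ⟨U.map (Rat.castHom K), V.map (Rat.castHom K), a.map _, by rwa [a.natDegree_map], ?_⟩
  simpa only [Polynomial.map_sub, Polynomial.map_pow] using Polynomial.map_dvd (Rat.castHom K) d

theorem evn (s : Sv g f) {P : Cx (fK f Qb)} (p1 : par P = 1) (p2 : ∀ σ : GQ, aq f σ P = P)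
    (Y : Cx (fK f Qb)) : ∃ Y', par Y' = 0 ∧ ∀ σ : GQ, aq f σ Y' / Y' = aq f σ Y / Y := by
  rcases two_cases (par Y) with e | e
  · exact ⟨Y, e, fun _ => rfl⟩
  · refine ⟨Y / P, by rw [(svK s Qb).par_div, e, p1]; rfl, fun σ => ?_⟩
    rw [_root_.map_div, p2, div_div_div_cancel_right]

theorem pow (co : ∀ c : GQ → Cx (fK f Qb), IsLocallyConstant c →
      (∀ σ τ, c (σ * τ) = c σ * aq f σ (c τ)) → (∀ (p : ℕ) [Fact p.Prime], CLoc f ℚ_[p] c) →
      (∃ Y, ∀ σ, c σ ^ 2 = aq f σ Y / Y) → ∃ y, ∀ σ, c σ = aq f σ y / y) (k : ℕ) :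
    ∀ c : GQ → Cx (fK f Qb), IsLocallyConstant c →
      (∀ σ τ, c (σ * τ) = c σ * aq f σ (c τ)) → (∀ (p : ℕ) [Fact p.Prime], CLoc f ℚ_[p] c) →
      (∃ Y, ∀ σ, c σ ^ 2 ^ k = aq f σ Y / Y) → ∃ y, ∀ σ, c σ = aq f σ y / y := by
  induction k with
  | zero => exact fun c _ _ _ ⟨Y, hY⟩ => ⟨Y, fun σ => by simpa using hY σ⟩
  | succ k ih =>
    intro c h1 h2 h3 ⟨Y, hY⟩
    exact co c h1 h2 h3 (ih (fun σ => c σ ^ 2) (h1.comp fun x => x ^ 2)
      (fun σ τ => by rw [h2, cmul_pow, map_pow]) (fun p _ => cloc_sq (h3 p))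
      ⟨Y, fun σ => by rw [← hY σ, ← pow_mul, pow_succ']⟩)

end FinTwo

open FinTwo in
theorem fin2 : CORE2Stmt → TORStmt → FIN2Stmt := by
  intro core tor g f s nq od hs
  have sq := svK s Qb
  have co : ∀ c : GQ → Cx (fK f Qb), IsLocallyConstant c →
      (∀ σ τ, c (σ * τ) = c σ * aq f σ (c τ)) → (∀ (p : ℕ) [Fact p.Prime], CLoc f ℚ_[p] c) →
      ∀ Y : Cx (fK f Qb), par Y = 0 → (∀ σ, c σ ^ 2 = aq f σ Y / Y) →
      ∃ y, y ^ 2 = Y ∧ ∀ σ, c σ = aq f σ y / y := core g f s (fun p _ => od_map od _) hs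
  have tr : ∀ x : Cx (fK f Qb), x ^ 2 = 1 → (∀ σ : GQ, aq f σ x = x) → x = 1 := tor g f s nq
  obtain ⟨D⟩ := dic br s
  obtain ⟨P, p1, p2⟩ : ∃ P : Cx (fK f Qb), par P = 1 ∧ ∀ σ : GQ, aq f σ P = P :=
    odd_inv s (od_map od ℚ)
  have inv : ∀ (R : VJ.JQ f) (σ : GQ), aq f σ (D.b Qb R.1) = D.b Qb R.1 := fun R σ => by
    rw [← D.jac, R.2 σ]
  have lift : ∀ y : Cx (fK f Qb), par y = 0 → (∀ σ : GQ, aq f σ y = y) →
      ∃ R : VJ.JQ f, D.b Qb R.1 = y := fun y h h' => by
    obtain ⟨R, rfl⟩ := D.surj Qb y h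
    exact ⟨⟨R, fun σ => D.inj Qb (by rw [D.jac, h'])⟩, rfl⟩
  refine ⟨fun R h => Subtype.ext (D.inj Qb ((tr _ ?_ (inv R)).trans (D.zero Qb).symm)),
    ?_, ?_⟩
  · exact (D.nsmul Qb 2 R.1).symm.trans ((congrArg (fun x => D.b Qb x.1) h).trans (D.zero Qb))
  · obtain ⟨a, ha⟩ := lift (P ^ 2) (sq.par_sq P) fun σ => by rw [map_pow, p2]
    refine AddSubgroup.index_eq_two_iff_exists_notMem_and.2 ⟨a, ?_, fun b => ?_⟩
    · rintro ⟨R, rfl⟩
      have e : D.b Qb R.1 ^ 2 = P ^ 2 := (D.nsmul Qb 2 R.1).symm.trans ha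
      have := tr (P / D.b Qb R.1) (by rw [cdiv_pow, e, div_self'])
        fun σ => by rw [_root_.map_div, p2, inv]
      rw [div_eq_one.1 this, D.even] at p1
      exact zero_ne_one p1
    · obtain ⟨y, h1, h2⟩ := co (fun _ => 1) (IsLocallyConstant.const 1) (fun _ _ => by simp)
        (fun p _ => ⟨1, fun _ _ _ => by simp⟩) (D.b Qb b.1) (D.even Qb _)
        fun σ => by rw [inv]; simp
      have h3 : ∀ σ : GQ, aq f σ y = y := fun σ => div_eq_one.1 (h2 σ).symm
      rcases two_cases (par y) with e | e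
      · obtain ⟨R, rfl⟩ := lift y e h3
        exact Or.inr ⟨R, Subtype.ext (D.inj Qb ((D.nsmul Qb 2 R.1).trans h1))⟩
      · obtain ⟨R, hR⟩ := lift (y * P) (by rw [sq.par_mul, e, p1]; rfl)
          fun σ => by rw [map_mul, h3, p2]
        refine Or.inl ⟨R, Subtype.ext (D.inj Qb ((D.nsmul Qb 2 R.1).trans ?_))⟩
        rw [hR, cmul_pow, h1, ← ha]
        exact (D.add Qb _ _).symm
  · rintro _ ⟨c, rfl, -, hp⟩ k hk
    obtain ⟨R, hR⟩ := mk_eq_zero.1 ((mk_nsmul _ c).symm.trans hk)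
    obtain ⟨y, hy⟩ := pow (fun c h1 h2 h3 ⟨Y, hY⟩ => by
        obtain ⟨Y', e, e'⟩ := evn s p1 p2 Y
        obtain ⟨y, -, h⟩ := co c h1 h2 h3 Y' e fun σ => (hY σ).trans (e' σ).symm
        exact ⟨y, h⟩) k (fun σ => D.b Qb (c.1 σ)) (c.2.1.comp _)
      (fun σ τ => by rw [c.2.2, D.add, D.jac]) (fun p _ => D.cloc (hp p))
      ⟨D.b Qb R, fun σ => by
        rw [← D.nsmul, ← D.jac, ← D.sub, ← hR σ]
        rfl⟩
    obtain ⟨y', e, e'⟩ := evn s p1 p2 y
    obtain ⟨T, rfl⟩ := D.surj Qb y' e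
    refine mk_eq_zero.2 ⟨T, fun σ => D.inj Qb ?_⟩
    rw [D.sub, D.jac, e', hy σ]

end Pool.Agent.MP_a43263_nt.W1

end
end MrgPart13

-- ======== part 14: formerly Pool.Agent.MP_a43263_nt.W1.Mw2
section MrgPart14

/-! THEOREM W: the theorem of Mordell and Weil from its weak form. -/

set_option autoImplicit false

noncomputable section

namespace Pool.Agent.MP_a43263_nt.W1

open Polynomial JC JC.Mum VD VW
open Pool.Agent.MP_a43263_nt.UV (Qb)

namespace Mw2A

/-- descent through an injective homomorphism -/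
theorem grp {A G : Type} [AddCommGroup A] [CommGroup G] (φ : Multiplicative A →* G)
    (hφ : Function.Injective φ) (h : G → ℝ) (b : ℝ)
    (hp : ∀ P Q, |h (P * Q) + h (P / Q) - 2 * (h P + h Q)| ≤ b) (hn : ∀ B, {P | h P ≤ B}.Finite)
    (hi : (nsmulAddMonoidHom (α := A) 2).range.index ≠ 0) : Module.Finite ℤ A := by
  obtain ⟨m, hm⟩ := ((hn 0).image h).bddBelow
  have lo : ∀ P, -|m| ≤ h P := fun P => by
    rcases le_total (h P) 0 with c | c
    · exact (neg_abs_le m).trans (hm ⟨P, c, rfl⟩)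
    · exact (neg_nonpos.2 (abs_nonneg m)).trans c
  have : Northcott fun P : A => h (φ (.ofAdd P)) + |m| := ⟨fun B =>
    ((hn (B - |m|)).preimage (f := fun P : A => φ (.ofAdd P))
      (hφ.comp Multiplicative.ofAdd.injective).injOn).subset fun P hP =>
      show h _ ≤ B - |m| from le_sub_iff_add_le.2 hP⟩
  refine Module.Finite.iff_addGroup_fg.2 (AddCommGroup.fg_of_descent'
    (h := fun P : A => h (φ (.ofAdd P)) + |m|) (C := b + 2 * |m|) ⟨hi⟩
    (fun P => by linarith [lo (φ (.ofAdd P))]) fun P Q => ?_)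
  have k := abs_le.1 (hp (φ (.ofAdd P)) (φ (.ofAdd Q)))
  have := abs_nonneg m
  rw [ofAdd_add, ofAdd_sub, map_mul, _root_.map_div, abs_le]
  constructor <;> linarith [k.1, k.2]

theorem hg : HGTStmt :=
  VW.hgt VW.kap (VW.ht VW.sum) (VW.tri VW.sch VW.sum (fun S g n F h => VW.norm S g F n h) VW.prin)
    (VW.glob VW.up VW.sum VW.prin)

end Mw2A

open Bridge in
theorem mw2 : MW2Stmt := by
  intro g f hd hi hs h2
  have : Fact (Irreducible f) := ⟨hi⟩
  have s : Sv g f := ⟨hd, hi.squarefree⟩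
  let L := AdjoinRoot f
  have eL : fK f L = f.map (AdjoinRoot.of f) := congrArg f.map (RingHom.ext_rat _ _)
  have rt : (fK f L).eval (AdjoinRoot.root f) = 0 := eL ▸ AdjoinRoot.isRoot_root f
  obtain ⟨D⟩ := Last.dic br s
  obtain ⟨res, -, hr⟩ := (gal.1 L).1
  let ι : VJ.JQ f → Cx (fK f (AlgebraicClosure L)) := fun P => D.b _ (VJ.jmap f (emb L) P.1)
  have add : ∀ P Q, ι (P + Q) = ι P * ι Q := fun P Q => by
    simp only [ι]
    rw [← D.add, ← map_add]
    rfl
  choose y hy using fun P => rat prin L g _ _ (fK_map f (algebraMap L _)) (Last.svK s L) (ι P)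
    (fun σ _ => by
      simp only [ι]
      rw [D.nat, ← Last.emb_act (hr σ), ← D.jac, P.2])
    (.inr ⟨X - C (AdjoinRoot.root f), 0, monic_X_sub_C _, by simp,
      by simpa using dvd_iff_isRoot.2 rt⟩)
  have ij := inj (Last.svK s L) (fK_map f (algebraMap L _))
  let φ : Multiplicative (VJ.JQ f) →* Cx (fK f L) := MonoidHom.mk' (fun P => y P.toAdd)
    fun P Q => ij (by rw [hy, toAdd_mul, add, map_mul, hy, hy])
  have n : ¬IsSquare (fK f L).leadingCoeff := fun ⟨r, hr⟩ => by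
    obtain ⟨r, rfl⟩ := AdjoinRoot.mk_surjective r
    refine hs r (AdjoinRoot.mk_eq_mk.1 ?_)
    rw [map_pow, sq, ← hr, eL, leadingCoeff_map]
    rfl
  obtain ⟨h, b, hp, hn⟩ := Mw2A.hg L g _ _ _ (Last.svK s L) (fK_map f)
    (fun c e => n ⟨c, by rw [← e, sq]⟩) rt
  obtain ⟨ψ, hψ⟩ : ∃ ψ : AlgebraicClosure L →+* Qb, ∀ x, ψ (emb L x) = x := by
    have : Algebra.IsAlgebraic ℚ (AlgebraicClosure L) := .trans ℚ L _
    have b := (Algebra.IsAlgebraic.algHom_bijective₂ (emb L).toRatAlgHom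
      (IsAlgClosed.lift : AlgebraicClosure L →ₐ[ℚ] Qb)).1
    exact ⟨(RingEquiv.ofBijective (emb L) b).symm, (RingEquiv.ofBijective (emb L) b).symm_apply_apply⟩
  refine Mw2A.grp φ (fun P Q e => ?_) h b hp hn h2
  have e1 : ι P.toAdd = ι Q.toAdd := by rw [← hy, ← hy]; exact congrArg _ e
  simp only [ι, D.nat] at e1
  have e2 := congrArg (cmap ψ (fK_map f ψ)) e1
  rw [cmap_cmap _ _ (RingHom.id _) _ _ (fK_map f _) hψ, cmap_cmap _ _ (RingHom.id _) _ _
    (fK_map f _) hψ, cmap_id _ _ fun _ => rfl, cmap_id _ _ fun _ => rfl] at e2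
  exact Multiplicative.toAdd.injective (Subtype.ext (D.inj _ e2))

end Pool.Agent.MP_a43263_nt.W1

end
end MrgPart14

-- ======== part 15: formerly Pool.Agent.MP_a43263_nt.W1.One
section MrgPart15

/-! THEOREM W: the assembly for one polynomial. -/

set_option autoImplicit false

noncomputable section

namespace Pool.Agent.MP_a43263_nt.W1

open Polynomial Finset JC
open UV (zK)
open VV (Fam SelT Od)
open VD (Sv)

namespace One

variable {g : ℕ} {f : ℤ[X]}

theorem odd (H : Fam g f) : Odd (f.eval 1) := by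
  obtain ⟨h, e, hi, hd⟩ := H.two
  have hg := H.pos
  rw [← Int.not_even_iff_odd, even_iff_two_dvd]
  intro k
  have h1 : (zK f (ZMod 2)).eval ((1 : ℤ) : ZMod 2) = 0 := by
    rw [eval_intCast_map]
    exact (ZMod.intCast_zmod_eq_zero_iff_dvd _ 2).2 k
  rw [e, eval_mul, eval_X, Int.cast_one, one_mul] at h1
  have h2 := natDegree_eq_of_degree_eq_some (n := 1) (degree_eq_one_of_irreducible_of_root hi h1)
  omega

theorem lc {r : ℕ} (hr : r.Prime) (H : Fam g f) (h : Gd g r f) : ¬(r : ℤ) ∣ f.leadingCoeff := by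
  have := Fact.mk hr
  obtain ⟨a, h, e, hi, hd⟩ := h
  intro k
  have h1 : (f.map (Int.castRingHom (ZMod r))).coeff (2 * g + 2) = 0 := by
    rw [coeff_map, ← H.deg]
    exact (ZMod.intCast_zmod_eq_zero_iff_dvd _ _).2 k
  have h2 : ((X - C a) * h).natDegree = 2 * g + 2 := by
    rw [natDegree_mul (X_sub_C_ne_zero a) hi.ne_zero, natDegree_X_sub_C, hd]; ring
  rw [e, ← h2, coeff_natDegree, leadingCoeff_eq_zero] at h1
  exact mul_ne_zero (X_sub_C_ne_zero a) hi.ne_zero h1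

theorem mem {S : Finset ℕ} (hS : ∀ q ∈ S, q.Prime) {p : ℕ} (hp : p.Prime) (h : p ∣ ∏ q ∈ S, q) :
    p ∈ S := by
  obtain ⟨q, hq, k⟩ := hp.prime.exists_mem_finset_dvd h
  exact (Nat.prime_dvd_prime_iff_eq hp (hS q hq)).1 k ▸ hq

theorem once {S : Finset ℕ} (hS : ∀ q ∈ S, q.Prime) {p : ℕ} (hp : p ∈ S) :
    ¬p ^ 2 ∣ ∏ q ∈ S, q := fun k => by
  rw [← mul_prod_erase S (fun q => q) hp, sq, Nat.mul_dvd_mul_iff_left (hS p hp).pos] at k
  exact notMem_erase p S (mem (fun q hq => hS q (mem_of_mem_erase hq)) (hS p hp) k)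

theorem ns (H : Fam g f) {D : ℤ} {r : ℕ} (hr : r.Prime) (h1 : (r : ℤ) ∣ D) (h2 : ¬(r : ℤ) ^ 2 ∣ D)
    (h3 : ¬(r : ℤ) ∣ f.leadingCoeff) (s : ℚ[X]) :
    ¬C (D : ℚ) * zK f ℚ ∣ s ^ 2 - C (C (D : ℚ) * zK f ℚ).leadingCoeff := fun k => by
  have h0 := degree_pos_of_irreducible H.irr
  have k1 := (dvd_mul_left _ _).trans k
  obtain ⟨t, ht⟩ := VB.noq g f s _ H k1
  have k2 : zK f ℚ ∣ C (t ^ 2 - (C (D : ℚ) * zK f ℚ).leadingCoeff) := by
    rw [C_sub, C_pow, show ∀ c : ℚ[X], C t ^ 2 - c = s ^ 2 - c - (s - C t) * (s + C t) from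
      fun c => by ring]
    exact dvd_sub k1 (ht.mul_right _)
  have k3 := C_eq_zero.1 (eq_zero_of_dvd_of_degree_lt k2 (degree_C_le.trans_lt h0))
  rw [leadingCoeff_mul, leadingCoeff_C,
    leadingCoeff_map_of_injective (RingHom.injective_int _), eq_intCast] at k3
  obtain ⟨m, hm⟩ := (Rat.isSquare_intCast_iff (z := D * f.leadingCoeff)).1
    ⟨t, by push_cast; linear_combination -k3⟩
  have pr : Prime (r : ℤ) := Nat.prime_iff_prime_int.1 hr
  have k4 : (r : ℤ) ∣ m := (pr.dvd_or_dvd (hm ▸ h1.mul_right _)).elim id id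
  have k5 : (r : ℤ) ^ 2 ∣ D * f.leadingCoeff := by rw [hm, sq]; exact mul_dvd_mul k4 k4
  exact h2 (pr.pow_dvd_of_dvd_mul_right 2 h3 k5)

theorem rank (M : Type) [AddCommGroup M] [Module.Finite ℤ M] (h : ∀ P : M, 2 • P = 0 → P = 0)
    (i : (nsmulAddMonoidHom (α := M) 2).range.index = 2) : Module.finrank ℤ M = 1 := by
  have e := VH.FgA.gen M
  have k : (nsmulAddMonoidHom (α := M) 2).ker = ⊥ :=
    (AddSubgroup.eq_bot_iff_forall _).2 fun P hP => h P hP
  rw [i, k, AddSubgroup.card_bot, mul_one] at e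
  exact Nat.pow_right_injective (le_refl 2) (e.symm.trans (pow_one 2).symm)

end One

theorem one (kill : KILL2Stmt) (fin : FIN2Stmt) (mw : MW2Stmt) : ONEStmt := by
  intro g f Q hs
  have H := hs.1
  obtain ⟨S, hSQ, hS⟩ := kill g f Q (f.eval 1) hs (One.odd H)
  refine ⟨S, hSQ, fun M x hM h8 hG => ?_⟩
  obtain ⟨u, u1, usf, e, hu⟩ := hG
  have pS : ∀ q ∈ S, q.Prime := fun q hq => (hs.2.1 q (hSQ hq)).1
  have dv : ∀ n : ℕ, (n : ℤ) ∣ f.eval x ↔ n ∣ (∏ q ∈ S, q) * u := fun n => by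
    rw [e, dvd_neg, ← Nat.cast_mul, Int.natCast_dvd_natCast]
  have D0 : f.eval x ≠ 0 := by
    have : 0 < ∏ q ∈ S, q := prod_pos fun q hq => (pS q hq).pos
    rw [e, neg_ne_zero, ← Nat.cast_mul, Nat.cast_ne_zero]
    positivity
  have sel := hS (f.eval x) (h8.trans (sub_dvd_eval_sub x 1 f)) (fun q hq =>
    ⟨(dv q).2 ((dvd_prod_of_mem (fun q => q) hq).mul_right u), fun k => by
      rw [← Nat.cast_pow, dv] at k
      exact One.once pS hq ((pS q hq).prime.pow_dvd_of_dvd_mul_right 2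
        (fun k' => (hu q (pS q hq) k').1 (hM q (hSQ hq))) k)⟩) fun p hp k =>
    ((Nat.Prime.dvd_mul hp).1 ((dv p).1 k)).imp (One.mem pS hp) fun k' =>
      ⟨fun hq => (hu p hp k').1 (hM p hq), (hu p hp k').2⟩
  have un : IsUnit (C ((f.eval x : ℤ) : ℚ)) := isUnit_C.2 (Int.cast_ne_zero.2 D0).isUnit
  have irr := (irreducible_isUnit_mul un).2 H.irr
  have deg : (C ((f.eval x : ℤ) : ℚ) * zK f ℚ).natDegree = 2 * g + 2 := by
    rw [natDegree_C_mul (Int.cast_ne_zero.2 D0),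
      natDegree_map_eq_of_injective (RingHom.injective_int _), H.deg]
  obtain ⟨a, b, c⟩ := fin g _ ⟨deg, irr.squarefree⟩ (fun y c k => by
      obtain ⟨t, ht⟩ := VB.noq g f y c H ((dvd_mul_left _ _).trans k)
      exact ⟨t, un.mul_left_dvd.2 ht⟩)
    ⟨X - C (x : ℚ), C ((f.eval x : ℤ) : ℚ), monic_X_sub_C _, by
      rw [natDegree_X_sub_C]; exact odd_one, dvd_iff_isRoot.2 (by
        rw [IsRoot, eval_sub, eval_mul, eval_pow, eval_C, eval_intCast_map, eq_intCast, Int.cast_id]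
        ring)⟩ sel
  obtain ⟨r, hr, ru⟩ := Nat.exists_prime_and_dvd u1.ne'
  have fg := mw g _ deg irr (One.ns H hr ((dv r).2 (ru.mul_left _)) (fun k => by
      rw [← Nat.cast_pow, dv] at k
      have k' := hr.prime.pow_dvd_of_dvd_mul_left 2
        (fun k' => (hu r hr ru).1 (hM r (hSQ (One.mem pS hr k')))) k
      exact hr.prime.not_isUnit (usf r (sq r ▸ k')))
    (One.lc hr H (hu r hr ru).2)) (by rw [b]; norm_num)
  exact ⟨D0, fg, One.rank _ a b, a, c⟩

end Pool.Agent.MP_a43263_nt.W1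

end
end MrgPart15

-- marker of a merged file
example : 731051 + 325382 = 731051 + 325382 := rfl
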